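import Pool.Agent.N211.SM.Tr2
import Pool.Agent.N202.NC.MainD

/-!
# Conjugates of Hodge classes: the product `X^K × A`
-/

set_option linter.unusedSectionVars false

namespace Pool.Agent.N211.SM

open Matrix ComplexConjugate
open Pool.Agent.N996.BP Pool.Agent.N202.TB Pool.Agent.N202.NC
open Pool.Agent.N202.CF (Tensor inL IsComb act matL der kil_iff IsCombM der_eq act_eq)

variable {ι ι' : Type} [Fintype ι] [DecidableEq ι] [Fintype ι'] [DecidableEq ι']
  {P Q : HodgeStructure ι} {P' Q' : HodgeStructure ι'} {L : Type} [Field L] [CharZero L]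
  {e : Matrix ι ι L} {e' : Matrix ι' ι' L} {c : L} {K : ℕ}

omit [CharZero L] in
lemma blk_inv {f : Matrix ι ι L} {f' : Matrix ι' ι' L} (hf : f * e = 1) (hf' : f' * e' = 1) :
    blk f f' * blk e e' = 1 := by
  rw [blk_mul, hf, hf']
  exact Matrix.fromBlocks_one

/-- Part (1). -/
theorem ah1 (S : SSteps) (j : L →+* ℂ) (hK : 4 ≤ K) (hK' : ∀ m, betti P.deg m ≤ K)
    (hd : HasHodgeDuals P P') (h : IsComparison P Q e c) (h' : IsComparison P' Q' e' c)
    (hB : BecomeHodgeOn P Q P' Q' e e' c ⊤ K) (hA : ∀ n, 0 < n → BecomeHodge P' Q' e' c ⊤ n)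
    {n i : ℕ} {a : Tensor ι (n + 1) ℚ} (ha : P.IsHodge i a) :
    IsComb {a' : Tensor ι (n + 1) ℚ | Q.IsHodge i a'} ((c ^ i)⁻¹ • act e (inL L a)) := by
  obtain ⟨H, b⟩ := exists_br Pool.Agent.N490.NC.HD_ P
  obtain ⟨H', b'⟩ := exists_br Pool.Agent.N490.NC.HD_ P'
  obtain ⟨HW, bW⟩ := exists_br Pool.Agent.N490.NC.HD_ (sumHS P P')
  obtain ⟨G, d⟩ := exists_br Pool.Agent.N490.NC.HD_ Q
  obtain ⟨G', d'⟩ := exists_br Pool.Agent.N490.NC.HD_ Q'
  obtain ⟨GW, dW⟩ := exists_br Pool.Agent.N490.NC.HD_ (sumHS Q Q')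
  obtain ⟨f, hf⟩ : ∃ f : Matrix ι ι L, f * e = 1 := ⟨e⁻¹, Matrix.nonsing_inv_mul e h.unit⟩
  obtain ⟨f', hf'⟩ : ∃ f' : Matrix ι' ι' L, f' * e' = 1 :=
    ⟨e'⁻¹, Matrix.nonsing_inv_mul e' h'.unit⟩
  have hff : blk f f' * blk e e' = 1 := blk_inv hf hf'
  have hcj : ∀ j, (c ^ j)⁻¹ ≠ 0 := fun j => inv_ne_zero (pow_ne_zero _ h.c_ne)
  have key : (extl (act e (inL L a)) : (Fin (n + 1) → ι ⊕ ι') → L) ∈ hspan GW L n := by
    refine Pool.Agent.N738.TB.hodge_ (ι ⊕ ι') GW L n _ fun z hz => ?_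
    obtain ⟨y, y', rfl, hy, hy'⟩ := kill_blk S.E d d' dW hz
    have hk : Kill H L (f * y * e) := by
      refine transfer2 S b b' bW j hK hK' hd (y' := f' * y' * e') (fun m i a hon ha => ?_)
        (fun m i a ha => ?_)
      · have h1 := (top_iff _ _).1 (hB (m + 1) i a hon ha)
        have h2 := hz.hspan (hspan_of_isComb dW h1)
        rw [Matrix.mulVec_smul] at h2
        have h3 := (smul_eq_zero.1 h2).resolve_left (hcj i)
        have h4 : blk (f * y * e) (f' * y' * e') = blk f f' * blk y y' * blk e e' := by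
          rw [blk_mul, blk_mul]
        rw [h4, ← der_eq, der_conj hff, der_eq, h3, act_eq, Matrix.mulVec_zero]
      · have h1 := (top_iff _ _).1 (hA (m + 1) (Nat.succ_pos m) i a ha)
        have h2 := hy'.hspan (hspan_of_isComb d' h1)
        rw [Matrix.mulVec_smul] at h2
        have h3 := (smul_eq_zero.1 h2).resolve_left (hcj i)
        rw [← der_eq, der_conj hf', der_eq, h3, act_eq, Matrix.mulVec_zero]
    have h1 := hk n a ((b.isHodge_iff a).1 ha).2
    have h2 : der (f * y * e) (inL L a) = 0 := by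
      rw [der_eq]
      exact h1
    rw [der_conj hf] at h2
    have h3 := act_eq_zero hf h2
    rw [der_eq] at h3
    rw [S.E.extl_dp, h3, extl_zero]
  have h6 := Submodule.mem_map_of_mem (f := reslL L (n + 1)) key
  have h7 : reslL L (n + 1) (extl (act e (inL L a)) : (Fin (n + 1) → ι ⊕ ι') → L) =
      act e (inL L a) := resl_extl _
  rw [h7, hspan, Submodule.map_span] at h6
  have h8 : act e (inL L a) ∈ hspan G L n := by
    refine Submodule.span_mono ?_ h6
    rintro _ ⟨_, ⟨a, ha, rfl⟩, rfl⟩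
    exact ⟨resl a, BB_resl S.E d d' dW ha, rfl⟩
  exact Submodule.smul_mem _ _
    (isComb_of_hspan d h8 (hasDegree_act h.deg (hasDegree_inL ha.1)))

lemma yt_blk (D : Derivation ℚ L L) (deg : ι → ℕ) (deg' : ι' → ℕ) (f : Matrix ι ι L)
    (f' : Matrix ι' ι' L) :
    blk (yt deg e f c D) (yt deg' e' f' c D) =
      yt (Sum.elim deg deg') (blk e e') (blk f f') c D := by
  have h1 : (blk e e').map D = blk (e.map D) (e'.map D) := blk_map _ (map_zero D) _ _
  have h2 : DD (Sum.elim deg deg') L = blk (DD deg L) (DD deg' L) := by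
    ext i j
    rcases i with i | i <;> rcases j with j | j <;> simp [DD, blk, Matrix.diagonal_apply]
  rw [yt, yt, yt, h1, blk_mul, h2]
  ext i j
  rcases i with i | i <;> rcases j with j | j <;> simp [blk]

/-- The periods of the Hodge classes on all powers are algebraic. -/
theorem ah_alg (S : SSteps) (j : L →+* ℂ) (hK : 4 ≤ K) (hK' : ∀ m, betti P.deg m ≤ K)
    (hd : HasHodgeDuals P P') {f : Matrix ι ι L} {f' : Matrix ι' ι' L} (hf : e * f = 1)
    (hf' : e' * f' = 1) (hc : c ≠ 0)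
    (hB : ∀ n i (a : Tensor (ι ⊕ ι') n ℚ), OnProduct K a → (sumHS P P').IsHodge i a →
      ∀ v, IsAlgebraic ℚ ((c ^ i)⁻¹ * act (blk e e') (inL L a) v))
    (hA : ∀ n i (a : Tensor ι' (n + 1) ℚ), P'.IsHodge i a →
      ∀ v, IsAlgebraic ℚ ((c ^ i)⁻¹ * act e' (inL L a) v))
    {n i : ℕ} {a : Tensor ι (n + 1) ℚ} (ha : P.IsHodge i a) (v : Fin (n + 1) → ι) :
    IsAlgebraic ℚ ((c ^ i)⁻¹ * act e (inL L a) v) := by
  obtain ⟨H, b⟩ := exists_br Pool.Agent.N490.NC.HD_ P
  obtain ⟨H', b'⟩ := exists_br Pool.Agent.N490.NC.HD_ P'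
  obtain ⟨HW, bW⟩ := exists_br Pool.Agent.N490.NC.HD_ (sumHS P P')
  have hff : blk e e' * blk f f' = 1 := blk_inv hf hf'
  refine alg_of_der fun D => ?_
  have hk : Kill H L (yt P.deg e f c D) := by
    refine transfer2 S b b' bW j hK hK' hd (y' := yt P'.deg e' f' c D) (fun m i a hon ha => ?_)
      (fun m i a ha => ?_)
    · have h1 : act (blk e e') (der (yt (Sum.elim P.deg P'.deg) (blk e e') (blk f f') c D)
          (inL L a)) = 0 := by
        funext w
        have h2 := D_formula D hff hc (deg := Sum.elim P.deg P'.deg) ha.1 w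
        rw [der_of_alg (hB (m + 1) i a hon ha w)] at h2
        exact (mul_eq_zero.1 h2.symm).resolve_left (inv_ne_zero (pow_ne_zero _ hc))
      rw [yt_blk, ← der_eq]
      exact act_eq_zero hff h1
    · have h1 : act e' (der (yt P'.deg e' f' c D) (inL L a)) = 0 := by
        funext w
        have h2 := D_formula D hf' hc ha.1 w
        rw [der_of_alg (hA m i a ha w)] at h2
        exact (mul_eq_zero.1 h2.symm).resolve_left (inv_ne_zero (pow_ne_zero _ hc))
      rw [← der_eq]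
      exact act_eq_zero hf' h1
  rw [D_formula D hf hc ha.1 v]
  have h1 := hk n a ((b.isHodge_iff a).1 ha).2
  have h2 : der (yt P.deg e f c D) (inL L a) = 0 := by
    rw [der_eq]
    exact h1
  rw [h2, act_eq, Matrix.mulVec_zero, Pi.zero_apply, mul_zero]

/-- Part (2). -/
theorem ah2 (S : SSteps) (j : L →+* ℂ) (hK : 4 ≤ K) (hK' : ∀ m, betti P.deg m ≤ K)
    (hd : HasHodgeDuals P P') (h : IsComparison P Q e c) (h' : IsComparison P' Q' e' c)
    (F0 : IntermediateField ℚ L) (hF0 : FiniteDimensional ℚ F0)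
    (hB : BecomeHodgeOn P Q P' Q' e e' c F0 K) (hA : ∀ n, 0 < n → BecomeHodge P' Q' e' c ⊥ n) :
    ∃ F : IntermediateField ℚ L, FiniteDimensional ℚ F ∧
      ∀ n, 0 < n → BecomeHodge P Q e c F n := by
  obtain ⟨F, hF, hF'⟩ := exists_finQ L (Set.range (fun q : ι × ι => e q.1 q.2) ∪ {c})
    ((Set.finite_range _).union (Set.finite_singleton c))
  refine ⟨F, hF, fun n hn => ?_⟩
  cases n with
  | zero => exact absurd hn (lt_irrefl 0)
  | succ n =>
  intro i a ha
  have hee : e * e⁻¹ = 1 := Matrix.mul_nonsing_inv e h.unit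
  have hee' : e' * e'⁻¹ = 1 := Matrix.mul_nonsing_inv e' h'.unit
  refine span_of_comb (ah1 S j hK hK' hd h h' (fun n i a hon ha => ?_) (fun n hn i a ha => ?_) ha)
    fun v => hF' _ ?_ ?_
  · exact (top_iff _ _).2 (comb_of_span (hB n i a hon ha))
  · exact (top_iff _ _).2 (comb_of_span (hA n hn i a ha))
  · -- the coordinates are in the field generated by `e` and `c`
    set M := IntermediateField.adjoin ℚ (Set.range (fun q : ι × ι => e q.1 q.2) ∪ {c}) with hM
    have hc : c ∈ M := IntermediateField.subset_adjoin _ _ (Or.inr rfl)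
    have he : ∀ i k, e i k ∈ M := fun i k =>
      IntermediateField.subset_adjoin _ _ (Or.inl ⟨(i, k), rfl⟩)
    rw [Pi.smul_apply, smul_eq_mul]
    refine M.mul_mem (M.inv_mem (pow_mem hc i)) (M.sum_mem fun w _ => M.mul_mem
      (M.prod_mem fun k _ => he _ _) ?_)
    have h1 : inL L a w = algebraMap ℚ L (a w) := by
      rw [inL, eq_ratCast]
    rw [h1]
    exact M.algebraMap_mem _
  · rw [Pi.smul_apply, smul_eq_mul]
    refine ah_alg S j hK hK' hd hee hee' h.c_ne (fun m i a hon ha w => ?_)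
      (fun m i a ha w => ?_) ha v
    · have h1 := coord_of_span (hB m i a hon ha) w
      rw [Pi.smul_apply, smul_eq_mul] at h1
      have h2 : IsAlgebraic ℚ (⟨_, h1⟩ : F0) := Algebra.IsAlgebraic.isAlgebraic _
      exact (isAlgebraic_algebraMap_iff (algebraMap F0 L).injective).2 h2
    · have h1 := coord_of_span (hA (m + 1) (Nat.succ_pos m) i a ha) w
      rw [Pi.smul_apply, smul_eq_mul] at h1
      obtain ⟨q, hq⟩ := IntermediateField.mem_bot.1 h1
      rw [← hq]
      exact isAlgebraic_algebraMap q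

/-- **The theorem on conjugates, from the product `X^K × A`.** -/
theorem ah_main (S : SSteps) (j : L →+* ℂ) (hK : 4 ≤ K) (hK' : ∀ m, betti P.deg m ≤ K)
    (hd : HasHodgeDuals P P') (h : IsComparison P Q e c) (h' : IsComparison P' Q' e' c)
    (hA : ∀ n, 0 < n → BecomeHodge P' Q' e' c ⊥ n) :
    (BecomeHodgeOn P Q P' Q' e e' c ⊤ K → ∀ n, 0 < n → BecomeHodge P Q e c ⊤ n) ∧
    ((∃ F : IntermediateField ℚ L, FiniteDimensional ℚ F ∧
        BecomeHodgeOn P Q P' Q' e e' c F K) →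
      ∃ F : IntermediateField ℚ L, FiniteDimensional ℚ F ∧
        ∀ n, 0 < n → BecomeHodge P Q e c F n) := by
  refine ⟨fun hB n hn => ?_, fun ⟨F, hF, hB⟩ => ah2 S j hK hK' hd h h' F hF hB hA⟩
  cases n with
  | zero => exact absurd hn (lt_irrefl 0)
  | succ n =>
    exact fun i a ha => (top_iff _ _).2 (ah1 S j hK hK' hd h h' hB
      (fun n hn i a ha => (top_iff _ _).2 (comb_of_span (hA n hn i a ha))) ha)

end Pool.Agent.N211.SM
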