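import Pool.Agent.N211.SM.Defs3
import Pool.Agent.N202.NC.CmpDefs

/-!
# Conjugates of the Hodge classes on the products `X^K × A`: definitions
-/

set_option linter.unusedSectionVars false

namespace Pool.Agent.N211.SM

open Matrix
open Pool.Agent.N202.CF (Tensor inL IsComb act matL)
open Pool.Agent.N202.NC

variable {ι ι' : Type} [Fintype ι] [DecidableEq ι] [Fintype ι'] [DecidableEq ι']

/-- The tensor is a class on `X^d × A`: the first `d` indices are in `ι`, the last one is in
`ι'`. -/
def OnXA {d : ℕ} (a : Tensor (ι ⊕ ι') (d + 1) ℚ) : Prop :=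
  ∀ w, a w ≠ 0 → (∀ k : Fin d, (w k.castSucc).isLeft = true) ∧ (w (Fin.last d)).isRight = true

/-- Duals of determinants: for every nonzero idempotent in the centre of the algebra of the
endomorphisms of the Hodge structure `H(X)` with complex coefficients, with image in `H^m(X, ℂ)`,
there is a class `y` on `A` such that the product of the determinant of the image with `y` is a
combination of Hodge classes on `X^d × A`. -/
def HasHodgeDuals (P : HodgeStructure ι) (P' : HodgeStructure ι') : Prop :=
  ∀ (m d : ℕ) (π : Matrix ι ι ℂ) (v : Tensor ι d ℂ), IsCentralIdem P m π → IsDet π v →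
    ∃ (c e : ℕ) (y : ι' → ℂ), y ≠ 0 ∧ (∀ i, y i ≠ 0 → P'.deg i = e) ∧
      IsComb {a : Tensor (ι ⊕ ι') (d + 1) ℚ | (sumHS P P').IsHodge c a ∧ OnXA a} (tens v y)

/-- The Hodge classes on the products `X^r × A^s` with `r ≤ K` and `s ≤ 1` become linear
combinations of Hodge classes on `X_σ^r × A_σ^s` with coefficients in the subfield `F` of `L` (the
matrices `e` and `e'` are the comparisons for `X` and for `A`, and `c` is the factor for the Tate
twist). -/
def BecomeHodgeOn (P Q : HodgeStructure ι) (P' Q' : HodgeStructure ι') {L : Type} [Field L]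
    [CharZero L] (e : Matrix ι ι L) (e' : Matrix ι' ι' L) (c : L) (F : IntermediateField ℚ L)
    (K : ℕ) : Prop :=
  ∀ n j (a : Tensor (ι ⊕ ι') n ℚ), OnProduct K a → (sumHS P P').IsHodge j a →
    (c ^ j)⁻¹ • act (blk e e') (inL L a) ∈
      Submodule.span F (inL L '' {a' : Tensor (ι ⊕ ι') n ℚ | (sumHS Q Q').IsHodge j a'})

end Pool.Agent.N211.SM
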