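import Pool.Agent.N211.SM.Fin
import Pool.Agent.N211.SM.AH1

/-!
# Conjugates of Hodge classes: the final statement
-/

namespace Pool.Agent.N211.SM

open Pool.Agent.N202.NC

/-- The theorem on conjugates. -/
theorem product_conjugates {ι ι' : Type} [Fintype ι] [DecidableEq ι] [Fintype ι'] [DecidableEq ι']
    (P Q : HodgeStructure ι) (P' Q' : HodgeStructure ι') (L : Type) [Field L] [CharZero L]
    (j : L →+* ℂ) (e : Matrix ι ι L) (e' : Matrix ι' ι' L) (c : L) (K : ℕ) (hK : 4 ≤ K)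
    (hK' : ∀ m, betti P.deg m ≤ K) (hd : HasHodgeDuals P P') (h : IsComparison P Q e c)
    (h' : IsComparison P' Q' e' c) (hA : ∀ n, 0 < n → BecomeHodge P' Q' e' c ⊥ n) :
    (BecomeHodgeOn P Q P' Q' e e' c ⊤ K → ∀ n, 0 < n → BecomeHodge P Q e c ⊤ n) ∧
    ((∃ F : IntermediateField ℚ L, FiniteDimensional ℚ F ∧
        BecomeHodgeOn P Q P' Q' e e' c F K) →
      ∃ F : IntermediateField ℚ L, FiniteDimensional ℚ F ∧
        ∀ n, 0 < n → BecomeHodge P Q e c F n) :=
  ah_main ssteps j hK hK' hd h h' hA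

end Pool.Agent.N211.SM
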