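import Pool.Agent.N211.SM.Stm

/-!
# SM/AVG (helper56): averaging over a subgroup of finite index
-/

set_option autoImplicit false

namespace Pool.Agent.N211.SM

namespace AVG

open Finset

theorem avg (K : Type) [Field K] [CharZero K] (Γ : Type) [Group Γ] (M : Type)
    [AddCommGroup M] [Module K M] (T : Γ →* Module.End K M) (Δ Δ' : Subgroup Γ)
    (hΔ' : Δ'.FiniteIndex) (S S' : Submodule K M) (hS : ∀ s ∈ Δ, ∀ x ∈ S, T s x ∈ S)
    (hS' : ∀ s ∈ Δ', ∀ x ∈ S', T s x ∈ S') (hc : IsCompl S S') :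
    ∃ S'' : Submodule K M, (∀ s ∈ Δ, ∀ x ∈ S'', T s x ∈ S'') ∧ IsCompl S S'' := by
  classical
  obtain ⟨p, hp1, hp2, hp3⟩ : ∃ p : Module.End K M, (∀ x, p x ∈ S) ∧ (∀ x ∈ S, p x = x) ∧
      ∀ x ∈ S', p x = 0 := by
    refine ⟨S.subtype ∘ₗ Submodule.projectionOnto S S' hc, fun x => ?_, fun x hx => ?_,
      fun x hx => ?_⟩
    · exact Subtype.mem _
    · have := Submodule.projectionOnto_apply_left hc ⟨x, hx⟩
      rw [LinearMap.comp_apply]
      exact congrArg Subtype.val this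
    · have := Submodule.projectionOnto_apply_right hc ⟨x, hx⟩
      rw [LinearMap.comp_apply]
      exact congrArg Subtype.val this
  have hT1 : ∀ (g : Γ) (x : M), T g (T g⁻¹ x) = x := fun g x => by
    rw [← Module.End.mul_apply, ← map_mul, mul_inv_cancel, map_one, Module.End.one_apply]
  have hT2 : ∀ (g : Γ) (x : M), T g⁻¹ (T g x) = x := fun g x => by
    rw [← Module.End.mul_apply, ← map_mul, inv_mul_cancel, map_one, Module.End.one_apply]
  have hT3 : ∀ (g h : Γ) (x : M), T (g * h) x = T g (T h x) := fun g h x => by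
    rw [map_mul, Module.End.mul_apply]
  have hpT : ∀ s ∈ Δ, s ∈ Δ' → ∀ x, p (T s x) = T s (p x) := by
    intro s h1 h2 x
    have hx : x ∈ S ⊔ S' := by rw [hc.sup_eq_top]; exact Submodule.mem_top
    obtain ⟨a, ha, b, hb, rfl⟩ := Submodule.mem_sup.1 hx
    rw [map_add, map_add, map_add, hp2 _ (hS s h1 a ha), hp3 _ (hS' s h2 b hb), hp2 a ha,
      hp3 b hb, add_zero, add_zero]
  set D : Subgroup Δ := Δ'.subgroupOf Δ with hD
  have : Δ'.FiniteIndex := hΔ'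
  have : D.FiniteIndex := inferInstance
  have : Finite (Δ ⧸ D) := inferInstance
  haveI : Fintype (Δ ⧸ D) := Fintype.ofFinite _
  obtain ⟨F, hF⟩ : ∃ F : Δ → Module.End K M, F = fun g : Δ => T (g : Γ) * p * T (g : Γ)⁻¹ := ⟨_, rfl⟩
  have hFa : ∀ g x, F g x = T g (p (T (g : Γ)⁻¹ x)) := fun g x => by
    rw [hF]
    rfl
  have hFD : ∀ (g : Δ) (h : D), F (g * h) = F g := by
    intro g h
    refine LinearMap.ext fun x => ?_
    have h2 : ((h : Δ) : Γ) ∈ Δ' := Subgroup.mem_subgroupOf.1 h.2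
    rw [hFa, hFa, Subgroup.coe_mul, mul_inv_rev, hT3, hT3, ← hpT _ (h : Δ).2 h2, hT1]
  obtain ⟨Φ, hΦ⟩ : ∃ Φ : Δ ⧸ D → Module.End K M, ∀ g : Δ, Φ (g : Δ ⧸ D) = F g := by
    refine ⟨fun q => F q.out, fun g => ?_⟩
    obtain ⟨h, hh⟩ := QuotientGroup.mk_out_eq_mul D g
    show F (Quotient.out (g : Δ ⧸ D)) = F g
    rw [hh, hFD]
  obtain ⟨N, hN⟩ : ∃ N : Module.End K M, N = ∑ q, Φ q := ⟨_, rfl⟩
  have hNa : ∀ x, N x = ∑ q, Φ q x := fun x => by
    rw [hN, LinearMap.sum_apply]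
  have hN1 : ∀ x, N x ∈ S := by
    intro x
    rw [hNa]
    refine Submodule.sum_mem _ fun q _ => ?_
    obtain ⟨g, rfl⟩ := QuotientGroup.mk_surjective q
    rw [hΦ, hFa]
    exact hS _ g.2 _ (hp1 _)
  have hN2 : ∀ x ∈ S, N x = (Fintype.card (Δ ⧸ D) : K) • x := by
    intro x hx
    rw [hNa]
    have : ∀ q, Φ q x = x := by
      intro q
      obtain ⟨g, rfl⟩ := QuotientGroup.mk_surjective q
      rw [hΦ, hFa, hp2 _ (hS _ (Δ.inv_mem g.2) x hx), hT1]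
    rw [Finset.sum_congr rfl fun q _ => this q, Finset.sum_const, Finset.card_univ,
      Nat.cast_smul_eq_nsmul]
  have hN3 : ∀ s ∈ Δ, ∀ x, N (T s x) = T s (N x) := by
    intro s hs x
    have h1 : ∀ q : Δ ⧸ D, Φ ((⟨s, hs⟩ : Δ) • q) (T s x) = T s (Φ q x) := by
      intro q
      obtain ⟨g, rfl⟩ := QuotientGroup.mk_surjective q
      have h2 : ((⟨s, hs⟩ : Δ) • (g : Δ ⧸ D)) = (((⟨s, hs⟩ : Δ) * g : Δ) : Δ ⧸ D) := rfl
      rw [h2, hΦ, hΦ, hFa, hFa, Subgroup.coe_mul, mul_inv_rev, hT3, hT3, hT2]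
    rw [hNa, hNa, map_sum, ← Equiv.sum_comp (MulAction.toPerm (⟨s, hs⟩ : Δ)) fun q => Φ q (T s x)]
    exact Finset.sum_congr rfl fun q _ => h1 q
  have hcard : (Fintype.card (Δ ⧸ D) : K) ≠ 0 := by
    rw [Nat.cast_ne_zero]
    exact Fintype.card_ne_zero
  refine ⟨LinearMap.ker N, fun s hs x hx => ?_, ?_⟩
  · rw [LinearMap.mem_ker] at hx ⊢
    rw [hN3 s hs, hx, map_zero]
  · constructor
    · rw [Submodule.disjoint_def]
      intro x hx1 hx2
      rw [LinearMap.mem_ker, hN2 x hx1] at hx2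
      exact (smul_eq_zero.1 hx2).resolve_left hcard
    · rw [codisjoint_iff, eq_top_iff]
      intro x _
      rw [Submodule.mem_sup]
      refine ⟨(Fintype.card (Δ ⧸ D) : K)⁻¹ • N x, S.smul_mem _ (hN1 x),
        x - (Fintype.card (Δ ⧸ D) : K)⁻¹ • N x, ?_, by abel⟩
      rw [LinearMap.mem_ker, map_sub, map_smul, hN2 _ (hN1 x), smul_smul, inv_mul_cancel₀ hcard,
        one_smul, sub_self]

end AVG

theorem t_AVG : S_AVG := fun K _ _ Γ _ M _ _ T Δ Δ' hΔ' S S' hS hS' hc =>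
  AVG.avg K Γ M T Δ Δ' hΔ' S S' hS hS' hc

end Pool.Agent.N211.SM
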