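import Pool.Agent.N211.SM.Stm

/-!
# SM/BC: solutions of a linear system after an extension of the field
-/

namespace Pool.Agent.N211.SM.BC

theorem bc (K L : Type) [Field K] [Field L] (j : K →+* L) (n : Type) [Fintype n]
    (A : Set (n → K)) (x : n → L) (hx : ∀ a ∈ A, ∑ i, j (a i) * x i = 0) :
    x ∈ Submodule.span L {z | ∃ y : n → K, (∀ a ∈ A, ∑ i, a i * y i = 0) ∧
      z = fun i => j (y i)} := by
  classical
  letI : Algebra K L := j.toAlgebra
  let e := Module.Basis.ofVectorSpace K L
  have hj : ∀ (c : K) (z : L), c • z = j c * z := fun c z => Algebra.smul_def c z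
  have hsol : ∀ k, ∀ a ∈ A, ∑ i, a i * e.repr (x i) k = 0 := by
    intro k a ha
    have h1 : ∑ i, a i • x i = 0 := by
      rw [← hx a ha]
      exact Finset.sum_congr rfl fun i _ => hj _ _
    have h2 : e.repr (∑ i, a i • x i) k = 0 := by
      rw [h1]; simp
    rw [map_sum, Finsupp.finsetSum_apply] at h2
    rw [← h2]
    refine Finset.sum_congr rfl fun i _ => ?_
    rw [map_smul, Finsupp.smul_apply, smul_eq_mul]
  let s := Finset.univ.biUnion fun i : n => (e.repr (x i)).support
  have hsum : x = ∑ k ∈ s, e k • (fun i => j (e.repr (x i) k)) := by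
    funext i
    rw [Finset.sum_apply]
    have h3 := e.linearCombination_repr (x i)
    rw [Finsupp.linearCombination_apply, Finsupp.sum] at h3
    rw [← h3]
    have h4 : (e.repr (x i)).support ⊆ s := by
      intro k hk
      exact Finset.mem_biUnion.2 ⟨i, Finset.mem_univ i, hk⟩
    rw [h3]
    rw [Finset.sum_subset h4 (fun k _ hk => by
      rw [Finsupp.notMem_support_iff.1 hk, zero_smul])] at h3
    conv_lhs => rw [← h3]
    refine Finset.sum_congr rfl fun k _ => ?_
    rw [hj, Pi.smul_apply, smul_eq_mul, mul_comm]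
  rw [hsum]
  refine Submodule.sum_mem _ fun k _ => Submodule.smul_mem _ _ (Submodule.subset_span ?_)
  exact ⟨fun i => e.repr (x i) k, hsol k, rfl⟩

end Pool.Agent.N211.SM.BC

namespace Pool.Agent.N211.SM

/-- SM/BC. -/
theorem t_BC : S_BC := fun K L _ _ j n _ A x hx => BC.bc K L j n A x hx

end Pool.Agent.N211.SM
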