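import Pool.Agent.N211.SM.Stm2
import Mathlib.Algebra.Lie.CartanCriterion

/-!
# Cartan's criterion for matrices
-/

set_option linter.unusedSectionVars false

namespace Pool.Agent.N211.SM

namespace Car

open Matrix

attribute [local instance 100] LieRing.ofAssociativeRing

variable {K : Type} [Field K] [CharZero K] {ι : Type} [Fintype ι] [DecidableEq ι]

/-- The Lie algebra of endomorphisms. -/
noncomputable def LL (r : Submodule K (Matrix ι ι K))
    (hr : ∀ x ∈ r, ∀ y ∈ r, x * y - y * x ∈ r) : LieSubalgebra K (Module.End K (ι → K)) where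
  __ := r.map (Matrix.toLin' : Matrix ι ι K ≃ₗ[K] _).toLinearMap
  lie_mem' := by
    rintro _ _ ⟨x, hx, rfl⟩ ⟨y, hy, rfl⟩
    refine ⟨x * y - y * x, hr x hx y hy, ?_⟩
    rw [LinearEquiv.coe_coe, map_sub, Matrix.toLin'_mul, Matrix.toLin'_mul]
    rfl

theorem car (r : Submodule K (Matrix ι ι K))
    (hr : ∀ x ∈ r, ∀ y ∈ r, x * y - y * x ∈ r) (ht : ∀ x ∈ r, ∀ y ∈ r, (x * y).trace = 0)
    {z : Matrix ι ι K} (hz : z ∈ brs r r) : IsNilpotent z := by
  have h1 : LieModule.traceForm K (LL r hr) (ι → K) = 0 := by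
    ext ⟨_, x, hx, rfl⟩ ⟨_, y, hy, rfl⟩
    rw [LieModule.traceForm_apply_apply]
    have h2 : (LieModule.toEnd K (LL r hr) (ι → K)) ⟨_, x, hx, rfl⟩ ∘ₗ
        (LieModule.toEnd K (LL r hr) (ι → K)) ⟨_, y, hy, rfl⟩ = Matrix.toLin' (x * y) := by
      rw [Matrix.toLin'_mul]
      rfl
    rw [h2, Matrix.trace_toLin'_eq, ht x hx y hy]
    rfl
  have h2 := LieModule.isNilpotent_derivedSeries_of_traceForm_eq_zero h1
  rw [LieModule.isNilpotent_iff_forall' (R := K)] at h2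
  have h3 : ∀ z ∈ brs r r, ∃ w : LL r hr, w ∈ LieAlgebra.derivedSeries K (LL r hr) 1 ∧
      (w : Module.End K (ι → K)) = Matrix.toLin' z := by
    intro z hz
    unfold brs at hz
    induction hz using Submodule.span_induction with
    | mem z hz =>
      obtain ⟨x, hx, y, hy, rfl⟩ := hz
      refine ⟨⁅(⟨_, x, hx, rfl⟩ : LL r hr), (⟨_, y, hy, rfl⟩ : LL r hr)⁆, ?_, ?_⟩
      · exact LieSubmodule.lie_mem_lie (LieSubmodule.mem_top _) (LieSubmodule.mem_top _)
      · rw [map_sub, Matrix.toLin'_mul, Matrix.toLin'_mul]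
        rfl
    | zero => exact ⟨0, Submodule.zero_mem _, by rw [map_zero]; rfl⟩
    | add a b _ _ ha hb =>
      obtain ⟨w, hw, h⟩ := ha
      obtain ⟨w', hw', h'⟩ := hb
      refine ⟨w + w', Submodule.add_mem _ hw hw', ?_⟩
      rw [map_add, ← h, ← h']
      rfl
    | smul c a _ ha =>
      obtain ⟨w, hw, h⟩ := ha
      refine ⟨c • w, Submodule.smul_mem _ _ hw, ?_⟩
      rw [map_smul, ← h]
      rfl
  obtain ⟨w, hw, h⟩ := h3 z hz
  have h4 := h2 ⟨w, hw⟩
  have h5 : LieModule.toEnd K (LieAlgebra.derivedSeries K (LL r hr) 1) (ι → K) ⟨w, hw⟩ =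
      Matrix.toLin' z := h
  rw [h5] at h4
  obtain ⟨n, hn⟩ := h4
  refine ⟨n, ?_⟩
  apply Matrix.toLin'.injective
  rw [map_zero, Matrix.toLin'_pow, hn]

end Car

theorem t_CAR : S_CAR := fun _ _ _ _ _ _ r hr ht _ hz => Car.car r hr ht hz

end Pool.Agent.N211.SM
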