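import Pool.Agent.N211.SM.Stm

/-!
# SM/COMM (helper56): Galois elements and Hodge endomorphisms
-/

set_option autoImplicit false

namespace Pool.Agent.N211.SM

open Matrix ComplexConjugate
open Pool.Agent.N996.BP Pool.Agent.N202.TB Pool.Agent.N202.NC
open Pool.Agent.N202.CF (Tensor inL IsComb act matL)

namespace COMM

variable {ι : Type} [Fintype ι] [DecidableEq ι]

/-- The projection on the indices of degree `d`. -/
def ed (deg : ι → ℕ) (d : ℕ) : Matrix ι ι ℚ :=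
  Matrix.diagonal fun k => if deg k = d then (1 : ℚ) else 0

lemma ed_En (H : HData ι) (deg : ι → ℕ)
    (hl : ∀ t : ℂ, t ≠ 0 → ∀ i j, H.l t i j ≠ 0 → deg i = deg j) (d : ℕ) :
    En H deg (ed deg d) := by
  constructor
  · intro a b hab
    unfold ed
    rw [Matrix.diagonal_apply_ne]
    rintro rfl
    exact hab rfl
  · intro t ht
    ext a b
    have h2 : cQ (ed deg d) = Matrix.diagonal fun k => if deg k = d then (1 : ℂ) else 0 := by
      ext a b
      simp only [ed, cQ, Matrix.map_apply, Matrix.diagonal_apply]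
      split_ifs <;> simp
    rw [h2, Matrix.mul_diagonal, Matrix.diagonal_mul]
    by_cases h3 : H.l t a b = 0
    · rw [h3, zero_mul, mul_zero]
    · rw [hl t ht a b h3, mul_comm]

lemma comm_mul (H : HData ι) {x y : Matrix ι ι ℚ}
    (hx : ∀ t : ℂ, t ≠ 0 → H.l t * cQ x = cQ x * H.l t)
    (hy : ∀ t : ℂ, t ≠ 0 → H.l t * cQ y = cQ y * H.l t) :
    ∀ t : ℂ, t ≠ 0 → H.l t * cQ (x * y) = cQ (x * y) * H.l t := by
  intro t ht
  rw [cQ_mul, ← Matrix.mul_assoc, hx t ht, Matrix.mul_assoc, hy t ht, Matrix.mul_assoc]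

lemma sum_ed (deg : ι → ℕ) : ∑ d ∈ Finset.univ.image deg, ed deg d = 1 := by
  ext a b
  rw [Matrix.sum_apply]
  by_cases hab : a = b
  · subst hab
    simp only [ed, Matrix.diagonal_apply_eq, Matrix.one_apply_eq]
    rw [Finset.sum_ite_eq, if_pos (Finset.mem_image_of_mem deg (Finset.mem_univ a))]
  · simp only [ed, Matrix.diagonal_apply_ne _ hab, Matrix.one_apply_ne hab]
    exact Finset.sum_const_zero

lemma entry (deg : ι → ℕ) (d : ℕ) (x B : Matrix ι ι ℚ) (hx : ∀ i j, deg i ≠ deg j → x i j = 0)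
    (hB : ∀ i j, B i j ≠ 0 → deg i = deg j) (a b : ι) (h : (x * ed deg d * B) a b ≠ 0) :
    deg a = d ∧ deg b = d := by
  rw [Matrix.mul_apply] at h
  obtain ⟨k, -, hk⟩ := Finset.exists_ne_zero_of_sum_ne_zero h
  have h1 : (x * ed deg d) a k ≠ 0 := left_ne_zero_of_mul hk
  have h2 : B k b ≠ 0 := right_ne_zero_of_mul hk
  rw [ed, Matrix.mul_diagonal] at h1
  have h3 : x a k ≠ 0 := left_ne_zero_of_mul h1
  have h4 : deg k = d := by
    by_contra h5
    rw [if_neg h5, mul_zero] at h1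
    exact h1 rfl
  have h5 : deg a = deg k := by
    by_contra h6
    exact h3 (hx a k h6)
  exact ⟨h5.trans h4, (hB k b h2).symm.trans h4⟩

end COMM

open COMM

theorem t_COMM : S_COMM := by
  intro ℓ _ Γ _ ι _ _ deg H ρ χ hG hl hQ hQr hT
  have main : ∀ x, En H deg x → ∃ Δ : Subgroup Γ, Δ.FiniteIndex ∧ ∀ s ∈ Δ,
      ρ s * mL ℚ_[ℓ] (x * H.Qir) * (ρ s)ᵀ =
        mL ℚ_[ℓ] x * (mL ℚ_[ℓ] H.Qir * Matrix.diagonal fun i => χ s ^ deg i) := by
    intro x hx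
    have h1 : ∀ d, ∃ Δ : Subgroup Γ, Δ.FiniteIndex ∧ ∀ s ∈ Δ,
        ρ s * mL ℚ_[ℓ] (x * ed deg d * H.Qir) * (ρ s)ᵀ =
          χ s ^ d • mL ℚ_[ℓ] (x * ed deg d * H.Qir) := by
      intro d
      have h2 := two_BB H (comm_mul H hx.2 (ed_En H deg hl d).2)
      obtain ⟨-, Δ, hΔ, h3⟩ := hT d _ h2 (by
        intro w hw
        obtain ⟨h4, h5⟩ := entry deg d x H.Qir (fun i j => hx.1 i j) hQ _ _ hw
        rw [Fin.sum_univ_two, h4, h5, two_mul])
      refine ⟨Δ, hΔ, fun s hs => ?_⟩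
      have h4 := h3 s hs
      have h5 : aL ℚ_[ℓ] (fun w : Fin (1 + 1) → ι => (x * ed deg d * H.Qir) (w 0) (w 1)) =
          fun w : Fin 2 → ι => mL ℚ_[ℓ] (x * ed deg d * H.Qir) (w 0) (w 1) := rfl
      rw [h5] at h4
      have h6 := (kp_two (ρ s) (mL ℚ_[ℓ] (x * ed deg d * H.Qir))).symm.trans h4
      ext i j
      have h7 := congrFun h6 ![i, j]
      simpa using h7
    choose Δ hΔ hΔ2 using h1
    refine ⟨⨅ i : ι, Δ (deg i), Subgroup.finiteIndex_iInf fun i => hΔ (deg i), fun s hs => ?_⟩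
    rw [Subgroup.mem_iInf] at hs
    have h2 : x * H.Qir = ∑ d ∈ Finset.univ.image deg, x * ed deg d * H.Qir := by
      rw [← Finset.sum_mul, ← Finset.mul_sum, sum_ed, Matrix.mul_one]
    have h3 : mL ℚ_[ℓ] (x * H.Qir) =
        ∑ d ∈ Finset.univ.image deg, mL ℚ_[ℓ] (x * ed deg d * H.Qir) := by
      rw [h2]
      exact map_sum (Rat.castHom ℚ_[ℓ]).mapMatrix _ _
    rw [h3, Finset.mul_sum, Finset.sum_mul]
    have h4 : ∀ d ∈ Finset.univ.image deg, ρ s * mL ℚ_[ℓ] (x * ed deg d * H.Qir) * (ρ s)ᵀ =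
        mL ℚ_[ℓ] x * (χ s ^ d • mL ℚ_[ℓ] (ed deg d * H.Qir)) := by
      intro d hd
      obtain ⟨i, -, rfl⟩ := Finset.mem_image.1 hd
      rw [hΔ2 (deg i) s (hs i), Matrix.mul_assoc x, mL_mul, Matrix.mul_smul]
    rw [Finset.sum_congr rfl h4, ← Finset.mul_sum]
    congr 1
    ext a b
    rw [Matrix.sum_apply, Matrix.mul_diagonal, mL_apply]
    have h5 : ∀ d, (χ s ^ d • mL ℚ_[ℓ] (ed deg d * H.Qir)) a b =
        if deg a = d then χ s ^ d * (H.Qir a b : ℚ_[ℓ]) else 0 := by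
      intro d
      rw [Matrix.smul_apply, mL_apply, ed, Matrix.diagonal_mul, smul_eq_mul]
      split_ifs
      · rw [one_mul]
      · rw [zero_mul, Rat.cast_zero, mul_zero]
    rw [Finset.sum_congr rfl fun d _ => h5 d, Finset.sum_ite_eq,
      if_pos (Finset.mem_image_of_mem deg (Finset.mem_univ a))]
    by_cases h6 : H.Qir a b = 0
    · rw [h6, Rat.cast_zero, mul_zero, zero_mul]
    · rw [hQ a b h6, mul_comm]
  have h1 : En H deg (1 : Matrix ι ι ℚ) := by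
    constructor
    · intro a b hab
      rw [Matrix.one_apply_ne]
      rintro rfl
      exact hab rfl
    · intro t _
      rw [cQ_one, Matrix.mul_one, Matrix.one_mul]
  obtain ⟨Δ1, hΔ1, h2⟩ := main 1 h1
  have h2' : ∀ s ∈ Δ1, ρ s * mL ℚ_[ℓ] H.Qir * (ρ s)ᵀ =
      mL ℚ_[ℓ] H.Qir * Matrix.diagonal fun i => χ s ^ deg i := by
    intro s hs
    have h3 := h2 s hs
    rwa [Matrix.one_mul, mL_one, Matrix.one_mul] at h3
  refine ⟨fun x hx => ?_, Δ1, hΔ1, h2'⟩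
  obtain ⟨Δ, hΔ, h3⟩ := main x hx
  haveI := hΔ
  haveI := hΔ1
  refine ⟨Δ ⊓ Δ1, inferInstance, fun s hs => ?_⟩
  have h4 := h3 s hs.1
  rw [← h2' s hs.2, mL_mul] at h4
  have h5 : (ρ s)ᵀ * (ρ s⁻¹)ᵀ = 1 := by
    rw [← Matrix.transpose_mul, ← map_mul, inv_mul_cancel, map_one, Matrix.transpose_one]
  have h6 : mL ℚ_[ℓ] H.Qir * mL ℚ_[ℓ] H.Qr = 1 := mL_Qir_Qr
  have h7 := congrArg (fun M => M * (ρ s⁻¹)ᵀ * mL ℚ_[ℓ] H.Qr) h4
  simp only [Matrix.mul_assoc] at h7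
  rw [← Matrix.mul_assoc (ρ s)ᵀ, h5, Matrix.one_mul, h6, Matrix.mul_one, Matrix.mul_one] at h7
  exact h7

end Pool.Agent.N211.SM
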