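import Pool.Agent.N211.SM.Stm

/-!
# The Lie algebra of the Hodge group of `V ⊕ V'`
-/

set_option linter.unusedSectionVars false

namespace Pool.Agent.N211.SM

open Matrix ComplexConjugate
open Pool.Agent.N996.BP Pool.Agent.N202.TB Pool.Agent.N202.NC
open Pool.Agent.N202.CF (Tensor inL IsComb act matL der kil_iff IsCombM der_eq)

variable {ι ι' : Type} [Fintype ι] [DecidableEq ι] [Fintype ι'] [DecidableEq ι']

section arrays

variable {E : Type}

lemma resl_extl [Zero E] {n : ℕ} (v : (Fin n → ι) → E) :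
    resl (extl v : (Fin n → ι ⊕ ι') → E) = v := by
  funext u
  have h : ∀ k : Fin n, ((Sum.inl (u k) : ι ⊕ ι')).isLeft = true := fun k => rfl
  change extl v (fun k => Sum.inl (u k)) = v u
  rw [extl, dif_pos h]
  rfl

lemma resr_extr [Zero E] {n : ℕ} (v : (Fin n → ι') → E) :
    resr (extr v : (Fin n → ι ⊕ ι') → E) = v := by
  funext u
  have h : ∀ k : Fin n, ((Sum.inr (u k) : ι ⊕ ι')).isRight = true := fun k => rfl
  change extr v (fun k => Sum.inr (u k)) = v u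
  rw [extr, dif_pos h]
  rfl

lemma extl_map {F : Type} [Zero E] [Zero F] (f : E → F) (hf : f 0 = 0) {n : ℕ}
    (v : (Fin n → ι) → E) :
    (fun w => f ((extl v : (Fin n → ι ⊕ ι') → E) w)) = extl fun u => f (v u) := by
  funext w
  simp only [extl]
  split_ifs
  · rfl
  · exact hf

lemma extr_map {F : Type} [Zero E] [Zero F] (f : E → F) (hf : f 0 = 0) {n : ℕ}
    (v : (Fin n → ι') → E) :
    (fun w => f ((extr v : (Fin n → ι ⊕ ι') → E) w)) = extr fun u => f (v u) := by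
  funext w
  simp only [extr]
  split_ifs
  · rfl
  · exact hf

lemma extl_zero [Zero E] {n : ℕ} : (extl (0 : (Fin n → ι) → E) : (Fin n → ι ⊕ ι') → E) = 0 := by
  funext w
  simp only [extl]
  split_ifs <;> rfl

lemma extr_zero [Zero E] {n : ℕ} : (extr (0 : (Fin n → ι') → E) : (Fin n → ι ⊕ ι') → E) = 0 := by
  funext w
  simp only [extr]
  split_ifs <;> rfl

end arrays

/-- The matrices with two blocks, as a linear map. -/
def blkL (L : Type) [Field L] : (Matrix ι ι L × Matrix ι' ι' L) →ₗ[L]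
    Matrix (ι ⊕ ι') (ι ⊕ ι') L where
  toFun z := blk z.1 z.2
  map_add' a b := by
    ext i j
    rcases i with i | i <;> rcases j with j | j <;> simp [blk]
  map_smul' c a := by
    ext i j
    rcases i with i | i <;> rcases j with j | j <;> simp [blk]

lemma blkL_apply {L : Type} [Field L] (z : Matrix ι ι L × Matrix ι' ι' L) :
    blkL L z = blk z.1 z.2 := rfl

/-- The blocks. -/
def unblk (L : Type) [Field L] : Matrix (ι ⊕ ι') (ι ⊕ ι') L →ₗ[L]
    (Matrix ι ι L × Matrix ι' ι' L) where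
  toFun z := (z.toBlocks₁₁, z.toBlocks₂₂)
  map_add' _ _ := rfl
  map_smul' _ _ := rfl

lemma unblk_blk {L : Type} [Field L] (a : Matrix ι ι L) (b : Matrix ι' ι' L) :
    unblk L (blk a b) = (a, b) := rfl

lemma mL_blk {L : Type} [Field L] [CharZero L] (a : Matrix ι ι ℚ) (b : Matrix ι' ι' ℚ) :
    mL L (blk a b) = blk (mL L a) (mL L b) := blk_map _ (map_zero (Rat.castHom L)) _ _

lemma cQ_blk (a : Matrix ι ι ℚ) (b : Matrix ι' ι' ℚ) :
    cQ (blk a b) = blk (cQ a) (cQ b) := blk_map _ Rat.cast_zero _ _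

section

variable {P : HodgeStructure ι} {P' : HodgeStructure ι'} {H : HData ι} {H' : HData ι'}
  {HW : HData (ι ⊕ ι')}

lemma l_sum (P : HodgeStructure ι) {w : ℕ} (hw : P.w ≤ w) (t : ℂ) :
    ∑ k ∈ Finset.Icc (-w : ℤ) w, t ^ k • P.π k = P.l t := by
  rw [HodgeStructure.l]
  refine (Finset.sum_subset (fun k hk => ?_) fun k _ hk => ?_).symm
  · rw [Finset.mem_Icc] at hk ⊢
    omega
  · rw [pi_out P hk, smul_zero]

lemma smul_blk {R : Type*} [CommRing R] (c : R) (a : Matrix ι ι R) (b : Matrix ι' ι' R) :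
    c • blk a b = blk (c • a) (c • b) := by
  ext i j
  rcases i with i | i <;> rcases j with j | j <;> simp [blk]

lemma sub_blk {R : Type*} [CommRing R] (a c : Matrix ι ι R) (b d : Matrix ι' ι' R) :
    blk a b - blk c d = blk (a - c) (b - d) := by
  ext i j
  rcases i with i | i <;> rcases j with j | j <;> simp [blk]

lemma sumHS_l (P : HodgeStructure ι) (P' : HodgeStructure ι') (t : ℂ) :
    (sumHS P P').l t = blk (P.l t) (P'.l t) := by
  rw [HodgeStructure.l, ← l_sum P (w := max P.w P'.w) (le_max_left _ _),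
    ← l_sum P' (w := max P.w P'.w) (le_max_right _ _), ← blk_sum]
  refine Finset.sum_congr rfl fun k _ => ?_
  exact smul_blk _ _ _

variable (hE : S_EXT) (b : Br P H) (b' : Br P' H') (bW : Br (sumHS P P') HW)

include b b' bW

lemma lW (t : ℂ) : HW.l t = blk (H.l t) (H'.l t) := by
  rw [bW.l, b.l, b'.l, sumHS_l]

include hE

lemma BB_resl {n : ℕ} {a : (Fin n → ι ⊕ ι') → ℚ} (ha : a ∈ BB HW (Fin n)) :
    resl a ∈ BB H (Fin n) := by
  intro t ht
  have h := ha t ht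
  rw [lW b b' bW] at h
  have h1 := hE.resl_kp ℂ ι ι' n (H.l t) (H'.l t) (ca a)
  rw [h] at h1
  exact h1.symm

lemma BB_resr {n : ℕ} {a : (Fin n → ι ⊕ ι') → ℚ} (ha : a ∈ BB HW (Fin n)) :
    resr a ∈ BB H' (Fin n) := by
  intro t ht
  have h := ha t ht
  rw [lW b b' bW] at h
  have h1 := hE.resr_kp ℂ ι ι' n (H.l t) (H'.l t) (ca a)
  rw [h] at h1
  exact h1.symm

lemma BB_extl {n : ℕ} {a : (Fin n → ι) → ℚ} (ha : a ∈ BB H (Fin n)) :
    (extl a : (Fin n → ι ⊕ ι') → ℚ) ∈ BB HW (Fin n) := by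
  intro t ht
  have h0 : ca (extl a : (Fin n → ι ⊕ ι') → ℚ) = extl (ca a) :=
    extl_map (fun q : ℚ => (q : ℂ)) Rat.cast_zero a
  rw [lW b b' bW, h0, hE.extl_kp, ha t ht]

lemma BB_extr {n : ℕ} {a : (Fin n → ι') → ℚ} (ha : a ∈ BB H' (Fin n)) :
    (extr a : (Fin n → ι ⊕ ι') → ℚ) ∈ BB HW (Fin n) := by
  intro t ht
  have h0 : ca (extr a : (Fin n → ι ⊕ ι') → ℚ) = extr (ca a) :=
    extr_map (fun q : ℚ => (q : ℂ)) Rat.cast_zero a
  rw [lW b b' bW, h0, hE.extr_kp, ha t ht]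

lemma kill_blk {L : Type} [Field L] [CharZero L] {z : Matrix (ι ⊕ ι') (ι ⊕ ι') L}
    (hz : Kill HW L z) : ∃ y y', z = blk y y' ∧ Kill H L y ∧ Kill H' L y' := by
  have h1 : z * mL L (blk (1 : Matrix ι ι ℚ) (0 : Matrix ι' ι' ℚ)) =
      mL L (blk (1 : Matrix ι ι ℚ) (0 : Matrix ι' ι' ℚ)) * z := by
    refine hz.comm steps fun t _ => ?_
    rw [lW b b' bW, cQ_blk, blk_mul, blk_mul]
    have h2 : cQ (0 : Matrix ι' ι' ℚ) = 0 := by ext; simp [cQ]
    rw [cQ_one, h2, Matrix.mul_one, Matrix.one_mul, Matrix.mul_zero, Matrix.zero_mul]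
  obtain ⟨p, q, r, s, rfl⟩ : ∃ p q r s, z = Matrix.fromBlocks p q r s :=
    ⟨_, _, _, _, (Matrix.fromBlocks_toBlocks z).symm⟩
  rw [mL_blk, blk, Matrix.fromBlocks_multiply, Matrix.fromBlocks_multiply,
    Matrix.fromBlocks_inj] at h1
  have h3 : mL L (1 : Matrix ι ι ℚ) = 1 := map_one _
  have h4 : mL L (0 : Matrix ι' ι' ℚ) = 0 := map_zero _
  rw [h3, h4] at h1
  simp only [Matrix.mul_one, Matrix.mul_zero, Matrix.one_mul, Matrix.zero_mul, add_zero,
    zero_add] at h1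
  obtain ⟨-, hq, hr, -⟩ := h1
  subst hr
  rw [← hq] at hz ⊢
  refine ⟨p, s, rfl, fun n a ha => ?_, fun n a ha => ?_⟩
  · have h5 := hz n _ (BB_extl hE b b' bW ha)
    have h6 : aL L (extl a : (Fin (n + 1) → ι ⊕ ι') → ℚ) = extl (aL L a) :=
      extl_map (fun q : ℚ => (q : L)) Rat.cast_zero a
    rw [h6] at h5
    have h7 := hE.extl_dp L ι ι' (n + 1) p s (aL L a)
    rw [blk, h5] at h7
    rw [← resl_extl (ι' := ι') (dp (Fin (n + 1)) p *ᵥ aL L a), ← h7]
    rfl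
  · have h5 := hz n _ (BB_extr hE b b' bW ha)
    have h6 : aL L (extr a : (Fin (n + 1) → ι ⊕ ι') → ℚ) = extr (aL L a) :=
      extr_map (fun q : ℚ => (q : L)) Rat.cast_zero a
    rw [h6] at h5
    have h7 := hE.extr_dp L ι ι' (n + 1) p s (aL L a)
    rw [blk, h5] at h7
    rw [← resr_extr (ι := ι) (dp (Fin (n + 1)) s *ᵥ aL L a), ← h7]
    rfl

end

/-- The Lie algebra of the Hodge group of `V ⊕ V'`. -/
noncomputable def hL (HW : HData (ι ⊕ ι')) (L : Type) [Field L] [CharZero L] :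
    Submodule L (Matrix ι ι L × Matrix ι' ι' L) := (killAll HW L steps).comap (blkL L)

lemma mem_hL {HW : HData (ι ⊕ ι')} {L : Type} [Field L] [CharZero L]
    {z : Matrix ι ι L × Matrix ι' ι' L} : z ∈ hL HW L ↔ Kill HW L (blk z.1 z.2) := mem_killAll

/-- Its image in the matrices over `V`. -/
noncomputable def sQ (HW : HData (ι ⊕ ι')) : Submodule ℚ (Matrix ι ι ℚ) :=
  (hL HW ℚ).map (LinearMap.fst ℚ _ _)

lemma mem_sQ {HW : HData (ι ⊕ ι')} {y : Matrix ι ι ℚ} :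
    y ∈ sQ HW ↔ ∃ y' : Matrix ι' ι' ℚ, Kill HW ℚ (blk y y') := by
  rw [sQ, Submodule.mem_map]
  constructor
  · rintro ⟨z, hz, rfl⟩
    exact ⟨z.2, mem_hL.1 hz⟩
  · rintro ⟨y', h⟩
    exact ⟨(y, y'), mem_hL.2 h, rfl⟩

section

variable {P : HodgeStructure ι} {P' : HodgeStructure ι'} {H : HData ι} {H' : HData ι'}
  {HW : HData (ι ⊕ ι')} (hE : S_EXT) (b : Br P H) (b' : Br P' H') (bW : Br (sumHS P P') HW)

include hE b b' bW

lemma sQ_kill {y : Matrix ι ι ℚ} (hy : y ∈ sQ HW) : Kill H ℚ y := by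
  obtain ⟨y', h⟩ := mem_sQ.1 hy
  obtain ⟨a, c, h1, h2, -⟩ := kill_blk hE b b' bW h
  have h3 := congrArg (unblk ℚ) h1
  rw [unblk_blk, unblk_blk] at h3
  rw [(Prod.mk.inj h3).1]
  exact h2

lemma sQ_bracket {x y : Matrix ι ι ℚ} (hx : x ∈ sQ HW) (hy : y ∈ sQ HW) :
    x * y - y * x ∈ sQ HW := by
  obtain ⟨x', hx'⟩ := mem_sQ.1 hx
  obtain ⟨y', hy'⟩ := mem_sQ.1 hy
  refine mem_sQ.2 ⟨x' * y' - y' * x', ?_⟩
  have h := Pool.Agent.N891.NC.kill_bracket hx' hy'
  rwa [blk_mul, blk_mul, sub_blk] at h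

/-- The complex Lie algebra is spanned by the rational one. -/
lemma hL_span {z : Matrix ι ι ℂ × Matrix ι' ι' ℂ} (hz : z ∈ hL HW ℂ) :
    z ∈ Submodule.span ℂ {u | ∃ v ∈ hL HW ℚ, u = (cQ v.1, cQ v.2)} := by
  have h1 := Pool.Agent.N738.TB.kill_span HW _ (mem_hL.1 hz)
  have h2 := Submodule.mem_map_of_mem (f := unblk ℂ) h1
  rw [unblk_blk, Submodule.map_span] at h2
  refine Submodule.span_mono ?_ h2
  rintro _ ⟨_, ⟨v, hv, rfl⟩, rfl⟩
  obtain ⟨p, q, rfl, -, -⟩ := kill_blk hE b b' bW hv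
  refine ⟨(p, q), mem_hL.2 hv, ?_⟩
  have h3 : (blk p q).map (Rat.castHom ℂ) = blk (cQ p) (cQ q) := blk_map _ (map_zero _) _ _
  rw [h3, unblk_blk]

omit hE b b' bW in
lemma hL_cast {L : Type} [Field L] [CharZero L] {v : Matrix ι ι ℚ × Matrix ι' ι' ℚ}
    (hv : v ∈ hL HW ℚ) : (mL L v.1, mL L v.2) ∈ hL HW L := by
  have h := Pool.Agent.N738.TB.kill_cast HW L _ (mem_hL.1 hv)
  have h3 : (blk v.1 v.2).map (Rat.castHom L) = blk (mL L v.1) (mL L v.2) :=
    blk_map _ (map_zero _) _ _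
  rw [h3] at h
  exact mem_hL.2 h

lemma sQ_conj {y : Matrix ι ι ℚ} (hy : y ∈ sQ HW) :
    H.l Complex.I * cQ y * H.l (Complex.I)⁻¹ ∈
      Submodule.span ℂ (cQ '' ((sQ HW : Submodule ℚ (Matrix ι ι ℚ)) : Set (Matrix ι ι ℚ))) := by
  obtain ⟨y', h⟩ := mem_sQ.1 hy
  have h1 := hL_cast (L := ℂ) (v := (y, y')) (mem_hL.2 h)
  have h2 := Pool.Agent.N891.NC.kill_conj (mem_hL.1 h1) Complex.I_ne_zero
  rw [lW b b' bW, lW b b' bW, blk_mul, blk_mul] at h2
  have h3 := hL_span hE b b' bW (z := (_, _)) (mem_hL.2 h2)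
  have h4 := Submodule.mem_map_of_mem (f := LinearMap.fst ℂ (Matrix ι ι ℂ) (Matrix ι' ι' ℂ)) h3
  rw [Submodule.map_span] at h4
  refine Submodule.span_mono ?_ h4
  rintro _ ⟨_, ⟨v, hv, rfl⟩, rfl⟩
  exact ⟨v.1, ⟨v, hv, rfl⟩, rfl⟩

/-- Matrices over `V` which commute with the Lie algebra are endomorphisms. -/
lemma en_of_comm {x : Matrix ι ι ℚ} (hx : x ∈ E0 P.deg ℚ)
    (h : ∀ y ∈ sQ HW, y * x = x * y) : En H P.deg x := by
  refine ⟨hx, fun t ht => endo_of_BB H ?_ ht⟩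
  have h1 : (extl (vec2 (x * H.Qir)) : (Fin 2 → ι ⊕ ι') → ℚ) ∈ BB HW (Fin 2) := by
    refine mem_BB_of_kill HW fun z hz => ?_
    obtain ⟨y, y', rfl, hy, -⟩ := kill_blk hE b b' bW hz
    have h2 := hE.extl_dp ℚ ι ι' 2 y y' (vec2 (x * H.Qir))
    have h4 : H.Qir * yᵀ = -(y * H.Qir) := eq_neg_of_add_eq_zero_right (skewQ H hy)
    rw [dp_vec2 steps, Matrix.mul_assoc x, h4, Matrix.mul_neg, ← Matrix.mul_assoc,
      ← Matrix.mul_assoc, h y (mem_sQ.2 ⟨y', hz⟩), add_neg_cancel, map_zero, extl_zero] at h2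
    exact h2
  have h2 := BB_resl hE b b' bW h1
  rwa [resl_extl] at h2

/-- Matrices over `V` which commute with the Lie algebra and with the endomorphisms. -/
lemma cen_of_comm {x : Matrix ι ι ℚ} (hx : x ∈ E0 P.deg ℚ)
    (h : ∀ y ∈ sQ HW, y * x = x * y) (h' : ∀ y, En H P.deg y → y * x = x * y) :
    Cen H P.deg x :=
  ⟨en_of_comm hE b b' bW hx h, fun y hy => (h' y hy).symm⟩

/-- The same over an extension of the field of rational numbers. -/
lemma cen_span {L : Type} [Field L] [CharZero L] {x : Matrix ι ι L} (hx : x ∈ E0 P.deg L)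
    (h : ∀ y ∈ sQ HW, mL L y * x = x * mL L y)
    (h' : ∀ y, En H P.deg y → mL L y * x = x * mL L y) :
    IsCombM {z | Cen H P.deg z} x := by
  have h1 := comm_comb ({y | y ∈ sQ HW} ∪ {e | En H P.deg e}) P.deg (x := x) (by
    rintro m (hm | hm)
    · exact h m hm
    · exact h' m hm) hx
  refine h1.mono ?_
  rintro z ⟨hz1, hz2⟩
  exact cen_of_comm hE b b' bW hz2 (fun y hy => hz1 y (Or.inl hy)) fun y hy => hz1 y (Or.inr hy)

/-- The matrices which kill the Hodge arrays of degree four on `V`. -/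
theorem c1' (hR : S_RED) {v : Matrix ι ι ℚ}
    (hv : ∀ a ∈ BB H (Fin 4), (∀ w, a w ≠ 0 → Even (∑ k, P.deg (w k))) →
      dp (Fin 4) v *ᵥ a = 0) : ∃ s ∈ sQ HW, Cen H P.deg (v - s) := by
  have hl := b.hl
  have hQ := b.hQ
  have hQr := b.hQr
  obtain ⟨⟨p, hp1, hp2, hp3, hp4⟩, -⟩ := hR ι H P.deg (sQ HW)
    (fun y hy => sQ_kill hE b b' bW hy) (fun x hx y hy => sQ_bracket hE b b' bW hx hy)
    (fun y hy => sQ_conj hE b b' bW hy)
    (fun y hy i j h => (sQ_kill hE b b' bW hy).deg steps hl h)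
  have hk : ∀ x, Kill H ℚ (p x) := fun x => sQ_kill hE b b' bW (hp1 x)
  have hB := B_mem H hQ
  have hQm := Q_mem H hQr
  have o := P.o
  have hEp : ∀ x, p x ∈ E0 P.deg ℚ := by
    intro x i j hne
    by_contra h
    exact hne ((hk x).deg steps hl h)
  have hα0 : ∀ y : Matrix ι ι ℚ, y * H.Qir + H.Qir * yᵀ = 0 →
      (dp (Fin 4) y *ᵥ arr4 (opP H.Qir H.Qr p * kp (Fin 2) H.Qir) = 0 ↔
        ∀ z, p (y * z - z * y) = y * p z - p z * y) := by
    intro y hy
    rw [dp_arr4_eq_zero steps (BQ H) hy, opP_comm steps (BQ H) p hy]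
  have hα1 : arr4 (opP H.Qir H.Qr p * kp (Fin 2) H.Qir) ∈ BB H (Fin 4) := by
    have h1 : (extl (arr4 (opP H.Qir H.Qr p * kp (Fin 2) H.Qir)) : (Fin 4 → ι ⊕ ι') → ℚ) ∈
        BB HW (Fin 4) := by
      refine mem_BB_of_kill HW fun z hz => ?_
      obtain ⟨y, y', rfl, hy, -⟩ := kill_blk hE b b' bW hz
      have h2 := hE.extl_dp ℚ ι ι' 4 y y' (arr4 (opP H.Qir H.Qr p * kp (Fin 2) H.Qir))
      rw [(hα0 y (skewQ H hy)).2 (hp4 y (mem_sQ.2 ⟨y', hz⟩)), extl_zero] at h2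
      exact h2
    have h2 := BB_resl hE b b' bW h1
    rwa [resl_extl] at h2
  have hpv : ∀ z, p (v * z - z * v) = v * p z - p z * v := by
    refine (hα0 v (v_skew H hQ P.o hv)).1 (hv _ hα1 fun w hw => ?_)
    refine arr4_even (fun a b hab => opP_support hB hQm hEp (fun x hx => hp3 x ?_) hab) hw
    intro i j hij
    have h := congrFun (congrFun hx i) j
    rw [p0_apply, if_pos hij] at h
    exact h
  have hxy : ∀ y ∈ sQ HW, y * (v - p v) = (v - p v) * y := by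
    intro y hy
    have h1 := hpv y
    rw [hp2 y hy] at h1
    have h2 := hp4 y hy v
    have h3 : y * v - v * y = -(v * y - y * v) := by abel
    rw [h3, map_neg, h1] at h2
    rw [Matrix.mul_sub, Matrix.sub_mul, ← sub_eq_zero]
    have h4 : y * v - y * p v - (v * y - p v * y) = (y * v - v * y) - (y * p v - p v * y) := by abel
    rw [h4, ← h2]
    abel
  refine ⟨p v, hp1 v, cen_of_comm hE b b' bW
    (Submodule.sub_mem _ (v_deg H hl hQ P.o hv) (hEp v)) hxy fun y hy => ?_⟩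
  rw [Matrix.sub_mul, Matrix.mul_sub, v_comm H hQ P.o hv hy, commQ H (hk v) hy.2]

/-- The same over an extension of the field of rational numbers. -/
theorem c1L' (hR : S_RED) {L : Type} [Field L] [CharZero L] {v : Matrix ι ι L}
    (hv : ∀ a ∈ BB H (Fin 4), (∀ w, a w ≠ 0 → Even (∑ k, P.deg (w k))) →
      dp (Fin 4) v *ᵥ aL L a = 0) :
    ∃ z ∈ hL HW L, ∃ x, IsCombM {z | Cen H P.deg z} x ∧ v = z.1 + x := by
  have h1 : IsCombM {z : Matrix ι ι ℚ | ∀ n, ∀ a ∈ T4 H P.deg n, der z a = 0} v := by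
    rw [kil_iff]
    intro n a ha
    match n, a, ha with
    | 4, a, ha =>
      rw [der_eq]
      exact hv a ha.1 ha.2
  have h2 : v ∈ (hL HW L).map (LinearMap.fst L _ _) ⊔
      Submodule.span L (matL L '' {z | Cen H P.deg z}) := by
    refine Pool.Agent.N202.CF.IsCombM.ind (fun z hz => ?_) h1
    obtain ⟨s, hs, hc⟩ := c1' hE b b' bW hR (v := z) fun a ha he => by
      have h2 := hz 4 a ⟨ha, he⟩
      rwa [der_eq] at h2
    obtain ⟨s', hs'⟩ := mem_sQ.1 hs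
    have h3 : matL L z = mL L s + matL L (z - s) := by
      have h4 : matL L (z - s) = matL L z - mL L s := map_sub (Rat.castHom L).mapMatrix z s
      rw [h4]; abel
    rw [h3]
    refine Submodule.add_mem_sup ⟨(mL L s, mL L s'), hL_cast (v := (s, s')) (mem_hL.2 hs'), rfl⟩
      (Submodule.subset_span ⟨z - s, hc, rfl⟩)
  obtain ⟨y, ⟨z, hz, rfl⟩, x, hx, rfl⟩ := Submodule.mem_sup.1 h2
  exact ⟨z, hz, x, hx, rfl⟩

end

end Pool.Agent.N211.SM
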