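import Pool.Agent.N202.NC.GalDefs

/-!
# Classes on the products of the powers of two varieties: definitions

In the intended use `X` is a smooth projective variety over a number field and `A` is an abelian
variety with complex multiplication; `V = H(X, ℚ)` and `V' = H(A, ℚ)` with bases indexed by `ι` and
`ι'`.  The direct sum `V ⊕ V'` is the cohomology of the disjoint union of `X` and `A`, and its tensor
powers are the direct sums of the cohomology groups of the products `X^r × A^s`.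
-/

set_option linter.unusedSectionVars false

namespace Pool.Agent.N211.SM

open Matrix ComplexConjugate
open Pool.Agent.N202.CF (Tensor inL IsComb act matL)
open Pool.Agent.N202.NC

variable {ι ι' : Type} [Fintype ι] [DecidableEq ι] [Fintype ι'] [DecidableEq ι']

/-- The matrix with the blocks `a` and `b`. -/
def blk {R : Type*} [Zero R] (a : Matrix ι ι R) (b : Matrix ι' ι' R) : Matrix (ι ⊕ ι') (ι ⊕ ι') R :=
  Matrix.fromBlocks a 0 0 b

section

variable {R : Type*}

lemma blk_mul [CommRing R] (a c : Matrix ι ι R) (b d : Matrix ι' ι' R) :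
    blk a b * blk c d = blk (a * c) (b * d) := by
  rw [blk, blk, Matrix.fromBlocks_multiply]
  simp [blk]

lemma blk_zero [Zero R] : blk (0 : Matrix ι ι R) (0 : Matrix ι' ι' R) = 0 := Matrix.fromBlocks_zero

lemma blk_one [CommRing R] : blk (1 : Matrix ι ι R) (1 : Matrix ι' ι' R) = 1 := Matrix.fromBlocks_one

lemma blk_transpose [Zero R] (a : Matrix ι ι R) (b : Matrix ι' ι' R) :
    (blk a b)ᵀ = blk aᵀ bᵀ := by
  rw [blk, Matrix.fromBlocks_transpose]
  simp [blk]

lemma blk_map {R' : Type*} [Zero R] [Zero R'] (f : R → R') (hf : f 0 = 0) (a : Matrix ι ι R)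
    (b : Matrix ι' ι' R) : (blk a b).map f = blk (a.map f) (b.map f) := by
  rw [blk, Matrix.fromBlocks_map]
  congr 1 <;> (ext i j; simp [hf])

lemma blk_sum [AddCommMonoid R] {κ : Type*} (s : Finset κ) (a : κ → Matrix ι ι R)
    (b : κ → Matrix ι' ι' R) : ∑ k ∈ s, blk (a k) (b k) = blk (∑ k ∈ s, a k) (∑ k ∈ s, b k) := by
  ext i j
  rw [Matrix.sum_apply]
  rcases i with i | i <;> rcases j with j | j <;> simp [blk, Matrix.sum_apply]

lemma blk_mulVec [CommRing R] (a : Matrix ι ι R) (b : Matrix ι' ι' R) (x : ι ⊕ ι' → R) :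
    blk a b *ᵥ x = Sum.elim (a *ᵥ (x ∘ Sum.inl)) (b *ᵥ (x ∘ Sum.inr)) := by
  rw [blk, Matrix.fromBlocks_mulVec]
  simp

lemma pi_out (P : HodgeStructure ι) {k : ℤ} (hk : k ∉ Finset.Icc (-P.w : ℤ) P.w) : P.π k = 0 := by
  have h : P.π k * ∑ m ∈ Finset.Icc (-P.w : ℤ) P.w, P.π m = 0 := by
    rw [Finset.mul_sum]
    refine Finset.sum_eq_zero fun m hm => ?_
    rw [P.π_mul, if_neg]
    rintro rfl
    exact hk hm
  rwa [P.sum_π, Matrix.mul_one] at h

lemma sum_pi (P : HodgeStructure ι) {w : ℕ} (hw : P.w ≤ w) :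
    ∑ k ∈ Finset.Icc (-w : ℤ) w, P.π k = 1 := by
  rw [← P.sum_π]
  refine (Finset.sum_subset (fun k hk => ?_) fun k _ hk => pi_out P hk).symm
  rw [Finset.mem_Icc] at hk ⊢
  omega

lemma real_zero {c : ℂ} : c * ((0 : ι → ℂ) ⬝ᵥ (0 : ι → ℂ)) = ((0 : ℝ) : ℂ) := by simp

end

/-- The Hodge structure `V ⊕ V'` (the cohomology of the disjoint union of the varieties). -/
noncomputable def sumHS (P : HodgeStructure ι) (P' : HodgeStructure ι') :
    HodgeStructure (ι ⊕ ι') where
  deg := Sum.elim P.deg P'.deg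
  o := Sum.inl P.o
  w := max P.w P'.w
  π k := blk (P.π k) (P'.π k)
  ψ := blk P.ψ P'.ψ
  sum_π := by
    rw [blk_sum, sum_pi P (le_max_left _ _), sum_pi P' (le_max_right _ _), blk_one]
  π_mul k l := by
    rw [blk_mul, P.π_mul, P'.π_mul]
    split_ifs
    · rfl
    · exact blk_zero
  π_conj k := by
    rw [blk_map _ (map_zero _), P.π_conj, P'.π_conj]
  π_deg k i j h := by
    rcases i with i | i <;> rcases j with j | j
    · exact P.π_deg k i j h
    · exact absurd rfl h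
    · exact absurd rfl h
    · exact P'.π_deg k i j h
  π_o := by
    rw [blk_mulVec]
    have h1 : (Pi.single (Sum.inl P.o) 1 : ι ⊕ ι' → ℂ) ∘ Sum.inl = Pi.single P.o 1 := by
      funext i
      by_cases h : i = P.o
      · subst h; simp
      · simp [h]
    have h2 : (Pi.single (Sum.inl P.o) 1 : ι ⊕ ι' → ℂ) ∘ Sum.inr = 0 := by
      funext i
      simp
    rw [h1, h2, P.π_o, Matrix.mulVec_zero]
    funext i
    rcases i with i | i
    · by_cases h : i = P.o
      · subst h; simp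
      · simp [h]
    · simp
  ψ_deg i j h := by
    rcases i with i | i <;> rcases j with j | j
    · exact P.ψ_deg i j h
    · exact absurd rfl h
    · exact absurd rfl h
    · exact P'.ψ_deg i j h
  ψ_π k := by
    have h : matL ℂ (blk P.ψ P'.ψ) = blk (matL ℂ P.ψ) (matL ℂ P'.ψ) :=
      blk_map _ Rat.cast_zero _ _
    rw [h, blk_transpose, blk_mul, blk_mul, P.ψ_π, P'.ψ_π]
  pos k x hx hne := by
    have h : matL ℂ (blk P.ψ P'.ψ) = blk (matL ℂ P.ψ) (matL ℂ P'.ψ) :=
      blk_map _ Rat.cast_zero _ _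
    rw [blk_mulVec] at hx
    have h1 : P.π k *ᵥ (x ∘ Sum.inl) = x ∘ Sum.inl := by
      funext i
      exact congrFun hx (Sum.inl i)
    have h2 : P'.π k *ᵥ (x ∘ Sum.inr) = x ∘ Sum.inr := by
      funext i
      exact congrFun hx (Sum.inr i)
    have h3 : (x ⬝ᵥ (matL ℂ (blk P.ψ P'.ψ) *ᵥ fun i => conj (x i))) =
        ((x ∘ Sum.inl) ⬝ᵥ (matL ℂ P.ψ *ᵥ fun i => conj ((x ∘ Sum.inl) i))) +
        ((x ∘ Sum.inr) ⬝ᵥ (matL ℂ P'.ψ *ᵥ fun i => conj ((x ∘ Sum.inr) i))) := by
      rw [h, blk_mulVec, dotProduct, Fintype.sum_sum_type]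
      rfl
    have h4 : ∀ {m : Type} [Fintype m] [DecidableEq m] (Q : HodgeStructure m) (z : m → ℂ),
        Q.π k *ᵥ z = z → ∃ r : ℝ, 0 ≤ r ∧ (z ≠ 0 → 0 < r) ∧
          Complex.I ^ k * (z ⬝ᵥ (matL ℂ Q.ψ *ᵥ fun i => conj (z i))) = r := by
      intro m _ _ Q z hz
      by_cases h0 : z = 0
      · refine ⟨0, le_rfl, fun h => absurd h0 h, ?_⟩
        rw [h0, zero_dotProduct, mul_zero, Complex.ofReal_zero]
      · obtain ⟨r, hr, h5⟩ := Q.pos k z hz h0
        exact ⟨r, hr.le, fun _ => hr, h5⟩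
    obtain ⟨r, hr, hr', h5⟩ := h4 P _ h1
    obtain ⟨s, hs, hs', h6⟩ := h4 P' _ h2
    refine ⟨r + s, ?_, ?_⟩
    · by_cases h0 : x ∘ Sum.inl = 0
      · have h7 : x ∘ Sum.inr ≠ 0 := by
          intro h8
          apply hne
          funext i
          rcases i with i | i
          · exact congrFun h0 i
          · exact congrFun h8 i
        have := hs' h7
        linarith
      · have := hr' h0
        linarith
    · rw [h3, mul_add, h5, h6, Complex.ofReal_add]

variable {Γ : Type} [Group Γ]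

/-- The representation on `V ⊕ V'`. -/
def sumRep {L : Type} [Field L] (ρ : Γ →* Matrix ι ι L) (ρ' : Γ →* Matrix ι' ι' L) :
    Γ →* Matrix (ι ⊕ ι') (ι ⊕ ι') L where
  toFun s := blk (ρ s) (ρ' s)
  map_one' := by rw [map_one, map_one, blk_one]
  map_mul' s t := by rw [map_mul, map_mul, blk_mul]

/-- The tensor `t` with indices in `ι ⊕ ι'` is a class on the products `X^r × A^s` with `r ≤ K` and
`s ≤ 1`: at most `K` indices are in `ι` and at most one is in `ι'`. -/
def OnProduct {L : Type} [Zero L] (K : ℕ) {n : ℕ} (t : Tensor (ι ⊕ ι') n L) : Prop :=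
  ∀ w, t w ≠ 0 → (Finset.univ.filter fun k => (w k).isLeft).card ≤ K ∧
    (Finset.univ.filter fun k => (w k).isRight).card ≤ 1

variable {ℓ : ℕ} [Fact ℓ.Prime]

/-- Duals of lines: let `v` be a nonzero class in `H^d(X^r, ℂ)`, `r ≤ K`, which generates a line
that is stable under a subgroup of finite index of `Γ` (acting via the embedding `j` of `ℚ_ℓ` in the
field of complex numbers).  Then the dual line occurs in the cohomology of `A`, up to a Tate twist
and for a subgroup of finite index. -/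
def HasDuals (P : HodgeStructure ι) (P' : HodgeStructure ι') (ρ : Γ →* Matrix ι ι ℚ_[ℓ])
    (ρ' : Γ →* Matrix ι' ι' ℚ_[ℓ]) (χ : Γ →* ℚ_[ℓ]) (j : ℚ_[ℓ] →+* ℂ) (K : ℕ) : Prop :=
  ∀ (r d : ℕ) (v : Tensor ι r ℂ) (Δ : Subgroup Γ) (c : Γ → ℂ), r ≤ K → v ≠ 0 →
    HasDegree P.deg v d → Δ.FiniteIndex → (∀ s ∈ Δ, act ((ρ s).map j) v = c s • v) →
    ∃ (m : ℕ) (y : ι' → ℂ) (Δ' : Subgroup Γ), y ≠ 0 ∧ (∀ i, y i ≠ 0 → d + P'.deg i = 2 * m) ∧
      Δ'.FiniteIndex ∧ ∀ s ∈ Δ', c s • ((ρ' s).map j *ᵥ y) = j (χ s) ^ m • y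

end Pool.Agent.N211.SM
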