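import Pool.Agent.N211.SM.Defs

/-!
# The hypotheses on the product `X^K × A`: definitions
-/

set_option linter.unusedSectionVars false

namespace Pool.Agent.N211.SM

open Matrix
open Pool.Agent.N202.CF (Tensor inL IsComb act matL)
open Pool.Agent.N202.NC

variable {ι ι' : Type} [Fintype ι] [DecidableEq ι] [Fintype ι'] [DecidableEq ι']
  {ℓ : ℕ} [Fact ℓ.Prime] {Γ : Type} [Group Γ]

/-- The Hodge classes on the products `X^r × A^s` with `r ≤ K` and `s ≤ 1` are Tate classes. -/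
def HodgeInTateOn (P : HodgeStructure ι) (P' : HodgeStructure ι') (ρ : Γ →* Matrix ι ι ℚ_[ℓ])
    (ρ' : Γ →* Matrix ι' ι' ℚ_[ℓ]) (χ : Γ →* ℚ_[ℓ]) (K : ℕ) : Prop :=
  ∀ n j (a : Tensor (ι ⊕ ι') n ℚ), OnProduct K a → (sumHS P P').IsHodge j a →
    IsTate (sumHS P P').deg (sumRep ρ ρ') χ j (inL ℚ_[ℓ] a)

/-- The Tate classes on the products `X^r × A^s` with `r ≤ K` and `s ≤ 1` are `ℚ_ℓ`-linear
combinations of Hodge classes. -/
def TateInHodgeOn (P : HodgeStructure ι) (P' : HodgeStructure ι') (ρ : Γ →* Matrix ι ι ℚ_[ℓ])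
    (ρ' : Γ →* Matrix ι' ι' ℚ_[ℓ]) (χ : Γ →* ℚ_[ℓ]) (K : ℕ) : Prop :=
  ∀ n j (t : Tensor (ι ⊕ ι') n ℚ_[ℓ]), OnProduct K t →
    IsTate (sumHS P P').deg (sumRep ρ ρ') χ j t →
    IsComb {a : Tensor (ι ⊕ ι') n ℚ | (sumHS P P').IsHodge j a} t

/-- The properties of the abelian variety `A` with complex multiplication which are used: the Hodge
classes and the Tate classes on its powers span the same spaces (Pohlmann), and it contains the
duals of the stable lines in the cohomology of `X^r`, `r ≤ K`. -/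
structure IsCMFactor (P : HodgeStructure ι) (P' : HodgeStructure ι') (ρ : Γ →* Matrix ι ι ℚ_[ℓ])
    (ρ' : Γ →* Matrix ι' ι' ℚ_[ℓ]) (χ : Γ →* ℚ_[ℓ]) (j : ℚ_[ℓ] →+* ℂ) (K : ℕ) : Prop where
  hodge : ∀ k, 0 < k → HodgeInTate P' ρ' χ k
  tate : ∀ k, 0 < k → TateInHodge P' ρ' χ k
  duals : HasDuals P P' ρ ρ' χ j K

/-! ### Determinants -/

section

variable {ι ι' E : Type}

/-- The tensor `v` as a tensor with indices in `ι ⊕ ι'` (zero unless all indices are in `ι`). -/
def extl [Zero E] {n : ℕ} (v : (Fin n → ι) → E) : (Fin n → ι ⊕ ι') → E := fun w =>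
  if h : ∀ k, (w k).isLeft then v fun k => (w k).getLeft (h k) else 0

/-- The product of an array and a vector. -/
def snc {W : Type} [Mul E] {n : ℕ} (A : (Fin n → W) → E) (z : W → E) : (Fin (n + 1) → W) → E :=
  fun w => A (fun k => w k.castSucc) * z (w (Fin.last n))

/-- The vector `y` as a vector with indices in `ι ⊕ ι'`. -/
def inr1 [Zero E] (y : ι' → E) : ι ⊕ ι' → E := Sum.elim 0 y

/-- The tensor `v ⊗ y`, a class on `X^n × A` for `v` in `H(X^n)` and `y` in `H(A)`. -/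
def tens [Zero E] [Mul E] {n : ℕ} (v : (Fin n → ι) → E) (y : ι' → E) :
    (Fin (n + 1) → ι ⊕ ι') → E := snc (extl v) (inr1 y)

end

/-- The matrix `π` is a nonzero idempotent in the centre of the algebra of the endomorphisms of the
Hodge structure `H(X)` with complex coefficients, and its image is contained in `H^m(X, ℂ)`. -/
def IsCentralIdem (P : HodgeStructure ι) (m : ℕ) (π : Matrix ι ι ℂ) : Prop :=
  π * π = π ∧ π ≠ 0 ∧ (∀ i k, π i k ≠ 0 → P.deg i = m ∧ P.deg k = m) ∧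
    π ∈ Submodule.span ℂ (matL ℂ '' {x | P.IsEndo x ∧ ∀ y, P.IsEndo y → x * y = y * x})

/-- The tensor `v` generates the determinant (the highest exterior power) of the image of the
idempotent matrix `π`. -/
def IsDet (π : Matrix ι ι ℂ) {d : ℕ} (v : Tensor ι d ℂ) : Prop :=
  v ≠ 0 ∧ π.trace = d ∧ act π v = v ∧
    ∀ (σ : Equiv.Perm (Fin d)) (w : Fin d → ι), v (fun k => w (σ k)) = Equiv.Perm.sign σ • v w

/-- Duals of determinants: for every nonzero idempotent in the centre of the algebra of the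
endomorphisms of the Hodge structure `H(X)` with complex coefficients, with image in `H^m(X, ℂ)`,
there is a class `y` on `A` such that the product of the determinant of the image with `y` is a
combination of Hodge classes and (for a subgroup of finite index) a Tate class. -/
def HasDetDuals (P : HodgeStructure ι) (P' : HodgeStructure ι') (ρ : Γ →* Matrix ι ι ℚ_[ℓ])
    (ρ' : Γ →* Matrix ι' ι' ℚ_[ℓ]) (χ : Γ →* ℚ_[ℓ]) (j : ℚ_[ℓ] →+* ℂ) : Prop :=
  ∀ (m d : ℕ) (π : Matrix ι ι ℂ) (v : Tensor ι d ℂ), IsCentralIdem P m π → IsDet π v →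
    ∃ (c e : ℕ) (y : ι' → ℂ) (Δ : Subgroup Γ), y ≠ 0 ∧ (∀ i, y i ≠ 0 → P'.deg i = e) ∧
      IsComb {a : Tensor (ι ⊕ ι') (d + 1) ℚ | (sumHS P P').IsHodge c a} (tens v y) ∧
      Δ.FiniteIndex ∧ ∀ s ∈ Δ, act ((sumRep ρ ρ' s).map j) (tens v y) = j (χ s) ^ c • tens v y

end Pool.Agent.N211.SM
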