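import Pool.Agent.N211.SM.Defs2

/-!
# Semisimplicity of the cohomology: definitions
-/

set_option linter.unusedSectionVars false

namespace Pool.Agent.N211.SM

open Matrix

variable {ι : Type} [Fintype ι] [DecidableEq ι] {ℓ : ℕ} [Fact ℓ.Prime] {Γ : Type} [Group Γ]

/-- The Betti number `b_m(X)`. -/
def betti (deg : ι → ℕ) (m : ℕ) : ℕ := (Finset.univ.filter fun i => deg i = m).card

/-- The subspace `H^m(X)` of `H(X)`. -/
def Hm (L : Type) [Field L] (deg : ι → ℕ) (m : ℕ) : Submodule L (ι → L) where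
  carrier := {x | ∀ i, x i ≠ 0 → deg i = m}
  zero_mem' i h := absurd rfl h
  add_mem' {x y} hx hy i h := by
    by_contra hne
    have h1 : x i = 0 := by
      by_contra h1
      exact hne (hx i h1)
    have h2 : y i = 0 := by
      by_contra h2
      exact hne (hy i h2)
    exact h (by rw [Pi.add_apply, h1, h2, add_zero])
  smul_mem' c x hx i h := hx i fun h0 => h (by rw [Pi.smul_apply, h0, smul_zero])

/-- The groups `H^m(X, ℚ_ℓ)` are semisimple representations of `Γ` and of its subgroups of finite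
index: stable subspaces have stable complements. -/
def SemisimpleH (deg : ι → ℕ) (ρ : Γ →* Matrix ι ι ℚ_[ℓ]) : Prop :=
  ∀ (Δ : Subgroup Γ), Δ.FiniteIndex → ∀ (m : ℕ) (S : Submodule ℚ_[ℓ] (ι → ℚ_[ℓ])),
    S ≤ Hm ℚ_[ℓ] deg m → (∀ s ∈ Δ, ∀ x ∈ S, ρ s *ᵥ x ∈ S) →
    ∃ S' : Submodule ℚ_[ℓ] (ι → ℚ_[ℓ]), S' ≤ Hm ℚ_[ℓ] deg m ∧
      (∀ s ∈ Δ, ∀ x ∈ S', ρ s *ᵥ x ∈ S') ∧ S ⊓ S' = ⊥ ∧ S ⊔ S' = Hm ℚ_[ℓ] deg m

end Pool.Agent.N211.SM
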