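import Pool.Agent.N211.SM.Stm

/-!
# SM/DET (helper619): the determinant of the image of an idempotent matrix
-/

set_option autoImplicit false
set_option linter.unusedSectionVars false

namespace Pool.Agent.N211.SM

namespace DET_


open Matrix

variable {E : Type} [Field E] {ι : Type} [Fintype ι] [DecidableEq ι]

theorem exists_BC (π : Matrix ι ι E) (h : π * π = π) :
    ∃ (d : ℕ) (B : Matrix ι (Fin d) E) (C : Matrix (Fin d) ι E), C * B = 1 ∧ B * C = π ∧
      d ≤ Fintype.card ι := by
  classical
  let V := LinearMap.range (Matrix.toLin' π)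
  let b := Module.finBasis E V
  let L : (ι → E) →ₗ[E] V := (Matrix.toLin' π).rangeRestrict
  refine ⟨Module.finrank E V, LinearMap.toMatrix' (V.subtype ∘ₗ b.equivFun.symm.toLinearMap),
    LinearMap.toMatrix' (b.equivFun.toLinearMap ∘ₗ L), ?_, ?_, ?_⟩
  · rw [← LinearMap.toMatrix'_comp, ← LinearMap.toMatrix'_id]
    congr 1
    apply LinearMap.ext
    intro x
    simp only [LinearMap.comp_apply, LinearEquiv.coe_coe, LinearMap.id_apply]
    have h1 : ∀ z : V, L (V.subtype z) = z := by
      rintro ⟨z, ⟨u, rfl⟩⟩
      apply Subtype.ext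
      change Matrix.toLin' π (Matrix.toLin' π u) = Matrix.toLin' π u
      rw [← LinearMap.comp_apply, ← Matrix.toLin'_mul, h]
    rw [h1, LinearEquiv.apply_symm_apply]
  · rw [← LinearMap.toMatrix'_comp]
    have h1 : (V.subtype ∘ₗ b.equivFun.symm.toLinearMap) ∘ₗ (b.equivFun.toLinearMap ∘ₗ L) =
        Matrix.toLin' π := by
      apply LinearMap.ext
      intro x
      simp only [LinearMap.comp_apply, LinearEquiv.coe_coe, LinearEquiv.symm_apply_apply]
      rfl
    rw [h1, LinearMap.toMatrix'_toLin']
  · calc Module.finrank E V ≤ Module.finrank E (ι → E) := Submodule.finrank_le _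
      _ = Fintype.card ι := Module.finrank_fintype_fun_eq_card E

/-- the array of the maximal minors -/
def mv {d : ℕ} (B : Matrix ι (Fin d) E) (w : Fin d → ι) : E := (B.submatrix w id).det

omit [DecidableEq ι] in
theorem det_mul_rect {d : ℕ} (P : Matrix (Fin d) ι E) (B : Matrix ι (Fin d) E) [DecidableEq ι] :
    (P * B).det = ∑ w : Fin d → ι, (∏ a, P a (w a)) * mv B w := by
  have h1 : (P * B) = fun a => ∑ i, P a i • B i := by
    funext a j
    rw [Matrix.mul_apply, Finset.sum_apply]
    rfl
  have h2 := (Matrix.detRowAlternating (R := E) (n := Fin d)).toMultilinearMap.map_sum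
    (fun a i => P a i • B i)
  have h3 : (P * B).det = Matrix.detRowAlternating (fun a => ∑ i, P a i • B i) := by
    rw [h1]; rfl
  rw [h3]
  refine Eq.trans h2 ?_
  refine Finset.sum_congr rfl fun w _ => ?_
  have h4 := (Matrix.detRowAlternating (R := E) (n := Fin d)).toMultilinearMap.map_smul_univ
    (fun a => P a (w a)) (fun a => B (w a))
  exact h4

theorem sum_updateRow {d : ℕ} (A N : Matrix (Fin d) (Fin d) E) :
    ∑ k, (A.updateRow k ((A * N) k)).det = N.trace * A.det := by
  have h1 : ∀ k, (A.updateRow k ((A * N) k)).det = ∑ i, A.adjugate i k * (A * N) k i := by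
    intro k
    rw [← Matrix.cramer_transpose_apply, Matrix.cramer_eq_adjugate_mulVec,
      ← Matrix.adjugate_transpose]
    rfl
  rw [Finset.sum_congr rfl fun k _ => h1 k]
  have h2 : (A.adjugate * (A * N)).trace = N.trace * A.det := by
    rw [← Matrix.mul_assoc, Matrix.adjugate_mul, Matrix.smul_mul, Matrix.one_mul,
      Matrix.trace_smul, smul_eq_mul, mul_comm]
  rw [← h2, Matrix.trace]
  rw [Finset.sum_comm]
  rfl


section act

open Pool.Agent.N996.BP Pool.Agent.N202.TB

theorem kp_mv {d : ℕ} (g : Matrix ι ι E) (B : Matrix ι (Fin d) E) (w : Fin d → ι) :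
    (kp (Fin d) g *ᵥ mv B) w = mv (g * B) w := by
  have h1 := det_mul_rect (g.submatrix w id) B
  have h2 : g.submatrix w id * B = (g * B).submatrix w id := by
    ext a j
    rfl
  rw [mv, ← h2, h1]
  rfl

theorem dp_mv {d : ℕ} (y : Matrix ι ι E) (B : Matrix ι (Fin d) E) (w : Fin d → ι) :
    (dp (Fin d) y *ᵥ mv B) w =
      ∑ k, ((B.submatrix w id).updateRow k ((y * B) (w k))).det := by
  have h1 : ∀ k : Fin d, ((B.submatrix w id).updateRow k ((y * B) (w k))).det =
      ∑ w' : Fin d → ι, (y (w k) (w' k) *
        ∏ j ∈ Finset.univ.erase k, (if w j = w' j then 1 else 0)) * mv B w' := by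
    intro k
    have h2 := det_mul_rect (Matrix.of fun a i =>
      if a = k then y (w k) i else (if w a = i then (1 : E) else 0)) B
    have h3 : (Matrix.of fun a i =>
        if a = k then y (w k) i else (if w a = i then (1 : E) else 0)) * B =
        (B.submatrix w id).updateRow k ((y * B) (w k)) := by
      ext a j
      rw [Matrix.mul_apply]
      by_cases ha : a = k
      · subst ha
        rw [Matrix.updateRow_self, Matrix.mul_apply]
        exact Finset.sum_congr rfl fun i _ => by simp
      · rw [Matrix.updateRow_ne ha]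
        simp [ha]
    rw [← h3, h2]
    refine Finset.sum_congr rfl fun w' _ => ?_
    congr 1
    rw [← Finset.mul_prod_erase Finset.univ _ (Finset.mem_univ k)]
    congr 1
    · simp
    · refine Finset.prod_congr rfl fun j hj => ?_
      have hj' : j ≠ k := Finset.ne_of_mem_erase hj
      simp [hj']
  rw [Finset.sum_congr rfl fun k _ => h1 k, Finset.sum_comm]
  rw [Matrix.mulVec, dotProduct]
  refine Finset.sum_congr rfl fun w' _ => ?_
  rw [← Finset.sum_mul]
  rfl

end act

end DET_

open Matrix Pool.Agent.N996.BP Pool.Agent.N202.TB in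
theorem t_DET : S_DET := by
  intro E _ _ ι _ _ π hπ hπ0
  obtain ⟨d, B, C, hCB, hBC, hd⟩ := DET_.exists_BC π hπ
  have hπB : π * B = B := by
    rw [← hBC, Matrix.mul_assoc, hCB, Matrix.mul_one]
  have hd0 : 0 < d := by
    rcases Nat.eq_zero_or_pos d with h | h
    · exfalso
      apply hπ0
      subst h
      rw [← hBC]
      ext i j
      rw [Matrix.mul_apply]
      simp
    · exact h
  refine ⟨d, DET_.mv B, hd0, hd, ?_, ?_, ?_, ?_, ?_⟩
  · rw [← hBC, Matrix.trace_mul_comm, hCB, Matrix.trace_one, Fintype.card_fin]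
  · intro h0
    have h1 := DET_.det_mul_rect C B
    rw [hCB, Matrix.det_one, h0] at h1
    simp at h1
  · intro w hw k
    by_contra hcon
    push Not at hcon
    apply hw
    refine Matrix.det_eq_zero_of_row_eq_zero k fun j => ?_
    rw [Matrix.submatrix_apply, ← hπB, Matrix.mul_apply]
    exact Finset.sum_eq_zero fun i _ => by rw [hcon i, zero_mul]
  · intro y hy
    have hyB : y * B = B * (C * y * B) := by
      calc y * B = y * (π * B) := by rw [hπB]
        _ = (y * π) * B := (Matrix.mul_assoc _ _ _).symm
        _ = (π * y) * B := by rw [hy]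
        _ = B * (C * y * B) := by rw [← hBC]; simp only [Matrix.mul_assoc]
    have htr : (C * y * B).trace = (y * π).trace := by
      rw [Matrix.mul_assoc, Matrix.trace_mul_comm, Matrix.mul_assoc, hBC]
    funext w
    rw [DET_.dp_mv, Pi.smul_apply, smul_eq_mul, ← htr]
    have h1 := DET_.sum_updateRow (B.submatrix w id) (C * y * B)
    rw [DET_.mv, ← h1]
    refine Finset.sum_congr rfl fun k _ => ?_
    congr 2
    rw [hyB]
    rfl
  · intro g hg
    have hgB : g * B = B * (C * g * B) := by
      calc g * B = g * (π * B) := by rw [hπB]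
        _ = (g * π) * B := (Matrix.mul_assoc _ _ _).symm
        _ = (π * g) * B := by rw [hg]
        _ = B * (C * g * B) := by rw [← hBC]; simp only [Matrix.mul_assoc]
    refine ⟨(C * g * B).det, ?_⟩
    funext w
    rw [DET_.kp_mv, Pi.smul_apply, smul_eq_mul, hgB, DET_.mv, DET_.mv]
    have h2 : (B * (C * g * B)).submatrix w id = B.submatrix w id * (C * g * B) := by
      ext a j
      rfl
    rw [h2, Matrix.det_mul, mul_comm]

end Pool.Agent.N211.SM
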