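import Pool.Agent.N211.SM.Det
import Pool.Agent.N211.SM.Defs3

/-!
# The determinant of the image of an idempotent matrix, with its symmetries
-/

set_option linter.unusedSectionVars false

namespace Pool.Agent.N211.SM

open Matrix Pool.Agent.N996.BP Pool.Agent.N202.TB

/-- The determinant, its invariance and its symmetry. -/
theorem det2 {E : Type} [Field E] [CharZero E] {ι : Type} [Fintype ι] [DecidableEq ι]
    {π : Matrix ι ι E} (hπ : π * π = π) (hπ0 : π ≠ 0) : ∃ (d : ℕ) (v : (Fin d → ι) → E), 0 < d ∧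
    π.trace = (d : E) ∧ v ≠ 0 ∧ (∀ w, v w ≠ 0 → ∀ k, ∃ i, π (w k) i ≠ 0) ∧
    (∀ y : Matrix ι ι E, y * π = π * y → dp (Fin d) y *ᵥ v = (y * π).trace • v) ∧
    (∀ g : Matrix ι ι E, g * π = π * g → ∃ c : E, kp (Fin d) g *ᵥ v = c • v) ∧
    kp (Fin d) π *ᵥ v = v ∧
    ∀ (σ : Equiv.Perm (Fin d)) (w : Fin d → ι), v (fun k => w (σ k)) = Equiv.Perm.sign σ • v w := by
  obtain ⟨d, B, C, hCB, hBC, hd⟩ := DET_.exists_BC π hπ
  have hπB : π * B = B := by
    rw [← hBC, Matrix.mul_assoc, hCB, Matrix.mul_one]
  have hd0 : 0 < d := by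
    rcases Nat.eq_zero_or_pos d with h | h
    · exfalso
      apply hπ0
      subst h
      rw [← hBC]
      ext i j
      rw [Matrix.mul_apply]
      simp
    · exact h
  refine ⟨d, DET_.mv B, hd0, ?_, ?_, ?_, ?_, ?_, ?_, ?_⟩
  · rw [← hBC, Matrix.trace_mul_comm, hCB, Matrix.trace_one, Fintype.card_fin]
  · intro h0
    have h1 := DET_.det_mul_rect C B
    rw [hCB, Matrix.det_one, h0] at h1
    simp at h1
  · intro w hw k
    by_contra hcon
    push Not at hcon
    apply hw
    refine Matrix.det_eq_zero_of_row_eq_zero k fun j => ?_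
    rw [Matrix.submatrix_apply, ← hπB, Matrix.mul_apply]
    exact Finset.sum_eq_zero fun i _ => by rw [hcon i, zero_mul]
  · intro y hy
    have hyB : y * B = B * (C * y * B) := by
      calc y * B = y * (π * B) := by rw [hπB]
        _ = (y * π) * B := (Matrix.mul_assoc _ _ _).symm
        _ = (π * y) * B := by rw [hy]
        _ = B * (C * y * B) := by rw [← hBC]; simp only [Matrix.mul_assoc]
    have htr : (C * y * B).trace = (y * π).trace := by
      rw [Matrix.mul_assoc, Matrix.trace_mul_comm, Matrix.mul_assoc, hBC]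
    funext w
    rw [DET_.dp_mv, Pi.smul_apply, smul_eq_mul, ← htr]
    have h1 := DET_.sum_updateRow (B.submatrix w id) (C * y * B)
    rw [DET_.mv, ← h1]
    refine Finset.sum_congr rfl fun k _ => ?_
    congr 2
    rw [hyB]
    rfl
  · intro g hg
    have hgB : g * B = B * (C * g * B) := by
      calc g * B = g * (π * B) := by rw [hπB]
        _ = (g * π) * B := (Matrix.mul_assoc _ _ _).symm
        _ = (π * g) * B := by rw [hg]
        _ = B * (C * g * B) := by rw [← hBC]; simp only [Matrix.mul_assoc]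
    refine ⟨(C * g * B).det, ?_⟩
    funext w
    rw [DET_.kp_mv, Pi.smul_apply, smul_eq_mul, hgB, DET_.mv, DET_.mv]
    have h2 : (B * (C * g * B)).submatrix w id = B.submatrix w id * (C * g * B) := by
      ext a j
      rfl
    rw [h2, Matrix.det_mul, mul_comm]
  · funext w
    rw [DET_.kp_mv, hπB]
  · intro σ w
    have h1 := Matrix.det_permute σ (B.submatrix w id)
    change ((B.submatrix w id).submatrix σ id).det = _
    rw [h1, Units.smul_def, zsmul_eq_mul]
    rfl

/-- The rank of an idempotent is at most the Betti number. -/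
lemma det_card {E : Type} [Field E] [CharZero E] {ι : Type} [Fintype ι] [DecidableEq ι]
    {deg : ι → ℕ} {d m : ℕ} {v : (Fin d → ι) → E} (hv : v ≠ 0)
    (hdeg : ∀ w, v w ≠ 0 → ∀ k, deg (w k) = m)
    (hs : ∀ (σ : Equiv.Perm (Fin d)) (w : Fin d → ι), v (fun k => w (σ k)) =
      Equiv.Perm.sign σ • v w) : d ≤ betti deg m := by
  obtain ⟨w, hw⟩ := Function.ne_iff.1 hv
  rw [Pi.zero_apply] at hw
  have hinj : Function.Injective w := by
    intro a b hab
    by_contra hne
    apply hw
    have h1 := hs (Equiv.swap a b) w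
    have h2 : (fun k => w (Equiv.swap a b k)) = w := by
      funext k
      rcases eq_or_ne k a with rfl | ha
      · rw [Equiv.swap_apply_left, hab]
      · rcases eq_or_ne k b with rfl | hb
        · rw [Equiv.swap_apply_right, hab]
        · rw [Equiv.swap_apply_of_ne_of_ne ha hb]
    rw [h2, Equiv.Perm.sign_swap hne, Units.neg_smul, one_smul] at h1
    exact self_eq_neg.1 h1
  have h1 : (Finset.univ : Finset (Fin d)).card ≤ (Finset.univ.filter fun i => deg i = m).card :=
    Finset.card_le_card_of_injOn w (fun k _ => by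
      rw [Finset.mem_coe, Finset.mem_filter]
      exact ⟨Finset.mem_univ _, hdeg w hw k⟩) hinj.injOn
  rwa [Finset.card_univ, Fintype.card_fin] at h1

end Pool.Agent.N211.SM
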