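import Pool.Agent.N211.SM.Stm2

/-!
# Engel's theorem for matrices
-/

set_option autoImplicit false

namespace Pool.Agent.N211.SM

open Matrix

namespace Eng

attribute [local instance 100] LieRing.ofAssociativeRing

/-- Engel's theorem for matrices. -/
theorem eng (K : Type) [Field K] (ι : Type) [Fintype ι] [DecidableEq ι]
    (a : Submodule K (Matrix ι ι K)) (ha : ∀ x ∈ a, ∀ y ∈ a, x * y - y * x ∈ a)
    (hn : ∀ x ∈ a, IsNilpotent x) (W : Submodule K (ι → K)) (hW : W ≠ ⊥)
    (hst : ∀ x ∈ a, ∀ w ∈ W, x *ᵥ w ∈ W) : ∃ w ∈ W, w ≠ 0 ∧ ∀ x ∈ a, x *ᵥ w = 0 := by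
  let L : LieSubalgebra K (Matrix ι ι K) :=
    { a with
      lie_mem' := fun {x y} hx hy => by
        rw [Ring.lie_def]
        exact ha x hx y hy }
  have hL : ∀ x : L, x.1 ∈ a := fun x => x.2
  let φ₀ : L → Module.End K W := fun x =>
    (Matrix.toLin' x.1).restrict (fun w hw => hst x.1 (hL x) w hw)
  have hφ₀ : ∀ (x : L) (w : W), ((φ₀ x w : W) : ι → K) = x.1 *ᵥ (w : ι → K) := fun x w => rfl
  let φ : L →ₗ⁅K⁆ Module.End K W :=
    { toFun := φ₀
      map_add' := fun x y => by
        ext w : 1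
        apply Subtype.ext
        rw [LinearMap.add_apply, Submodule.coe_add, hφ₀, hφ₀, hφ₀]
        exact Matrix.add_mulVec x.1 y.1 (w : ι → K)
      map_smul' := fun c x => by
        ext w : 1
        apply Subtype.ext
        rw [LinearMap.smul_apply, Submodule.coe_smul, hφ₀, hφ₀, RingHom.id_apply]
        exact Matrix.smul_mulVec c x.1 (w : ι → K)
      map_lie' := fun {x y} => by
        ext w : 1
        apply Subtype.ext
        rw [Ring.lie_def, LinearMap.sub_apply, Module.End.mul_apply, Module.End.mul_apply,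
          Submodule.coe_sub, hφ₀, hφ₀, hφ₀, hφ₀, hφ₀, LieSubalgebra.coe_bracket, Ring.lie_def,
          Matrix.sub_mulVec, Matrix.mulVec_mulVec, Matrix.mulVec_mulVec] }
  have hφ : ∀ x : L, φ x = φ₀ x := fun x => rfl
  let i1 : LieRingModule L W := LieRingModule.compLieHom W φ
  have i2 : LieModule K L W := LieModule.compLieHom W φ
  have hact : ∀ (x : L) (w : W), ⁅x, w⁆ = φ₀ x w := fun x w => rfl
  have hpow : ∀ (x : L) (k : ℕ) (w : W), (((φ₀ x) ^ k) w : ι → K) = (x.1 ^ k) *ᵥ (w : ι → K) := by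
    intro x k
    induction k with
    | zero =>
      intro w
      rw [pow_zero, pow_zero, Matrix.one_mulVec]
      rfl
    | succ k ih =>
      intro w
      rw [pow_succ', Module.End.mul_apply, hφ₀, ih, Matrix.mulVec_mulVec, ← pow_succ']
  have h1 : LieModule.IsNilpotent L W := by
    rw [LieModule.isNilpotent_iff_forall' (R := K)]
    intro x
    obtain ⟨k, hk⟩ := hn x.1 (hL x)
    refine ⟨k, ?_⟩
    have h2 : LieModule.toEnd K L W x = φ₀ x := LinearMap.ext fun w => hact x w
    rw [h2]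
    ext w : 1
    apply Subtype.ext
    rw [hpow, hk, Matrix.zero_mulVec]
    rfl
  have i3 : Nontrivial W := Submodule.nontrivial_iff_ne_bot.2 hW
  have h2 := LieModule.nontrivial_max_triv_of_isNilpotent K L W
  obtain ⟨w, hw⟩ := exists_ne (0 : LieModule.maxTrivSubmodule K L W)
  refine ⟨w.1.1, w.1.2, ?_, ?_⟩
  · intro h
    apply hw
    apply Subtype.ext
    apply Subtype.ext
    exact h
  · intro x hx
    have h3 := (LieModule.mem_maxTrivSubmodule (R := K) (L := L) (M := W) w.1).1 w.2 ⟨x, hx⟩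
    exact congrArg Subtype.val h3

end Eng

/-- SM/ENG: Engel's theorem. -/
theorem t_ENG : S_ENG := fun K _ ι _ _ a ha hn W hW hst => Eng.eng K ι a ha hn W hW hst

end Pool.Agent.N211.SM
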