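import Pool.Agent.N211.SM.Stm

/-!
# SM/EXT: the actions on arrays with indices in `ι ⊕ ι'`
-/

set_option autoImplicit false
set_option linter.unusedSectionVars false

namespace Pool.Agent.N211.SM

open Matrix
open Pool.Agent.N996.BP Pool.Agent.N202.TB Pool.Agent.N202.NC

namespace EXT

section gen

variable {E : Type} [Field E] {W W' : Type}

/-- `Y` is an extension of `y` by zero along `e` -/
structure Cmp (e : W → W') (y : Matrix W W E) (Y : Matrix W' W' E) : Prop where
  inj : Function.Injective e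
  eq : ∀ i j, Y (e i) (e j) = y i j
  l : ∀ i j, j ∉ Set.range e → Y (e i) j = 0
  r : ∀ i j, j ∉ Set.range e → Y j (e i) = 0

variable {e : W → W'} {y : Matrix W W E} {Y : Matrix W' W' E}

lemma not_range {n : ℕ} {w : Fin n → W'} (hw : w ∉ Set.range fun (u : Fin n → W) k => e (u k)) :
    ∃ k, w k ∉ Set.range e := by
  by_contra h
  push Not at h
  choose u hu using h
  exact hw ⟨u, funext hu⟩

lemma Cmp.res [Fintype W] [Fintype W'] (h : Cmp e y Y) (a : W' → E) (u : W) :
    (Y *ᵥ a) (e u) = (y *ᵥ fun i => a (e i)) u := by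
  rw [Matrix.mulVec, Matrix.mulVec, dotProduct, dotProduct]
  symm
  refine Fintype.sum_of_injective e h.inj _ _ ?_ ?_
  · intro j hj
    rw [h.l u j hj, zero_mul]
  · intro i
    rw [h.eq]

lemma Cmp.off [Fintype W] [Fintype W'] (h : Cmp e y Y) (a : W' → E)
    (ha : ∀ w, w ∉ Set.range e → a w = 0) (w : W') (hw : w ∉ Set.range e) : (Y *ᵥ a) w = 0 := by
  rw [Matrix.mulVec, dotProduct]
  refine Finset.sum_eq_zero fun j _ => ?_
  by_cases hj : j ∈ Set.range e
  · obtain ⟨i, rfl⟩ := hj
    rw [h.r i w hw, zero_mul]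
  · rw [ha j hj, mul_zero]

lemma Cmp.kp [Fintype W] [DecidableEq W] [Fintype W'] [DecidableEq W'] (h : Cmp e y Y) (n : ℕ) :
    Cmp (fun (u : Fin n → W) k => e (u k))
    (Pool.Agent.N996.BP.kp (Fin n) y) (Pool.Agent.N996.BP.kp (Fin n) Y) where
  inj := fun u v huv => funext fun k => h.inj (congrFun huv k)
  eq := fun u v => by
    rw [kp_apply, kp_apply]
    exact Finset.prod_congr rfl fun k _ => h.eq _ _
  l := fun u w hw => by
    obtain ⟨k, hk⟩ := not_range hw
    rw [kp_apply]
    exact Finset.prod_eq_zero (Finset.mem_univ k) (h.l _ _ hk)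
  r := fun u w hw => by
    obtain ⟨k, hk⟩ := not_range hw
    rw [kp_apply]
    exact Finset.prod_eq_zero (Finset.mem_univ k) (h.r _ _ hk)

lemma Cmp.dp [DecidableEq W] [DecidableEq W'] (h : Cmp e y Y) (n : ℕ) :
    Cmp (fun (u : Fin n → W) k => e (u k))
    (Pool.Agent.N202.TB.dp (Fin n) y) (Pool.Agent.N202.TB.dp (Fin n) Y) where
  inj := fun u v huv => funext fun k => h.inj (congrFun huv k)
  eq := fun u v => by
    simp only [Pool.Agent.N202.TB.dp, Matrix.of_apply, h.eq, h.inj.eq_iff]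
  l := fun u w hw => by
    obtain ⟨k, hk⟩ := not_range hw
    simp only [Pool.Agent.N202.TB.dp, Matrix.of_apply]
    refine Finset.sum_eq_zero fun j _ => ?_
    by_cases hj : j = k
    · rw [hj, h.l _ _ hk, zero_mul]
    · have h0 : ∏ i ∈ Finset.univ.erase j, (if e (u i) = w i then (1 : E) else 0) = 0 := by
        refine Finset.prod_eq_zero (Finset.mem_erase.2 ⟨fun h' => hj h'.symm, Finset.mem_univ k⟩) ?_
        rw [if_neg]
        exact fun h' => hk ⟨_, h'⟩
      rw [h0, mul_zero]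
  r := fun u w hw => by
    obtain ⟨k, hk⟩ := not_range hw
    simp only [Pool.Agent.N202.TB.dp, Matrix.of_apply]
    refine Finset.sum_eq_zero fun j _ => ?_
    by_cases hj : j = k
    · rw [hj, h.r _ _ hk, zero_mul]
    · have h0 : ∏ i ∈ Finset.univ.erase j, (if w i = e (u i) then (1 : E) else 0) = 0 := by
        refine Finset.prod_eq_zero (Finset.mem_erase.2 ⟨fun h' => hj h'.symm, Finset.mem_univ k⟩) ?_
        rw [if_neg]
        exact fun h' => hk ⟨_, h'.symm⟩
      rw [h0, mul_zero]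

end gen

section blocks

variable {E : Type} [Field E] {ι ι' : Type} [Fintype ι] [DecidableEq ι] [Fintype ι']
  [DecidableEq ι']

lemma cmp_l (y : Matrix ι ι E) (y' : Matrix ι' ι' E) :
    Cmp (Sum.inl : ι → ι ⊕ ι') y (blk y y') where
  inj := Sum.inl_injective
  eq := fun i j => by simp [blk]
  l := fun i j hj => by
    rcases j with j | j
    · exact absurd ⟨j, rfl⟩ hj
    · simp [blk]
  r := fun i j hj => by
    rcases j with j | j
    · exact absurd ⟨j, rfl⟩ hj
    · simp [blk]

lemma cmp_r (y : Matrix ι ι E) (y' : Matrix ι' ι' E) :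
    Cmp (Sum.inr : ι' → ι ⊕ ι') y' (blk y y') where
  inj := Sum.inr_injective
  eq := fun i j => by simp [blk]
  l := fun i j hj => by
    rcases j with j | j
    · simp [blk]
    · exact absurd ⟨j, rfl⟩ hj
  r := fun i j hj => by
    rcases j with j | j
    · simp [blk]
    · exact absurd ⟨j, rfl⟩ hj

lemma extl_inl {n : ℕ} (v : (Fin n → ι) → E) (u : Fin n → ι) :
    extl (ι' := ι') v (fun k => Sum.inl (u k)) = v u := by
  have h : ∀ k, ((fun k => (Sum.inl (u k) : ι ⊕ ι')) k).isLeft = true := fun k => rfl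
  unfold extl
  rw [dif_pos h]
  rfl

lemma extr_inr {n : ℕ} (v : (Fin n → ι') → E) (u : Fin n → ι') :
    extr (ι := ι) v (fun k => Sum.inr (u k)) = v u := by
  have h : ∀ k, ((fun k => (Sum.inr (u k) : ι ⊕ ι')) k).isRight = true := fun k => rfl
  unfold extr
  rw [dif_pos h]
  rfl

lemma extl_off {n : ℕ} (v : (Fin n → ι) → E) (w : Fin n → ι ⊕ ι')
    (hw : w ∉ Set.range fun (u : Fin n → ι) k => (Sum.inl (u k) : ι ⊕ ι')) : extl v w = 0 := by
  unfold extl
  rw [dif_neg]
  intro h
  exact hw ⟨fun k => (w k).getLeft (h k), funext fun k => Sum.inl_getLeft _ _⟩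

lemma extr_off {n : ℕ} (v : (Fin n → ι') → E) (w : Fin n → ι ⊕ ι')
    (hw : w ∉ Set.range fun (u : Fin n → ι') k => (Sum.inr (u k) : ι ⊕ ι')) : extr v w = 0 := by
  unfold extr
  rw [dif_neg]
  intro h
  exact hw ⟨fun k => (w k).getRight (h k), funext fun k => Sum.inr_getRight _ _⟩

lemma ext_l {n : ℕ} {M : Matrix (Fin n → ι) (Fin n → ι) E}
    {N : Matrix (Fin n → ι ⊕ ι') (Fin n → ι ⊕ ι') E}
    (h : Cmp (fun (u : Fin n → ι) k => (Sum.inl (u k) : ι ⊕ ι')) M N) (a : (Fin n → ι) → E) :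
    N *ᵥ extl a = extl (M *ᵥ a) := by
  funext w
  by_cases hw : w ∈ Set.range fun (u : Fin n → ι) k => (Sum.inl (u k) : ι ⊕ ι')
  · obtain ⟨u, rfl⟩ := hw
    rw [h.res, extl_inl]
    simp only [extl_inl]
  · rw [h.off _ (extl_off a) w hw, extl_off _ w hw]

lemma ext_r {n : ℕ} {M : Matrix (Fin n → ι') (Fin n → ι') E}
    {N : Matrix (Fin n → ι ⊕ ι') (Fin n → ι ⊕ ι') E}
    (h : Cmp (fun (u : Fin n → ι') k => (Sum.inr (u k) : ι ⊕ ι')) M N) (a : (Fin n → ι') → E) :
    N *ᵥ extr a = extr (M *ᵥ a) := by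
  funext w
  by_cases hw : w ∈ Set.range fun (u : Fin n → ι') k => (Sum.inr (u k) : ι ⊕ ι')
  · obtain ⟨u, rfl⟩ := hw
    rw [h.res, extr_inr]
    simp only [extr_inr]
  · rw [h.off _ (extr_off a) w hw, extr_off _ w hw]

end blocks

section snoc

variable {E : Type} [Field E] {W : Type} [Fintype W] [DecidableEq W] {n : ℕ}

lemma sum_snoc (F : (Fin (n + 1) → W) → E) :
    ∑ w, F w = ∑ v : Fin n → W, ∑ x : W, F (Fin.snoc (α := fun _ => W) v x) := by
  rw [← Fintype.sum_equiv (Fin.snocEquiv (fun _ : Fin (n + 1) => W))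
    (fun p => F (Fin.snoc (α := fun _ => W) p.2 p.1)) F (fun p => rfl), Fintype.sum_prod_type,
    Finset.sum_comm]

lemma prod_erase' {m : ℕ} (k : Fin m) (f : Fin m → E) :
    ∏ j ∈ Finset.univ.erase k, f j = ∏ j, if j = k then 1 else f j := by
  rw [← Finset.prod_erase Finset.univ (a := k) (by simp)]
  refine Finset.prod_congr rfl fun j hj => ?_
  rw [if_neg (Finset.mem_erase.1 hj).1]

lemma prod_delta (v w : Fin n → W) :
    ∏ j, (if v j = w j then (1 : E) else 0) = if v = w then 1 else 0 := by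
  by_cases h : v = w
  · subst h
    simp
  · rw [if_neg h]
    obtain ⟨k, hk⟩ := Function.ne_iff.1 h
    exact Finset.prod_eq_zero (Finset.mem_univ k) (if_neg hk)

lemma dp_snoc (y : Matrix W W E) (w : Fin (n + 1) → W) (v : Fin n → W) (x : W) :
    dp (Fin (n + 1)) y w (Fin.snoc (α := fun _ => W) v x) =
      dp (Fin n) y (fun k => w k.castSucc) v * (if w (Fin.last n) = x then 1 else 0) +
      (if (fun k => w k.castSucc) = v then 1 else 0) * y (w (Fin.last n)) x := by
  simp only [Pool.Agent.N202.TB.dp, Matrix.of_apply]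
  rw [Fin.sum_univ_castSucc, Finset.sum_mul]
  congr 1
  · refine Finset.sum_congr rfl fun k _ => ?_
    rw [prod_erase', prod_erase', Fin.prod_univ_castSucc]
    simp only [Fin.snoc_castSucc, Fin.snoc_last, Fin.castSucc_inj]
    rw [if_neg (Fin.castSucc_lt_last k).ne']
    ring
  · rw [prod_erase', Fin.prod_univ_castSucc]
    simp only [Fin.snoc_castSucc, Fin.snoc_last, if_true]
    have h1 : ∀ j : Fin n, (if j.castSucc = Fin.last n then (1 : E) else
        if w j.castSucc = v j then 1 else 0) = if w j.castSucc = v j then 1 else 0 := fun j => by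
      rw [if_neg (Fin.castSucc_lt_last j).ne]
    simp only [h1]
    rw [prod_delta (fun k => w k.castSucc) v]
    ring

lemma snc_snoc (A : (Fin n → W) → E) (z : W → E) (v : Fin n → W) (x : W) :
    snc A z (Fin.snoc (α := fun _ => W) v x) = A v * z x := by
  unfold snc
  simp only [Fin.snoc_castSucc, Fin.snoc_last]

lemma snc_dp' (y : Matrix W W E) (A : (Fin n → W) → E) (z : W → E) :
    dp (Fin (n + 1)) y *ᵥ snc A z = snc (dp (Fin n) y *ᵥ A) z + snc A (y *ᵥ z) := by
  funext w
  rw [Matrix.mulVec, dotProduct, sum_snoc, Pi.add_apply]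
  simp only [dp_snoc, snc_snoc]
  have h1 : ∀ (v : Fin n → W) (x : W),
      (dp (Fin n) y (fun k => w k.castSucc) v * (if w (Fin.last n) = x then 1 else 0) +
        (if (fun k => w k.castSucc) = v then 1 else 0) * y (w (Fin.last n)) x) * (A v * z x) =
      dp (Fin n) y (fun k => w k.castSucc) v * A v * (if w (Fin.last n) = x then z x else 0) +
        (if (fun k => w k.castSucc) = v then A v else 0) * (y (w (Fin.last n)) x * z x) := by
    intro v x
    split_ifs <;> ring
  simp only [h1, Finset.sum_add_distrib]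
  congr 1
  · unfold snc
    rw [Matrix.mulVec, dotProduct, Finset.sum_mul]
    refine Finset.sum_congr rfl fun v _ => ?_
    rw [← Finset.mul_sum, Finset.sum_ite_eq, if_pos (Finset.mem_univ _)]
  · unfold snc
    rw [Matrix.mulVec, dotProduct]
    simp only [← Finset.mul_sum]
    rw [← Finset.sum_mul, Finset.sum_ite_eq, if_pos (Finset.mem_univ _)]

lemma snc_kp' (g : Matrix W W E) (A : (Fin n → W) → E) (z : W → E) :
    kp (Fin (n + 1)) g *ᵥ snc A z = snc (kp (Fin n) g *ᵥ A) (g *ᵥ z) := by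
  funext w
  rw [Matrix.mulVec, dotProduct, sum_snoc]
  simp only [snc_snoc, kp_apply, Fin.prod_univ_castSucc, Fin.snoc_castSucc, Fin.snoc_last]
  unfold snc
  rw [Matrix.mulVec, dotProduct, Matrix.mulVec, dotProduct, Finset.sum_mul_sum]
  refine Finset.sum_congr rfl fun v _ => Finset.sum_congr rfl fun x _ => ?_
  rw [kp_apply]
  ring

end snoc

end EXT

open EXT

theorem t_EXT : S_EXT where
  resl_dp := fun E _ ι ι' _ _ _ _ n y y' a => funext fun u => ((cmp_l y y').dp n).res a u
  resr_dp := fun E _ ι ι' _ _ _ _ n y y' a => funext fun u => ((cmp_r y y').dp n).res a u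
  resl_kp := fun E _ ι ι' _ _ _ _ n y y' a => funext fun u => ((cmp_l y y').kp n).res a u
  resr_kp := fun E _ ι ι' _ _ _ _ n y y' a => funext fun u => ((cmp_r y y').kp n).res a u
  extl_dp := fun E _ ι ι' _ _ _ _ n y y' a => ext_l ((cmp_l y y').dp n) a
  extr_dp := fun E _ ι ι' _ _ _ _ n y y' a => ext_r ((cmp_r y y').dp n) a
  extl_kp := fun E _ ι ι' _ _ _ _ n y y' a => ext_l ((cmp_l y y').kp n) a
  extr_kp := fun E _ ι ι' _ _ _ _ n y y' a => ext_r ((cmp_r y y').kp n) a
  snc_dp := fun E _ W _ _ n y A z => snc_dp' y A z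
  snc_kp := fun E _ W _ _ n g A z => snc_kp' g A z

end Pool.Agent.N211.SM
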