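import Pool.Agent.N211.SM.Stm

/-!
# The Lie algebra of the Galois group is reductive (`S_GRED`) (helper614)

After `exists_pr` in `Pool.Agent.N202.TB.Core5` (helper202).
-/

set_option autoImplicit false
set_option linter.unusedSectionVars false

namespace Pool.Agent.N211.SM

open Matrix
open Pool.Agent.N996.BP Pool.Agent.N202.TB Pool.Agent.N202.NC

namespace GRED

variable {ι : Type} [Fintype ι] [DecidableEq ι] {ℓ : ℕ} [Fact ℓ.Prime] {Γ : Type} [Group Γ]
  {deg : ι → ℕ} {G : Γ → Matrix ι ι ℚ_[ℓ]} {χ : Γ → ℚ_[ℓ]}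
  {U : Subgroup Γ} {Y : Γ → Matrix ι ι ℚ_[ℓ]} {lam : Γ → ℚ_[ℓ]}

/-- The span of the brackets. -/
noncomputable def brk (s : Submodule ℚ_[ℓ] (Matrix ι ι ℚ_[ℓ])) :
    Submodule ℚ_[ℓ] (Matrix ι ι ℚ_[ℓ]) :=
  Submodule.span ℚ_[ℓ] {c : Matrix ι ι ℚ_[ℓ] | ∃ u ∈ s, ∃ v ∈ s, c = u * v - v * u}

lemma ad_Yt {u : Γ} {z : Matrix ι ι ℚ_[ℓ]} (hz : z ∈ E0 deg ℚ_[ℓ]) :
    Yt deg Y lam u * z - z * Yt deg Y lam u = Y u * z - z * Y u := by
  rw [Yt, Matrix.sub_mul, Matrix.mul_sub, Matrix.smul_mul, Matrix.mul_smul, DD_comm hz]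
  abel

lemma bracket_mem (hL : Logs G χ U Y lam) (hG : GalArr deg G χ) {x y : Matrix ι ι ℚ_[ℓ]}
    (hx : x ∈ lie deg U Y lam) (hy : y ∈ lie deg U Y lam) :
    x * y - y * x ∈ lie deg U Y lam := by
  induction hx using Submodule.span_induction with
  | mem x hx =>
    obtain ⟨u, hu, rfl⟩ := hx
    rw [ad_Yt (lie_le_E0 hL hG hy)]
    exact ad_stable steps hL hG (fun g hg x hx => lie_stable hL hG hg hx) hu hy
  | zero => rw [Matrix.mul_zero, Matrix.zero_mul, sub_zero]; exact Submodule.zero_mem _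
  | add a b _ _ ha hb =>
    have h : (a + b) * y - y * (a + b) = (a * y - y * a) + (b * y - y * b) := by
      rw [Matrix.mul_add, Matrix.add_mul]
      abel
    rw [h]
    exact Submodule.add_mem _ ha hb
  | smul c a _ ha =>
    rw [Matrix.mul_smul, Matrix.smul_mul, ← smul_sub]
    exact Submodule.smul_mem _ _ ha

lemma brk_le (hL : Logs G χ U Y lam) (hG : GalArr deg G χ) :
    brk (lie deg U Y lam) ≤ lie deg U Y lam := by
  refine Submodule.span_le.2 ?_
  rintro _ ⟨u, hu, v, hv, rfl⟩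
  exact bracket_mem hL hG hu hv

lemma brk_stable (hL : Logs G χ U Y lam) (hG : GalArr deg G χ) {g : Γ} (hg : g ∈ U)
    {x : Matrix ι ι ℚ_[ℓ]} (hx : x ∈ brk (lie deg U Y lam)) :
    G g * x * G g⁻¹ ∈ brk (lie deg U Y lam) := by
  induction hx using Submodule.span_induction with
  | mem x hx =>
    obtain ⟨u, hu, v, hv, rfl⟩ := hx
    refine Submodule.subset_span ⟨_, lie_stable hL hG hg hu, _, lie_stable hL hG hg hv, ?_⟩
    have h1 : G g⁻¹ * G g = 1 := by
      have := hG.inv g⁻¹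
      rwa [inv_inv] at this
    have h2 : ∀ a b : Matrix ι ι ℚ_[ℓ], G g * a * G g⁻¹ * (G g * b * G g⁻¹) =
        G g * (a * b) * G g⁻¹ := by
      intro a b
      calc G g * a * G g⁻¹ * (G g * b * G g⁻¹) = G g * a * (G g⁻¹ * G g) * b * G g⁻¹ := by
            simp only [Matrix.mul_assoc]
        _ = _ := by
            rw [h1, Matrix.mul_one]
            simp only [Matrix.mul_assoc]
    rw [h2, h2, Matrix.mul_sub, Matrix.sub_mul]
  | zero => rw [Matrix.mul_zero, Matrix.zero_mul]; exact Submodule.zero_mem _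
  | add a b _ _ ha hb =>
    rw [Matrix.mul_add, Matrix.add_mul]
    exact Submodule.add_mem _ ha hb
  | smul c a _ ha =>
    rw [Matrix.mul_smul, Matrix.smul_mul]
    exact Submodule.smul_mem _ _ ha

end GRED

open GRED in
/-- **The Lie algebra of the Galois group is reductive.** -/
theorem t_GRED : S_GRED := by
  intro ℓ _ Γ _ ι _ _ deg G χ U Y lam hG hL hss y hy
  obtain ⟨V, hV, hc⟩ := hss U hL.fin (brk (lie deg U Y lam))
    fun g hg x hx => brk_stable hL hG hg hx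
  obtain ⟨c, hcm, v, hvm, hcv⟩ : ∃ c ∈ brk (lie deg U Y lam), ∃ v ∈ V, c + v = y := by
    have h1 : y ∈ brk (lie deg U Y lam) ⊔ V := by
      rw [hc.sup_eq_top]
      exact Submodule.mem_top
    exact Submodule.mem_sup.1 h1
  have hvy : y - c = v := by rw [← hcv]; abel
  have hvs : v ∈ lie deg U Y lam := by
    rw [← hvy]
    exact Submodule.sub_mem _ hy (brk_le hL hG hcm)
  refine ⟨c, hcm, ?_⟩
  rw [hvy]
  have hu : ∀ u ∈ U, Yt deg Y lam u * v - v * Yt deg Y lam u = 0 := by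
    intro u hu
    have h1 : Yt deg Y lam u * v - v * Yt deg Y lam u ∈ brk (lie deg U Y lam) :=
      Submodule.subset_span ⟨_, mem_lie hu, _, hvs, rfl⟩
    have h2 : Yt deg Y lam u * v - v * Yt deg Y lam u ∈ V := by
      rw [ad_Yt (lie_le_E0 hL hG hvs)]
      exact ad_stable steps hL hG hV hu hvm
    exact Submodule.disjoint_def.1 hc.disjoint _ h1 h2
  intro z hz
  have h3 : z ∈ LinearMap.ker (LinearMap.mulRight ℚ_[ℓ] v - LinearMap.mulLeft ℚ_[ℓ] v) := by
    refine lie_le (fun u hu' => ?_) hz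
    rw [LinearMap.mem_ker, LinearMap.sub_apply, LinearMap.mulRight_apply,
      LinearMap.mulLeft_apply, hu u hu']
  rw [LinearMap.mem_ker, LinearMap.sub_apply, LinearMap.mulRight_apply,
    LinearMap.mulLeft_apply, sub_eq_zero] at h3
  exact h3.symm

end Pool.Agent.N211.SM
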