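import Pool.Agent.N211.SM.Stm

/-!
Project SM (helper211), SM/IDEM: the centre of the algebra of the endomorphisms is spanned by
orthogonal idempotents over the complex numbers. Author: helper438.
-/

set_option autoImplicit false
set_option linter.unusedSectionVars false

namespace Pool.Agent.N211.SM

open Matrix ComplexConjugate
open Pool.Agent.N996.BP Pool.Agent.N202.TB Pool.Agent.N202.NC

namespace Idem

/-- a reduced finite dimensional commutative algebra is spanned by orthogonal idempotents -/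
theorem abs_idem (R : Type) [CommRing R] [Algebra ℂ R] [Module.Finite ℂ R] [IsReduced R] :
    ∃ (m : ℕ) (π : Fin m → R), ∑ s, π s = 1 ∧
      (∀ s s', π s * π s' = if s = s' then π s else 0) ∧ (∀ s, π s ≠ 0) ∧
      ∀ x, ∃ c : Fin m → ℂ, x = ∑ s, c s • π s := by
  classical
  have hA : IsArtinianRing R := IsArtinianRing.of_finite ℂ R
  have hF : Finite (MaximalSpectrum R) := inferInstance
  obtain ⟨m, ⟨e⟩⟩ := Finite.exists_equiv_fin (MaximalSpectrum R)
  let φ := IsArtinianRing.equivPi R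
  have hφ : ∀ (x : R) (I : MaximalSpectrum R), φ x I = Ideal.Quotient.mk I.asIdeal x :=
    fun x I => rfl
  have hinj : Function.Injective φ := φ.injective
  obtain ⟨π, hπ⟩ : ∃ π : Fin m → R, ∀ s, φ (π s) = Pi.single (e.symm s) 1 :=
    ⟨fun s => φ.symm (Pi.single (e.symm s) 1), fun s => φ.apply_symm_apply _⟩
  have hnt : ∀ I : MaximalSpectrum R, (1 : R ⧸ I.asIdeal) ≠ 0 := by
    intro I h
    have h1 := I.isMaximal.ne_top
    rw [← map_one (Ideal.Quotient.mk I.asIdeal), Ideal.Quotient.eq_zero_iff_mem] at h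
    exact h1 ((Ideal.eq_top_iff_one _).2 h)
  have hmul : ∀ s s', π s * π s' = if s = s' then π s else 0 := by
    intro s s'
    apply hinj
    rw [map_mul, hπ, hπ]
    split_ifs with h
    · rw [h, hπ, ← Pi.single_mul, mul_one]
    · rw [map_zero]
      funext I
      rw [Pi.mul_apply, Pi.zero_apply]
      by_cases h1 : I = e.symm s
      · have h2 : I ≠ e.symm s' := fun h3 => h (e.symm.injective (h1.symm.trans h3))
        rw [Pi.single_eq_of_ne h2, mul_zero]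
      · rw [Pi.single_eq_of_ne h1, zero_mul]
  have hone : ∑ s, π s = 1 := by
    apply hinj
    rw [map_sum, map_one]
    funext I
    rw [Finset.sum_apply, Finset.sum_eq_single (e I)]
    · rw [hπ, Equiv.symm_apply_apply, Pi.single_eq_same]
      rfl
    · intro s _ hs
      rw [hπ, Pi.single_eq_of_ne]
      intro h
      apply hs
      rw [h, Equiv.apply_symm_apply]
    · intro h
      exact absurd (Finset.mem_univ _) h
  refine ⟨m, π, hone, hmul, ?_, ?_⟩
  · intro s h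
    have h1 := hπ s
    rw [h, map_zero] at h1
    have h2 := congrFun h1 (e.symm s)
    rw [Pi.zero_apply, Pi.single_eq_same] at h2
    exact hnt _ h2.symm
  · intro x
    have hsurj : ∀ I : MaximalSpectrum R, ∃ c : ℂ,
        Ideal.Quotient.mk I.asIdeal x = Ideal.Quotient.mk I.asIdeal (algebraMap ℂ R c) := by
      intro I
      have := I.isMaximal
      let _ : Field (R ⧸ I.asIdeal) := Ideal.Quotient.field I.asIdeal
      have h1 : Function.Bijective (algebraMap ℂ (R ⧸ I.asIdeal)) :=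
        IsAlgClosed.algebraMap_bijective_of_isIntegral
      obtain ⟨c, hc⟩ := h1.2 (Ideal.Quotient.mk I.asIdeal x)
      exact ⟨c, hc.symm⟩
    choose c hc using hsurj
    refine ⟨fun s => c (e.symm s), ?_⟩
    apply hinj
    rw [map_sum]
    funext I
    rw [Finset.sum_apply, Finset.sum_eq_single (e I)]
    · change φ x I = φ (c (e.symm (e I)) • π (e I)) I
      rw [Equiv.symm_apply_apply, Algebra.smul_def, map_mul, hπ, Pi.mul_apply,
        Equiv.symm_apply_apply, Pi.single_eq_same, mul_one, hφ, hφ]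
      exact hc I
    · intro s _ hs
      rw [Algebra.smul_def, map_mul, hπ, Pi.mul_apply, Pi.single_eq_of_ne, mul_zero]
      intro h
      apply hs
      rw [h, Equiv.apply_symm_apply]
    · intro h
      exact absurd (Finset.mem_univ _) h

/-- the same for commutative subalgebras without nilpotent elements -/
theorem sub_idem {M : Type} [Ring M] [Algebra ℂ M] [Module.Finite ℂ M] (A : Subalgebra ℂ M)
    (hcomm : ∀ x ∈ A, ∀ y ∈ A, x * y = y * x) (hred : ∀ x ∈ A, IsNilpotent x → x = 0) :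
    ∃ (m : ℕ) (π : Fin m → M), ∑ s, π s = 1 ∧
      (∀ s s', π s * π s' = if s = s' then π s else 0) ∧ (∀ s, π s ≠ 0) ∧ (∀ s, π s ∈ A) ∧
      ∀ x ∈ A, ∃ c : Fin m → ℂ, x = ∑ s, c s • π s := by
  let _ : CommRing A := { (inferInstance : Ring A) with
    mul_comm := fun x y => Subtype.ext (hcomm x x.2 y y.2) }
  have h1 : IsReduced A := ⟨fun x hx => by
    apply Subtype.ext
    refine hred x x.2 ?_
    obtain ⟨n, hn⟩ := hx
    exact ⟨n, by
      have := congrArg (Subtype.val) hn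
      simpa using this⟩⟩
  have h2 : Module.Finite ℂ A := inferInstanceAs (Module.Finite ℂ (Subalgebra.toSubmodule A))
  obtain ⟨m, π, a1, a2, a3, a4⟩ := abs_idem A
  refine ⟨m, fun s => (π s : M), ?_, ?_, ?_, fun s => (π s).2, ?_⟩
  · have h5 : ∑ s, (π s : M) = ((∑ s, π s : A) : M) := (map_sum A.val π _).symm
    exact h5.trans (congrArg Subtype.val a1)
  · intro s s'
    have := congrArg (Subtype.val) (a2 s s')
    have e1 : (π s * π s').val = (π s : M) * π s' := rfl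
    rw [e1] at this
    rw [this]
    split_ifs <;> rfl
  · intro s h
    exact a3 s (Subtype.ext h)
  · intro x hx
    obtain ⟨c, hc⟩ := a4 ⟨x, hx⟩
    refine ⟨c, ?_⟩
    have := congrArg (A.val) hc
    rw [map_sum] at this
    exact this

/-! ### The centre -/

variable {ι : Type} [Fintype ι] [DecidableEq ι]

lemma cQ_add (x y : Matrix ι ι ℚ) : cQ (x + y) = cQ x + cQ y := by
  ext i j; simp [cQ]

lemma cQ_smul (c : ℚ) (x : Matrix ι ι ℚ) : cQ (c • x) = (c : ℂ) • cQ x := by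
  ext i j; simp [cQ]

lemma cQ_tr (x : Matrix ι ι ℚ) : (cQ x)ᵀ = cQ xᵀ := rfl

lemma one_E0 (deg : ι → ℕ) : (1 : Matrix ι ι ℚ) ∈ E0 deg ℚ := by
  intro i j hne
  rw [Matrix.one_apply_ne]
  rintro rfl
  exact hne rfl

variable {H : HData ι} {deg : ι → ℕ}

lemma En_mul {x y : Matrix ι ι ℚ} (hx : En H deg x) (hy : En H deg y) : En H deg (x * y) := by
  refine ⟨E0_mul hx.1 hy.1, fun t ht => ?_⟩
  rw [cQ_mul, ← Matrix.mul_assoc, hx.2 t ht, Matrix.mul_assoc, hy.2 t ht, Matrix.mul_assoc]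

lemma En_one : En H deg 1 :=
  ⟨one_E0 deg, fun t _ => by rw [cQ_one, Matrix.mul_one, Matrix.one_mul]⟩

lemma Cen_one : Cen H deg 1 :=
  ⟨En_one, fun y _ => by rw [Matrix.one_mul, Matrix.mul_one]⟩

lemma Cen_mul {x y : Matrix ι ι ℚ} (hx : Cen H deg x) (hy : Cen H deg y) :
    Cen H deg (x * y) := by
  refine ⟨En_mul hx.1 hy.1, fun z hz => ?_⟩
  rw [Matrix.mul_assoc, hy.2 z hz, ← Matrix.mul_assoc, hx.2 z hz, Matrix.mul_assoc]

/-- the elements of the centre as complex matrices -/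
def cenM (H : HData ι) (deg : ι → ℕ) : Submonoid (Matrix ι ι ℂ) where
  carrier := cQ '' {x | Cen H deg x}
  one_mem' := ⟨1, Cen_one, cQ_one⟩
  mul_mem' := by
    rintro _ _ ⟨x, hx, rfl⟩ ⟨y, hy, rfl⟩
    exact ⟨x * y, Cen_mul hx hy, cQ_mul x y⟩

/-- the algebra spanned by the centre -/
def cenA (H : HData ι) (deg : ι → ℕ) : Subalgebra ℂ (Matrix ι ι ℂ) :=
  Algebra.adjoin ℂ (cenM H deg : Set (Matrix ι ι ℂ))

lemma mem_cenA {z : Matrix ι ι ℂ} :
    z ∈ cenA H deg ↔ z ∈ Submodule.span ℂ (cQ '' {x | Cen H deg x}) := by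
  have h1 : Subalgebra.toSubmodule (cenA H deg) =
      Submodule.span ℂ (cQ '' {x | Cen H deg x}) := by
    rw [cenA, Algebra.adjoin_eq_span, Submonoid.closure_eq]
    rfl
  rw [← h1]
  rfl

lemma cenA_comm {x y : Matrix ι ι ℂ} (hx : x ∈ cenA H deg) (hy : y ∈ cenA H deg) :
    x * y = y * x := by
  rw [mem_cenA] at hx hy
  induction hx using Submodule.span_induction with
  | mem x hx =>
    obtain ⟨a, ha, rfl⟩ := hx
    induction hy using Submodule.span_induction with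
    | mem y hy =>
      obtain ⟨b, hb, rfl⟩ := hy
      rw [← cQ_mul, ← cQ_mul, ha.2 b hb.1]
    | zero => rw [Matrix.mul_zero, Matrix.zero_mul]
    | add y z _ _ h1 h2 => rw [Matrix.mul_add, Matrix.add_mul, h1, h2]
    | smul c y _ h1 => rw [Matrix.mul_smul, Matrix.smul_mul, h1]
  | zero => rw [Matrix.mul_zero, Matrix.zero_mul]
  | add x z _ _ h1 h2 => rw [Matrix.mul_add, Matrix.add_mul, h1, h2]
  | smul c x _ h1 => rw [Matrix.mul_smul, Matrix.smul_mul, h1]

/-! ### The adjoint -/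

lemma En_adj {P Pi : Matrix ι ι ℚ} (hP : P * Pi = 1) (h1 : P ∈ E0 deg ℚ) (h2 : Pi ∈ E0 deg ℚ)
    (h3 : ∀ t : ℂ, t ≠ 0 → (H.l t)ᵀ * cQ P = cQ P * H.l t⁻¹) {x : Matrix ι ι ℚ}
    (hx : En H deg x) : En H deg (Pi * xᵀ * P) := by
  have hxt : xᵀ ∈ E0 deg ℚ := fun i j h => hx.1 j i (Ne.symm h)
  refine ⟨E0_mul (E0_mul h2 hxt) h1, fun t ht => ?_⟩
  have hP1 : cQ P * cQ Pi = 1 := by rw [← cQ_mul, hP, cQ_one]
  have hP2 : cQ Pi * cQ P = 1 := mul_eq_one_comm.1 hP1
  have h4 := h3 t⁻¹ (inv_ne_zero ht)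
  rw [inv_inv] at h4
  -- `l t * Pi = Pi * (l t⁻¹)ᵀ`
  have h5 : H.l t * cQ Pi = cQ Pi * (H.l t⁻¹)ᵀ := by
    calc H.l t * cQ Pi = (cQ Pi * cQ P) * H.l t * cQ Pi := by rw [hP2, Matrix.one_mul]
      _ = cQ Pi * (cQ P * H.l t) * cQ Pi := by simp only [Matrix.mul_assoc]
      _ = cQ Pi * (H.l t⁻¹)ᵀ * (cQ P * cQ Pi) := by rw [← h4]; simp only [Matrix.mul_assoc]
      _ = _ := by rw [hP1, Matrix.mul_one]
  have h6 : (H.l t⁻¹)ᵀ * (cQ x)ᵀ = (cQ x)ᵀ * (H.l t⁻¹)ᵀ := by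
    rw [← Matrix.transpose_mul, ← Matrix.transpose_mul, hx.2 _ (inv_ne_zero ht)]
  rw [cQ_mul, cQ_mul, ← cQ_tr]
  calc H.l t * (cQ Pi * (cQ x)ᵀ * cQ P) = (H.l t * cQ Pi) * (cQ x)ᵀ * cQ P := by
        simp only [Matrix.mul_assoc]
    _ = cQ Pi * ((H.l t⁻¹)ᵀ * (cQ x)ᵀ) * cQ P := by rw [h5]; simp only [Matrix.mul_assoc]
    _ = cQ Pi * (cQ x)ᵀ * ((H.l t⁻¹)ᵀ * cQ P) := by rw [h6]; simp only [Matrix.mul_assoc]
    _ = _ := by rw [h4]; simp only [Matrix.mul_assoc]

/-- the adjoint of a rational matrix -/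
def adj (H : HData ι) (x : Matrix ι ι ℚ) : Matrix ι ι ℚ := H.Qir * xᵀ * H.Qr

lemma Qir_Qr (H : HData ι) : H.Qir * H.Qr = 1 := mul_eq_one_comm.1 H.Qr_Qir

lemma adj_mul (x y : Matrix ι ι ℚ) : adj H (x * y) = adj H y * adj H x := by
  unfold adj
  calc H.Qir * (x * y)ᵀ * H.Qr = H.Qir * yᵀ * 1 * xᵀ * H.Qr := by
        rw [Matrix.transpose_mul, Matrix.mul_one]; simp only [Matrix.mul_assoc]
    _ = _ := by rw [← H.Qr_Qir]; simp only [Matrix.mul_assoc]

lemma Cen_adj (hQ : ∀ i j, H.Qir i j ≠ 0 → deg i = deg j)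
    (hQr : ∀ i j, H.Qr i j ≠ 0 → deg i = deg j) {x : Matrix ι ι ℚ} (hx : Cen H deg x) :
    Cen H deg (adj H x) := by
  have e1 : H.Qir ∈ E0 deg ℚ := fun i j hne => by
    by_contra h
    exact hne (hQ i j h)
  have e2 : H.Qr ∈ E0 deg ℚ := fun i j hne => by
    by_contra h
    exact hne (hQr i j h)
  have e3 : H.Qirᵀ ∈ E0 deg ℚ := fun i j h => e1 j i (Ne.symm h)
  have e4 : H.Qrᵀ ∈ E0 deg ℚ := fun i j h => e2 j i (Ne.symm h)
  refine ⟨En_adj H.Qr_Qir e2 e1 (fun t ht => H.l_tr ht) hx.1, fun y hy => ?_⟩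
  -- `y` is an adjoint
  have h1 : En H deg (H.Qirᵀ * yᵀ * H.Qrᵀ) := by
    refine En_adj ?_ e4 e3 (fun t ht => ?_) hy
    · rw [← Matrix.transpose_mul, Qir_Qr, Matrix.transpose_one]
    · have h2 := congrArg Matrix.transpose (H.l_tr (inv_ne_zero ht))
      rw [Matrix.transpose_mul, Matrix.transpose_mul, Matrix.transpose_transpose, inv_inv] at h2
      exact h2.symm
  have h2 : adj H (H.Qirᵀ * yᵀ * H.Qrᵀ) = y := by
    unfold adj
    rw [Matrix.transpose_mul, Matrix.transpose_mul, Matrix.transpose_transpose,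
      Matrix.transpose_transpose, Matrix.transpose_transpose]
    calc H.Qir * (H.Qr * (y * H.Qir)) * H.Qr = (H.Qir * H.Qr) * y * (H.Qir * H.Qr) := by
          simp only [Matrix.mul_assoc]
      _ = y := by rw [Qir_Qr, Matrix.one_mul, Matrix.mul_one]
  have h3 := hx.2 _ h1
  have h4 := congrArg (adj H) h3
  rw [adj_mul x (H.Qirᵀ * yᵀ * H.Qrᵀ), adj_mul (H.Qirᵀ * yᵀ * H.Qrᵀ) x, h2] at h4
  exact h4.symm

/-! ### The hermitian form -/

/-- real matrices as complex ones -/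
def cR (M : Matrix ι ι ℝ) : Matrix ι ι ℂ := M.map (fun x : ℝ => (x : ℂ))

lemma cR_mul (M N : Matrix ι ι ℝ) : cR (M * N) = cR M * cR N := by
  ext i j; simp [cR, Matrix.mul_apply]

lemma cR_one : cR (1 : Matrix ι ι ℝ) = 1 := by
  ext i j
  rw [cR, Matrix.map_apply, Matrix.one_apply, Matrix.one_apply]
  split_ifs <;> simp

lemma cR_star (M : Matrix ι ι ℝ) : (cR M)ᴴ = cR Mᵀ := by
  ext i j; simp [cR]

lemma cQ_star (M : Matrix ι ι ℚ) : (cQ M)ᴴ = cQ Mᵀ := by
  ext i j; simp [cQ]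

/-- the adjoint for the hermitian form -/
def dag (H : HData ι) (z : Matrix ι ι ℂ) : Matrix ι ι ℂ :=
  cR (H.D.Mi * H.D.Miᵀ) * zᴴ * cR (H.D.Mᵀ * H.D.M)

lemma SSi (H : HData ι) : cR (H.D.Mᵀ * H.D.M) * cR (H.D.Mi * H.D.Miᵀ) = 1 := by
  have h3 : H.D.Mᵀ * H.D.M * (H.D.Mi * H.D.Miᵀ) = 1 := H.D.S_Si
  rw [← cR_mul, h3, cR_one]

lemma SiS (H : HData ι) : cR (H.D.Mi * H.D.Miᵀ) * cR (H.D.Mᵀ * H.D.M) = 1 :=
  mul_eq_one_comm.1 (SSi H)

lemma dag_mul (x y : Matrix ι ι ℂ) : dag H (x * y) = dag H y * dag H x := by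
  unfold dag
  calc cR (H.D.Mi * H.D.Miᵀ) * (x * y)ᴴ * cR (H.D.Mᵀ * H.D.M) =
      cR (H.D.Mi * H.D.Miᵀ) * yᴴ * 1 * xᴴ * cR (H.D.Mᵀ * H.D.M) := by
        rw [Matrix.conjTranspose_mul, Matrix.mul_one]; simp only [Matrix.mul_assoc]
    _ = _ := by rw [← SSi H]; simp only [Matrix.mul_assoc]

lemma dag_dag (x : Matrix ι ι ℂ) : dag H (dag H x) = x := by
  unfold dag
  rw [Matrix.conjTranspose_mul, Matrix.conjTranspose_mul, Matrix.conjTranspose_conjTranspose,
    cR_star, cR_star]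
  have e1 : (H.D.Mᵀ * H.D.M)ᵀ = H.D.Mᵀ * H.D.M := by
    rw [Matrix.transpose_mul, Matrix.transpose_transpose]
  have e2 : (H.D.Mi * H.D.Miᵀ)ᵀ = H.D.Mi * H.D.Miᵀ := by
    rw [Matrix.transpose_mul, Matrix.transpose_transpose]
  rw [e1, e2]
  calc cR (H.D.Mi * H.D.Miᵀ) * (cR (H.D.Mᵀ * H.D.M) * (x * cR (H.D.Mi * H.D.Miᵀ))) *
      cR (H.D.Mᵀ * H.D.M) = (cR (H.D.Mi * H.D.Miᵀ) * cR (H.D.Mᵀ * H.D.M)) * x *
      (cR (H.D.Mi * H.D.Miᵀ) * cR (H.D.Mᵀ * H.D.M)) := by simp only [Matrix.mul_assoc]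
    _ = x := by rw [SiS, Matrix.one_mul, Matrix.mul_one]

open scoped ComplexOrder in
lemma dag_pos {x : Matrix ι ι ℂ} (h : dag H x * x = 0) : x = 0 := by
  have hM1 : cR H.D.Mi * cR H.D.M = 1 := by rw [← cR_mul, H.D.hM', cR_one]
  have hM2 : cR H.D.M * cR H.D.Mi = 1 := mul_eq_one_comm.1 hM1
  obtain ⟨Y, hY⟩ : ∃ Y, Y = cR H.D.M * x * cR H.D.Mi := ⟨_, rfl⟩
  have h1 : Yᴴ * Y = cR H.D.M * (dag H x * x) * cR H.D.Mi := by
    rw [hY, Matrix.conjTranspose_mul, Matrix.conjTranspose_mul, cR_star, cR_star]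
    unfold dag
    rw [cR_mul, cR_mul]
    calc cR H.D.Miᵀ * (xᴴ * cR H.D.Mᵀ) * (cR H.D.M * x * cR H.D.Mi) =
        1 * cR H.D.Miᵀ * xᴴ * cR H.D.Mᵀ * cR H.D.M * x * cR H.D.Mi := by
          rw [Matrix.one_mul]; simp only [Matrix.mul_assoc]
      _ = _ := by rw [← hM2]; simp only [Matrix.mul_assoc]
  rw [h, Matrix.mul_zero, Matrix.zero_mul] at h1
  have h2 : Y = 0 := Matrix.conjTranspose_mul_self_eq_zero.1 h1
  calc x = (cR H.D.Mi * cR H.D.M) * x * (cR H.D.Mi * cR H.D.M) := by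
        rw [hM1, Matrix.one_mul, Matrix.mul_one]
    _ = cR H.D.Mi * Y * cR H.D.M := by rw [hY]; simp only [Matrix.mul_assoc]
    _ = 0 := by rw [h2, Matrix.mul_zero, Matrix.zero_mul]

lemma dag_cQ {x : Matrix ι ι ℚ} (hx : En H deg (adj H x)) : dag H (cQ x) = cQ (adj H x) := by
  have hS : H.D.Mᵀ * H.D.M = H.D.Q * H.D.C := H.D.hS
  have hC : cR H.D.C = H.l Complex.I := H.hC
  have hQ : cR H.D.Q = cQ H.Qr := by
    rw [H.hQr]
    ext i j
    simp [cR, cQ]
  have hQi : cR H.D.Qi = cQ H.Qir := by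
    rw [H.hQir]
    ext i j
    simp [cR, cQ]
  have hCC : cR H.D.C * cR H.D.Ci = 1 := by rw [← cR_mul, H.D.hC, cR_one]
  have hCC' : cR H.D.Ci * cR H.D.C = 1 := mul_eq_one_comm.1 hCC
  have hSi : cR (H.D.Mi * H.D.Miᵀ) = cR H.D.Ci * cR H.D.Qi := by
    have h1 : cR (H.D.Mᵀ * H.D.M) * (cR H.D.Ci * cR H.D.Qi) = 1 := by
      rw [hS, cR_mul]
      calc cR H.D.Q * cR H.D.C * (cR H.D.Ci * cR H.D.Qi) =
          cR H.D.Q * (cR H.D.C * cR H.D.Ci) * cR H.D.Qi := by simp only [Matrix.mul_assoc]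
        _ = 1 := by rw [hCC, Matrix.mul_one, ← cR_mul, H.D.hQ, cR_one]
    calc cR (H.D.Mi * H.D.Miᵀ) =
        cR (H.D.Mi * H.D.Miᵀ) * (cR (H.D.Mᵀ * H.D.M) * (cR H.D.Ci * cR H.D.Qi)) := by
          rw [h1, Matrix.mul_one]
      _ = (cR (H.D.Mi * H.D.Miᵀ) * cR (H.D.Mᵀ * H.D.M)) * (cR H.D.Ci * cR H.D.Qi) := by
          simp only [Matrix.mul_assoc]
      _ = _ := by rw [SiS, Matrix.one_mul]
  have h2 := hx.2 Complex.I Complex.I_ne_zero
  unfold dag
  rw [hSi, hS, cR_mul, cQ_star]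
  calc cR H.D.Ci * cR H.D.Qi * cQ xᵀ * (cR H.D.Q * cR H.D.C) =
      cR H.D.Ci * ((cQ H.Qir * cQ xᵀ * cQ H.Qr) * H.l Complex.I) := by
        rw [hQ, hQi, hC]; simp only [Matrix.mul_assoc]
    _ = cR H.D.Ci * (cQ (adj H x) * H.l Complex.I) := by
        rw [← cQ_mul, ← cQ_mul]; rfl
    _ = (cR H.D.Ci * cR H.D.C) * cQ (adj H x) := by
        rw [← h2, hC]; simp only [Matrix.mul_assoc]
    _ = _ := by rw [hCC', Matrix.one_mul]

lemma dag_add (x y : Matrix ι ι ℂ) : dag H (x + y) = dag H x + dag H y := by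
  unfold dag
  rw [Matrix.conjTranspose_add, Matrix.mul_add, Matrix.add_mul]

lemma dag_smul (c : ℂ) (x : Matrix ι ι ℂ) : dag H (c • x) = star c • dag H x := by
  unfold dag
  rw [Matrix.conjTranspose_smul, Matrix.mul_smul, Matrix.smul_mul]

lemma dag_zero : dag H (0 : Matrix ι ι ℂ) = 0 := by
  unfold dag
  rw [Matrix.conjTranspose_zero, Matrix.mul_zero, Matrix.zero_mul]

lemma dag_mem (hQ : ∀ i j, H.Qir i j ≠ 0 → deg i = deg j)
    (hQr : ∀ i j, H.Qr i j ≠ 0 → deg i = deg j) {z : Matrix ι ι ℂ} (hz : z ∈ cenA H deg) :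
    dag H z ∈ cenA H deg := by
  rw [mem_cenA] at hz ⊢
  induction hz using Submodule.span_induction with
  | mem x hx =>
    obtain ⟨a, ha, rfl⟩ := hx
    have h1 := Cen_adj hQ hQr ha
    rw [dag_cQ h1.1]
    exact Submodule.subset_span ⟨_, h1, rfl⟩
  | zero => rw [dag_zero]; exact Submodule.zero_mem _
  | add y z _ _ h1 h2 => rw [dag_add]; exact Submodule.add_mem _ h1 h2
  | smul c y _ h1 => rw [dag_smul]; exact Submodule.smul_mem _ _ h1

lemma dag_sa {x : Matrix ι ι ℂ} (hx : dag H x = x) (k : ℕ) (h : x ^ (2 ^ k) = 0) : x = 0 := by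
  induction k with
  | zero => simpa using h
  | succ k ih =>
    apply ih
    have h1 : ∀ n : ℕ, dag H (x ^ n) = x ^ n := by
      intro n
      induction n with
      | zero =>
        rw [pow_zero]
        unfold dag
        rw [Matrix.conjTranspose_one, Matrix.mul_one, SiS]
      | succ n ihn => rw [pow_succ, dag_mul, ihn, hx, ← pow_succ', pow_succ]
    apply dag_pos (H := H)
    rw [h1, ← pow_add, ← two_mul, ← pow_succ']
    exact h

lemma cenA_red (hQ : ∀ i j, H.Qir i j ≠ 0 → deg i = deg j)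
    (hQr : ∀ i j, H.Qr i j ≠ 0 → deg i = deg j) {z : Matrix ι ι ℂ} (hz : z ∈ cenA H deg)
    (hn : IsNilpotent z) : z = 0 := by
  obtain ⟨n, hn⟩ := hn
  apply dag_pos (H := H)
  have h1 : dag H (dag H z * z) = dag H z * z := by rw [dag_mul, dag_dag]
  apply dag_sa h1 n
  have h2 : Commute (dag H z) z := cenA_comm (dag_mem hQ hQr hz) hz
  have h3 : (dag H z * z) ^ n = 0 := by rw [h2.mul_pow, hn, mul_zero]
  exact pow_eq_zero_of_le Nat.lt_two_pow_self.le h3

/-- the degree projectors -/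
lemma Cen_deg (hl : ∀ t : ℂ, t ≠ 0 → ∀ i j, H.l t i j ≠ 0 → deg i = deg j) (d : ℕ) :
    Cen H deg (Matrix.diagonal fun k => if deg k = d then (1 : ℚ) else 0) := by
  refine ⟨⟨?_, ?_⟩, ?_⟩
  · intro a b hab
    rw [Matrix.diagonal_apply_ne]
    rintro rfl
    exact hab rfl
  · intro t ht
    ext a b
    have h2 : cQ (Matrix.diagonal fun k => if deg k = d then (1 : ℚ) else 0) =
        Matrix.diagonal fun k => if deg k = d then (1 : ℂ) else 0 := by
      ext a b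
      simp only [cQ, Matrix.map_apply, Matrix.diagonal_apply]
      split_ifs <;> simp
    rw [h2, Matrix.mul_diagonal, Matrix.diagonal_mul]
    by_cases h3 : H.l t a b = 0
    · rw [h3, zero_mul, mul_zero]
    · rw [hl t ht a b h3, mul_comm]
  · intro y hy
    ext a b
    rw [Matrix.mul_diagonal, Matrix.diagonal_mul]
    by_cases h3 : deg a = deg b
    · rw [h3, mul_comm]
    · rw [hy.1 a b h3, zero_mul, mul_zero]

end Idem

open Idem in
/-- SM/IDEM -/
theorem t_IDEM : S_IDEM := by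
  intro ι _ _ H deg hl hQ hQr
  obtain ⟨m, π, h1, h2, h3, h4, h5⟩ := sub_idem (cenA H deg)
    (fun x hx y hy => cenA_comm hx hy) (fun x hx hn => cenA_red hQ hQr hx hn)
  have hsp : ∀ x, Cen H deg x → ∃ c : Fin m → ℂ, cQ x = ∑ s, c s • π s := fun x hx =>
    h5 _ (mem_cenA.2 (Submodule.subset_span ⟨x, hx, rfl⟩))
  have hs : ∀ (c : Fin m → ℂ) (s : Fin m), (∑ t, c t • π t) * π s = c s • π s ∧
      π s * (∑ t, c t • π t) = c s • π s := by
    intro c s
    constructor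
    · rw [Finset.sum_mul, Finset.sum_eq_single s]
      · rw [Matrix.smul_mul, h2, if_pos rfl]
      · intro t _ ht
        rw [Matrix.smul_mul, h2, if_neg ht, smul_zero]
      · intro h
        exact absurd (Finset.mem_univ _) h
    · rw [Finset.mul_sum, Finset.sum_eq_single s]
      · rw [Matrix.mul_smul, h2, if_pos rfl]
      · intro t _ ht
        rw [Matrix.mul_smul, h2, if_neg (Ne.symm ht), smul_zero]
      · intro h
        exact absurd (Finset.mem_univ _) h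
  refine ⟨m, π, h1, h2, h3, fun s => ?_, fun s => mem_cenA.1 (h4 s), fun x hx => ?_⟩
  · obtain ⟨i0, j0, hij⟩ : ∃ i0 j0, π s i0 j0 ≠ 0 := by
      by_contra hcon
      push Not at hcon
      exact h3 s (Matrix.ext hcon)
    refine ⟨deg i0, fun i j hne => ?_⟩
    obtain ⟨c, hc⟩ := hsp _ (Cen_deg hl (deg i0))
    have hd : cQ (Matrix.diagonal fun k => if deg k = deg i0 then (1 : ℚ) else 0) =
        Matrix.diagonal fun k => if deg k = deg i0 then (1 : ℂ) else 0 := by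
      ext a b
      simp only [cQ, Matrix.map_apply, Matrix.diagonal_apply]
      split_ifs <;> simp
    rw [hd] at hc
    obtain ⟨e1, e2⟩ := hs c s
    rw [← hc] at e1 e2
    have hcs : c s = 1 := by
      have h6 := congrFun (congrFun e1 i0) j0
      rw [Matrix.diagonal_mul, if_pos rfl, one_mul, Matrix.smul_apply, smul_eq_mul] at h6
      have h7 : (c s - 1) * π s i0 j0 = 0 := by linear_combination -h6
      rcases mul_eq_zero.1 h7 with h8 | h8
      · linear_combination h8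
      · exact absurd h8 hij
    rw [hcs, one_smul] at e1 e2
    constructor
    · by_contra h6
      have h7 := congrFun (congrFun e1 i) j
      rw [Matrix.diagonal_mul, if_neg h6, zero_mul] at h7
      exact hne h7.symm
    · by_contra h6
      have h7 := congrFun (congrFun e2 i) j
      rw [Matrix.mul_diagonal, if_neg h6, mul_zero] at h7
      exact hne h7.symm
  · obtain ⟨c, hc⟩ := hsp x hx
    rw [hc]
    exact Submodule.sum_mem _ fun s _ => Submodule.smul_mem _ _ (Submodule.subset_span ⟨s, rfl⟩)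

end Pool.Agent.N211.SM
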