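import Pool.Agent.N211.SM.Stm

/-!
# SM/LOGW: the logarithms of the blocks (helper123)
-/

set_option linter.unusedSectionVars false

namespace Pool.Agent.N211.SM

open Matrix Filter Topology
open Pool.Agent.N996.BP Pool.Agent.N202.TB

namespace LOGW

variable {ι ι' : Type} [Fintype ι] [DecidableEq ι] [Fintype ι'] [DecidableEq ι'] {ℓ : ℕ}
  [Fact ℓ.Prime]

lemma blk_pow (a : Matrix ι ι ℚ_[ℓ]) (b : Matrix ι' ι' ℚ_[ℓ]) (n : ℕ) :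
    blk a b ^ n = blk (a ^ n) (b ^ n) := by
  induction n with
  | zero => rw [pow_zero, pow_zero, pow_zero, blk_one]
  | succ n ih => rw [pow_succ, pow_succ, pow_succ, ih, blk_mul]

lemma one_ll (i j : ι) : (1 : Matrix (ι ⊕ ι') (ι ⊕ ι') ℚ_[ℓ]) (Sum.inl i) (Sum.inl j) =
    (1 : Matrix ι ι ℚ_[ℓ]) i j := by
  rw [Matrix.one_apply, Matrix.one_apply]
  simp only [Sum.inl.injEq]

lemma one_rr (i j : ι') : (1 : Matrix (ι ⊕ ι') (ι ⊕ ι') ℚ_[ℓ]) (Sum.inr i) (Sum.inr j) =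
    (1 : Matrix ι' ι' ℚ_[ℓ]) i j := by
  rw [Matrix.one_apply, Matrix.one_apply]
  simp only [Sum.inr.injEq]

lemma one_lr (i : ι) (j : ι') : (1 : Matrix (ι ⊕ ι') (ι ⊕ ι') ℚ_[ℓ]) (Sum.inl i) (Sum.inr j) =
    0 := by
  rw [Matrix.one_apply, if_neg Sum.inl_ne_inr]

lemma one_rl (i : ι') (j : ι) : (1 : Matrix (ι ⊕ ι') (ι ⊕ ι') ℚ_[ℓ]) (Sum.inr i) (Sum.inl j) =
    0 := by
  rw [Matrix.one_apply, if_neg Sum.inr_ne_inl]

lemma near_l {a : Matrix ι ι ℚ_[ℓ]} {b : Matrix ι' ι' ℚ_[ℓ]} (h : Near (blk a b)) : Near a := by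
  intro i j
  have h1 := h (Sum.inl i) (Sum.inl j)
  rw [one_ll] at h1
  exact h1

lemma near_r {a : Matrix ι ι ℚ_[ℓ]} {b : Matrix ι' ι' ℚ_[ℓ]} (h : Near (blk a b)) : Near b := by
  intro i j
  have h1 := h (Sum.inr i) (Sum.inr j)
  rw [one_rr] at h1
  exact h1

lemma log_l {a : Matrix ι ι ℚ_[ℓ]} {b : Matrix ι' ι' ℚ_[ℓ]} {y : Matrix (ι ⊕ ι') (ι ⊕ ι') ℚ_[ℓ]}
    (h : IsLog (blk a b) y) : IsLog a y.toBlocks₁₁ := by
  intro i j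
  have h1 := h (Sum.inl i) (Sum.inl j)
  simp only [one_ll, blk_pow] at h1
  exact h1

lemma log_r {a : Matrix ι ι ℚ_[ℓ]} {b : Matrix ι' ι' ℚ_[ℓ]} {y : Matrix (ι ⊕ ι') (ι ⊕ ι') ℚ_[ℓ]}
    (h : IsLog (blk a b) y) : IsLog b y.toBlocks₂₂ := by
  intro i j
  have h1 := h (Sum.inr i) (Sum.inr j)
  simp only [one_rr, blk_pow] at h1
  exact h1

lemma log_blk {a : Matrix ι ι ℚ_[ℓ]} {b : Matrix ι' ι' ℚ_[ℓ]}
    {y : Matrix (ι ⊕ ι') (ι ⊕ ι') ℚ_[ℓ]} (h : IsLog (blk a b) y) :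
    y = blk y.toBlocks₁₁ y.toBlocks₂₂ := by
  ext i j
  rcases i with i | i <;> rcases j with j | j
  · rfl
  · have h1 := h (Sum.inl i) (Sum.inr j)
    simp only [one_lr, blk_pow] at h1
    have h2 : ∀ k : ℕ, ((ℓ : ℚ_[ℓ]) ^ k)⁻¹ *
        (blk (a ^ (ℓ ^ k)) (b ^ (ℓ ^ k)) (Sum.inl i) (Sum.inr j) - 0) = 0 := by
      intro k
      have h3 : blk (a ^ (ℓ ^ k)) (b ^ (ℓ ^ k)) (Sum.inl i) (Sum.inr j) = 0 := rfl
      rw [h3, sub_zero, mul_zero]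
    simp only [h2] at h1
    exact tendsto_nhds_unique h1 tendsto_const_nhds
  · have h1 := h (Sum.inr i) (Sum.inl j)
    simp only [one_rl, blk_pow] at h1
    have h2 : ∀ k : ℕ, ((ℓ : ℚ_[ℓ]) ^ k)⁻¹ *
        (blk (a ^ (ℓ ^ k)) (b ^ (ℓ ^ k)) (Sum.inr i) (Sum.inl j) - 0) = 0 := by
      intro k
      have h3 : blk (a ^ (ℓ ^ k)) (b ^ (ℓ ^ k)) (Sum.inr i) (Sum.inl j) = 0 := rfl
      rw [h3, sub_zero, mul_zero]
    simp only [h2] at h1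
    exact tendsto_nhds_unique h1 tendsto_const_nhds
  · rfl

end LOGW

theorem t_LOGW : S_LOGW := by
  intro ℓ _ Γ _ ι ι' _ _ _ _ ρ ρ' χ U Y lam h
  exact ⟨fun u => (Y u).toBlocks₁₁, fun u => (Y u).toBlocks₂₂,
    ⟨h.fin, fun u hu => LOGW.near_l (h.near u hu), h.nearχ,
      fun u hu => LOGW.log_l (h.log u hu), h.logs⟩,
    ⟨h.fin, fun u hu => LOGW.near_r (h.near u hu), h.nearχ,
      fun u hu => LOGW.log_r (h.log u hu), h.logs⟩,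
    fun u hu => LOGW.log_blk (h.log u hu)⟩

end Pool.Agent.N211.SM
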