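import Pool.Agent.N211.SM.Stm

/-!
# SM/POS (helper87): the form is nondegenerate on the span of the Hodge arrays
-/

set_option linter.unusedSectionVars false

namespace Pool.Agent.N211.SM

open Matrix ComplexConjugate
open Pool.Agent.N996.BP Pool.Agent.N202.TB Pool.Agent.N202.NC

namespace POS

variable {ι : Type} [Fintype ι] [DecidableEq ι]

/-- the real matrix as a complex matrix -/
def rc {m : Type*} (M : Matrix m m ℝ) : Matrix m m ℂ := M.map (fun x : ℝ => (x : ℂ))

lemma rc_mul {m : Type*} [Fintype m] (M N : Matrix m m ℝ) : rc (M * N) = rc M * rc N := by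
  ext i j
  simp [rc, Matrix.mul_apply]

lemma rc_one {m : Type*} [DecidableEq m] : rc (1 : Matrix m m ℝ) = 1 := by
  ext i j
  rw [rc, Matrix.map_apply, Matrix.one_apply, Matrix.one_apply]
  split_ifs <;> simp

lemma rc_tr {m : Type*} (M : Matrix m m ℝ) : rc Mᵀ = (rc M)ᵀ := rfl

lemma kp_rc {κ : Type} [Fintype κ] (M : Matrix ι ι ℝ) : kp κ (rc M) = rc (kp κ M) := by
  ext i j
  simp [kp_apply, rc]

lemma rc_conj {m : Type*} [Fintype m] (M : Matrix m m ℝ) (a : m → ℂ) :
    rc M *ᵥ (fun i => conj (a i)) = fun i => conj ((rc M *ᵥ a) i) := by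
  funext i
  rw [Matrix.mulVec, dotProduct, Matrix.mulVec, dotProduct, map_sum]
  refine Finset.sum_congr rfl fun j _ => ?_
  rw [map_mul, rc, Matrix.map_apply, Complex.conj_ofReal]

/-- the definite form -/
lemma definite {m : Type*} [Fintype m] [DecidableEq m] (M Mi : Matrix m m ℝ) (h : Mi * M = 1)
    (a : m → ℂ) (h0 : a ⬝ᵥ (rc (Mᵀ * M) *ᵥ fun i => conj (a i)) = 0) : a = 0 := by
  rw [rc_mul, rc_tr, ← Matrix.mulVec_mulVec, Matrix.dotProduct_mulVec, Matrix.vecMul_transpose,
    rc_conj] at h0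
  obtain ⟨y, hy⟩ : ∃ y, y = rc M *ᵥ a := ⟨_, rfl⟩
  rw [← hy] at h0
  have h1 : ((∑ i, Complex.normSq (y i) : ℝ) : ℂ) = 0 := by
    rw [← h0, Complex.ofReal_sum, dotProduct]
    exact Finset.sum_congr rfl fun i _ => (Complex.mul_conj (y i)).symm
  have h2 : ∑ i, Complex.normSq (y i) = 0 := by exact_mod_cast h1
  rw [Finset.sum_eq_zero_iff_of_nonneg fun i _ => Complex.normSq_nonneg _] at h2
  have h3 : y = 0 := by
    funext i
    exact Complex.normSq_eq_zero.1 (h2 i (Finset.mem_univ i))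
  have h4 : rc Mi *ᵥ (rc M *ᵥ a) = a := by
    rw [Matrix.mulVec_mulVec, ← rc_mul, h, rc_one, Matrix.one_mulVec]
  rw [← h4, ← hy, h3, Matrix.mulVec_zero]

variable (H : HData ι) (n : ℕ)

lemma span_conj {x : (Fin (n + 1) → ι) → ℂ} (hx : x ∈ hspan H ℂ n) :
    (fun i => conj (x i)) ∈ hspan H ℂ n := by
  unfold hspan at hx ⊢
  induction hx using Submodule.span_induction with
  | mem x hx =>
    obtain ⟨h, hh, rfl⟩ := hx
    refine Submodule.subset_span ⟨h, hh, ?_⟩
    funext i
    simp [aL]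
  | zero =>
    have : (fun i => conj ((0 : (Fin (n + 1) → ι) → ℂ) i)) = 0 := by
      funext i
      simp
    rw [this]
    exact Submodule.zero_mem _
  | add x y _ _ hx hy =>
    have : (fun i => conj ((x + y) i)) = (fun i => conj (x i)) + fun i => conj (y i) := by
      funext i
      simp
    rw [this]
    exact Submodule.add_mem _ hx hy
  | smul c x _ hx =>
    have : (fun i => conj ((c • x) i)) = conj c • fun i => conj (x i) := by
      funext i
      simp
    rw [this]
    exact Submodule.smul_mem _ _ hx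

lemma span_fix {x : (Fin (n + 1) → ι) → ℂ} (hx : x ∈ hspan H ℂ n) :
    kp (Fin (n + 1)) (H.l Complex.I) *ᵥ x = x := by
  unfold hspan at hx
  induction hx using Submodule.span_induction with
  | mem x hx =>
    obtain ⟨h, hh, rfl⟩ := hx
    exact hh Complex.I Complex.I_ne_zero
  | zero => rw [Matrix.mulVec_zero]
  | add x y _ _ hx hy => rw [Matrix.mulVec_add, hx, hy]
  | smul c x _ hx => rw [Matrix.mulVec_smul, hx]

end POS

open POS

/-- **SM/POS.** -/
theorem t_POS : S_POS := by
  intro ι _ _ H n a ha hne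
  by_contra hcon
  push Not at hcon
  have hlin : ∀ x ∈ hspan H ℂ n, a ⬝ᵥ (kp (Fin (n + 1)) (mL ℂ H.Qr) *ᵥ x) = 0 := by
    intro x hx
    unfold hspan at hx
    induction hx using Submodule.span_induction with
    | mem x hx =>
      obtain ⟨h, hh, rfl⟩ := hx
      exact hcon h hh
    | zero => rw [Matrix.mulVec_zero, dotProduct_zero]
    | add x y _ _ hx hy => rw [Matrix.mulVec_add, dotProduct_add, hx, hy, add_zero]
    | smul c x _ hx => rw [Matrix.mulVec_smul, dotProduct_smul, hx, smul_zero]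
  have key := hlin _ (span_conj H n ha)
  rw [← span_fix H n (span_conj H n ha), Matrix.mulVec_mulVec] at key
  have hQ : mL ℂ H.Qr = rc H.D.Q := by
    rw [H.hQr]
    ext i j
    simp [mL, rc]
  have hC : H.l Complex.I = rc H.D.C := H.hC.symm
  rw [hQ, hC, ← kp_mul, ← rc_mul, ← H.D.hS, rc_mul, rc_tr, kp_mul, kp_transpose, kp_rc, ← rc_tr,
    ← rc_mul] at key
  exact hne (definite _ (kp (Fin (n + 1)) H.D.Mi) (kp_inv_mul H.D.hM') a key)

end Pool.Agent.N211.SM
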