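import Pool.Agent.N211.SM.Stm2

/-!
# SM/PRJ (project SM of helper211): the projector to the derived algebra

By helper106.
-/

set_option autoImplicit false

namespace Pool.Agent.N211.SM

open Matrix

namespace PRJ

variable {K : Type} [Field K] {ι : Type} [Fintype ι] [DecidableEq ι]

lemma prj_brs_le (g : Submodule K (Matrix ι ι K)) (hg : ∀ x ∈ g, ∀ y ∈ g, x * y - y * x ∈ g) :
    brs g g ≤ g := by
  unfold brs
  rw [Submodule.span_le]
  rintro c ⟨a, ha, b, hb, rfl⟩
  exact hg a ha b hb

lemma prj_br_mem (g : Submodule K (Matrix ι ι K)) {a b : Matrix ι ι K} (ha : a ∈ g) (hb : b ∈ g) :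
    a * b - b * a ∈ brs g g := Submodule.subset_span ⟨a, ha, b, hb, rfl⟩

/-- the trace form with a subspace -/
noncomputable def prjT (s : Submodule K (Matrix ι ι K)) :
    Matrix ι ι K →ₗ[K] Module.Dual K s where
  toFun x :=
    { toFun := fun y => (x * (y : Matrix ι ι K)).trace
      map_add' := fun y z => by
        rw [Submodule.coe_add, mul_add, trace_add]
      map_smul' := fun c y => by
        rw [Submodule.coe_smul, mul_smul_comm, trace_smul, RingHom.id_apply] }
  map_add' x y := by
    ext z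
    show ((x + y) * (z : Matrix ι ι K)).trace = (x * (z : Matrix ι ι K)).trace +
      (y * (z : Matrix ι ι K)).trace
    rw [add_mul, trace_add]
  map_smul' c x := by
    ext z
    show ((c • x) * (z : Matrix ι ι K)).trace = c • (x * (z : Matrix ι ι K)).trace
    rw [smul_mul_assoc, trace_smul]

lemma prj_exists_p (s : Submodule K (Matrix ι ι K))
    (hs : ∀ x ∈ s, (∀ y ∈ s, (x * y).trace = 0) → x = 0) :
    ∃ p : Matrix ι ι K →ₗ[K] Matrix ι ι K, (∀ x, p x ∈ s) ∧
      ∀ x, ∀ y ∈ s, (p x * y).trace = (x * y).trace := by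
  have hinj : Function.Injective ((prjT s).comp s.subtype) := by
    rw [← LinearMap.ker_eq_bot, LinearMap.ker_eq_bot']
    intro m hm
    apply Subtype.ext
    refine hs m m.2 fun y hy => ?_
    exact LinearMap.congr_fun hm ⟨y, hy⟩
  let e : s ≃ₗ[K] Module.Dual K s :=
    LinearMap.linearEquivOfInjective ((prjT s).comp s.subtype) hinj Subspace.dual_finrank_eq.symm
  have he : ∀ a : s, e a = prjT s (a : Matrix ι ι K) := fun a => rfl
  refine ⟨s.subtype.comp (e.symm.toLinearMap.comp (prjT s)), fun x => (e.symm (prjT s x)).2,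
    fun x y hy => ?_⟩
  have h1 : e (e.symm (prjT s x)) = prjT s x := e.apply_symm_apply _
  rw [he] at h1
  exact LinearMap.congr_fun h1 ⟨y, hy⟩

end PRJ

open PRJ in
theorem t_PRJ : S_PRJ := by
  intro K _ _ ι _ _ g hg hs
  obtain ⟨p, hp, hpt⟩ := prj_exists_p (brs g g) hs
  have hle := prj_brs_le g hg
  have huniq : ∀ x, ∀ a ∈ brs g g, (∀ y ∈ brs g g, (a * y).trace = (x * y).trace) → p x = a := by
    intro x a ha h
    have h1 : p x - a = 0 := by
      refine hs _ (Submodule.sub_mem _ (hp x) ha) fun y hy => ?_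
      rw [sub_mul, trace_sub, hpt x y hy, h y hy, sub_self]
    exact sub_eq_zero.1 h1
  have h4 : ∀ x, ∀ y ∈ brs g g, ((x - p x) * y).trace = 0 := by
    intro x y hy
    rw [sub_mul, trace_sub, hpt x y hy, sub_self]
  -- invariance of the trace form
  have hinv : ∀ u x y : Matrix ι ι K, ((u * x - x * u) * y).trace = (x * (y * u - u * y)).trace := by
    intro u x y
    rw [sub_mul, mul_sub, trace_sub, trace_sub, mul_assoc u x y, trace_mul_comm u (x * y),
      mul_assoc x y u, mul_assoc x u y]
  refine ⟨p, hp, fun x hx => huniq x x hx fun y _ => rfl, h4, fun x hx => ?_, fun u hu x => ?_,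
    fun y hy z hz => ?_⟩
  · refine huniq x 0 (Submodule.zero_mem _) fun y hy => ?_
    rw [hx y hy, zero_mul, trace_zero]
  · refine huniq _ _ (prj_br_mem g hu (hle (hp x))) fun y hy => ?_
    rw [hinv, hinv]
    exact hpt x _ (prj_br_mem g (hle hy) hu)
  · have h5 : y - p y ∈ g := Submodule.sub_mem _ hy (hle (hp y))
    have h6 : (y - p y) * z - z * (y - p y) = 0 := by
      refine hs _ (prj_br_mem g h5 hz) fun t ht => ?_
      have h7 : ((y - p y) * z - z * (y - p y)) * t = -((z * (y - p y) - (y - p y) * z) * t) := by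
        rw [← neg_mul, neg_sub]
      rw [h7, trace_neg, hinv, h4 y _ (prj_br_mem g (hle ht) hz), neg_zero]
    exact sub_eq_zero.1 h6

end Pool.Agent.N211.SM
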