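import Pool.Agent.N211.SM.Stm
import Pool.Agent.N891.NC.Pr

/-!
# SM/RED (helper456): Lie algebras of the Hodge type are reductive

The first part is adapted from `Pool/Agent/N891/NC/Pr.lean` (helper891).
-/

set_option autoImplicit false
set_option linter.unusedSectionVars false

namespace Pool.Agent.N211.SM

namespace RED

open Matrix
open Pool.Agent.N996.BP Pool.Agent.N202.TB Pool.Agent.N202.NC
open Pool.Agent.N891.NC (tr_ne trf trf_apply trf_symm)

variable {ι : Type} [Fintype ι] [DecidableEq ι]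

lemma cQ_eq (y : Matrix ι ι ℚ) : cQ y = y.map (Rat.castHom ℂ) := rfl

lemma cQ_mul' (x y : Matrix ι ι ℚ) : cQ (x * y) = cQ x * cQ y := by
  rw [cQ_eq, cQ_eq, cQ_eq, Matrix.map_mul]

lemma cQ_sub' (x y : Matrix ι ι ℚ) : cQ (x - y) = cQ x - cQ y := by
  rw [cQ_eq, cQ_eq, cQ_eq, Matrix.map_sub _ (map_sub _)]

lemma cQ_add' (x y : Matrix ι ι ℚ) : cQ (x + y) = cQ x + cQ y := by
  rw [cQ_eq, cQ_eq, cQ_eq, Matrix.map_add _ (map_add _)]

lemma cQ_smul' (c : ℚ) (x : Matrix ι ι ℚ) : cQ (c • x) = (c : ℂ) • cQ x := by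
  ext i j
  simp [cQ]

lemma cQ_zero' : cQ (0 : Matrix ι ι ℚ) = 0 := by
  rw [cQ_eq, Matrix.map_zero _ (map_zero _)]

lemma tr_cQ (y : Matrix ι ι ℚ) : (cQ y).trace = ((y.trace : ℚ) : ℂ) := by
  rw [Matrix.trace, Matrix.trace, Rat.cast_sum]
  rfl

variable {H : HData ι}

/-- positivity, complex form -/
theorem trC {y : Matrix ι ι ℚ} (hy : Kill H ℚ y) (hy0 : y ≠ 0) :
    (H.l Complex.I * cQ y * H.l Complex.I⁻¹ * cQ y).trace ≠ 0 := by
  intro h3
  apply tr_ne hy hy0
  have hC : H.l Complex.I = H.D.C.map (algebraMap ℝ ℂ) := H.hC.symm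
  have hCi : H.l Complex.I⁻¹ = H.D.Ci.map (algebraMap ℝ ℂ) := by
    have h4 : H.D.C.map (algebraMap ℝ ℂ) * H.D.Ci.map (algebraMap ℝ ℂ) = 1 := by
      rw [← Matrix.map_mul, H.D.hC, Matrix.map_one _ (map_zero _) (map_one _)]
    have h5 := H.l_inv' Complex.I_ne_zero
    calc H.l Complex.I⁻¹ = H.l Complex.I⁻¹ * (H.D.C.map (algebraMap ℝ ℂ) *
          H.D.Ci.map (algebraMap ℝ ℂ)) := by rw [h4, Matrix.mul_one]
      _ = (H.l Complex.I⁻¹ * H.l Complex.I) * H.D.Ci.map (algebraMap ℝ ℂ) := by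
          rw [hC, Matrix.mul_assoc]
      _ = _ := by rw [h5, Matrix.one_mul]
  have hyy : cQ y = (y.map (fun x : ℚ => (x : ℝ))).map (algebraMap ℝ ℂ) := by
    rw [cQ_eq, Matrix.map_map]
    ext i j
    simp
  rw [hC, hCi, hyy, ← Matrix.map_mul, ← Matrix.map_mul, ← Matrix.map_mul] at h3
  have h6 : ((H.D.C * y.map (fun x : ℚ => (x : ℝ)) * H.D.Ci * y.map (fun x : ℚ => (x : ℝ))).map
      (algebraMap ℝ ℂ)).trace = algebraMap ℝ ℂ
        (H.D.C * y.map (fun x : ℚ => (x : ℝ)) * H.D.Ci * y.map (fun x : ℚ => (x : ℝ))).trace := by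
    rw [Matrix.trace, Matrix.trace, map_sum]
    rfl
  rw [h6] at h3
  exact (map_eq_zero _).1 h3

variable {s : Submodule ℚ (Matrix ι ι ℚ)}

/-- the trace form is nondegenerate on `s` -/
theorem exists_tr (hK : ∀ y ∈ s, Kill H ℚ y)
    (hC : ∀ y ∈ s, H.l Complex.I * cQ y * H.l (Complex.I)⁻¹ ∈
      Submodule.span ℂ (cQ '' (s : Set (Matrix ι ι ℚ))))
    {y : Matrix ι ι ℚ} (hy : y ∈ s) (hy0 : y ≠ 0) : ∃ z ∈ s, (z * y).trace ≠ 0 := by
  by_contra hcon
  push Not at hcon
  have h2 : ∀ N ∈ Submodule.span ℂ (cQ '' (s : Set (Matrix ι ι ℚ))), (N * cQ y).trace = 0 := by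
    intro N hN
    induction hN using Submodule.span_induction with
    | mem x hx =>
      obtain ⟨z, hz, rfl⟩ := hx
      rw [← cQ_mul', tr_cQ, hcon z hz, Rat.cast_zero]
    | zero => rw [Matrix.zero_mul, Matrix.trace_zero]
    | add a b _ _ ha hb => rw [Matrix.add_mul, Matrix.trace_add, ha, hb, add_zero]
    | smul c a _ ha => rw [Matrix.smul_mul, Matrix.trace_smul, ha, smul_zero]
  exact trC (hK y hy) hy0 (h2 _ (hC y hy))

theorem conj_mem (hC : ∀ y ∈ s, H.l Complex.I * cQ y * H.l (Complex.I)⁻¹ ∈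
      Submodule.span ℂ (cQ '' (s : Set (Matrix ι ι ℚ)))) {x : Matrix ι ι ℂ}
    (hx : x ∈ Submodule.span ℂ (cQ '' (s : Set (Matrix ι ι ℚ)))) :
    H.l Complex.I * x * H.l (Complex.I)⁻¹ ∈ Submodule.span ℂ (cQ '' (s : Set (Matrix ι ι ℚ))) := by
  induction hx using Submodule.span_induction with
  | mem x hx =>
    obtain ⟨z, hz, rfl⟩ := hx
    exact hC z hz
  | zero =>
    rw [Matrix.mul_zero, Matrix.zero_mul]
    exact Submodule.zero_mem _
  | add a b _ _ ha hb =>
    rw [Matrix.mul_add, Matrix.add_mul]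
    exact Submodule.add_mem _ ha hb
  | smul c a _ ha =>
    rw [Matrix.mul_smul, Matrix.smul_mul]
    exact Submodule.smul_mem _ _ ha

theorem conj_mem' (hC : ∀ y ∈ s, H.l Complex.I * cQ y * H.l (Complex.I)⁻¹ ∈
      Submodule.span ℂ (cQ '' (s : Set (Matrix ι ι ℚ)))) {x : Matrix ι ι ℂ}
    (hx : x ∈ Submodule.span ℂ (cQ '' (s : Set (Matrix ι ι ℚ)))) :
    H.l (Complex.I)⁻¹ * x * H.l Complex.I ∈ Submodule.span ℂ (cQ '' (s : Set (Matrix ι ι ℚ))) := by
  have h3 := conj_mem hC (conj_mem hC (conj_mem hC hx))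
  have a1 : H.l Complex.I * H.l Complex.I * H.l Complex.I = H.l (Complex.I)⁻¹ := by
    rw [H.l_mul, H.l_mul]
    congr 1
    rw [Complex.I_mul_I, Complex.inv_I]
    ring
  have a2 : H.l (Complex.I)⁻¹ * H.l (Complex.I)⁻¹ * H.l (Complex.I)⁻¹ = H.l Complex.I := by
    rw [H.l_mul, H.l_mul]
    congr 1
    rw [Complex.inv_I]
    ring_nf
    rw [Complex.I_pow_three, neg_neg]
  have e : H.l Complex.I * (H.l Complex.I * (H.l Complex.I * x * H.l (Complex.I)⁻¹) *
      H.l (Complex.I)⁻¹) * H.l (Complex.I)⁻¹ = H.l (Complex.I)⁻¹ * x * H.l Complex.I := by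
    calc _ = (H.l Complex.I * H.l Complex.I * H.l Complex.I) * x *
          (H.l (Complex.I)⁻¹ * H.l (Complex.I)⁻¹ * H.l (Complex.I)⁻¹) := by
          simp only [Matrix.mul_assoc]
      _ = _ := by rw [a1, a2]
  rw [e] at h3
  exact h3

/-- the brackets -/
def br (s : Submodule ℚ (Matrix ι ι ℚ)) : Submodule ℚ (Matrix ι ι ℚ) :=
  Submodule.span ℚ {c : Matrix ι ι ℚ | ∃ u ∈ s, ∃ v ∈ s, c = u * v - v * u}

theorem br_le (hbr : ∀ x ∈ s, ∀ y ∈ s, x * y - y * x ∈ s) : br s ≤ s := by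
  refine Submodule.span_le.2 ?_
  rintro c ⟨u, hu, v, hv, rfl⟩
  exact hbr u hu v hv

/-- an element of the span of the brackets which commutes with `s` is zero -/
theorem br_cen (hK : ∀ y ∈ s, Kill H ℚ y) (hbr : ∀ x ∈ s, ∀ y ∈ s, x * y - y * x ∈ s)
    (hC : ∀ y ∈ s, H.l Complex.I * cQ y * H.l (Complex.I)⁻¹ ∈
      Submodule.span ℂ (cQ '' (s : Set (Matrix ι ι ℚ))))
    {y : Matrix ι ι ℚ} (hy : y ∈ br s) (hc : ∀ v ∈ s, v * y = y * v) : y = 0 := by
  by_contra hy0
  have hys : y ∈ s := br_le hbr hy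
  have h1 : ∀ x ∈ Submodule.span ℂ (cQ '' (s : Set (Matrix ι ι ℚ))), x * cQ y = cQ y * x := by
    intro x hx
    induction hx using Submodule.span_induction with
    | mem x hx =>
      obtain ⟨z, hz, rfl⟩ := hx
      rw [← cQ_mul', ← cQ_mul', hc z hz]
    | zero => rw [Matrix.mul_zero, Matrix.zero_mul]
    | add a b _ _ ha hb => rw [Matrix.add_mul, Matrix.mul_add, ha, hb]
    | smul c a _ ha => rw [Matrix.smul_mul, Matrix.mul_smul, ha]
  obtain ⟨Z, hZ⟩ : ∃ Z, Z = H.l Complex.I * cQ y * H.l (Complex.I)⁻¹ := ⟨_, rfl⟩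
  have h2 : ∀ v ∈ s, cQ v * Z = Z * cQ v := by
    intro v hv
    have h3 := h1 _ (conj_mem' hC (Submodule.subset_span ⟨v, hv, rfl⟩ :
      cQ v ∈ Submodule.span ℂ (cQ '' (s : Set (Matrix ι ι ℚ)))))
    have i1 : H.l Complex.I * H.l (Complex.I)⁻¹ = 1 := H.l_inv Complex.I_ne_zero
    calc cQ v * Z = (H.l Complex.I * H.l (Complex.I)⁻¹) * cQ v * Z := by
          rw [i1, Matrix.one_mul]
      _ = H.l Complex.I * (H.l (Complex.I)⁻¹ * cQ v * H.l Complex.I * cQ y) *
          H.l (Complex.I)⁻¹ := by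
          rw [hZ]
          simp only [Matrix.mul_assoc]
      _ = H.l Complex.I * (cQ y * (H.l (Complex.I)⁻¹ * cQ v * H.l Complex.I)) *
          H.l (Complex.I)⁻¹ := by rw [h3]
      _ = Z * cQ v * (H.l Complex.I * H.l (Complex.I)⁻¹) := by
          rw [hZ]
          simp only [Matrix.mul_assoc]
      _ = _ := by rw [i1, Matrix.mul_one]
  have h4 : ∀ c ∈ br s, (cQ c * Z).trace = 0 := by
    intro c hc'
    induction hc' using Submodule.span_induction with
    | mem x hx =>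
      obtain ⟨u, hu, v, hv, rfl⟩ := hx
      rw [cQ_sub', cQ_mul', cQ_mul', Matrix.sub_mul, Matrix.trace_sub, Matrix.mul_assoc,
        Matrix.mul_assoc, h2 v hv, sub_eq_zero, ← Matrix.mul_assoc, Matrix.trace_mul_comm]
    | zero => rw [cQ_zero', Matrix.zero_mul, Matrix.trace_zero]
    | add a b _ _ ha hb => rw [cQ_add', Matrix.add_mul, Matrix.trace_add, ha, hb, add_zero]
    | smul c a _ ha => rw [cQ_smul', Matrix.smul_mul, Matrix.trace_smul, ha, smul_zero]
  have h5 := h4 y hy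
  rw [Matrix.trace_mul_comm, hZ] at h5
  exact trC (hK y hys) hy0 h5

theorem tr_br (y u v : Matrix ι ι ℚ) :
    ((y * u - u * y) * v).trace = (y * (u * v - v * u)).trace := by
  rw [Matrix.sub_mul, Matrix.mul_sub, Matrix.trace_sub, Matrix.trace_sub, Matrix.mul_assoc,
    Matrix.mul_assoc]
  congr 1
  rw [Matrix.trace_mul_comm, Matrix.mul_assoc]

end RED

open Matrix
open Pool.Agent.N996.BP Pool.Agent.N202.TB Pool.Agent.N202.NC
open Pool.Agent.N891.NC (trf trf_apply trf_symm)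
open RED

theorem t_RED : S_RED := by
  intro ι _ _ H deg s hK hbr hC hdeg
  have hrefl : (trf ι).IsRefl := fun x y h => by rw [trf_symm, h]
  have hnz : ∀ y ∈ s, (∀ z ∈ s, (z * y).trace = 0) → y = 0 := by
    intro y hy h
    by_contra hne
    obtain ⟨z, hz, hzy⟩ := exists_tr hK hC hy hne
    exact hzy (h z hz)
  -- restriction to a submodule
  have hres : ∀ r : Submodule ℚ (Matrix ι ι ℚ),
      (∀ y ∈ r, (∀ z ∈ r, (z * y).trace = 0) → y = 0) →
      ((trf ι).restrict r).Nondegenerate := by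
    intro r hr
    have h1 : ∀ x : r, (∀ y : r, ((trf ι).restrict r) x y = 0) → x = 0 := by
      intro x hx
      apply Subtype.ext
      refine hr x.1 x.2 fun z hz => ?_
      have h2 : trf ι x z = 0 := hx ⟨z, hz⟩
      rw [trf_symm, trf_apply] at h2
      exact h2
    refine ⟨h1, fun x hx => h1 x fun y => ?_⟩
    have h2 : trf ι y x = 0 := hx y
    show trf ι x y = 0
    rw [trf_symm]
    exact h2
  have hmem : ∀ (r : Submodule ℚ (Matrix ι ι ℚ)) (x : Matrix ι ι ℚ),
      x ∈ (trf ι).orthogonal r ↔ ∀ w ∈ r, (w * x).trace = 0 := by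
    intro r x
    rw [LinearMap.BilinForm.mem_orthogonal_iff]
    rfl
  constructor
  · have hc := LinearMap.BilinForm.isCompl_orthogonal_of_restrict_nondegenerate hrefl (hres s hnz)
    obtain ⟨V, hV⟩ : ∃ V, V = (trf ι).orthogonal s := ⟨_, rfl⟩
    rw [← hV] at hc
    have hVm : ∀ x : Matrix ι ι ℚ, x ∈ V ↔ ∀ w ∈ s, (w * x).trace = 0 := by
      intro x
      rw [hV]
      exact hmem s x
    have hVs : ∀ y ∈ s, ∀ x ∈ V, y * x - x * y ∈ V := by
      intro y hy x hx
      rw [hVm] at hx ⊢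
      intro w hw
      have h1 := hx _ (hbr w hw y hy)
      have e : (w * (y * x - x * y)).trace = ((w * y - y * w) * x).trace := by
        rw [Matrix.mul_sub, Matrix.sub_mul, Matrix.trace_sub, Matrix.trace_sub, ← Matrix.mul_assoc,
          ← Matrix.mul_assoc]
        congr 1
        rw [Matrix.trace_mul_comm, Matrix.mul_assoc]
      rw [e]
      exact h1
    refine ⟨s.projection V hc, fun x => Submodule.projection_apply_mem hc x,
      fun x hx => Submodule.projection_apply_left hc ⟨x, hx⟩, fun x hx => ?_, fun y hy x => ?_⟩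
    · rw [Submodule.projection_apply_eq_zero_iff, hVm]
      intro w hw
      rw [Matrix.trace]
      refine Finset.sum_eq_zero fun i _ => ?_
      rw [Matrix.diag_apply, Matrix.mul_apply]
      refine Finset.sum_eq_zero fun j _ => ?_
      by_cases h : w i j = 0
      · rw [h, zero_mul]
      · rw [hx j i (hdeg w hw i j h).symm, mul_zero]
    · obtain ⟨π, hπ⟩ : ∃ π, π = s.projection V hc := ⟨_, rfl⟩
      rw [← hπ]
      have h1 : ∀ x, π x ∈ s := fun x => by
        rw [hπ]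
        exact Submodule.projection_apply_mem hc x
      have h2 : ∀ x ∈ s, π x = x := fun x hx => by
        rw [hπ]
        exact Submodule.projection_apply_left hc ⟨x, hx⟩
      have h3 : ∀ x ∈ V, π x = 0 := fun x hx => by
        rw [hπ]
        exact (Submodule.projection_apply_eq_zero_iff hc).2 hx
      have h4 : ∀ x, x - π x ∈ V := fun x => by
        refine (Submodule.projection_apply_eq_zero_iff hc).1 ?_
        rw [← hπ, map_sub, h2 _ (h1 x), sub_self]
      have h6 : y * x - x * y = (y * π x - π x * y) + (y * (x - π x) - (x - π x) * y) := by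
        rw [Matrix.mul_sub, Matrix.sub_mul]
        abel
      rw [h6, map_add, h2 _ (hbr y hy _ (h1 x)), h3 _ (hVs y hy _ (h4 x)), add_zero]
  · have hle := br_le hbr
    have hnz1 : ∀ y ∈ br s, (∀ z ∈ br s, (z * y).trace = 0) → y = 0 := by
      intro y hy h
      refine br_cen hK hbr hC hy fun v hv => ?_
      have h1 : y * v - v * y = 0 := by
        refine hnz _ (hbr y (hle hy) v hv) fun z hz => ?_
        rw [Matrix.trace_mul_comm, tr_br, Matrix.trace_mul_comm]
        exact h _ (Submodule.subset_span ⟨v, hv, z, hz, rfl⟩)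
      exact (sub_eq_zero.1 h1).symm
    have hc := LinearMap.BilinForm.isCompl_orthogonal_of_restrict_nondegenerate hrefl
      (hres (br s) hnz1)
    intro y hy
    have h1 : y ∈ br s ⊔ (trf ι).orthogonal (br s) := by
      rw [hc.sup_eq_top]
      exact Submodule.mem_top
    obtain ⟨c, hcm, x, hx, hcx⟩ := Submodule.mem_sup.1 h1
    refine ⟨c, hcm, fun z hz => ?_⟩
    have hyc : y - c = x := by
      rw [← hcx]
      abel
    have hxs : x ∈ s := by
      rw [← hyc]
      exact s.sub_mem hy (hle hcm)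
    rw [hyc]
    have h2 : x * z - z * x = 0 := by
      refine hnz _ (hbr x hxs z hz) fun v hv => ?_
      rw [Matrix.trace_mul_comm, tr_br, Matrix.trace_mul_comm]
      exact (hmem _ _).1 hx _ (Submodule.subset_span ⟨z, hz, v, hv, rfl⟩)
    exact sub_eq_zero.1 h2

end Pool.Agent.N211.SM
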