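import Pool.Agent.N211.SM.Stm2
import Pool.Agent.N211.MO.Alt

/-!
# Semisimplicity of the cohomology from functionals on the exterior powers (helper749)

After `Pool/Agent/N211/SM/Ss.lean` (helper386).
-/

set_option linter.unusedSectionVars false

namespace Pool.Agent.N211.SM

namespace Ssv

open Matrix Module
open Pool.Agent.N202.CF (Tensor act)
open Pool.Agent.N202.NC (HasDegree)
open Pool.Agent.N211.MO (Dt sum_Dt altOf altOf_apply Dt_ne perp isCompl_perp)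

section

variable {E : Type} [Field E] {ι : Type} [Fintype ι] [DecidableEq ι]

/-- the component of the tensor -/
def CC (deg : ι → ℕ) {r : ℕ} (d : ℕ) : Tensor ι r E →ₗ[E] Tensor ι r E where
  toFun t w := if ∑ k, deg (w k) = d then t w else 0
  map_add' s t := by
    funext w
    simp only [Pi.add_apply]
    split_ifs
    · rfl
    · rw [add_zero]
  map_smul' c t := by
    funext w
    simp only [Pi.smul_apply, RingHom.id_apply]
    split_ifs
    · rfl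
    · rw [smul_zero]

theorem CC_apply (deg : ι → ℕ) {r : ℕ} (d : ℕ) (t : Tensor ι r E) (w) :
    CC deg d t w = if ∑ k, deg (w k) = d then t w else 0 := rfl

theorem CC_deg (deg : ι → ℕ) {r : ℕ} (d : ℕ) (t : Tensor ι r E) :
    HasDegree deg (CC deg d t) d := by
  intro w hw
  rw [CC_apply] at hw
  by_contra h
  exact hw (if_neg h)

theorem act_CC (deg : ι → ℕ) {r : ℕ} (d : ℕ) {g : Matrix ι ι E}
    (hg : ∀ i j, g i j ≠ 0 → deg i = deg j) (t : Tensor ι r E) :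
    act g (CC deg d t) = CC deg d (act g t) := by
  funext w
  rw [CC_apply]
  have h1 : ∀ w' : Fin r → ι, (∏ k, g (w k) (w' k)) ≠ 0 →
      ∑ k, deg (w k) = ∑ k, deg (w' k) := by
    intro w' h
    exact Finset.sum_congr rfl fun k _ =>
      hg _ _ ((Finset.prod_ne_zero_iff.1 h) k (Finset.mem_univ k))
  unfold act
  by_cases hP : ∑ k, deg (w k) = d
  · rw [if_pos hP]
    refine Finset.sum_congr rfl fun w' _ => ?_
    by_cases h : (∏ k, g (w k) (w' k)) = 0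
    · rw [h, zero_mul, zero_mul]
    · rw [CC_apply, if_pos]
      rw [← h1 w' h]
      exact hP
  · rw [if_neg hP]
    refine Finset.sum_eq_zero fun w' _ => ?_
    by_cases h : (∏ k, g (w k) (w' k)) = 0
    · rw [h, zero_mul]
    · rw [CC_apply, if_neg, mul_zero]
      rw [← h1 w' h]
      exact hP

theorem act_Dt (g : Matrix ι ι E) {r : ℕ} (x : Fin r → ι → E) :
    act g (Dt E x) = Dt E fun a => g *ᵥ x a := by
  funext w
  unfold act
  exact sum_Dt (fun (b : Fin r) (t : ι) => g (w b) t) x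

/-- the change of basis -/
theorem Dt_basis {S : Submodule E (ι → E)} {r : ℕ} (b : Basis (Fin r) E S) (y : Fin r → S) :
    Dt E (fun a => (y a : ι → E)) = b.det y • Dt E fun a => (b a : ι → E) := by
  funext w
  let F : S [⋀^Fin r]→ₗ[E] E := (altOf (LinearMap.proj (R := E)
    (φ := fun _ : Fin r → ι => E) w)).compLinearMap S.subtype
  have h1 : ∀ y : Fin r → S, F y = Dt E (fun a => (y a : ι → E)) w := fun y => rfl
  have h2 := AlternatingMap.eq_smul_basis_det b F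
  have h3 := congrArg (fun G : S [⋀^Fin r]→ₗ[E] E => G y) h2
  rw [Pi.smul_apply, ← h1, ← h1]
  refine h3.trans ?_
  rw [AlternatingMap.smul_apply, smul_eq_mul, smul_eq_mul, mul_comm]

end

end Ssv

open Ssv in
open Matrix Module Pool.Agent.N202.NC Pool.Agent.N211.MO in
open Pool.Agent.N202.CF (Tensor act) in
theorem t_SSV : S_SSV := by
  intro ℓ _ Γ _ ι _ _ deg ρ hρ hyp Δ m hΔ S _ hS
  classical
  obtain ⟨r, hr⟩ : ∃ r, finrank ℚ_[ℓ] S = r := ⟨_, rfl⟩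
  rcases r with _ | n
  · have h1 : S = ⊥ := Submodule.finrank_eq_zero.1 hr
    refine ⟨Δ, ⊤, hΔ, fun _ _ _ _ => trivial, ?_⟩
    rw [h1]
    exact isCompl_bot_top
  obtain ⟨b, -⟩ : ∃ _ : Basis (Fin (n + 1)) ℚ_[ℓ] S, True :=
    ⟨finBasisOfFinrankEq _ S hr, trivial⟩
  have hinv' : ∀ s, ρ s * ρ s⁻¹ = 1 := fun s => by rw [← map_mul, mul_inv_cancel, map_one]
  -- the nonzero component
  have hv : Dt ℚ_[ℓ] (fun a => (b a : ι → ℚ_[ℓ])) ≠ 0 :=
    Dt_ne (b.linearIndependent.map' S.subtype (Submodule.ker_subtype S))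
  obtain ⟨w₀, hw₀⟩ := Function.ne_iff.1 hv
  rw [Pi.zero_apply] at hw₀
  obtain ⟨d, hd⟩ : ∃ d, ∑ k, deg (w₀ k) = d := ⟨_, rfl⟩
  have hv' : CC deg d (Dt ℚ_[ℓ] fun a => (b a : ι → ℚ_[ℓ])) ≠ 0 := by
    refine Function.ne_iff.2 ⟨w₀, ?_⟩
    rw [CC_apply, if_pos hd]
    exact hw₀
  -- the scalars
  have hc : ∀ s ∈ Δ, ∃ c : ℚ_[ℓ], Dt ℚ_[ℓ] (fun a => ρ s *ᵥ (b a : ι → ℚ_[ℓ])) =
      c • Dt ℚ_[ℓ] (fun a => (b a : ι → ℚ_[ℓ])) := by
    intro s hs
    exact ⟨_, Dt_basis b (fun a => ⟨_, hS s hs _ (b a).2⟩)⟩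
  choose! c₀ hc₀ using hc
  -- the action on the component
  have hcomp : ∀ (s : Γ) (x : Fin (n + 1) → ι → ℚ_[ℓ]),
      act (ρ s) (CC deg d (Dt ℚ_[ℓ] x)) = CC deg d (Dt ℚ_[ℓ] fun a => ρ s *ᵥ x a) := by
    intro s x
    rw [act_CC deg d (hρ s), act_Dt]
  have hbound : n + 1 ≤ Fintype.card ι := by
    have h1 := Submodule.finrank_le S
    rwa [hr, Module.finrank_fintype_fun_eq_card] at h1
  obtain ⟨Δ₁, f, hΔ₁, hf, hfs⟩ := hyp (n + 1) d _ Δ c₀ hbound hv' (CC_deg deg d _) hΔ (by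
    intro s hs
    rw [hcomp s, hc₀ s hs, map_smul])
  -- the alternating form
  let A : (ι → ℚ_[ℓ]) [⋀^Fin (n + 1)]→ₗ[ℚ_[ℓ]] ℚ_[ℓ] := altOf (f.comp (CC deg d))
  have hA : ∀ x, A x = f (CC deg d (Dt ℚ_[ℓ] x)) := fun x => rfl
  have hAb : A (fun a => (b a : ι → ℚ_[ℓ])) ≠ 0 := by
    rw [hA]
    exact hf
  have hAs : ∀ s ∈ Δ₁ ⊓ Δ, ∀ x : Fin (n + 1) → ι → ℚ_[ℓ],
      A (fun a => ρ s *ᵥ x a) = c₀ s * A x := by
    intro s hs x
    rw [hA, hA, ← hcomp]
    exact hfs s hs.1 _ (CC_deg deg d _)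
  have hcompl := isCompl_perp A b hAb
  refine ⟨Δ₁ ⊓ Δ, perp A S, inferInstance, ?_, hcompl⟩
  intro s hs x hx y hy
  have h4 : A.curryLeft (ρ s *ᵥ x) y =
      A (fun a => ρ s *ᵥ (Fin.cons x (fun i => ρ s⁻¹ *ᵥ y i) :
        Fin (n + 1) → ι → ℚ_[ℓ]) a) := by
    rw [AlternatingMap.curryLeft_apply_apply]
    congr 1
    funext i
    refine Fin.cases rfl (fun i => ?_) i
    rw [Fin.cons_succ, Matrix.mulVec_mulVec, hinv', Matrix.one_mulVec]
    rfl
  rw [h4, hAs s hs]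
  have h5 : A.curryLeft x (fun i => ρ s⁻¹ *ᵥ y i) = 0 :=
    hx _ fun i => hS s⁻¹ (Δ.inv_mem hs.2) (y i) (hy i)
  rw [AlternatingMap.curryLeft_apply_apply] at h5
  have h6 : A (Fin.cons x fun i => ρ s⁻¹ *ᵥ y i) = 0 := h5
  rw [h6, mul_zero]

end Pool.Agent.N211.SM
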