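import Pool.Agent.N211.SM.Stm
import Pool.Agent.N618.TB.Dp
import Pool.Agent.N202.TB.Bracket

/-!
# SM/SYM: the transfer of relations (helper395)
-/

set_option linter.unusedSectionVars false

namespace Pool.Agent.N211.SM

open Matrix
open Pool.Agent.N996.BP Pool.Agent.N202.TB

namespace SYM

section

variable {R : Type} [CommRing R] {ι : Type} [Fintype ι] [DecidableEq ι] {κ : Type} [Fintype κ]
  [DecidableEq κ]

/-- tensor product of matrices -/
def tp (M : κ → Matrix ι ι R) : Matrix (κ → ι) (κ → ι) R :=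
  Matrix.of fun v w => ∏ k, M k (v k) (w k)

lemma tp_apply (M : κ → Matrix ι ι R) (v w : κ → ι) : tp M v w = ∏ k, M k (v k) (w k) := rfl

lemma tp_mul (M N : κ → Matrix ι ι R) : tp M * tp N = tp fun k => M k * N k := by
  ext v w
  simp only [Matrix.mul_apply, tp_apply]
  rw [Finset.prod_univ_sum, Fintype.piFinset_univ]
  exact Finset.sum_congr rfl fun u _ => Finset.prod_mul_distrib.symm

lemma tp_mulVec (M : κ → Matrix ι ι R) (x : κ → ι → R) :
    (tp M *ᵥ fun v => ∏ k, x k (v k)) = fun v => ∏ k, (M k *ᵥ x k) (v k) := by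
  funext v
  simp only [Matrix.mulVec, dotProduct, tp_apply]
  rw [Finset.prod_univ_sum, Fintype.piFinset_univ]
  exact Finset.sum_congr rfl fun u _ => Finset.prod_mul_distrib.symm

lemma dp_eq (y : Matrix ι ι R) :
    dp κ y = ∑ k, tp (Function.update (fun _ : κ => (1 : Matrix ι ι R)) k y) := by
  ext v w
  rw [Matrix.sum_apply]
  simp only [dp, Matrix.of_apply, tp_apply]
  refine Finset.sum_congr rfl fun k _ => ?_
  rw [← Finset.mul_prod_erase Finset.univ
    (fun j => Function.update (fun _ : κ => (1 : Matrix ι ι R)) k y j (v j) (w j))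
    (Finset.mem_univ k), Function.update_self]
  congr 1
  refine Finset.prod_congr rfl fun j hj => ?_
  rw [Function.update_of_ne (Finset.ne_of_mem_erase hj), Matrix.one_apply]

lemma dp_tp (y : Matrix ι ι R) (M : κ → Matrix ι ι R) :
    dp κ y * tp M = ∑ k, tp (Function.update M k (y * M k)) := by
  rw [dp_eq, Matrix.sum_mul]
  refine Finset.sum_congr rfl fun k _ => ?_
  rw [tp_mul]
  congr 1
  funext j
  by_cases h : j = k
  · subst h
    rw [Function.update_self, Function.update_self]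
  · rw [Function.update_of_ne h, Function.update_of_ne h, Matrix.one_mul]

lemma tp_dp (y : Matrix ι ι R) (M : κ → Matrix ι ι R) :
    tp M * dp κ y = ∑ k, tp (Function.update M k (M k * y)) := by
  rw [dp_eq, Matrix.mul_sum]
  refine Finset.sum_congr rfl fun k _ => ?_
  rw [tp_mul]
  congr 1
  funext j
  by_cases h : j = k
  · subst h
    rw [Function.update_self, Function.update_self]
  · rw [Function.update_of_ne h, Function.update_of_ne h, Matrix.mul_one]

lemma tp_update_smul (M : κ → Matrix ι ι R) (k : κ) (c : R) :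
    tp (Function.update M k (c • M k)) = c • tp M := by
  ext v w
  rw [Matrix.smul_apply, tp_apply, tp_apply, ← Finset.mul_prod_erase Finset.univ
    (fun j => Function.update M k (c • M k) j (v j) (w j)) (Finset.mem_univ k),
    ← Finset.mul_prod_erase Finset.univ (fun j => M j (v j) (w j)) (Finset.mem_univ k),
    Function.update_self, Matrix.smul_apply, smul_eq_mul, smul_eq_mul, mul_assoc]
  congr 2
  refine Finset.prod_congr rfl fun j hj => ?_
  rw [Function.update_of_ne (Finset.ne_of_mem_erase hj)]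

lemma dp_comm (y : Matrix ι ι R) (M : κ → Matrix ι ι R) (h : ∀ k, y * M k = M k * y) :
    dp κ y * tp M = tp M * dp κ y := by
  rw [dp_tp, tp_dp]
  refine Finset.sum_congr rfl fun k _ => ?_
  rw [h]

lemma dp_scal (y : Matrix ι ι R) (M : κ → Matrix ι ι R) (c : κ → R)
    (h : ∀ k, y * M k = c k • M k) : dp κ y * tp M = (∑ k, c k) • tp M := by
  rw [dp_tp, Finset.sum_smul]
  refine Finset.sum_congr rfl fun k _ => ?_
  rw [h, tp_update_smul]

lemma dp_eig (y : Matrix ι ι R) (x : κ → ι → R) (c : κ → R) (h : ∀ k, y *ᵥ x k = c k • x k) :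
    (dp κ y *ᵥ fun v => ∏ k, x k (v k)) = (∑ k, c k) • fun v => ∏ k, x k (v k) := by
  rw [dp_eq, Matrix.sum_mulVec, Finset.sum_smul]
  refine Finset.sum_congr rfl fun k _ => ?_
  rw [tp_mulVec]
  funext v
  rw [Pi.smul_apply, smul_eq_mul, ← Finset.mul_prod_erase Finset.univ
    (fun j => (Function.update (fun _ : κ => (1 : Matrix ι ι R)) k y j *ᵥ x j) (v j))
    (Finset.mem_univ k), ← Finset.mul_prod_erase Finset.univ (fun j => x j (v j))
    (Finset.mem_univ k), Function.update_self, h, Pi.smul_apply, smul_eq_mul, mul_assoc]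
  congr 2
  refine Finset.prod_congr rfl fun j hj => ?_
  rw [Function.update_of_ne (Finset.ne_of_mem_erase hj), Matrix.one_mulVec]

lemma dp_add (x y : Matrix ι ι R) : dp κ (x + y) = dp κ x + dp κ y := by
  have h := Pool.Agent.N618.TB.dplin_ R ι κ 1 x y
  rw [one_smul, one_smul] at h
  exact h

lemma dp_smul (c : R) (x : Matrix ι ι R) : dp κ (c • x) = c • dp κ x := by
  ext v w
  simp only [dp, Matrix.of_apply, Matrix.smul_apply, smul_eq_mul, Finset.mul_sum]
  exact Finset.sum_congr rfl fun k _ => by ring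

lemma dp_zero : dp κ (0 : Matrix ι ι R) = 0 := by
  ext v w
  simp [dp]

end

end SYM

theorem t_SYM : S_SYM := by
  intro E _ _ ι ι' S _ _ _ _ _ _ deg' e π b y w hsum hort htr hcomm hcen hy hw hwb hwy hrel n t ht
  have hX : ∀ (x : S → E) (s : S), (∑ s', x s' • π s') * π s = x s • π s := by
    intro x s
    rw [Finset.sum_mul, Finset.sum_eq_single s]
    · rw [Matrix.smul_mul, hort, if_pos rfl]
    · intro s' _ hs'
      rw [Matrix.smul_mul, hort, if_neg hs', smul_zero]
    · intro h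
      exact absurd (Finset.mem_univ s) h
  let Pm : (Fin n → S) → Matrix (Fin n → ι) (Fin n → ι) E := fun sig => SYM.tp fun k => π (sig k)
  have hone : ∑ sig, Pm sig = 1 := by
    ext v u
    rw [Matrix.sum_apply]
    show ∑ sig : Fin n → S, ∏ k, π (sig k) (v k) (u k) = _
    rw [← Fintype.piFinset_univ,
      ← Finset.prod_univ_sum (fun _ => Finset.univ) (fun k s => π s (v k) (u k))]
    have h1 : ∀ k, ∑ s, π s (v k) (u k) = (1 : Matrix ι ι E) (v k) (u k) := by
      intro k
      rw [← Matrix.sum_apply, hsum]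
    simp only [h1]
    by_cases h : v = u
    · subst h
      simp
    · rw [Matrix.one_apply_ne h]
      obtain ⟨k, hk⟩ := Function.ne_iff.mp h
      exact Finset.prod_eq_zero (Finset.mem_univ k) (Matrix.one_apply_ne hk)
  have hdec : dp (Fin n) y.1 *ᵥ t = ∑ sig, dp (Fin n) y.1 *ᵥ (Pm sig *ᵥ t) := by
    have h1 : t = ∑ sig, Pm sig *ᵥ t := by
      rw [← Matrix.sum_mulVec, hone, Matrix.one_mulVec]
    conv_lhs => rw [h1]
    rw [Matrix.mulVec_sum]
  rw [hdec]
  refine Finset.sum_eq_zero fun sig _ => ?_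
  have hkill : ∀ z ∈ b, dp (Fin n) z.1 *ᵥ (Pm sig *ᵥ t) = 0 := by
    intro z hz
    rw [Matrix.mulVec_mulVec, SYM.dp_comm _ _ (fun k => hcomm z hz (sig k)),
      ← Matrix.mulVec_mulVec, ht z hz, Matrix.mulVec_zero]
  have hXt : ∀ x : S → E, dp (Fin n) (∑ s, x s • π s) *ᵥ (Pm sig *ᵥ t) =
      (∑ k, x (sig k)) • (Pm sig *ᵥ t) := by
    intro x
    rw [Matrix.mulVec_mulVec, SYM.dp_scal _ _ (fun k => x (sig k)) (fun k => hX x (sig k)),
      Matrix.smul_mulVec]
  by_cases h0 : Pm sig *ᵥ t = 0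
  · rw [h0, Matrix.mulVec_zero]
  obtain ⟨z0, hz0, x0, hyx⟩ := hy
  rw [hyx, SYM.dp_add, Matrix.add_mulVec, hkill z0 hz0, zero_add, hXt]
  suffices hcl : ∑ k, x0 (sig k) = 0 by rw [hcl, zero_smul]
  rcases Nat.eq_zero_or_pos n with rfl | hn
  · simp
  -- the brackets
  have hbr : ∀ c ∈ Submodule.span E {c | ∃ u ∈ b, ∃ v ∈ b, c = u.1 * v.1 - v.1 * u.1},
      dp (Fin n) c *ᵥ (Pm sig *ᵥ t) = 0 ∧ ∀ s, (c * π s).trace = 0 := by
    intro c hc
    induction hc using Submodule.span_induction with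
    | mem c hc =>
      obtain ⟨u, hu, v, hv, rfl⟩ := hc
      constructor
      · rw [dp_bracket, Matrix.sub_mulVec, ← Matrix.mulVec_mulVec, ← Matrix.mulVec_mulVec,
          hkill u hu, hkill v hv, Matrix.mulVec_zero, Matrix.mulVec_zero, sub_zero]
      · intro s
        rw [Matrix.sub_mul, Matrix.trace_sub, Matrix.mul_assoc u.1, hcomm v hv s,
          ← Matrix.mul_assoc, Matrix.trace_mul_comm (u.1 * π s), ← Matrix.mul_assoc, sub_self]
    | zero =>
      constructor
      · rw [SYM.dp_zero, Matrix.zero_mulVec]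
      · intro s
        rw [Matrix.zero_mul, Matrix.trace_zero]
    | add c c' _ _ h1 h2 =>
      constructor
      · rw [SYM.dp_add, Matrix.add_mulVec, h1.1, h2.1, add_zero]
      · intro s
        rw [Matrix.add_mul, Matrix.trace_add, h1.2, h2.2, add_zero]
    | smul r c _ h1 =>
      constructor
      · rw [SYM.dp_smul, Matrix.smul_mulVec, h1.1, smul_zero]
      · intro s
        rw [Matrix.smul_mul, Matrix.trace_smul, h1.2, smul_zero]
  have hz1 : ∀ z ∈ b, ∃ x : S → E, (∀ s, (z.1 * π s).trace = x s * (π s).trace) ∧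
      ∑ k, x (sig k) = 0 := by
    intro z hz
    obtain ⟨c, hc, x, hzx⟩ := hcen z hz
    obtain ⟨hc1, hc2⟩ := hbr c hc
    refine ⟨x, fun s => ?_, ?_⟩
    · rw [hzx, Matrix.add_mul, Matrix.trace_add, hc2, zero_add, hX, Matrix.trace_smul,
        smul_eq_mul]
    · have h1 := hkill z hz
      rw [hzx, SYM.dp_add, Matrix.add_mulVec, hc1, zero_add, hXt] at h1
      exact (smul_eq_zero.mp h1).resolve_right h0
  choose d hd using htr
  let D : ℕ := ∏ s, d s
  have hD : 0 < D := Finset.prod_pos fun s _ => (hd s).1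
  let nn : S → ℕ := fun s => 2 * (D / d s)
  have hnn : ∀ s, nn s * d s = 2 * D := by
    intro s
    have h1 : d s ∣ D := Finset.dvd_prod_of_mem d (Finset.mem_univ s)
    show 2 * (D / d s) * d s = 2 * D
    rw [mul_assoc, Nat.div_mul_cancel h1]
  have hnnpos : ∀ s, 0 < nn s := by
    intro s
    have h1 := hnn s
    rcases Nat.eq_zero_or_pos (nn s) with h2 | h2
    · rw [h2, zero_mul] at h1
      omega
    · exact h2
  let K : Type := Σ k : Fin n, Fin (nn (sig k))
  have hKpos : 0 < Fintype.card K :=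
    Fintype.card_pos_iff.mpr ⟨⟨⟨0, hn⟩, ⟨0, hnnpos _⟩⟩⟩
  obtain ⟨m, hm⟩ : ∃ m, Fintype.card K = m + 1 := ⟨Fintype.card K - 1, by omega⟩
  let ε : Fin (m + 1) ≃ K := (finCongr hm.symm).trans (Fintype.equivFin K).symm
  let f : Fin (m + 1) → S := fun i => sig (ε i).1
  have hsumf : ∀ (M : Type) [AddCommMonoid M] (g : S → M),
      ∑ i, g (f i) = ∑ k, nn (sig k) • g (sig k) := by
    intro M _ g
    have h1 : ∑ i, g (f i) = ∑ p : K, g (sig p.1) := Equiv.sum_comp ε (fun p : K => g (sig p.1))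
    rw [h1, Fintype.sum_sigma]
    refine Finset.sum_congr rfl fun k _ => ?_
    show ∑ _y : Fin (nn (sig k)), g (sig k) = _
    rw [Finset.sum_const, Finset.card_univ, Fintype.card_fin]
  let a : (Fin (m + 1) → ι') → E := fun v => ∏ i, w (f i) (v i)
  have ha0 : a ≠ 0 := by
    have h1 : ∀ s, ∃ i, w s i ≠ 0 := fun s => Function.ne_iff.mp (hw s).1
    choose i0 hi0 using h1
    intro h
    have h2 := congrFun h (fun i => i0 (f i))
    exact Finset.prod_ne_zero_iff.mpr (fun i _ => hi0 (f i)) h2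
  have heven : ∀ v, a v ≠ 0 → Even (∑ k, deg' (v k)) := by
    intro v hv
    have h1 : ∀ i, deg' (v i) = e (f i) := fun i =>
      (hw (f i)).2 (v i) (Finset.prod_ne_zero_iff.mp hv i (Finset.mem_univ i))
    rw [Finset.sum_congr rfl fun i _ => h1 i, hsumf ℕ e]
    refine Finset.even_sum _ fun k _ => ?_
    rw [smul_eq_mul]
    exact (even_two_mul _).mul_right _
  have heig : ∀ (Y : Matrix ι' ι' E) (c : S → E), (∀ s, Y *ᵥ w s = c s • w s) →
      dp (Fin (m + 1)) Y *ᵥ a = (∑ k, nn (sig k) • c (sig k)) • a := by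
    intro Y c h
    rw [← hsumf E c]
    exact SYM.dp_eig Y (fun i => w (f i)) (fun i => c (f i)) (fun i => h (f i))
  have hsc : ∀ x : S → E, ∑ k, nn (sig k) • (-(x (sig k) * (π (sig k)).trace)) =
      -(2 * (D : E)) * ∑ k, x (sig k) := by
    intro x
    rw [Finset.mul_sum]
    refine Finset.sum_congr rfl fun k _ => ?_
    rw [(hd (sig k)).2, nsmul_eq_mul]
    have h1 : ((nn (sig k) : ℕ) : E) * (d (sig k) : E) = 2 * (D : E) := by
      exact_mod_cast hnn (sig k)
    linear_combination (-(x (sig k))) * h1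
  have hb : ∀ z ∈ b, dp (Fin (m + 1)) z.2 *ᵥ a = 0 := by
    intro z hz
    obtain ⟨x, hx1, hx2⟩ := hz1 z hz
    rw [heig z.2 (fun s => -(x s * (π s).trace)) (fun s => by rw [hwb s z hz, hx1]), hsc, hx2,
      mul_zero, zero_smul]
  have hya := hrel m a heven hb
  obtain ⟨x, hx1, hx2⟩ := hz1 z0 hz0
  have hytr : ∀ s, (y.1 * π s).trace = (x s + x0 s) * (π s).trace := by
    intro s
    rw [hyx, Matrix.add_mul, Matrix.trace_add, hx1, hX, Matrix.trace_smul, smul_eq_mul, add_mul]
  rw [heig y.2 (fun s => -((x s + x0 s) * (π s).trace)) (fun s => by rw [hwy s, hytr]),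
    hsc (fun s => x s + x0 s)] at hya
  have h5 := (smul_eq_zero.mp hya).resolve_right ha0
  have h6 : (2 * (D : E)) ≠ 0 := by
    have : ((2 * D : ℕ) : E) ≠ 0 := Nat.cast_ne_zero.mpr (by omega)
    push_cast at this
    exact this
  have h7 : ∑ k, (x (sig k) + x0 (sig k)) = 0 := by
    rcases mul_eq_zero.mp h5 with h | h
    · exact absurd (neg_eq_zero.mp h) h6
    · exact h
  rw [Finset.sum_add_distrib, hx2, zero_add] at h7
  exact h7

end Pool.Agent.N211.SM
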