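import Pool.Agent.N202.TB.Defs

/-!
# SM/VLOG: subspaces stable under a matrix are stable under its logarithm

Author: helper562 (project SM of helper211).
-/

set_option autoImplicit false
set_option linter.unusedSectionVars false

namespace Pool.Agent.N211.SM.Vlog

open Matrix Filter Topology

theorem vlog {ℓ : ℕ} [Fact ℓ.Prime] {m : Type} [Fintype m] [DecidableEq m]
    (g y : Matrix m m ℚ_[ℓ]) (W : Submodule ℚ_[ℓ] (m → ℚ_[ℓ]))
    (hy : Pool.Agent.N202.TB.IsLog g y)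
    (hg : ∀ x ∈ W, g *ᵥ x ∈ W) : ∀ x ∈ W, y *ᵥ x ∈ W := by
  intro x hx
  have hpow : ∀ n : ℕ, (g ^ n) *ᵥ x ∈ W := by
    intro n
    induction n with
    | zero => simpa using hx
    | succ n ih => rw [pow_succ', ← mulVec_mulVec]; exact hg _ ih
  have hcl : IsClosed (W : Set (m → ℚ_[ℓ])) := W.closed_of_finiteDimensional
  have ht : Tendsto (fun k : ℕ => ((ℓ : ℚ_[ℓ]) ^ k)⁻¹ • ((g ^ (ℓ ^ k)) *ᵥ x - x)) atTop
      (𝓝 (y *ᵥ x)) := by
    rw [tendsto_pi_nhds]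
    intro i
    have h1 : Tendsto (fun k : ℕ => ∑ j, (((ℓ : ℚ_[ℓ]) ^ k)⁻¹ *
        ((g ^ (ℓ ^ k)) i j - (1 : Matrix m m ℚ_[ℓ]) i j)) * x j) atTop (𝓝 (∑ j, y i j * x j)) :=
      tendsto_finsetSum _ fun j _ => Tendsto.mul_const _ (hy i j)
    refine h1.congr fun k => ?_
    have h2 : x i = ∑ j, (1 : Matrix m m ℚ_[ℓ]) i j * x j :=
      (congrFun (Matrix.one_mulVec x) i).symm
    have h3 : ((g ^ (ℓ ^ k)) *ᵥ x) i = ∑ j, (g ^ (ℓ ^ k)) i j * x j := rfl
    rw [Pi.smul_apply, Pi.sub_apply, smul_eq_mul, h3, h2, ← Finset.sum_sub_distrib,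
      Finset.mul_sum]
    exact Finset.sum_congr rfl fun j _ => by ring
  exact hcl.mem_of_tendsto ht (Eventually.of_forall fun k =>
    W.smul_mem _ (W.sub_mem (hpow _) hx))

end Pool.Agent.N211.SM.Vlog
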