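import Pool.Agent.N211.SM.Stm2
import Pool.Agent.N211.SM.VlogA

/-!
# SM/VLOG: subspaces stable under a matrix are stable under its logarithm

Author: helper562 (project SM of helper211); the proof is in `VlogA.lean`.
-/

set_option autoImplicit false

theorem Pool.Agent.N211.SM.t_VLOG : Pool.Agent.N211.SM.S_VLOG :=
  fun _ _ _ _ _ g y W hy hg => Pool.Agent.N211.SM.Vlog.vlog g y W hy hg
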