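import Pool.Agent.N211.SM.Fin0
import Pool.Agent.N211.SM.Ext
import Pool.Agent.N211.SM.Bc
import Pool.Agent.N211.SM.Det
import Pool.Agent.N211.SM.Sym
import Pool.Agent.N211.SM.Idem
import Pool.Agent.N211.SM.Red
import Pool.Agent.N211.SM.Gred
import Pool.Agent.N211.SM.Comm
import Pool.Agent.N211.SM.Logw
import Pool.Agent.N211.SM.Pos
import Pool.Agent.N211.SM.Avg
import Pool.Agent.N211.SM.Car
import Pool.Agent.N211.SM.Eng
import Pool.Agent.N211.SM.Ndg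
import Pool.Agent.N211.SM.Prj
import Pool.Agent.N211.SM.Vlog
import Pool.Agent.N211.SM.Ssv

/-!
# The main theorems
-/

set_option linter.unusedSectionVars false

namespace Pool.Agent.N211.SM

open Pool.Agent.N202.NC

theorem ssteps : SSteps where
  E := t_EXT
  BC := t_BC
  D := t_DET
  Sy := t_SYM
  Id := t_IDEM
  R := t_RED
  GR := t_GRED
  CM := t_COMM

theorem steps3 : Steps3 where
  Car := t_CAR
  Eng := t_ENG
  Ndg := t_NDG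
  Prj := t_PRJ
  Vlog := t_VLOG
  Av := t_AVG

theorem steps2 : Steps2 where
  toSSteps := ssteps
  T3 := steps3
  LW := t_LOGW
  Pos := t_POS

variable {ι ι' : Type} [Fintype ι] [DecidableEq ι] [Fintype ι'] [DecidableEq ι']
  {ℓ : ℕ} [Fact ℓ.Prime] {Γ : Type} [Group Γ]

/-- **The theorem on the product `X^K × A`.** -/
theorem product (P : HodgeStructure ι) (P' : HodgeStructure ι') (ρ : Γ →* Matrix ι ι ℚ_[ℓ])
    (ρ' : Γ →* Matrix ι' ι' ℚ_[ℓ]) (χ : Γ →* ℚ_[ℓ]) (j : ℚ_[ℓ] →+* ℂ) (K : ℕ)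
    (hG : GaloisRep P.deg ρ χ) (hG' : GaloisRep P'.deg ρ' χ) (h4 : 4 ≤ K)
    (hb : ∀ m, betti P.deg m ≤ K) (hA : IsCMFactor P P' ρ ρ' χ j K)
    (hHT : HodgeInTateOn P P' ρ ρ' χ K) (hTH : TateInHodgeOn P P' ρ ρ' χ K) :
    SemisimpleH P.deg ρ ∧ ∀ k, 0 < k → HodgeInTate P ρ χ k ∧ TateInHodge P ρ χ k := by
  have h1 := fin3 steps2 hG hG' h4 hA hHT hTH hb
  exact ⟨h1, fun k hk => ⟨fin1 steps2 hG hG' h4 hA hHT hTH hb k hk,
    fin2 steps2 hG hG' h4 hA hHT hTH hb h1 k hk⟩⟩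

/-- **The theorem on the fourth power.** -/
theorem fourth (P : HodgeStructure ι) (P' : HodgeStructure ι') (ρ : Γ →* Matrix ι ι ℚ_[ℓ])
    (ρ' : Γ →* Matrix ι' ι' ℚ_[ℓ]) (χ : Γ →* ℚ_[ℓ]) (j : ℚ_[ℓ] →+* ℂ)
    (hG : GaloisRep P.deg ρ χ) (hG' : GaloisRep P'.deg ρ' χ)
    (hA1 : ∀ k, 0 < k → HodgeInTate P' ρ' χ k) (hA2 : ∀ k, 0 < k → TateInHodge P' ρ' χ k)
    (hd : HasDetDuals P P' ρ ρ' χ j) (h2 : HodgeInTate P ρ χ 2) :
    (HodgeInTate P ρ χ 4 → ∀ k, 0 < k → HodgeInTate P ρ χ k) ∧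
    (SemisimpleH P.deg ρ → TateInHodge P ρ χ 2 → TateInHodge P ρ χ 4 →
      ∀ k, 0 < k → TateInHodge P ρ χ k) :=
  ⟨fun h4 => fin4 steps2 hG hG' hd h2 hA1 h4, fun hss h2' h4' =>
    fin5 steps2 hG hG' hd h2 hA2 hss h2' h4'⟩

end Pool.Agent.N211.SM
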