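import Pool.Agent.N211.SM.Main1
import Pool.Agent.N211.SM.Det2

/-!
# The lines, from the determinants
-/

set_option linter.unusedSectionVars false

namespace Pool.Agent.N211.SM

open Matrix ComplexConjugate
open Pool.Agent.N996.BP Pool.Agent.N202.TB Pool.Agent.N202.NC
open Pool.Agent.N202.CF (Tensor inL IsComb act matL der kil_iff IsCombM der_eq)

variable {ι ι' : Type} [Fintype ι] [DecidableEq ι] [Fintype ι'] [DecidableEq ι']
  {ℓ : ℕ} [Fact ℓ.Prime] {Γ : Type} [Group Γ]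

variable {P : HodgeStructure ι} {P' : HodgeStructure ι'} {H : HData ι} {H' : HData ι'}
  {HW : HData (ι ⊕ ι')} {ρ : Γ →* Matrix ι ι ℚ_[ℓ]}
  {ρ' : Γ →* Matrix ι' ι' ℚ_[ℓ]} {χ : Γ →* ℚ_[ℓ]} {j : ℚ_[ℓ] →+* ℂ}
  {U : Subgroup Γ} {Y : Γ → Matrix (ι ⊕ ι') (ι ⊕ ι') ℚ_[ℓ]} {lam : Γ → ℚ_[ℓ]}
  {Y1 : Γ → Matrix ι ι ℚ_[ℓ]} {Y2 : Γ → Matrix ι' ι' ℚ_[ℓ]}

/-- The degree of a combination of Hodge classes. -/
lemma isComb_deg {W : Type} [Fintype W] [DecidableEq W] {P : HodgeStructure W} {HW : HData W}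
    (b : Br P HW) {n c : ℕ} {τ : Tensor W n ℂ}
    (h : IsComb {a : Tensor W n ℚ | P.IsHodge c a} τ) {w : Fin n → W} (hw : τ w ≠ 0) :
    ∑ k, P.deg (w k) = 2 * c := by
  by_contra hne
  refine hw ?_
  unfold IsComb at h
  have h1 : ∀ t ∈ Submodule.span ℂ (inL ℂ '' {a : Tensor W n ℚ | P.IsHodge c a}), t w = 0 := by
    intro t ht
    induction ht using Submodule.span_induction with
    | mem x hx =>
      obtain ⟨a, ha, rfl⟩ := hx
      have h2 : a w = 0 := by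
        by_contra h3
        exact hne (((b.isHodge_iff a).1 ha).1 w h3)
      change ((a w : ℚ) : ℂ) = 0
      rw [h2, Rat.cast_zero]
    | zero => rfl
    | add x y _ _ hx hy => rw [Pi.add_apply, hx, hy, add_zero]
    | smul c x _ hx => rw [Pi.smul_apply, hx, smul_zero]
  exact h1 τ h

/-- A product of a determinant with a class of `A` is killed by both Lie algebras. -/
theorem tens_kill (hE : S_EXT) (hBC : S_BC) (bW : Br (sumHS P P') HW)
    (hG : GaloisRep P.deg ρ χ) (hG' : GaloisRep P'.deg ρ' χ)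
    (hlog : Logs (fun s => sumRep ρ ρ' s) (fun s => χ s) U Y lam)
    (hY : ∀ u ∈ U, Y u = blk (Y1 u) (Y2 u)) {n m : ℕ} {τ : Tensor (ι ⊕ ι') (n + 1) ℂ}
    (hcomb : IsComb {a : Tensor (ι ⊕ ι') (n + 1) ℚ | (sumHS P P').IsHodge m a} τ)
    {Δ : Subgroup Γ} (hΔ : Δ.FiniteIndex)
    (hinv : ∀ s ∈ Δ, act ((sumRep ρ ρ' s).map j) τ = j (χ s) ^ m • τ) :
    (∀ z ∈ hL HW ℂ, dp (Fin (n + 1)) (blk z.1 z.2) *ᵥ τ = 0) ∧
    ∀ u ∈ U, dp (Fin (n + 1)) (blk ((Yt P.deg Y1 lam u).map j)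
      ((Yt P'.deg Y2 lam u).map j)) *ᵥ τ = 0 := by
  have hspan := tate_span hBC j (G := sumRep ρ ρ') hΔ fun s hs => by
    rw [← act_eq_kp]
    exact hinv s hs
  have hgal := galW hG hG'
  refine ⟨fun z hz => ?_, fun u hu => ?_⟩
  · exact (mem_hL.1 hz).hspan (hspan_of_isComb bW hcomb)
  · have key : τ ∈ LinearMap.ker (Matrix.mulVecLin (dp (Fin (n + 1))
        (blk ((Yt P.deg Y1 lam u).map j) ((Yt P'.deg Y2 lam u).map j)))) := by
      refine (Submodule.span_le.2 ?_) hspan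
      rintro _ ⟨t, ht1, ht2, rfl⟩
      rw [SetLike.mem_coe, LinearMap.mem_ker, Matrix.mulVecLin_apply]
      have h3 : blk ((Yt P.deg Y1 lam u).map j) ((Yt P'.deg Y2 lam u).map j) =
          (Yt (sumHS P P').deg Y lam u).map j := by
        rw [Yt_blk (hY u hu), blk_map _ (map_zero j)]
      have h4 : IsTate (sumHS P P').deg (sumRep ρ ρ') χ m t :=
        ⟨fun w hw => isComb_deg bW hcomb (ht1 w hw), ht2⟩
      rw [h3, dp_mapj, jA_mulVec,
        hlog.kill_tate hgal.gal steps hu (n := n) (j := m) h4, jA_zero]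
    rw [LinearMap.mem_ker, Matrix.mulVecLin_apply] at key
    exact key

/-- The line for an idempotent, from the determinants. -/
theorem line_exists2 (S : SSteps) (b : Br P H) (b' : Br P' H')
    (bW : Br (sumHS P P') HW) (hG : GaloisRep P.deg ρ χ) (hG' : GaloisRep P'.deg ρ' χ)
    (hlog : Logs (fun s => sumRep ρ ρ' s) (fun s => χ s) U Y lam)
    (hlog1 : Logs (fun s => ρ s) (fun s => χ s) U Y1 lam)
    (hY : ∀ u ∈ U, Y u = blk (Y1 u) (Y2 u))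
    (h2 : HT H P.deg (fun s => ρ s) (fun s => χ s) 1)
    (hdd : HasDetDuals P P' ρ ρ' χ j)
    {π : Matrix ι ι ℂ} (hπ : π * π = π) (h0 : π ≠ 0)
    (hd : ∃ d, ∀ i k, π i k ≠ 0 → P.deg i = d ∧ P.deg k = d)
    (hs : π ∈ Submodule.span ℂ (cQ '' {x | Cen H P.deg x})) :
    ∃ (e : ℕ) (y : ι' → ℂ), (∃ d : ℕ, 0 < d ∧ π.trace = (d : ℂ)) ∧ y ≠ 0 ∧
      (∀ i, y i ≠ 0 → P'.deg i = e) ∧
      (∀ z ∈ hL HW ℂ, z.2 *ᵥ y = -(z.1 * π).trace • y) ∧
      ∀ u ∈ U, (Yt P'.deg Y2 lam u).map j *ᵥ y =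
        -((Yt P.deg Y1 lam u).map j * π).trace • y := by
  classical
  obtain ⟨d, v, hd0, htr, hv0, -, hdp, -, hkp, hsym⟩ := det2 hπ h0
  obtain ⟨m0, hm0⟩ := hd
  have hcen : {x : Matrix ι ι ℚ | P.IsEndo x ∧ ∀ y, P.IsEndo y → x * y = y * x} =
      {x | Cen H P.deg x} := by
    ext x
    simp only [Set.mem_setOf_eq, Cen, b.en_iff]
  obtain ⟨c, e, y, Δ, hy0, hydeg, hcomb, hΔ, hinv⟩ := hdd m0 d π v
    ⟨hπ, h0, hm0, by rw [hcen]; exact hs⟩ ⟨hv0, htr, hkp, hsym⟩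
  obtain ⟨hk1, hk2⟩ := tens_kill S.E S.BC bW hG hG' hlog hY hcomb hΔ hinv
  have key : ∀ (z : Matrix ι ι ℂ) (z' : Matrix ι' ι' ℂ), z * π = π * z →
      dp (Fin (d + 1)) (blk z z') *ᵥ
        snc (extl v : (Fin d → ι ⊕ ι') → ℂ) (inr1 y : ι ⊕ ι' → ℂ) = 0 →
      z' *ᵥ y = -(z * π).trace • y := by
    intro z z' hz h3
    rw [S.E.snc_dp, S.E.extl_dp, hdp z hz, blk_inr1, extl_smul, snc_smul, snc_add] at h3
    have h4 : (z * π).trace • (inr1 y : ι ⊕ ι' → ℂ) + inr1 (z' *ᵥ y) =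
        inr1 ((z * π).trace • y + z' *ᵥ y) := by
      funext i
      cases i with
      | inl i => simp [inr1]
      | inr i => rfl
    rw [h4] at h3
    have h5 := snc_ne hv0 h3
    rw [neg_smul]
    exact eq_neg_of_add_eq_zero_right h5
  refine ⟨e, y, ⟨d, hd0, htr⟩, hy0, hydeg, fun z hz => ?_, fun u hu => ?_⟩
  · exact key z.1 z.2 (hL_comm S b b' bW hz hs) (hk1 z hz)
  · refine key _ _ (comm_span hs fun x hx => ?_) (hk2 u hu)
    have h3 := congrArg (fun M => M.map j) (Yt_comm hG.gal hlog1 b.hQ h2 hx.1 hu)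
    rw [map_mul', map_mul', map_mL (L := ℂ)] at h3
    exact h3

end Pool.Agent.N211.SM
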