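import Pool.Agent.N211.SM.Ssv
import Pool.Agent.N211.SM.Defs3

/-!
# Semisimplicity of the cohomology from functionals, with the Betti numbers (after helper749)
-/

set_option linter.unusedSectionVars false

namespace Pool.Agent.N211.SM

open Matrix Module in
/-- The dimension of `H^m(X)`. -/
lemma finrank_Hm {L : Type} [Field L] {ι : Type} [Fintype ι] [DecidableEq ι] {deg : ι → ℕ}
    (m : ℕ) : finrank L (Hm L deg m) ≤ betti deg m := by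
  let f : (Hm L deg m) →ₗ[L] ({i // deg i = m} → L) :=
    { toFun := fun x i => (x : ι → L) i
      map_add' := fun x y => rfl
      map_smul' := fun c x => rfl }
  have hf : Function.Injective f := by
    intro x y hxy
    apply Subtype.ext
    funext i
    by_cases hi : deg i = m
    · exact congrFun hxy ⟨i, hi⟩
    · have h1 : (x : ι → L) i = 0 := by
        by_contra h
        exact hi (x.2 i h)
      have h2 : (y : ι → L) i = 0 := by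
        by_contra h
        exact hi (y.2 i h)
      rw [h1, h2]
  have h1 := LinearMap.finrank_le_finrank_of_injective hf
  rw [Module.finrank_fintype_fun_eq_card, Fintype.card_subtype] at h1
  exact h1

open Ssv in
open Matrix Module Pool.Agent.N202.NC Pool.Agent.N211.MO in
open Pool.Agent.N202.CF (Tensor act) in
theorem ssv {ℓ : ℕ} [Fact ℓ.Prime] {Γ : Type} [Group Γ] {ι : Type} [Fintype ι]
    [DecidableEq ι] {deg : ι → ℕ} {ρ : Γ →* Matrix ι ι ℚ_[ℓ]} {K : ℕ}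
    (hK : ∀ m, betti deg m ≤ K) (hρ : ∀ s i j, ρ s i j ≠ 0 → deg i = deg j)
    (hyp : ∀ (r d : ℕ) (v : Tensor ι r ℚ_[ℓ]) (Δ : Subgroup Γ) (c : Γ → ℚ_[ℓ]),
      r ≤ K → v ≠ 0 → HasDegree deg v d → Δ.FiniteIndex →
      (∀ s ∈ Δ, act (ρ s) v = c s • v) →
      ∃ (Δ' : Subgroup Γ) (f : Tensor ι r ℚ_[ℓ] →ₗ[ℚ_[ℓ]] ℚ_[ℓ]), Δ'.FiniteIndex ∧ f v ≠ 0 ∧
        ∀ s ∈ Δ', ∀ t, HasDegree deg t d → f (act (ρ s) t) = c s * f t)
    (Δ : Subgroup Γ) (m : ℕ) (hΔ : Δ.FiniteIndex) (S : Submodule ℚ_[ℓ] (ι → ℚ_[ℓ]))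
    (hSm : ∀ x ∈ S, ∀ i, x i ≠ 0 → deg i = m) (hS : ∀ s ∈ Δ, ∀ x ∈ S, ρ s *ᵥ x ∈ S) :
    ∃ (Δ' : Subgroup Γ) (S' : Submodule ℚ_[ℓ] (ι → ℚ_[ℓ])), Δ'.FiniteIndex ∧
      (∀ s ∈ Δ', ∀ x ∈ S', ρ s *ᵥ x ∈ S') ∧ IsCompl S S' := by
  classical
  obtain ⟨r, hr⟩ : ∃ r, finrank ℚ_[ℓ] S = r := ⟨_, rfl⟩
  rcases r with _ | n
  · have h1 : S = ⊥ := Submodule.finrank_eq_zero.1 hr
    refine ⟨Δ, ⊤, hΔ, fun _ _ _ _ => trivial, ?_⟩
    rw [h1]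
    exact isCompl_bot_top
  obtain ⟨b, -⟩ : ∃ _ : Basis (Fin (n + 1)) ℚ_[ℓ] S, True :=
    ⟨finBasisOfFinrankEq _ S hr, trivial⟩
  have hinv' : ∀ s, ρ s * ρ s⁻¹ = 1 := fun s => by rw [← map_mul, mul_inv_cancel, map_one]
  -- the nonzero component
  have hv : Dt ℚ_[ℓ] (fun a => (b a : ι → ℚ_[ℓ])) ≠ 0 :=
    Dt_ne (b.linearIndependent.map' S.subtype (Submodule.ker_subtype S))
  obtain ⟨w₀, hw₀⟩ := Function.ne_iff.1 hv
  rw [Pi.zero_apply] at hw₀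
  obtain ⟨d, hd⟩ : ∃ d, ∑ k, deg (w₀ k) = d := ⟨_, rfl⟩
  have hv' : CC deg d (Dt ℚ_[ℓ] fun a => (b a : ι → ℚ_[ℓ])) ≠ 0 := by
    refine Function.ne_iff.2 ⟨w₀, ?_⟩
    rw [CC_apply, if_pos hd]
    exact hw₀
  -- the scalars
  have hc : ∀ s ∈ Δ, ∃ c : ℚ_[ℓ], Dt ℚ_[ℓ] (fun a => ρ s *ᵥ (b a : ι → ℚ_[ℓ])) =
      c • Dt ℚ_[ℓ] (fun a => (b a : ι → ℚ_[ℓ])) := by
    intro s hs
    exact ⟨_, Dt_basis b (fun a => ⟨_, hS s hs _ (b a).2⟩)⟩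
  choose! c₀ hc₀ using hc
  -- the action on the component
  have hcomp : ∀ (s : Γ) (x : Fin (n + 1) → ι → ℚ_[ℓ]),
      act (ρ s) (CC deg d (Dt ℚ_[ℓ] x)) = CC deg d (Dt ℚ_[ℓ] fun a => ρ s *ᵥ x a) := by
    intro s x
    rw [act_CC deg d (hρ s), act_Dt]
  have hbound : n + 1 ≤ K := by
    refine le_trans ?_ (hK m)
    have h1 := Submodule.finrank_le (Hm ℚ_[ℓ] deg m)
    have h2 : S ≤ Hm ℚ_[ℓ] deg m := fun x hx => hSm x hx
    have h3 := Submodule.finrank_mono h2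
    rw [hr] at h3
    exact h3.trans (finrank_Hm m)
  obtain ⟨Δ₁, f, hΔ₁, hf, hfs⟩ := hyp (n + 1) d _ Δ c₀ hbound hv' (CC_deg deg d _) hΔ (by
    intro s hs
    rw [hcomp s, hc₀ s hs, map_smul])
  -- the alternating form
  let A : (ι → ℚ_[ℓ]) [⋀^Fin (n + 1)]→ₗ[ℚ_[ℓ]] ℚ_[ℓ] := altOf (f.comp (CC deg d))
  have hA : ∀ x, A x = f (CC deg d (Dt ℚ_[ℓ] x)) := fun x => rfl
  have hAb : A (fun a => (b a : ι → ℚ_[ℓ])) ≠ 0 := by
    rw [hA]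
    exact hf
  have hAs : ∀ s ∈ Δ₁ ⊓ Δ, ∀ x : Fin (n + 1) → ι → ℚ_[ℓ],
      A (fun a => ρ s *ᵥ x a) = c₀ s * A x := by
    intro s hs x
    rw [hA, hA, ← hcomp]
    exact hfs s hs.1 _ (CC_deg deg d _)
  have hcompl := isCompl_perp A b hAb
  refine ⟨Δ₁ ⊓ Δ, perp A S, inferInstance, ?_, hcompl⟩
  intro s hs x hx y hy
  have h4 : A.curryLeft (ρ s *ᵥ x) y =
      A (fun a => ρ s *ᵥ (Fin.cons x (fun i => ρ s⁻¹ *ᵥ y i) :
        Fin (n + 1) → ι → ℚ_[ℓ]) a) := by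
    rw [AlternatingMap.curryLeft_apply_apply]
    congr 1
    funext i
    refine Fin.cases rfl (fun i => ?_) i
    rw [Fin.cons_succ, Matrix.mulVec_mulVec, hinv', Matrix.one_mulVec]
    rfl
  rw [h4, hAs s hs]
  have h5 : A.curryLeft x (fun i => ρ s⁻¹ *ᵥ y i) = 0 :=
    hx _ fun i => hS s⁻¹ (Δ.inv_mem hs.2) (y i) (hy i)
  rw [AlternatingMap.curryLeft_apply_apply] at h5
  have h6 : A (Fin.cons x fun i => ρ s⁻¹ *ᵥ y i) = 0 := h5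
  rw [h6, mul_zero]

end Pool.Agent.N211.SM
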