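import Pool.Agent.N211.SM.Stm2
import Pool.Agent.N211.SM.Ssv2
import Pool.Agent.N211.SM.Defs3
import Pool.Agent.N211.SM.Gred
import Pool.Agent.N202.NC.MainT

/-!
# The trace form on the derived algebra of the Lie algebra of the Galois group
-/

set_option linter.unusedSectionVars false

namespace Pool.Agent.N211.SM

open Matrix ComplexConjugate
open Pool.Agent.N996.BP Pool.Agent.N202.TB Pool.Agent.N202.NC
open Pool.Agent.N202.CF (Tensor inL IsComb act matL)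

variable {ι : Type} [Fintype ι] [DecidableEq ι] {ℓ : ℕ} [Fact ℓ.Prime] {Γ : Type} [Group Γ]

/-- The steps. -/
structure Steps3 : Prop where
  Car : S_CAR
  Eng : S_ENG
  Ndg : S_CAR → S_NDG
  Prj : S_PRJ
  Vlog : S_VLOG
  Av : S_AVG

/-- The representation as a homomorphism to the endomorphisms. -/
noncomputable def vRep (ρ : Γ →* Matrix ι ι ℚ_[ℓ]) : Γ →* Module.End ℚ_[ℓ] (ι → ℚ_[ℓ]) where
  toFun s := Matrix.mulVecLin (ρ s)
  map_one' := by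
    rw [map_one, Matrix.mulVecLin_one]
    rfl
  map_mul' s t := by
    rw [map_mul, Matrix.mulVecLin_mul]
    rfl

lemma vRep_apply (ρ : Γ →* Matrix ι ι ℚ_[ℓ]) (s : Γ) (x : ι → ℚ_[ℓ]) :
    vRep ρ s x = ρ s *ᵥ x := rfl

/-- Semisimplicity from functionals. -/
theorem semisimple_of {deg : ι → ℕ} {ρ : Γ →* Matrix ι ι ℚ_[ℓ]} (S3 : Steps3) {K : ℕ}
    (hK : ∀ m, betti deg m ≤ K) (hρ : ∀ s i j, ρ s i j ≠ 0 → deg i = deg j)
    (h : ∀ (r d : ℕ) (v : Tensor ι r ℚ_[ℓ]) (Δ : Subgroup Γ) (c : Γ → ℚ_[ℓ]),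
      r ≤ K → v ≠ 0 → HasDegree deg v d → Δ.FiniteIndex →
      (∀ s ∈ Δ, act (ρ s) v = c s • v) →
      ∃ (Δ' : Subgroup Γ) (f : Tensor ι r ℚ_[ℓ] →ₗ[ℚ_[ℓ]] ℚ_[ℓ]), Δ'.FiniteIndex ∧ f v ≠ 0 ∧
        ∀ s ∈ Δ', ∀ t, HasDegree deg t d → f (act (ρ s) t) = c s * f t) :
    SemisimpleH deg ρ := by
  intro Δ hΔ m S hS hst
  obtain ⟨Δ', S', hΔ', hst', hc⟩ := ssv hK hρ h Δ m hΔ S (fun x hx => hS hx) hst
  obtain ⟨S'', hst'', hc''⟩ := S3.Av ℚ_[ℓ] Γ (ι → ℚ_[ℓ]) (vRep ρ) Δ Δ' hΔ' S S'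
    (fun s hs x hx => hst s hs x hx) (fun s hs x hx => hst' s hs x hx) hc
  have hHm : ∀ s, ∀ x ∈ Hm ℚ_[ℓ] deg m, ρ s *ᵥ x ∈ Hm ℚ_[ℓ] deg m := by
    intro s x hx i hi
    by_contra hne
    refine hi ?_
    rw [Matrix.mulVec, dotProduct]
    refine Finset.sum_eq_zero fun k _ => ?_
    by_cases h1 : x k = 0
    · rw [h1, mul_zero]
    · have h2 := hx k h1
      have h3 : ρ s i k = 0 := by
        by_contra h3
        exact hne ((hρ s i k h3).trans h2)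
      rw [h3, zero_mul]
  refine ⟨S'' ⊓ Hm ℚ_[ℓ] deg m, inf_le_right, fun s hs x hx =>
    ⟨hst'' s hs x hx.1, hHm s x hx.2⟩, ?_, ?_⟩
  · rw [← inf_assoc, hc''.inf_eq_bot, bot_inf_eq]
  · rw [← sup_inf_assoc_of_le _ hS, hc''.sup_eq_top, top_inf_eq]

variable {deg : ι → ℕ} {ρ : Γ →* Matrix ι ι ℚ_[ℓ]} {χ : Γ →* ℚ_[ℓ]}
  {U : Subgroup Γ} {Y : Γ → Matrix ι ι ℚ_[ℓ]} {lam : Γ → ℚ_[ℓ]}

/-- Stable homogeneous subspaces are stable under the Lie algebra. -/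
lemma lie_vec (S3 : Steps3) (hL : Logs (fun s => ρ s) (fun s => χ s) U Y lam) {m : ℕ}
    {W : Submodule ℚ_[ℓ] (ι → ℚ_[ℓ])} (hW : W ≤ Hm ℚ_[ℓ] deg m)
    (hst : ∀ s ∈ U, ∀ x ∈ W, ρ s *ᵥ x ∈ W) {z : Matrix ι ι ℚ_[ℓ]} (hz : z ∈ lie deg U Y lam)
    {x : ι → ℚ_[ℓ]} (hx : x ∈ W) : z *ᵥ x ∈ W := by
  unfold lie at hz
  induction hz using Submodule.span_induction with
  | mem z hz =>
    obtain ⟨u, hu, rfl⟩ := hz
    have h1 := S3.Vlog ℓ ι (ρ u) (Y u) W (hL.log u hu) (hst u hu) x hx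
    have h2 : DD deg ℚ_[ℓ] *ᵥ x = (m : ℚ_[ℓ]) • x := by
      funext i
      rw [DD, Matrix.mulVec_diagonal, Pi.smul_apply, smul_eq_mul]
      by_cases h3 : x i = 0
      · rw [h3, mul_zero, mul_zero]
      · rw [hW hx i h3]
    rw [Yt, Matrix.sub_mulVec, Matrix.smul_mulVec, h2]
    exact Submodule.sub_mem _ h1 (Submodule.smul_mem _ _ (Submodule.smul_mem _ _ hx))
  | zero => rw [Matrix.zero_mulVec]; exact Submodule.zero_mem _
  | add a b _ _ ha hb => rw [Matrix.add_mulVec]; exact Submodule.add_mem _ ha hb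
  | smul c a _ ha => rw [Matrix.smul_mulVec]; exact Submodule.smul_mem _ _ ha

/-- Nilpotent ideals are zero. -/
theorem ideal_zero (S3 : Steps3) (hρ : ∀ s i j, ρ s i j ≠ 0 → deg i = deg j)
    (hL : Logs (fun s => ρ s) (fun s => χ s) U Y lam)
    (hss : SemisimpleH deg ρ) {a : Submodule ℚ_[ℓ] (Matrix ι ι ℚ_[ℓ])}
    (ha : a ≤ lie deg U Y lam) (hbr : ∀ x ∈ lie deg U Y lam, ∀ y ∈ a, x * y - y * x ∈ a)
    (hst : ∀ u ∈ U, ∀ x ∈ a, ρ u * x * ρ u⁻¹ ∈ a) (hnil : ∀ x ∈ a, IsNilpotent x) : a = ⊥ := by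
  have hinv : ∀ s, ρ s⁻¹ * ρ s = 1 := fun s => by rw [← map_mul, inv_mul_cancel, map_one]
  have hinv' : ∀ s, ρ s * ρ s⁻¹ = 1 := fun s => by rw [← map_mul, mul_inv_cancel, map_one]
  have key : ∀ m, ∀ x ∈ Hm ℚ_[ℓ] deg m, ∀ z ∈ a, z *ᵥ x = 0 := by
    intro m
    obtain ⟨S, hS⟩ : ∃ S : Submodule ℚ_[ℓ] (ι → ℚ_[ℓ]), ∀ x, x ∈ S ↔
        x ∈ Hm ℚ_[ℓ] deg m ∧ ∀ z ∈ a, z *ᵥ x = 0 := by
      refine ⟨{
        carrier := {x | x ∈ Hm ℚ_[ℓ] deg m ∧ ∀ z ∈ a, z *ᵥ x = 0}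
        zero_mem' := ⟨Submodule.zero_mem _, fun z _ => Matrix.mulVec_zero z⟩
        add_mem' := fun {x y} hx hy => ⟨Submodule.add_mem _ hx.1 hy.1, fun z hz => by
          rw [Matrix.mulVec_add, hx.2 z hz, hy.2 z hz, add_zero]⟩
        smul_mem' := fun c x hx => ⟨Submodule.smul_mem _ _ hx.1, fun z hz => by
          rw [Matrix.mulVec_smul, hx.2 z hz, smul_zero]⟩ }, fun x => Iff.rfl⟩
    obtain ⟨S', hS1, hS2, hS3, hS4⟩ := hss U hL.fin m S (fun x hx => ((hS x).1 hx).1) (by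
      intro s hs x hx
      obtain ⟨h1, h2⟩ := (hS x).1 hx
      refine (hS _).2 ⟨?_, fun z hz => ?_⟩
      · intro i hi
        by_contra hne
        refine hi ?_
        rw [Matrix.mulVec, dotProduct]
        refine Finset.sum_eq_zero fun k _ => ?_
        by_cases h3 : x k = 0
        · rw [h3, mul_zero]
        · have h4 : ρ s i k = 0 := by
            by_contra h4
            exact hne ((hρ s i k h4).trans (h1 k h3))
          rw [h4, zero_mul]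
      · have h3 := hst s⁻¹ (U.inv_mem hs) z hz
        rw [inv_inv] at h3
        have h4 : z * ρ s = ρ s * (ρ s⁻¹ * z * ρ s) := by
          rw [← Matrix.mul_assoc, ← Matrix.mul_assoc, hinv', Matrix.one_mul]
        rw [Matrix.mulVec_mulVec, h4, ← Matrix.mulVec_mulVec, h2 _ h3, Matrix.mulVec_zero])
    have hbot : S' = ⊥ := by
      by_contra hne
      obtain ⟨w, hw, hw0, hw1⟩ := S3.Eng ℚ_[ℓ] ι a (fun x hx y hy => hbr x (ha hx) y hy) hnil S' hne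
        fun x hx w hw => lie_vec S3 hL hS1 hS2 (ha hx) hw
      have h1 : w ∈ S ⊓ S' := ⟨(hS w).2 ⟨hS1 hw, hw1⟩, hw⟩
      rw [hS3, Submodule.mem_bot] at h1
      exact hw0 h1
    rw [hbot, sup_bot_eq] at hS4
    intro x hx
    rw [← hS4] at hx
    exact ((hS x).1 hx).2
  refine (Submodule.eq_bot_iff _).2 fun z hz => ?_
  ext i k
  have h1 := key (deg k) (Pi.single k 1) (by
    intro i hi
    by_cases h : i = k
    · rw [h]
    · exact absurd (by rw [Pi.single_apply, if_neg h]) hi) z hz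
  have h2 := congrFun h1 i
  rw [Matrix.mulVec_single_one] at h2
  exact h2

/-- The trace form on the derived algebra is nondegenerate, and the projector. -/
theorem exists_prj (S3 : Steps3) (hG : GalArr deg (fun s => ρ s) (fun s => χ s))
    (hL : Logs (fun s => ρ s) (fun s => χ s) U Y lam) (hss : SemisimpleH deg ρ) :
    ∃ p : Matrix ι ι ℚ_[ℓ] →ₗ[ℚ_[ℓ]] Matrix ι ι ℚ_[ℓ],
      (∀ x, p x ∈ brs (lie deg U Y lam) (lie deg U Y lam)) ∧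
      (∀ x ∈ brs (lie deg U Y lam) (lie deg U Y lam), p x = x) ∧
      (∀ x, (∀ y ∈ brs (lie deg U Y lam) (lie deg U Y lam), (x * y).trace = 0) → p x = 0) ∧
      (∀ u ∈ lie deg U Y lam, ∀ x, p (u * x - x * u) = u * p x - p x * u) ∧
      ∀ y ∈ lie deg U Y lam, ∀ z ∈ lie deg U Y lam, (y - p y) * z = z * (y - p y) := by
  have hbr : ∀ x ∈ lie deg U Y lam, ∀ y ∈ lie deg U Y lam, x * y - y * x ∈ lie deg U Y lam := by
    intro x hx y hy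
    exact GRED.bracket_mem hL hG hx hy
  have hinv' : ∀ s, ρ s * ρ s⁻¹ = 1 := fun s => by rw [← map_mul, mul_inv_cancel, map_one]
  obtain ⟨C, hC⟩ : ∃ C : Set (Matrix ι ι ℚ_[ℓ] × Matrix ι ι ℚ_[ℓ]),
      C = {z | ∃ u ∈ U, z = (ρ u, ρ u⁻¹)} := ⟨_, rfl⟩
  have hC1 : ∀ z ∈ C, z.1 * z.2 = 1 ∧ (z.2, z.1) ∈ C := by
    intro z hz
    rw [hC] at hz
    obtain ⟨u, hu, rfl⟩ := hz
    refine ⟨hinv' u, ?_⟩
    rw [hC]
    exact ⟨u⁻¹, U.inv_mem hu, by rw [inv_inv]⟩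
  have hC2 : ∀ z ∈ C, ∀ x ∈ lie deg U Y lam, z.1 * x * z.2 ∈ lie deg U Y lam := by
    intro z hz x hx
    rw [hC] at hz
    obtain ⟨u, hu, rfl⟩ := hz
    exact lie_stable hL hG hu hx
  have hC3 : ∀ u ∈ U, ((ρ u, ρ u⁻¹) : Matrix ι ι ℚ_[ℓ] × Matrix ι ι ℚ_[ℓ]) ∈ C := by
    intro u hu
    rw [hC]
    exact ⟨u, hu, rfl⟩
  have hnd := S3.Ndg S3.Car ℚ_[ℓ] ι (lie deg U Y lam) C hbr hC1 hC2 (by
    intro a ha h1 h2 h3
    refine ideal_zero S3 hG.deg hL hss ha h1 (fun u hu x hx => ?_) h3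
    exact h2 (ρ u, ρ u⁻¹) (hC3 u hu) x hx)
  obtain ⟨p, h1, h2, -, h3, h4, h5⟩ := S3.Prj ℚ_[ℓ] ι (lie deg U Y lam) hbr hnd
  exact ⟨p, h1, h2, h3, h4, h5⟩

end Pool.Agent.N211.SM
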