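import Pool.Agent.N211.SM.Main2
import Pool.Agent.N211.SM.Semi

/-!
# Tate classes are combinations of Hodge classes on all powers
-/

set_option linter.unusedSectionVars false

namespace Pool.Agent.N211.SM

open Matrix ComplexConjugate
open Pool.Agent.N996.BP Pool.Agent.N202.TB Pool.Agent.N202.NC
open Pool.Agent.N202.CF (Tensor inL IsComb act matL der kil_iff IsCombM der_eq)

variable {ι ι' : Type} [Fintype ι] [DecidableEq ι] [Fintype ι'] [DecidableEq ι']
  {ℓ : ℕ} [Fact ℓ.Prime] {Γ : Type} [Group Γ]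

variable {P : HodgeStructure ι} {P' : HodgeStructure ι'} {H : HData ι} {H' : HData ι'}
  {HW : HData (ι ⊕ ι')} {ρ : Γ →* Matrix ι ι ℚ_[ℓ]}
  {ρ' : Γ →* Matrix ι' ι' ℚ_[ℓ]} {χ : Γ →* ℚ_[ℓ]} {j : ℚ_[ℓ] →+* ℂ}
  {U : Subgroup Γ} {Y1 : Γ → Matrix ι ι ℚ_[ℓ]} {Y2 : Γ → Matrix ι' ι' ℚ_[ℓ]} {lam : Γ → ℚ_[ℓ]}

/-- The elements of the Hodge Lie algebra commute with the combinations of central elements. -/
lemma comb_comm {y x : Matrix ι ι ℚ_[ℓ]} (hy : Kill H ℚ_[ℓ] y)
    (hx : IsCombM {z | Cen H P.deg z} x) : y * x = x * y := by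
  unfold IsCombM at hx
  induction hx using Submodule.span_induction with
  | mem x hx =>
    obtain ⟨a, ha, rfl⟩ := hx
    exact hy.comm steps ha.1.2
  | zero => rw [Matrix.mul_zero, Matrix.zero_mul]
  | add a b _ _ ha hb => rw [Matrix.mul_add, Matrix.add_mul, ha, hb]
  | smul c a _ ha => rw [Matrix.mul_smul, Matrix.smul_mul, ha]

section main

variable (S : SSteps) (b : Br P H) (b' : Br P' H')
  (bW : Br (sumHS P P') HW) (hG : GaloisRep P.deg ρ χ) (hG' : GaloisRep P'.deg ρ' χ)
  (hlog1 : Logs (fun s => ρ s) (fun s => χ s) U Y1 lam)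
  (hlog2 : Logs (fun s => ρ' s) (fun s => χ s) U Y2 lam)
  (h2 : HT H P.deg (fun s => ρ s) (fun s => χ s) 1)
  (hts : ∀ n, n = 1 ∨ n = 3 → ∀ a ∈ tspan P.deg (fun s => ρ s) (fun s => χ s) n,
    a ∈ hspan H ℚ_[ℓ] n)
  (hLine : ∀ π : Matrix ι ι ℂ, π * π = π → π ≠ 0 →
    (∃ d, ∀ i k, π i k ≠ 0 → P.deg i = d ∧ P.deg k = d) →
    π ∈ Submodule.span ℂ (cQ '' {x | Cen H P.deg x}) →
    ∃ (e : ℕ) (y : ι' → ℂ), (∃ d : ℕ, 0 < d ∧ π.trace = (d : ℂ)) ∧ y ≠ 0 ∧
      (∀ i, y i ≠ 0 → P'.deg i = e) ∧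
      (∀ z ∈ hL HW ℂ, z.2 *ᵥ y = -(z.1 * π).trace • y) ∧
      ∀ u ∈ U, (Yt P'.deg Y2 lam u).map j *ᵥ y =
        -((Yt P.deg Y1 lam u).map j * π).trace • y)
  (hA1 : ∀ n j (a : Tensor ι' (n + 1) ℚ), P'.IsHodge j a →
    IsTate P'.deg ρ' χ j (inL ℚ_[ℓ] a))
  (hA2 : ∀ n j (t : Tensor ι' (n + 1) ℚ_[ℓ]), IsTate P'.deg ρ' χ j t →
    IsComb {a : Tensor ι' (n + 1) ℚ | P'.IsHodge j a} t)

include S b b' bW hG hG' hlog1 hlog2 hLine h2 hts hA2 in
/-- **Tate classes are combinations of Hodge classes.** -/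
theorem tate_hodge_all2 (S3 : Steps3) (hss : SemisimpleH P.deg ρ) {n i : ℕ} {t : (Fin (n + 1) → ι) → ℚ_[ℓ]}
    (ht : TateArr P.deg (fun s => ρ s) (fun s => χ s) n i t) : t ∈ hspan H ℚ_[ℓ] n := by
  obtain ⟨m, π, hπ1, hπ2, hπ3, hπ4, hπ5, hπ6⟩ := S.Id ι H P.deg b.hl b.hQ b.hQr
  have hline := fun s => hLine (π s) (by rw [hπ2, if_pos rfl]) (hπ3 s) (hπ4 s) (hπ5 s)
  choose e w htr hw0 hwdeg hw1 hw2 using hline
  obtain ⟨p, hp1, hp2, hp3, hp4, hp5⟩ := exists_prj S3 hG.gal hlog1 hss
  have hle1 : ∀ x ∈ brs (lie P.deg U Y1 lam) (lie P.deg U Y1 lam), x ∈ lie P.deg U Y1 lam := by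
    intro x hx
    refine (Submodule.span_le.2 ?_) hx
    rintro _ ⟨u, hu, v, hv, rfl⟩
    exact GRED.bracket_mem hlog1 hG.gal hu hv
  have hpm : ∀ x, p x ∈ lie P.deg U Y1 lam := fun x => hle1 _ (hp1 x)
  have hpz : ∀ x, p0 P.deg ℚ_[ℓ] x = 0 → p x = 0 := by
    intro x hx
    refine hp3 x fun y hy => ?_
    have hyE := lie_le_E0 hlog1 hG.gal (hle1 y hy)
    rw [Matrix.trace]
    refine Finset.sum_eq_zero fun i _ => ?_
    rw [Matrix.diag_apply, Matrix.mul_apply]
    refine Finset.sum_eq_zero fun k _ => ?_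
    by_cases hik : P.deg i = P.deg k
    · have h1 := congrFun (congrFun hx i) k
      rw [p0_apply, if_pos hik] at h1
      rw [h1]
      exact zero_mul _
    · rw [hyE k i fun h => hik h.symm, mul_zero]
  set B : Matrix ι ι ℚ_[ℓ] := mL ℚ_[ℓ] H.Qir with hB
  set Q : Matrix ι ι ℚ_[ℓ] := mL ℚ_[ℓ] H.Qr with hQ'
  have hBQ : B * Q = 1 := mL_Qir_Qr
  have hmL : ∀ {M : Matrix ι ι ℚ}, M ∈ E0 P.deg ℚ → mL ℚ_[ℓ] M ∈ E0 P.deg ℚ_[ℓ] := by
    intro M hM i j hne
    rw [mL_apply, hM i j hne, Rat.cast_zero]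
  have hBm : B ∈ E0 P.deg ℚ_[ℓ] := hmL (B_mem H b.hQ)
  have hQm : Q ∈ E0 P.deg ℚ_[ℓ] := hmL (Q_mem H b.hQr)
  have hsk : ∀ u ∈ U, Yt P.deg Y1 lam u * B + B * (Yt P.deg Y1 lam u)ᵀ = 0 :=
    fun u hu => Yt_skew hG.gal hlog1 b.hQ h2 hu
  have hle : ∀ {e : Matrix ι ι ℚ}, En H P.deg e → ∀ x ∈ lie P.deg U Y1 lam,
      x * mL ℚ_[ℓ] e = mL ℚ_[ℓ] e * x := by
    intro e he x hx
    have h3 : x ∈ LinearMap.ker (LinearMap.mulRight ℚ_[ℓ] (mL ℚ_[ℓ] e) -
        LinearMap.mulLeft ℚ_[ℓ] (mL ℚ_[ℓ] e)) := by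
      refine lie_le (fun u hu => ?_) hx
      rw [LinearMap.mem_ker, LinearMap.sub_apply, LinearMap.mulRight_apply,
        LinearMap.mulLeft_apply, Yt_comm hG.gal hlog1 b.hQ h2 he hu, sub_self]
    rw [LinearMap.mem_ker, LinearMap.sub_apply, LinearMap.mulRight_apply,
      LinearMap.mulLeft_apply, sub_eq_zero] at h3
    exact h3
  -- matrices which commute with the Galois Lie algebra
  have hcen : ∀ x : Matrix ι ι ℚ_[ℓ], x ∈ E0 P.deg ℚ_[ℓ] →
      (∀ u ∈ U, Yt P.deg Y1 lam u * x = x * Yt P.deg Y1 lam u) →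
      (∀ y, En H P.deg y → mL ℚ_[ℓ] y * x = x * mL ℚ_[ℓ] y) →
      IsCombM {z | Cen H P.deg z} x := by
    intro x hx h5 h6
    have hβ : ∀ z : Matrix ι ι ℚ_[ℓ], z * B + B * zᵀ = 0 →
        dp (Fin 2) z *ᵥ vec2 (x * B) = vec2 ((z * x - x * z) * B) := by
      intro z hz
      have h1 : B * zᵀ = -(z * B) := eq_neg_of_add_eq_zero_right hz
      rw [dp_vec2 steps, Matrix.mul_assoc x B, h1, Matrix.mul_neg, Matrix.sub_mul (z * x) (x * z) B,
        Matrix.mul_assoc z x B, Matrix.mul_assoc x z B, sub_eq_add_neg]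
    have h7 : vec2 (x * B) ∈ tspan P.deg (fun s => ρ s) (fun s => χ s) 1 := by
      refine hlog1.tspan_of_kill hG.gal steps (fun w hw => ?_) fun u hu => ?_
      · have h8 : (x * B) (w 0) (w 1) ≠ 0 := hw
        have h9 : P.deg (w 0) = P.deg (w 1) := by
          by_contra hne
          exact h8 (E0_mul hx hBm _ _ hne)
        rw [Fin.sum_univ_two]
        exact ⟨P.deg (w 1), by rw [← h9]⟩
      · have h8 := hβ _ (hsk u hu)
        rw [h5 u hu, sub_self, Matrix.zero_mul, map_zero] at h8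
        exact h8
    have h8 := hts 1 (Or.inl rfl) _ h7
    refine cen_span S.E b b' bW hx (fun y hy => ?_) h6
    have h9 : Kill H ℚ_[ℓ] (mL ℚ_[ℓ] y) :=
      Pool.Agent.N738.TB.kill_cast H ℚ_[ℓ] y (sQ_kill S.E b b' bW hy)
    have h10 := h9.hspan h8
    have h11 := hβ _ (h9.skew steps)
    have h12 : vec2 ((mL ℚ_[ℓ] y * x - x * mL ℚ_[ℓ] y) * B) = 0 := h11.symm.trans h10
    have h13 := (LinearEquiv.map_eq_zero_iff _).1 h12
    have h14 := congrArg (fun M => M * Q) h13
    simp only [Matrix.mul_assoc, hBQ, Matrix.mul_one, Matrix.zero_mul] at h14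
    exact eq_of_sub_eq_zero h14
  -- the array of the projector
  set α : (Fin 4 → ι) → ℚ_[ℓ] := arr4 (opP B Q p * kp (Fin 2) B) with hα
  have hα1 : ∀ y : Matrix ι ι ℚ_[ℓ], y * B + B * yᵀ = 0 →
      (dp (Fin 4) y *ᵥ α = 0 ↔ ∀ z, p (y * z - z * y) = y * p z - p z * y) := by
    intro y hy
    rw [hα, dp_arr4_eq_zero steps hBQ hy, opP_comm steps hBQ p hy]
  have hα2 : α ∈ tspan P.deg (fun s => ρ s) (fun s => χ s) 3 := by
    refine hlog1.tspan_of_kill hG.gal steps (fun w hw => ?_) fun u hu =>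
      (hα1 _ (hsk u hu)).2 (hp4 _ (mem_lie hu))
    exact arr4_even (fun v w hvw => opP_support hBm hQm (fun x => lie_le_E0 hlog1 hG.gal (hpm x))
      hpz hvw) hw
  have hα3 : ∀ y : Matrix ι ι ℚ_[ℓ], Kill H ℚ_[ℓ] y →
      ∀ z, p (y * z - z * y) = y * p z - p z * y := fun y hy =>
    (hα1 y (hy.skew steps)).1 (hy.hspan (hts 3 (Or.inr rfl) α hα2))
  -- the complex Galois Lie algebra
  obtain ⟨bC, hbC⟩ : ∃ bC : Submodule ℂ (Matrix ι ι ℂ × Matrix ι' ι' ℂ), bC =
      Submodule.span ℂ {z | ∃ u ∈ U, z = ((Yt P.deg Y1 lam u).map j,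
        (Yt P'.deg Y2 lam u).map j)} := ⟨_, rfl⟩
  have hgen : ∀ u ∈ U, ((Yt P.deg Y1 lam u).map j, (Yt P'.deg Y2 lam u).map j) ∈ bC := by
    intro u hu
    rw [hbC]
    exact Submodule.subset_span ⟨u, hu, rfl⟩
  have hfst : ∀ x ∈ lie P.deg U Y1 lam, ∃ z ∈ bC, z.1 = x.map j := by
    intro x hx
    unfold lie at hx
    induction hx using Submodule.span_induction with
    | mem x hx =>
      obtain ⟨u, hu, rfl⟩ := hx
      exact ⟨_, hgen u hu, rfl⟩
    | zero =>
      refine ⟨0, Submodule.zero_mem _, ?_⟩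
      ext p q
      exact (map_zero j).symm
    | add x y _ _ hx hy =>
      obtain ⟨z, hz, h⟩ := hx
      obtain ⟨z', hz', h'⟩ := hy
      refine ⟨z + z', Submodule.add_mem _ hz hz', ?_⟩
      rw [Prod.fst_add, h, h']
      ext p q
      exact (map_add j _ _).symm
    | smul c x _ hx =>
      obtain ⟨z, hz, h⟩ := hx
      refine ⟨j c • z, Submodule.smul_mem _ _ hz, ?_⟩
      rw [Prod.smul_fst, h]
      ext p q
      exact (map_mul j _ _).symm
  have hext : (extl t : (Fin (n + 1) → ι ⊕ ι') → ℚ_[ℓ]) ∈ hspan HW ℚ_[ℓ] n := by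
    refine Pool.Agent.N738.TB.hodge_ (ι ⊕ ι') HW ℚ_[ℓ] n _ fun yW hyW => ?_
    obtain ⟨y, y', rfl, hy, hy'⟩ := kill_blk S.E b b' bW hyW
    rw [S.E.extl_dp]
    suffices hs : dp (Fin (n + 1)) y *ᵥ t = 0 by rw [hs, extl_zero]
    have key := S.Sy ℂ ι ι' (Fin m) P'.deg e π bC (y.map j, y'.map j) w hπ1 hπ2 htr
      (fun z hz s => by
        rw [hbC] at hz
        induction hz using Submodule.span_induction with
        | mem z hz =>
          obtain ⟨u, hu, rfl⟩ := hz
          refine comm_span (hπ5 s) fun x hx => ?_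
          have h3 := congrArg (fun M => M.map j) (Yt_comm hG.gal hlog1 b.hQ h2 hx.1 hu)
          rw [map_mul', map_mul', map_mL (L := ℂ)] at h3
          exact h3
        | zero => rw [Prod.fst_zero, Matrix.mul_zero, Matrix.zero_mul]
        | add x y _ _ hx hy => rw [Prod.fst_add, Matrix.mul_add, Matrix.add_mul, hx, hy]
        | smul c x _ hx => rw [Prod.smul_fst, Matrix.mul_smul, Matrix.smul_mul, hx])
      (fun z hz => by
        have h5 : z.1 ∈ Submodule.span ℂ {c | ∃ u ∈ bC, ∃ v ∈ bC,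
            c = u.1 * v.1 - v.1 * u.1} ⊔ Submodule.span ℂ (Set.range π) := by
          have hz' := hz
          rw [hbC] at hz'
          have h6 := Submodule.mem_map_of_mem
            (f := LinearMap.fst ℂ (Matrix ι ι ℂ) (Matrix ι' ι' ℂ)) hz'
          rw [Submodule.map_span] at h6
          refine (Submodule.span_le.2 ?_) h6
          rintro _ ⟨_, ⟨u, hu, rfl⟩, rfl⟩
          obtain ⟨c, hc, hc'⟩ : ∃ c ∈ brs (lie P.deg U Y1 lam) (lie P.deg U Y1 lam),
              ∀ z ∈ lie P.deg U Y1 lam, (Yt P.deg Y1 lam u - c) * z =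
                z * (Yt P.deg Y1 lam u - c) := ⟨_, hp1 _, hp5 _ (mem_lie hu)⟩
          have hxE : Yt P.deg Y1 lam u - c ∈ E0 P.deg ℚ_[ℓ] := by
            refine Submodule.sub_mem _ (hlog1.Yt_mem hG.gal hu) ?_
            refine (Submodule.span_le.2 ?_) hc
            rintro _ ⟨p, hp, q, hq, rfl⟩
            have hp' := lie_le_E0 hlog1 hG.gal hp
            have hq' := lie_le_E0 hlog1 hG.gal hq
            exact Submodule.sub_mem _ (E0_mul hp' hq') (E0_mul hq' hp')
          have hce : ∀ y, En H P.deg y → mL ℚ_[ℓ] y * c = c * mL ℚ_[ℓ] y := by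
            intro y hy
            have h7 : c ∈ LinearMap.ker (LinearMap.mulRight ℚ_[ℓ] (mL ℚ_[ℓ] y) -
                LinearMap.mulLeft ℚ_[ℓ] (mL ℚ_[ℓ] y)) := by
              refine (Submodule.span_le.2 ?_) hc
              rintro _ ⟨p, hp, q, hq, rfl⟩
              rw [SetLike.mem_coe, LinearMap.mem_ker, LinearMap.sub_apply,
                LinearMap.mulRight_apply, LinearMap.mulLeft_apply, sub_eq_zero, Matrix.sub_mul,
                Matrix.mul_sub, Matrix.mul_assoc p, hle hy q hq, ← Matrix.mul_assoc p,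
                hle hy p hp, Matrix.mul_assoc q p, hle hy p hp, ← Matrix.mul_assoc q,
                hle hy q hq, Matrix.mul_assoc, Matrix.mul_assoc]
            rw [LinearMap.mem_ker, LinearMap.sub_apply, LinearMap.mulRight_apply,
              LinearMap.mulLeft_apply, sub_eq_zero] at h7
            exact h7.symm
          have h7 := hcen _ hxE (fun v hv => (hc' _ (mem_lie hv)).symm) fun y hy => by
            rw [Matrix.mul_sub, Matrix.sub_mul, hce y hy,
              Yt_comm hG.gal hlog1 b.hQ h2 hy hu]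
          have h8 := cen_map (P := P) j hπ6 h7
          have h9 : ∀ x ∈ Submodule.span ℚ_[ℓ] {c : Matrix ι ι ℚ_[ℓ] |
              ∃ u ∈ lie P.deg U Y1 lam, ∃ v ∈ lie P.deg U Y1 lam, c = u * v - v * u},
              x.map j ∈ Submodule.span ℂ {c | ∃ u ∈ bC, ∃ v ∈ bC,
                c = u.1 * v.1 - v.1 * u.1} := by
            intro x hx
            induction hx using Submodule.span_induction with
            | mem x hx =>
              obtain ⟨p, hp, q, hq, rfl⟩ := hx
              obtain ⟨z, hz, h⟩ := hfst p hp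
              obtain ⟨z', hz', h'⟩ := hfst q hq
              refine Submodule.subset_span ⟨z, hz, z', hz', ?_⟩
              rw [h, h', ← map_mul', ← map_mul']
              ext p q
              exact map_sub j _ _
            | zero =>
              have h4 : (0 : Matrix ι ι ℚ_[ℓ]).map j = 0 := by
                ext p q
                exact map_zero j
              rw [h4]
              exact Submodule.zero_mem _
            | add x y _ _ hx hy =>
              have h4 : (x + y).map j = x.map j + y.map j := by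
                ext p q
                exact map_add j _ _
              rw [h4]
              exact Submodule.add_mem _ hx hy
            | smul c x _ hx =>
              have h4 : (c • x).map j = j c • x.map j := by
                ext p q
                exact map_mul j _ _
              rw [h4]
              exact Submodule.smul_mem _ _ hx
          have h10 : (LinearMap.fst ℂ (Matrix ι ι ℂ) (Matrix ι' ι' ℂ))
              ((Yt P.deg Y1 lam u).map j, (Yt P'.deg Y2 lam u).map j) =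
              c.map j + (Yt P.deg Y1 lam u - c).map j := by
            change (Yt P.deg Y1 lam u).map j = _
            ext p q
            rw [Matrix.add_apply, Matrix.map_apply, Matrix.map_apply, Matrix.map_apply,
              Matrix.sub_apply, map_sub]
            ring
          rw [h10]
          exact Submodule.add_mem_sup (h9 c hc) h8
        obtain ⟨c, hc, x, hx, h⟩ := Submodule.mem_sup.1 h5
        obtain ⟨f, rfl⟩ := exists_coeff hx
        exact ⟨c, hc, f, h.symm⟩)
      (by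
        have hxE : y - p y ∈ E0 P.deg ℚ_[ℓ] :=
          Submodule.sub_mem _ (b.kill_deg hy) (lie_le_E0 hlog1 hG.gal (hpm y))
        have hxc : ∀ u ∈ U, Yt P.deg Y1 lam u * (y - p y) = (y - p y) * Yt P.deg Y1 lam u := by
          intro u hu
          obtain ⟨v, hv⟩ : ∃ v, v = Yt P.deg Y1 lam u := ⟨_, rfl⟩
          have hvl : v ∈ lie P.deg U Y1 lam := hv ▸ mem_lie hu
          rw [← hv]
          -- the derived algebra
          have hc1 : (y - p y) * p v = p v * (y - p y) := by
            have h1 := hα3 y hy (p v)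
            rw [hp2 _ (hp1 v)] at h1
            have h2 := hp4 (p v) (hpm v) y
            have h3 : p v * y - y * p v = -(y * p v - p v * y) := by abel
            rw [h3, map_neg, h1] at h2
            rw [← sub_eq_zero, Matrix.mul_sub, Matrix.sub_mul]
            have h4 : y * p v - p y * p v - (p v * y - p v * p y) =
              (y * p v - p v * y) + (p v * p y - p y * p v) := by abel
            rw [h4, ← h2]
            abel
          -- the centre
          have hzl : v - p v ∈ lie P.deg U Y1 lam := Submodule.sub_mem _ hvl (hpm v)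
          have hz1 := hcen (v - p v) (lie_le_E0 hlog1 hG.gal hzl)
            (fun u hu => (hp5 v hvl _ (mem_lie hu)).symm) fun q hq => (hle hq _ hzl).symm
          have hz2 := comb_comm (P := P) hy hz1
          have hz3 := hp5 v hvl _ (hpm y)
          have h5 : (y - p y) * (v - p v) = (v - p v) * (y - p y) := by
            rw [Matrix.sub_mul, Matrix.mul_sub (v - p v), hz2, ← hz3]
          have h6 : v = (v - p v) + p v := by abel
          rw [h6, Matrix.add_mul, Matrix.mul_add, h5, hc1]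
        have h7 := hcen (y - p y) hxE hxc fun q hq => by
            rw [Matrix.mul_sub, Matrix.sub_mul, hy.comm steps hq.2, hle hq (p y) (hpm y)]
        obtain ⟨f, hf⟩ := exists_coeff (cen_map (P := P) j hπ6 h7)
        obtain ⟨z, hz, h⟩ := hfst (p y) (hpm y)
        refine ⟨z, hz, f, ?_⟩
        rw [← hf, h]
        change y.map j = _
        ext p q
        rw [Matrix.add_apply, Matrix.map_apply, Matrix.map_apply, Matrix.map_apply,
          Matrix.sub_apply, map_sub]
        ring)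
      (fun s => ⟨hw0 s, hwdeg s⟩)
      (fun s z hz => by
        rw [hbC] at hz
        induction hz using Submodule.span_induction with
        | mem z hz =>
          obtain ⟨u, hu, rfl⟩ := hz
          exact hw2 s u hu
        | zero =>
          rw [Prod.fst_zero, Prod.snd_zero, Matrix.zero_mulVec, Matrix.zero_mul,
            Matrix.trace_zero, neg_zero, zero_smul]
        | add x y _ _ hx hy =>
          rw [Prod.fst_add, Prod.snd_add, Matrix.add_mulVec, hx, hy, Matrix.add_mul,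
            Matrix.trace_add, neg_add, add_smul]
        | smul c x _ hx =>
          rw [Prod.smul_fst, Prod.smul_snd, Matrix.smul_mulVec, hx, Matrix.smul_mul,
            Matrix.trace_smul, smul_smul, smul_eq_mul, mul_neg])
      (fun s => hw1 s _ (hL_map j (z := (y, y')) (mem_hL.2 hyW)))
      (fun n a he hk => kill_V'' b' hG' hlog2 hA2 j S.BC he
        (fun u hu => hk ((Yt P.deg Y1 lam u).map j, (Yt P'.deg Y2 lam u).map j) (hgen u hu)) hy')
      (n + 1) (jA j t)
      (fun z hz => by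
        rw [hbC] at hz
        induction hz using Submodule.span_induction with
        | mem z hz =>
          obtain ⟨u, hu, rfl⟩ := hz
          change dp (Fin (n + 1)) ((Yt P.deg Y1 lam u).map j) *ᵥ jA j t = 0
          rw [dp_mapj, jA_mulVec, hlog1.kill_tate hG.gal steps hu ht, jA_zero]
        | zero =>
          have h0 : dp (Fin (n + 1)) (0 : Matrix ι ι ℂ) = 0 := by ext v w; simp [dp]
          rw [Prod.fst_zero, h0, Matrix.zero_mulVec]
        | add x y _ _ hx hy =>
          have h0 := steps.lin ℂ ι (Fin (n + 1)) 1 x.1 y.1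
          rw [one_smul, one_smul] at h0
          rw [Prod.fst_add, h0, Matrix.add_mulVec, hx, hy, add_zero]
        | smul c x _ hx =>
          have h0 := steps.lin ℂ ι (Fin (n + 1)) c 0 x.1
          have h1 : dp (Fin (n + 1)) (0 : Matrix ι ι ℂ) = 0 := by ext v w; simp [dp]
          rw [zero_add, h1, zero_add] at h0
          rw [Prod.smul_fst, h0, Matrix.smul_mulVec, hx, smul_zero])
    have h6 : dp (Fin (n + 1)) (y.map j) *ᵥ jA j t = 0 := key
    rw [dp_mapj, jA_mulVec] at h6
    exact jA_inj j (h6.trans (jA_zero j).symm)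
  have h6 := Submodule.mem_map_of_mem (f := reslL ℚ_[ℓ] (n + 1)) hext
  have h7 : reslL ℚ_[ℓ] (n + 1) (extl t : (Fin (n + 1) → ι ⊕ ι') → ℚ_[ℓ]) = t := resl_extl t
  rw [h7, hspan, Submodule.map_span] at h6
  refine Submodule.span_mono ?_ h6
  rintro _ ⟨_, ⟨a, ha, rfl⟩, rfl⟩
  exact ⟨resl a, BB_resl S.E b b' bW ha, rfl⟩

end main

end Pool.Agent.N211.SM
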