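import Pool.Agent.N211.SM.Fun
import Pool.Agent.N211.SM.Line2
import Pool.Agent.N211.SM.Main3

/-!
# The main theorems, from the steps
-/

set_option linter.unusedSectionVars false

namespace Pool.Agent.N211.SM

open Matrix ComplexConjugate
open Pool.Agent.N996.BP Pool.Agent.N202.TB Pool.Agent.N202.NC
open Pool.Agent.N202.CF (Tensor inL IsComb act matL der kil_iff IsCombM der_eq)

variable {ι ι' : Type} [Fintype ι] [DecidableEq ι] [Fintype ι'] [DecidableEq ι']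
  {ℓ : ℕ} [Fact ℓ.Prime] {Γ : Type} [Group Γ]

/-- The steps. -/
structure Steps2 : Prop extends SSteps where
  T3 : Steps3
  LW : S_LOGW
  Pos : S_POS

variable {P : HodgeStructure ι} {P' : HodgeStructure ι'} {ρ : Γ →* Matrix ι ι ℚ_[ℓ]}
  {ρ' : Γ →* Matrix ι' ι' ℚ_[ℓ]} {χ : Γ →* ℚ_[ℓ]} {K : ℕ} {j : ℚ_[ℓ] →+* ℂ}

lemma hts_of {H : HData ι} (b : Br P H)
    (h2 : TateInHodge P ρ χ 2) (h4 : TateInHodge P ρ χ 4) :
    ∀ n, n = 1 ∨ n = 3 → ∀ a ∈ tspan P.deg (fun s => ρ s) (fun s => χ s) n,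
      a ∈ hspan H ℚ_[ℓ] n := by
  rintro n (rfl | rfl) a ha
  · refine (Submodule.span_le.2 ?_) ha
    rintro x ⟨i, hx⟩
    exact hspan_of_isComb b (h2 i x hx)
  · refine (Submodule.span_le.2 ?_) ha
    rintro x ⟨i, hx⟩
    exact hspan_of_isComb b (h4 i x hx)

section K

variable (S : Steps2) (hG : GaloisRep P.deg ρ χ) (hG' : GaloisRep P'.deg ρ' χ) (hK : 4 ≤ K)
  (hA : IsCMFactor P P' ρ ρ' χ j K) (hHT : HodgeInTateOn P P' ρ ρ' χ K)
  (hTH : TateInHodgeOn P P' ρ ρ' χ K)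

include S hG hG' hK hA hHT hTH

theorem fin1 (hK' : ∀ m, betti P.deg m ≤ K) (k : ℕ) (hk : 0 < k) : HodgeInTate P ρ χ k := by
  obtain ⟨H, b⟩ := exists_br Pool.Agent.N490.NC.HD_ P
  obtain ⟨H', b'⟩ := exists_br Pool.Agent.N490.NC.HD_ P'
  obtain ⟨HW, bW⟩ := exists_br Pool.Agent.N490.NC.HD_ (sumHS P P')
  obtain ⟨U, Y, lam, hlog⟩ := exists_logs steps (galW hG hG').gal
  obtain ⟨Y1, Y2, hlog1, hlog2, hY⟩ := S.LW ℓ Γ ι ι' ρ ρ' χ U Y lam hlog
  cases k with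
  | zero => exact absurd hk (lt_irrefl 0)
  | succ n =>
    intro i a ha
    obtain ⟨h1, h2⟩ := (b.isHodge_iff a).1 ha
    refine hodge_tate_all (j := j) S.toSSteps b b' bW hG hG' hlog1 hlog2
      (hT_of b fun i a ha => ht_V S.E b b' bW hHT (n := 4) (by omega) i a ha) ?_
      (fun n i a ha => hA.hodge (n + 1) (Nat.succ_pos n) i a ha) h2 h1
    intro π hπ h0 hd hs
    exact line_exists S.toSSteps b b' bW hG hG' hlog hlog1 hlog2 hY hK hK' hA.duals hHT hTH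
      hπ h0 hd hs

theorem fin2 (hK' : ∀ m, betti P.deg m ≤ K) (hss : SemisimpleH P.deg ρ) (k : ℕ) (hk : 0 < k) :
    TateInHodge P ρ χ k := by
  obtain ⟨H, b⟩ := exists_br Pool.Agent.N490.NC.HD_ P
  obtain ⟨H', b'⟩ := exists_br Pool.Agent.N490.NC.HD_ P'
  obtain ⟨HW, bW⟩ := exists_br Pool.Agent.N490.NC.HD_ (sumHS P P')
  obtain ⟨U, Y, lam, hlog⟩ := exists_logs steps (galW hG hG').gal
  obtain ⟨Y1, Y2, hlog1, hlog2, hY⟩ := S.LW ℓ Γ ι ι' ρ ρ' χ U Y lam hlog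
  have hTV : ∀ n, n ≤ K → ∀ i (t : Tensor ι n ℚ_[ℓ]), IsTate P.deg ρ χ i t →
      IsComb {a : Tensor ι n ℚ | P.IsHodge i a} t := fun n hn i t ht =>
    th_V S.E b b' bW hTH hn i t ht
  cases k with
  | zero => exact absurd hk (lt_irrefl 0)
  | succ n =>
    intro i t ht
    refine isComb_of_hspan b (tate_hodge_all2 (j := j) S.toSSteps b b' bW hG hG' hlog1 hlog2
      (hT_of b fun i a ha => ht_V S.E b b' bW hHT (n := 2) (by omega) i a ha)
      (hts_of b (fun i t ht => hTV 2 (by omega) i t ht) fun i t ht => hTV 4 hK i t ht) ?_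
      (fun n i t ht => hA.tate (n + 1) (Nat.succ_pos n) i t ht) S.T3 hss ht) ht.1
    intro π hπ h0 hd hs
    exact line_exists S.toSSteps b b' bW hG hG' hlog hlog1 hlog2 hY hK hK' hA.duals hHT hTH
      hπ h0 hd hs

theorem fin3 (hK' : ∀ m, betti P.deg m ≤ K) : SemisimpleH P.deg ρ := by
  obtain ⟨H, b⟩ := exists_br Pool.Agent.N490.NC.HD_ P
  obtain ⟨H', b'⟩ := exists_br Pool.Agent.N490.NC.HD_ P'
  obtain ⟨HW, bW⟩ := exists_br Pool.Agent.N490.NC.HD_ (sumHS P P')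
  obtain ⟨U, Y, lam, hlog⟩ := exists_logs steps (galW hG hG').gal
  obtain ⟨Y1, Y2, hlog1, hlog2, hY⟩ := S.LW ℓ Γ ι ι' ρ ρ' χ U Y lam hlog
  exact semisimple_of S.T3 hK' hG.deg fun r d v Δ c hr hv0 hvd hΔ hc =>
    functional S.toSSteps S.Pos b b' bW hG hG' hlog hY hK hA.duals hHT hTH
      (fun n i a ha => hA.hodge (n + 1) (Nat.succ_pos n) i a ha) r d v Δ c hr hv0 hvd hΔ hc

end K

section four

variable (S : Steps2) (hG : GaloisRep P.deg ρ χ) (hG' : GaloisRep P'.deg ρ' χ)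
  (hdd : HasDetDuals P P' ρ ρ' χ j) (h2 : HodgeInTate P ρ χ 2)

include S hG hG' hdd h2

theorem fin4 (hA : ∀ k, 0 < k → HodgeInTate P' ρ' χ k) (h4 : HodgeInTate P ρ χ 4)
    (k : ℕ) (hk : 0 < k) : HodgeInTate P ρ χ k := by
  obtain ⟨H, b⟩ := exists_br Pool.Agent.N490.NC.HD_ P
  obtain ⟨H', b'⟩ := exists_br Pool.Agent.N490.NC.HD_ P'
  obtain ⟨HW, bW⟩ := exists_br Pool.Agent.N490.NC.HD_ (sumHS P P')
  obtain ⟨U, Y, lam, hlog⟩ := exists_logs steps (galW hG hG').gal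
  obtain ⟨Y1, Y2, hlog1, hlog2, hY⟩ := S.LW ℓ Γ ι ι' ρ ρ' χ U Y lam hlog
  cases k with
  | zero => exact absurd hk (lt_irrefl 0)
  | succ n =>
    intro i a ha
    obtain ⟨h1, h3⟩ := (b.isHodge_iff a).1 ha
    refine hodge_tate_all (j := j) S.toSSteps b b' bW hG hG' hlog1 hlog2 (hT_of b h4) ?_
      (fun n i a ha => hA (n + 1) (Nat.succ_pos n) i a ha) h3 h1
    intro π hπ h0 hd hs
    exact line_exists2 S.toSSteps b b' bW hG hG' hlog hlog1 hY (hT_of b h2) hdd hπ h0 hd hs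

theorem fin5 (hA : ∀ k, 0 < k → TateInHodge P' ρ' χ k) (hss : SemisimpleH P.deg ρ)
    (h2' : TateInHodge P ρ χ 2) (h4' : TateInHodge P ρ χ 4) (k : ℕ) (hk : 0 < k) :
    TateInHodge P ρ χ k := by
  obtain ⟨H, b⟩ := exists_br Pool.Agent.N490.NC.HD_ P
  obtain ⟨H', b'⟩ := exists_br Pool.Agent.N490.NC.HD_ P'
  obtain ⟨HW, bW⟩ := exists_br Pool.Agent.N490.NC.HD_ (sumHS P P')
  obtain ⟨U, Y, lam, hlog⟩ := exists_logs steps (galW hG hG').gal
  obtain ⟨Y1, Y2, hlog1, hlog2, hY⟩ := S.LW ℓ Γ ι ι' ρ ρ' χ U Y lam hlog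
  cases k with
  | zero => exact absurd hk (lt_irrefl 0)
  | succ n =>
    intro i t ht
    refine isComb_of_hspan b (tate_hodge_all2 (j := j) S.toSSteps b b' bW hG hG' hlog1 hlog2
      (hT_of b h2) (hts_of b h2' h4') ?_
      (fun n i t ht => hA (n + 1) (Nat.succ_pos n) i t ht) S.T3 hss ht) ht.1
    intro π hπ h0 hd hs
    exact line_exists2 S.toSSteps b b' bW hG hG' hlog hlog1 hY (hT_of b h2) hdd hπ h0 hd hs

end four

end Pool.Agent.N211.SM
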