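import Pool.Agent.N211.SM.Main2

/-!
# Functionals on stable lines
-/

set_option linter.unusedSectionVars false

namespace Pool.Agent.N211.SM

open Matrix ComplexConjugate
open Pool.Agent.N996.BP Pool.Agent.N202.TB Pool.Agent.N202.NC
open Pool.Agent.N202.CF (Tensor inL IsComb act matL der kil_iff IsCombM der_eq)

section part

variable {W : Type} [Fintype W] [DecidableEq W]

/-- The part of an array on the words with a given property. -/
def part {E : Type} [Zero E] {n : ℕ} (p : (Fin n → W) → Prop) [DecidablePred p]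
    (a : (Fin n → W) → E) : (Fin n → W) → E := fun w => if p w then a w else 0

lemma dp_ne {E : Type} [Field E] {n : ℕ} {y : Matrix W W E} {v w : Fin n → W}
    (h : dp (Fin n) y v w ≠ 0) : ∀ k, v k = w k ∨ y (v k) (w k) ≠ 0 := by
  rw [dp, Matrix.of_apply] at h
  obtain ⟨i, _, hi⟩ := Finset.exists_ne_zero_of_sum_ne_zero h
  intro k
  by_cases hk : k = i
  · subst hk
    exact Or.inr (left_ne_zero_of_mul hi)
  · left
    by_contra hne
    apply right_ne_zero_of_mul hi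
    exact Finset.prod_eq_zero (Finset.mem_erase.2 ⟨hk, Finset.mem_univ _⟩) (if_neg hne)

lemma dp_part {E : Type} [Field E] {n : ℕ} {p : (Fin n → W) → Prop} [DecidablePred p]
    {y : Matrix W W E} (h : ∀ v w : Fin n → W, (∀ k, v k = w k ∨ y (v k) (w k) ≠ 0) → (p v ↔ p w))
    (a : (Fin n → W) → E) : dp (Fin n) y *ᵥ part p a = part p (dp (Fin n) y *ᵥ a) := by
  funext v
  simp only [Matrix.mulVec, dotProduct, part]
  split_ifs with hv
  · refine Finset.sum_congr rfl fun w _ => ?_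
    by_cases h0 : dp (Fin n) y v w = 0
    · rw [h0, zero_mul, zero_mul]
    · rw [if_pos ((h v w (dp_ne h0)).1 hv)]
  · refine Finset.sum_eq_zero fun w _ => ?_
    by_cases h0 : dp (Fin n) y v w = 0
    · rw [h0, zero_mul]
    · rw [if_neg fun hw => hv ((h v w (dp_ne h0)).2 hw), mul_zero]

lemma kp_ne {E : Type} [Field E] {n : ℕ} {y : Matrix W W E} {v w : Fin n → W}
    (h : kp (Fin n) y v w ≠ 0) : ∀ k, y (v k) (w k) ≠ 0 := by
  intro k hk
  exact h (Finset.prod_eq_zero (Finset.mem_univ k) hk)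

lemma kp_part {E : Type} [Field E] {n : ℕ} {p : (Fin n → W) → Prop} [DecidablePred p]
    {y : Matrix W W E} (h : ∀ v w : Fin n → W, (∀ k, y (v k) (w k) ≠ 0) → (p v ↔ p w))
    {x : (Fin n → W) → E} (hx : ∀ w, x w ≠ 0 → p w)
    (a : (Fin n → W) → E) : x ⬝ᵥ (kp (Fin n) y *ᵥ part p a) = x ⬝ᵥ (kp (Fin n) y *ᵥ a) := by
  refine Finset.sum_congr rfl fun v _ => ?_
  by_cases h0 : x v = 0
  · rw [h0, zero_mul, zero_mul]
  · congr 1
    refine Finset.sum_congr rfl fun w _ => ?_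
    change kp (Fin n) y v w * _ = kp (Fin n) y v w * _
    by_cases h1 : kp (Fin n) y v w = 0
    · rw [h1, zero_mul, zero_mul]
    · rw [part, if_pos ((h v w (kp_ne h1)).1 (hx v h0))]

end part

section inv

variable {ι : Type} [Fintype ι] [DecidableEq ι] {L : Type} [Field L]

/-- The inverse form of the invariance of the form. -/
lemma inv_form {deg : ι → ℕ} {g g' B Q : Matrix ι ι L} {c : L} (hc : c ≠ 0)
    (hg : ∀ i j, g i j ≠ 0 → deg i = deg j) (hQ : ∀ i j, Q i j ≠ 0 → deg i = deg j)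
    (hgg : g * g' = 1) (hBQ : B * Q = 1)
    (h : g * B * gᵀ = B * Matrix.diagonal fun i => c ^ deg i) :
    gᵀ * Q * g = (Matrix.diagonal fun i => c ^ deg i) * Q := by
  have hQB : Q * B = 1 := mul_eq_one_comm.1 hBQ
  have hg'g : g' * g = 1 := mul_eq_one_comm.1 hgg
  have hcomm : ∀ {y : Matrix ι ι L}, (∀ i j, y i j ≠ 0 → deg i = deg j) →
      (Matrix.diagonal fun i => c ^ deg i) * y = y * Matrix.diagonal fun i => c ^ deg i := by
    intro y hy
    ext i j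
    rw [Matrix.diagonal_mul, Matrix.mul_diagonal]
    by_cases h0 : y i j = 0
    · rw [h0, mul_zero, zero_mul]
    · rw [hy i j h0, mul_comm]
  -- `gᵀ = B⁻¹ g⁻¹ B D`
  have h1 : gᵀ = Q * g' * B * Matrix.diagonal fun i => c ^ deg i := by
    have h2 := congrArg (fun M => Q * (g' * M)) h
    simp only [← Matrix.mul_assoc] at h2
    rw [Matrix.mul_assoc Q g' g, hg'g, Matrix.mul_one, hQB, Matrix.one_mul] at h2
    exact h2
  rw [h1]
  have h3 : Q * g' * B * (Matrix.diagonal fun i => c ^ deg i) * Q * g =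
      Q * g' * B * ((Matrix.diagonal fun i => c ^ deg i) * Q) * g := by
    simp only [Matrix.mul_assoc]
  rw [h3, hcomm hQ]
  have h4 : Q * g' * B * (Q * Matrix.diagonal fun i => c ^ deg i) * g =
      Q * g' * (B * Q) * ((Matrix.diagonal fun i => c ^ deg i) * g) := by
    simp only [Matrix.mul_assoc]
  rw [h4, hBQ, hcomm hg, Matrix.mul_one]
  have h5 : Q * g' * (g * Matrix.diagonal fun i => c ^ deg i) =
      Q * (g' * g) * Matrix.diagonal fun i => c ^ deg i := by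
    simp only [Matrix.mul_assoc]
  rw [h5, hg'g, Matrix.mul_one]

end inv

variable {ι ι' : Type} [Fintype ι] [DecidableEq ι] [Fintype ι'] [DecidableEq ι']
  {ℓ : ℕ} [Fact ℓ.Prime] {Γ : Type} [Group Γ]

variable {P : HodgeStructure ι} {P' : HodgeStructure ι'} {H : HData ι} {H' : HData ι'}
  {HW : HData (ι ⊕ ι')} {ρ : Γ →* Matrix ι ι ℚ_[ℓ]}
  {ρ' : Γ →* Matrix ι' ι' ℚ_[ℓ]} {χ : Γ →* ℚ_[ℓ]} {K : ℕ} {j : ℚ_[ℓ] →+* ℂ}
  {U : Subgroup Γ} {Y : Γ → Matrix (ι ⊕ ι') (ι ⊕ ι') ℚ_[ℓ]} {lam : Γ → ℚ_[ℓ]}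
  {Y1 : Γ → Matrix ι ι ℚ_[ℓ]} {Y2 : Γ → Matrix ι' ι' ℚ_[ℓ]}

/-- A rational multiple. -/
lemma qr_blk (b : Br P H) (b' : Br P' H') (bW : Br (sumHS P P') HW) :
    ∃ a a' : ℚ, HW.Qr = blk (a • H.Qr) (a' • H'.Qr) := by
  obtain ⟨c, hc, h⟩ := b.Qr
  obtain ⟨c', hc', h'⟩ := b'.Qr
  obtain ⟨d, hd, hW⟩ := bW.Qr
  refine ⟨d / c, d / c', ?_⟩
  rw [hW, h, h', smul_smul, smul_smul, div_mul_cancel₀ _ hc, div_mul_cancel₀ _ hc', ← smul_blk,
    ← blk_transpose]
  rfl

section main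

variable (S : SSteps) (hPos : S_POS) (b : Br P H) (b' : Br P' H')
  (bW : Br (sumHS P P') HW) (hG : GaloisRep P.deg ρ χ) (hG' : GaloisRep P'.deg ρ' χ)
  (hlog : Logs (fun s => sumRep ρ ρ' s) (fun s => χ s) U Y lam)
  (hY : ∀ u ∈ U, Y u = blk (Y1 u) (Y2 u))
  (hK : 4 ≤ K) (hdual : HasDuals P P' ρ ρ' χ j K)
  (hHT : ∀ n j (a : Tensor (ι ⊕ ι') n ℚ), OnProduct K a → (sumHS P P').IsHodge j a →
    IsTate (sumHS P P').deg (sumRep ρ ρ') χ j (inL ℚ_[ℓ] a))
  (hTH : ∀ n j (t : Tensor (ι ⊕ ι') n ℚ_[ℓ]), OnProduct K t →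
    IsTate (sumHS P P').deg (sumRep ρ ρ') χ j t →
    IsComb {a : Tensor (ι ⊕ ι') n ℚ | (sumHS P P').IsHodge j a} t)
  (hA1 : ∀ n j (a : Tensor ι' (n + 1) ℚ), P'.IsHodge j a →
    IsTate P'.deg ρ' χ j (inL ℚ_[ℓ] a))

include S b b' bW hG hG' hK hHT hA1 in
/-- The invariance of the form on `V ⊕ V'`. -/
lemma form_W : ∃ Δ : Subgroup Γ, Δ.FiniteIndex ∧ ∀ s ∈ Δ,
    (sumRep ρ ρ' s)ᵀ * mL ℚ_[ℓ] HW.Qr * sumRep ρ ρ' s =
      (Matrix.diagonal fun i => χ s ^ (sumHS P P').deg i) * mL ℚ_[ℓ] HW.Qr := by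
  have hTV := fun (n : ℕ) (hn : n ≤ K) (j : ℕ) (a : Tensor ι n ℚ) (ha : P.IsHodge j a) =>
    ht_V S.E b b' bW hHT hn j a ha
  obtain ⟨-, Δ, hΔ, h1⟩ := S.CM ℓ Γ ι P.deg H ρ χ hG.gal b.hl b.hQ b.hQr fun i a ha hdeg =>
    hTV 2 (by omega) i a ((b.isHodge_iff a).2 ⟨hdeg, ha⟩)
  obtain ⟨-, Δ', hΔ', h2⟩ := S.CM ℓ Γ ι' P'.deg H' ρ' χ hG'.gal b'.hl b'.hQ b'.hQr
    fun i a ha hdeg => hA1 1 i a ((b'.isHodge_iff a).2 ⟨hdeg, ha⟩)
  obtain ⟨a, a', ha⟩ := qr_blk b b' bW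
  have hq : ∀ {m : Type} [Fintype m] [DecidableEq m] {R : HodgeStructure m} {T : HData m}
      (_ : Br R T) (i k : m), mL ℚ_[ℓ] T.Qr i k ≠ 0 → R.deg i = R.deg k := by
    intro m _ _ R T bT i k h
    refine bT.hQr i k fun h0 => h ?_
    rw [mL_apply, h0, Rat.cast_zero]
  refine ⟨Δ ⊓ Δ', inferInstance, fun s hs => ?_⟩
  have hχ : χ s ≠ 0 := hG.gal.χne s
  have h3 := inv_form (deg := P.deg) hχ (hG.deg s) (hq b) (hG.gal.inv s) mL_Qir_Qr (h1 s hs.1)
  have h4 := inv_form (deg := P'.deg) hχ (hG'.deg s) (hq b') (hG'.gal.inv s) mL_Qir_Qr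
    (h2 s hs.2)
  have h5 : mL ℚ_[ℓ] HW.Qr = blk ((a : ℚ_[ℓ]) • mL ℚ_[ℓ] H.Qr) ((a' : ℚ_[ℓ]) • mL ℚ_[ℓ] H'.Qr) := by
    rw [ha, mL_blk]
    congr 1 <;> (ext i k; simp [mL_apply])
  have h6 : (Matrix.diagonal fun i => χ s ^ (sumHS P P').deg i) =
      blk (Matrix.diagonal fun i => χ s ^ P.deg i) (Matrix.diagonal fun i => χ s ^ P'.deg i) := by
    ext i k
    rcases i with i | i <;> rcases k with k | k
    · simp [blk, sumHS, Matrix.diagonal_apply]
    · simp [blk, sumHS]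
    · simp [blk, sumHS]
    · simp [blk, sumHS, Matrix.diagonal_apply]
  have h7 : sumRep ρ ρ' s = blk (ρ s) (ρ' s) := rfl
  rw [h5, h6, h7, blk_transpose, blk_mul, blk_mul, blk_mul, Matrix.mul_smul, Matrix.mul_smul,
    Matrix.smul_mul, Matrix.smul_mul, Matrix.mul_smul, Matrix.mul_smul, h3, h4]

include S hPos b b' bW hG hG' hlog hY hK hdual hHT hTH hA1

/-- **The functional.** -/
theorem functional (r d : ℕ) (v : Tensor ι r ℚ_[ℓ]) (Δ : Subgroup Γ) (c : Γ → ℚ_[ℓ])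
    (hr : r ≤ K) (hv0 : v ≠ 0) (hvd : HasDegree P.deg v d) (hΔ : Δ.FiniteIndex)
    (hc : ∀ s ∈ Δ, act (ρ s) v = c s • v) :
    ∃ (Δ' : Subgroup Γ) (f : Tensor ι r ℚ_[ℓ] →ₗ[ℚ_[ℓ]] ℚ_[ℓ]), Δ'.FiniteIndex ∧ f v ≠ 0 ∧
      ∀ s ∈ Δ', ∀ t, HasDegree P.deg t d → f (act (ρ s) t) = c s * f t := by
  classical
  have hv0' : jA j v ≠ 0 := fun h => hv0 (jA_inj j (h.trans (jA_zero j).symm))
  have hvd' : HasDegree P.deg (jA j v) d := fun w hw => hvd w fun h => hw (by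
    rw [jA, h, map_zero])
  have hc' : ∀ s ∈ Δ, act ((ρ s).map j) (jA j v) = j (c s) • jA j v := by
    intro s hs
    have h1 := hc s hs
    rw [act_eq_kp] at h1 ⊢
    rw [kp_mapj, jA_mulVec, h1]
    funext w
    exact map_mul j _ _
  obtain ⟨m, y, Δ1, hy0, hyd, hΔ1, hy⟩ := hdual r d (jA j v) Δ (fun s => j (c s)) hr hv0' hvd' hΔ
    hc'
  obtain ⟨-, -, hcomb⟩ := line_kill (j := j) S.E S.BC b b' bW hG hG' hlog hY hTH hr hvd' hyd
    (Δ := Δ ⊓ Δ1) inferInstance (fun s hs => hc' s hs.1) fun s hs => hy s hs.2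
  have hdm : d ≤ 2 * m := by
    obtain ⟨i, hi⟩ := Function.ne_iff.1 hy0
    have := hyd i hi
    omega
  have hy' : ∀ i, y i ≠ 0 → P'.deg i = 2 * m - d := fun i hi => by
    have := hyd i hi
    omega
  have hτ0 : snc (extl (jA j v) : (Fin r → ι ⊕ ι') → ℂ) (inr1 y : ι ⊕ ι' → ℂ) ≠ 0 :=
    fun h => hy0 (snc_ne hv0' h)
  obtain ⟨h0, hh0, hne⟩ := hPos (ι ⊕ ι') HW r _ (hspan_of_isComb bW hcomb) hτ0
  -- the component of the Hodge array
  obtain ⟨p, hp⟩ : ∃ p : (Fin (r + 1) → ι ⊕ ι') → Prop, p = fun w =>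
      (∀ k : Fin r, (w k.castSucc).isLeft = true) ∧ (w (Fin.last r)).isRight = true ∧
        ∑ k, (sumHS P P').deg (w k) = 2 * m := ⟨_, rfl⟩
  have hpred : ∀ w w' : Fin (r + 1) → ι ⊕ ι', (∀ k, (w k).isLeft = (w' k).isLeft ∧
      (sumHS P P').deg (w k) = (sumHS P P').deg (w' k)) → (p w ↔ p w') := by
    intro w w' h
    have h1 : ∀ k, (w k).isRight = (w' k).isRight := by
      intro k
      have h2 := (h k).1
      cases h3 : w k <;> cases h4 : w' k <;> rw [h3, h4] at h2 <;> simp_all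
    rw [hp]
    simp only [h1, fun k => (h k).1, fun k => (h k).2]
  have hQW : ∀ i k, mL ℂ HW.Qr i k ≠ 0 → i.isLeft = k.isLeft ∧
      (sumHS P P').deg i = (sumHS P P').deg k := by
    intro i k h
    have h1 : HW.Qr i k ≠ 0 := fun h2 => h (by rw [mL_apply, h2, Rat.cast_zero])
    refine ⟨?_, bW.hQr i k h1⟩
    obtain ⟨a, a', ha⟩ := qr_blk b b' bW
    rw [ha] at h1
    rcases i with i | i <;> rcases k with k | k
    · rfl
    · exact absurd rfl h1
    · exact absurd rfl h1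
    · rfl
  obtain ⟨h1, hh1⟩ : ∃ h1 : (Fin (r + 1) → ι ⊕ ι') → ℚ, h1 = part p h0 := ⟨_, rfl⟩
  have hB1 : h1 ∈ BB HW (Fin (r + 1)) := by
    refine mem_BB_of_kill HW fun z hz => ?_
    obtain ⟨q, q', rfl, hq, hq'⟩ := kill_blk S.E b b' bW hz
    have h2 : ∀ i k : ι ⊕ ι', i = k ∨ blk q q' i k ≠ 0 → i.isLeft = k.isLeft ∧
        (sumHS P P').deg i = (sumHS P P').deg k := by
      rintro i k (rfl | h)
      · exact ⟨rfl, rfl⟩
      · refine ⟨?_, hz.deg steps bW.hl h⟩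
        rcases i with i | i <;> rcases k with k | k
        · rfl
        · exact absurd rfl h
        · exact absurd rfl h
        · rfl
    rw [hh1, dp_part fun v w h => hpred v w fun k => h2 _ _ (h k)]
    have h3 := hz r _ hh0
    rw [aLQ] at h3
    rw [h3]
    funext w
    simp [part]
  have hp1 : ∀ w, h1 w ≠ 0 → p w := by
    intro w hw
    rw [hh1, part] at hw
    by_contra h2
    rw [if_neg h2] at hw
    exact hw rfl
  have hH1 : (sumHS P P').IsHodge m h1 := by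
    refine (bW.isHodge_iff _).2 ⟨fun w hw => ?_, hB1⟩
    have h2 := hp1 w hw
    rw [hp] at h2
    exact h2.2.2
  have hO1 : OnProduct K h1 := by
    intro w hw
    have h2 := hp1 w hw
    rw [hp] at h2
    obtain ⟨h3, h4, -⟩ := h2
    constructor
    · have h5 : (Finset.univ.filter fun k => (w k).isLeft) ⊆
          (Finset.univ : Finset (Fin r)).map Fin.castSuccEmb := by
        intro k hk
        rw [Finset.mem_filter] at hk
        rw [Finset.mem_map]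
        rcases Fin.eq_castSucc_or_eq_last k with ⟨k', rfl⟩ | rfl
        · exact ⟨k', Finset.mem_univ _, rfl⟩
        · have h6 := hk.2
          rw [← Sum.not_isLeft, h6] at h4
          simp at h4
      refine (Finset.card_le_card h5).trans ?_
      rw [Finset.card_map, Finset.card_univ, Fintype.card_fin]
      exact hr
    · have h5 : (Finset.univ.filter fun k => (w k).isRight) ⊆ {Fin.last r} := by
        intro k hk
        rw [Finset.mem_filter] at hk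
        rw [Finset.mem_singleton]
        rcases Fin.eq_castSucc_or_eq_last k with ⟨k', rfl⟩ | rfl
        · have h6 := hk.2
          rw [← Sum.not_isLeft, h3 k'] at h6
          simp at h6
        · rfl
      exact (Finset.card_le_card h5).trans (by simp)
  obtain ⟨-, Δ2, hΔ2, hT1⟩ := hHT _ m h1 hO1 hH1
  obtain ⟨Δ3, hΔ3, hform⟩ := form_W S b b' bW hG hG' hK hHT hA1
  -- the complex functional
  obtain ⟨F, hF⟩ : ∃ F : Tensor ι r ℚ_[ℓ] → ℂ, F = fun t =>
      snc (extl (jA j t) : (Fin r → ι ⊕ ι') → ℂ) (inr1 y : ι ⊕ ι' → ℂ) ⬝ᵥ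
        (kp (Fin (r + 1)) (mL ℂ HW.Qr) *ᵥ aL ℂ h1) := ⟨_, rfl⟩
  have hsupp : ∀ t : Tensor ι r ℚ_[ℓ], HasDegree P.deg t d → ∀ w,
      snc (extl (jA j t) : (Fin r → ι ⊕ ι') → ℂ) (inr1 y : ι ⊕ ι' → ℂ) w ≠ 0 →
        p w := by
    intro t ht w hw
    have ht' : HasDegree P.deg (jA j t) d := fun w hw => ht w fun h => hw (by
      rw [jA, h, map_zero])
    have h2 := (snc_supp (P := P) (P' := P') hr ht' hy' hw).1
    rw [hp]
    refine ⟨?_, ?_, ?_⟩
    · have h3 := left_ne_zero_of_mul hw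
      intro k
      rw [extl] at h3
      split_ifs at h3 with h4
      · exact h4 k
      · exact absurd rfl h3
    · have h3 := right_ne_zero_of_mul hw
      cases h4 : w (Fin.last r) with
      | inl i => rw [h4] at h3; exact absurd rfl h3
      | inr i => rfl
    · rw [h2]
      omega
  have hFv : F v ≠ 0 := by
    have h2 : aL ℂ h1 = part p (aL ℂ h0) := by
      funext w
      rw [hh1]
      simp only [aL, part]
      split_ifs <;> simp
    rw [hF]
    change _ ⬝ᵥ (kp (Fin (r + 1)) (mL ℂ HW.Qr) *ᵥ aL ℂ h1) ≠ 0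
    rw [h2, kp_part (fun v w h => hpred v w fun k => hQW _ _ (h k)) (hsupp v hvd)]
    exact hne
  have hFadd : ∀ s t, F (s + t) = F s + F t := by
    intro s t
    rw [hF]
    simp only
    rw [← add_dotProduct]
    congr 1
    funext w
    simp only [snc, extl, jA, Pi.add_apply, map_add]
    split_ifs
    · ring
    · ring
  have hFsmul : ∀ (a : ℚ_[ℓ]) t, F (a • t) = j a * F t := by
    intro a t
    rw [hF]
    simp only
    rw [← smul_eq_mul, ← smul_dotProduct]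
    congr 1
    funext w
    simp only [snc, extl, jA, Pi.smul_apply, smul_eq_mul, map_mul]
    split_ifs
    · ring
    · ring
  have hFinv : ∀ s ∈ Δ1 ⊓ Δ2 ⊓ Δ3, ∀ t, HasDegree P.deg t d →
      F (act (ρ s) t) = j (c s) * F t := by
    intro s hs t ht
    obtain ⟨⟨hs1, hs2⟩, hs3⟩ := hs
    have hχ : j (χ s) ≠ 0 := fun h => hG.gal.χne s (j.injective (h.trans (map_zero j).symm))
    obtain ⟨Gs, hGs⟩ : ∃ Gs : Matrix (ι ⊕ ι') (ι ⊕ ι') ℂ, Gs = (sumRep ρ ρ' s).map j := ⟨_, rfl⟩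
    have hGs' : Gs = blk ((ρ s).map j) ((ρ' s).map j) := by
      rw [hGs]
      exact blk_map _ (map_zero j) _ _
    obtain ⟨X, hX⟩ : ∃ X, X = snc (extl (jA j t) : (Fin r → ι ⊕ ι') → ℂ)
      (inr1 y : ι ⊕ ι' → ℂ) := ⟨_, rfl⟩
    -- the action on `X`
    have e1 : j (c s) • (kp (Fin (r + 1)) Gs *ᵥ X) =
        j (χ s) ^ m • snc (extl (jA j (act (ρ s) t)) : (Fin r → ι ⊕ ι') → ℂ)
          (inr1 y : ι ⊕ ι' → ℂ) := by
      rw [hX, hGs', S.E.snc_kp, S.E.extl_kp, blk_inr1]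
      have h2 : kp (Fin r) ((ρ s).map j) *ᵥ jA j t = jA j (act (ρ s) t) := by
        rw [kp_mapj, jA_mulVec]
        rfl
      rw [h2]
      have h3 := hy s hs1
      funext w
      simp only [snc, Pi.smul_apply, smul_eq_mul]
      cases w (Fin.last r) with
      | inl i => simp [inr1]
      | inr i =>
        have h4 := congrFun h3 i
        simp only [Pi.smul_apply, smul_eq_mul] at h4
        simp only [inr1, Sum.elim_inr]
        linear_combination (extl (jA j (act (ρ s) t)) fun k => w k.castSucc) * h4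
    -- the Hodge class
    have e2 : kp (Fin (r + 1)) Gs *ᵥ aL ℂ h1 = j (χ s) ^ m • aL ℂ h1 := by
      have h2 := hT1 s hs2
      rw [act_eq_kp] at h2
      have h3 : aL ℂ h1 = jA j (inL ℚ_[ℓ] h1) := funext fun i => (map_ratCast j _).symm
      rw [hGs, h3, kp_mapj, jA_mulVec, h2]
      funext w
      exact (map_mul j _ _).trans (by rw [map_pow]; rfl)
    -- the form
    have e3 : Gsᵀ * mL ℂ HW.Qr * Gs =
        (Matrix.diagonal fun i => j (χ s) ^ (sumHS P P').deg i) * mL ℂ HW.Qr := by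
      have h2 := congrArg (fun M => M.map j) (hform s hs3)
      rw [map_mul', map_mul', map_mul', map_mL (L := ℂ)] at h2
      rw [hGs]
      refine Eq.trans ?_ (h2.trans ?_)
      · rfl
      · congr 1
        ext i k
        rw [Matrix.map_apply, Matrix.diagonal_apply, Matrix.diagonal_apply]
        split_ifs
        · exact map_pow j _ _
        · exact map_zero j
    have e4 : (kp (Fin (r + 1)) Gs *ᵥ X) ⬝ᵥ (kp (Fin (r + 1)) (mL ℂ HW.Qr) *ᵥ
        (kp (Fin (r + 1)) Gs *ᵥ aL ℂ h1)) =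
        j (χ s) ^ (2 * m) * (X ⬝ᵥ (kp (Fin (r + 1)) (mL ℂ HW.Qr) *ᵥ aL ℂ h1)) := by
      have h2 : (kp (Fin (r + 1)) Gs *ᵥ X) ⬝ᵥ (kp (Fin (r + 1)) (mL ℂ HW.Qr) *ᵥ
          (kp (Fin (r + 1)) Gs *ᵥ aL ℂ h1)) =
          X ⬝ᵥ (kp (Fin (r + 1)) (Gsᵀ * mL ℂ HW.Qr * Gs) *ᵥ aL ℂ h1) := by
        rw [kp_mul, kp_mul, ← Matrix.mulVec_mulVec, ← Matrix.mulVec_mulVec, kp_transpose,
          Matrix.dotProduct_mulVec X, Matrix.vecMul_transpose]
      rw [h2, e3]
      rw [dotProduct, dotProduct, Finset.mul_sum]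
      refine Finset.sum_congr rfl fun w _ => ?_
      by_cases hw : X w = 0
      · rw [hw, zero_mul, zero_mul, mul_zero]
      · have h3 := hsupp t ht w (by rw [← hX]; exact hw)
        rw [hp] at h3
        have h4 : (kp (Fin (r + 1)) ((Matrix.diagonal fun i =>
            j (χ s) ^ (sumHS P P').deg i) * mL ℂ HW.Qr) *ᵥ aL ℂ h1) w =
            j (χ s) ^ (2 * m) * (kp (Fin (r + 1)) (mL ℂ HW.Qr) *ᵥ aL ℂ h1) w := by
          rw [Matrix.mulVec, Matrix.mulVec, dotProduct, dotProduct, Finset.mul_sum]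
          refine Finset.sum_congr rfl fun w' _ => ?_
          have h5 : kp (Fin (r + 1)) ((Matrix.diagonal fun i =>
              j (χ s) ^ (sumHS P P').deg i) * mL ℂ HW.Qr) w w' =
              j (χ s) ^ (2 * m) * kp (Fin (r + 1)) (mL ℂ HW.Qr) w w' := by
            rw [kp_apply, kp_apply, ← h3.2.2, ← Finset.prod_pow_eq_pow_sum,
              ← Finset.prod_mul_distrib]
            exact Finset.prod_congr rfl fun k _ => Matrix.diagonal_mul _ _ _ _
          rw [h5, mul_assoc]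
        rw [h4]
        ring
    -- conclusion
    have e5 : F t = X ⬝ᵥ (kp (Fin (r + 1)) (mL ℂ HW.Qr) *ᵥ aL ℂ h1) := by
      rw [hF, hX]
    have e6 : F (act (ρ s) t) = snc (extl (jA j (act (ρ s) t)) : (Fin r → ι ⊕ ι') → ℂ)
          (inr1 y : ι ⊕ ι' → ℂ) ⬝ᵥ (kp (Fin (r + 1)) (mL ℂ HW.Qr) *ᵥ aL ℂ h1) := by
      rw [hF]
    have e7 : j (χ s) ^ m * F (act (ρ s) t) = j (c s) * ((kp (Fin (r + 1)) Gs *ᵥ X) ⬝ᵥ
        (kp (Fin (r + 1)) (mL ℂ HW.Qr) *ᵥ aL ℂ h1)) := by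
      rw [e6, ← smul_eq_mul, ← smul_dotProduct, ← e1, smul_dotProduct, smul_eq_mul]
    rw [e2, Matrix.mulVec_smul, dotProduct_smul, smul_eq_mul, ← e5] at e4
    have e8 : j (χ s) ^ m * (j (χ s) ^ m * F (act (ρ s) t)) =
        j (χ s) ^ m * (j (χ s) ^ m * (j (c s) * F t)) := by
      rw [e7]
      linear_combination (j (c s)) * e4
    have hm : j (χ s) ^ m ≠ 0 := pow_ne_zero _ hχ
    exact mul_left_cancel₀ hm (mul_left_cancel₀ hm e8)
  -- a linear functional with values in the field of `ℓ`-adic numbers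
  let _ : Algebra ℚ_[ℓ] ℂ := j.toAlgebra
  obtain ⟨g, hg⟩ : ∃ g : ℂ →ₗ[ℚ_[ℓ]] ℚ_[ℓ], g (F v) ≠ 0 := by
    by_contra h2
    push Not at h2
    exact hFv ((Module.forall_dual_apply_eq_zero_iff ℚ_[ℓ] (F v)).1 h2)
  refine ⟨Δ1 ⊓ Δ2 ⊓ Δ3, g ∘ₗ { toFun := F
                               map_add' := hFadd
                               map_smul' := fun a t => (hFsmul a t).trans rfl }, inferInstance,
    hg, fun s hs t ht => ?_⟩
  have h2 : g (F (act (ρ s) t)) = c s * g (F t) := by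
    rw [hFinv s hs t ht]
    exact (g.map_smul (c s) (F t))
  exact h2

end main

end Pool.Agent.N211.SM
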