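import Pool.Agent.N211.SM.Core
import Pool.Agent.N202.NC.MainT

/-!
# Galois representations on `V ⊕ V'` and the determinant lines
-/

set_option linter.unusedSectionVars false

namespace Pool.Agent.N211.SM

open Matrix ComplexConjugate
open Pool.Agent.N996.BP Pool.Agent.N202.TB Pool.Agent.N202.NC
open Pool.Agent.N202.CF (Tensor inL IsComb act matL der kil_iff IsCombM der_eq)

variable {ι ι' : Type} [Fintype ι] [DecidableEq ι] [Fintype ι'] [DecidableEq ι']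
  {ℓ : ℕ} [Fact ℓ.Prime] {Γ : Type} [Group Γ]

section rep

variable {P : HodgeStructure ι} {P' : HodgeStructure ι'} {ρ : Γ →* Matrix ι ι ℚ_[ℓ]}
  {ρ' : Γ →* Matrix ι' ι' ℚ_[ℓ]} {χ : Γ →* ℚ_[ℓ]}

lemma galW (hG : GaloisRep P.deg ρ χ) (hG' : GaloisRep P'.deg ρ' χ) :
    GaloisRep (sumHS P P').deg (sumRep ρ ρ') χ where
  deg s i j h := by
    rcases i with i | i <;> rcases j with j | j
    · exact hG.deg s i j h
    · exact absurd rfl h
    · exact absurd rfl h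
    · exact hG'.deg s i j h
  cont ε hε := by
    obtain ⟨Δ, hΔ, h⟩ := hG.cont ε hε
    obtain ⟨Δ', hΔ', h'⟩ := hG'.cont ε hε
    refine ⟨Δ ⊓ Δ', inferInstance, fun s hs => ⟨fun i j => ?_, (h s hs.1).2⟩⟩
    rcases i with i | i <;> rcases j with j | j
    · have h1 := (h s hs.1).1 i j
      have h2 : (1 : Matrix (ι ⊕ ι') (ι ⊕ ι') ℚ_[ℓ]) (Sum.inl i) (Sum.inl j) =
        (1 : Matrix ι ι ℚ_[ℓ]) i j := by simp [Matrix.one_apply]
      rw [h2]
      exact h1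
    · have h2 : sumRep ρ ρ' s (Sum.inl i) (Sum.inr j) -
        (1 : Matrix (ι ⊕ ι') (ι ⊕ ι') ℚ_[ℓ]) (Sum.inl i) (Sum.inr j) = 0 := by
        have h3 : sumRep ρ ρ' s (Sum.inl i) (Sum.inr j) = 0 := rfl
        rw [h3, Matrix.one_apply_ne (by simp), sub_zero]
      rw [h2, norm_zero]
      exact hε
    · have h2 : sumRep ρ ρ' s (Sum.inr i) (Sum.inl j) -
        (1 : Matrix (ι ⊕ ι') (ι ⊕ ι') ℚ_[ℓ]) (Sum.inr i) (Sum.inl j) = 0 := by
        have h3 : sumRep ρ ρ' s (Sum.inr i) (Sum.inl j) = 0 := rfl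
        rw [h3, Matrix.one_apply_ne (by simp), sub_zero]
      rw [h2, norm_zero]
      exact hε
    · have h1 := (h' s hs.2).1 i j
      have h2 : (1 : Matrix (ι ⊕ ι') (ι ⊕ ι') ℚ_[ℓ]) (Sum.inr i) (Sum.inr j) =
        (1 : Matrix ι' ι' ℚ_[ℓ]) i j := by simp [Matrix.one_apply]
      rw [h2]
      exact h1

end rep

section arr

variable {L : Type} [Field L]

lemma elim_left (deg : ι → ℕ) (deg' : ι' → ℕ) (x : ι ⊕ ι') (h : x.isLeft = true) :
    Sum.elim deg deg' x = deg (x.getLeft h) := by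
  cases x with
  | inl i => rfl
  | inr i => simp at h

lemma extl_deg (deg : ι → ℕ) (deg' : ι' → ℕ) {n d : ℕ} {a : Tensor ι n L}
    (h : HasDegree deg a d) : HasDegree (Sum.elim deg deg') (extl a : Tensor (ι ⊕ ι') n L) d := by
  intro w hw
  rw [extl] at hw
  split_ifs at hw with h1
  · rw [← h _ hw]
    exact Finset.sum_congr rfl fun k _ => elim_left deg deg' (w k) (h1 k)
  · exact absurd rfl hw

lemma extl_on (K : ℕ) {n : ℕ} (hn : n ≤ K) (a : Tensor ι n L) :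
    OnProduct K (extl a : Tensor (ι ⊕ ι') n L) := by
  intro w hw
  rw [extl] at hw
  split_ifs at hw with h1
  · refine ⟨(Finset.card_filter_le _ _).trans (by simpa using hn), ?_⟩
    have h2 : (Finset.univ.filter fun k => (w k).isRight) = ∅ := by
      refine Finset.filter_eq_empty_iff.2 fun k _ => ?_
      have h3 := h1 k

      cases hw' : w k with
      | inl i => simp
      | inr i => rw [hw'] at h3; simp at h3
    rw [h2]
    simp
  · exact absurd rfl hw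

lemma resl_deg (deg : ι → ℕ) (deg' : ι' → ℕ) {n d : ℕ} {a : Tensor (ι ⊕ ι') n L}
    (h : HasDegree (Sum.elim deg deg') a d) : HasDegree deg (resl a) d :=
  fun w hw => h _ hw

lemma act_eq_kp {n : ℕ} (g : Matrix ι ι L) (t : Tensor ι n L) : act g t = kp (Fin n) g *ᵥ t := rfl

end arr

section restrict

variable {P : HodgeStructure ι} {P' : HodgeStructure ι'} {H : HData ι} {H' : HData ι'}
  {HW : HData (ι ⊕ ι')} {ρ : Γ →* Matrix ι ι ℚ_[ℓ]}
  {ρ' : Γ →* Matrix ι' ι' ℚ_[ℓ]} {χ : Γ →* ℚ_[ℓ]} {K : ℕ}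
  (hE : S_EXT) (b : Br P H) (b' : Br P' H') (bW : Br (sumHS P P') HW)

/-- The resriction to `V`, as a linear map. -/
def reslL (L : Type) [Field L] (n : ℕ) : Tensor (ι ⊕ ι') n L →ₗ[L] Tensor ι n L where
  toFun := resl
  map_add' _ _ := rfl
  map_smul' _ _ := rfl

/-- The resriction to `V'`, as a linear map. -/
def resrL (L : Type) [Field L] (n : ℕ) : Tensor (ι ⊕ ι') n L →ₗ[L] Tensor ι' n L where
  toFun := resr
  map_add' _ _ := rfl
  map_smul' _ _ := rfl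

include hE b b' bW

lemma ht_V (hHT : ∀ n j (a : Tensor (ι ⊕ ι') n ℚ), OnProduct K a → (sumHS P P').IsHodge j a →
    IsTate (sumHS P P').deg (sumRep ρ ρ') χ j (inL ℚ_[ℓ] a)) {n : ℕ} (hn : n ≤ K) (j : ℕ)
    (a : Tensor ι n ℚ) (ha : P.IsHodge j a) : IsTate P.deg ρ χ j (inL ℚ_[ℓ] a) := by
  obtain ⟨h1, h2⟩ := (b.isHodge_iff a).1 ha
  have h3 : (sumHS P P').IsHodge j (extl a : Tensor (ι ⊕ ι') n ℚ) :=
    (bW.isHodge_iff _).2 ⟨extl_deg _ _ h1, BB_extl hE b b' bW h2⟩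
  obtain ⟨-, Δ, hΔ, h4⟩ := hHT n j _ (extl_on K hn a) h3
  refine ⟨fun w hw => h1 w fun h => hw (by rw [inL, h, Rat.cast_zero]), Δ, hΔ, fun s hs => ?_⟩
  have h5 := h4 s hs
  have h6 : inL ℚ_[ℓ] (extl a : Tensor (ι ⊕ ι') n ℚ) = extl (inL ℚ_[ℓ] a) :=
    extl_map (fun q : ℚ => (q : ℚ_[ℓ])) Rat.cast_zero a
  rw [h6, act_eq_kp] at h5
  have h7 := hE.resl_kp ℚ_[ℓ] ι ι' n (ρ s) (ρ' s) (extl (inL ℚ_[ℓ] a))
  have h8 : kp (Fin n) (blk (ρ s) (ρ' s)) *ᵥ (extl (inL ℚ_[ℓ] a) : Tensor (ι ⊕ ι') n ℚ_[ℓ]) =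
    χ s ^ j • extl (inL ℚ_[ℓ] a) := h5
  rw [h8, resl_extl] at h7
  rw [act_eq_kp, ← h7]
  change χ s ^ j • resl (extl (inL ℚ_[ℓ] a)) = _
  rw [resl_extl]

lemma th_V (hTH : ∀ n j (t : Tensor (ι ⊕ ι') n ℚ_[ℓ]), OnProduct K t →
    IsTate (sumHS P P').deg (sumRep ρ ρ') χ j t →
    IsComb {a : Tensor (ι ⊕ ι') n ℚ | (sumHS P P').IsHodge j a} t) {n : ℕ} (hn : n ≤ K) (j : ℕ)
    (t : Tensor ι n ℚ_[ℓ]) (ht : IsTate P.deg ρ χ j t) :
    IsComb {a : Tensor ι n ℚ | P.IsHodge j a} t := by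
  obtain ⟨h1, Δ, hΔ, h2⟩ := ht
  have h3 : IsTate (sumHS P P').deg (sumRep ρ ρ') χ j (extl t : Tensor (ι ⊕ ι') n ℚ_[ℓ]) := by
    refine ⟨extl_deg _ _ h1, Δ, hΔ, fun s hs => ?_⟩
    have h4 := h2 s hs
    have h5 := hE.extl_kp ℚ_[ℓ] ι ι' n (ρ s) (ρ' s) t
    rw [act_eq_kp] at h4
    rw [h4] at h5
    refine Eq.trans h5 ?_
    funext w
    simp only [extl, Pi.smul_apply, smul_eq_mul]
    split_ifs
    · rfl
    · rw [mul_zero]
  have h4 := hTH n j _ (extl_on K hn t) h3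
  have h5 := Submodule.mem_map_of_mem (f := reslL ℚ_[ℓ] n) h4
  rw [Submodule.map_span] at h5
  have h6 : reslL ℚ_[ℓ] n (extl t : Tensor (ι ⊕ ι') n ℚ_[ℓ]) = t := resl_extl t
  rw [h6] at h5
  refine Submodule.span_mono ?_ h5
  rintro _ ⟨_, ⟨a, ha, rfl⟩, rfl⟩
  obtain ⟨h7, h8⟩ := (bW.isHodge_iff a).1 ha
  exact ⟨resl a, (b.isHodge_iff _).2 ⟨resl_deg _ _ h7, BB_resl hE b b' bW h8⟩, rfl⟩

end restrict

end Pool.Agent.N211.SM
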