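import Pool.Agent.N211.SM.Gal

/-!
# The determinant lines
-/

set_option linter.unusedSectionVars false

namespace Pool.Agent.N211.SM

open Matrix ComplexConjugate
open Pool.Agent.N996.BP Pool.Agent.N202.TB Pool.Agent.N202.NC
open Pool.Agent.N202.CF (Tensor inL IsComb act matL der kil_iff IsCombM der_eq)

section general

/-- The vector with complex entries. -/
def jA {K L : Type} [Field K] [Field L] (j : K →+* L) {m : Type} (t : m → K) : m → L :=
  fun i => j (t i)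

variable {K L : Type} [Field K] [Field L] (j : K →+* L) {m : Type}

lemma jA_zero : jA j (0 : m → K) = 0 := funext fun _ => map_zero j

lemma jA_inj {s t : m → K} (h : jA j s = jA j t) : s = t :=
  funext fun i => j.injective (congrFun h i)

lemma jA_mulVec {n : Type} [Fintype n] (M : Matrix m n K) (t : n → K) :
    M.map j *ᵥ jA j t = jA j (M *ᵥ t) := by
  funext i
  simp only [Matrix.mulVec, dotProduct, jA, map_sum, map_mul, Matrix.map_apply]

lemma jA_comb [CharZero K] [CharZero L] {T : Set (m → ℚ)} {t : m → K} (h : IsComb T t) :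
    IsComb T (jA j t) := by
  unfold IsComb at h ⊢
  induction h using Submodule.span_induction with
  | mem x hx =>
    obtain ⟨a, ha, rfl⟩ := hx
    refine Submodule.subset_span ⟨a, ha, ?_⟩
    funext i
    exact (map_ratCast j _).symm
  | zero => rw [jA_zero]; exact Submodule.zero_mem _
  | add x y _ _ hx hy =>
    have h1 : jA j (x + y) = jA j x + jA j y := funext fun _ => map_add j _ _
    rw [h1]
    exact Submodule.add_mem _ hx hy
  | smul c x _ hx =>
    have h1 : jA j (c • x) = j c • jA j x := funext fun _ => map_mul j _ _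
    rw [h1]
    exact Submodule.smul_mem _ _ hx

lemma dp_mapj {ι : Type} [Fintype ι] [DecidableEq ι] (κ : Type) [Fintype κ] [DecidableEq κ]
    (y : Matrix ι ι K) : dp κ (y.map j) = (dp κ y).map j := by
  ext v w
  simp only [dp, Matrix.of_apply, Matrix.map_apply, map_sum, map_mul, map_prod, apply_ite j,
    map_one, map_zero]

lemma kp_mapj {ι : Type} [Fintype ι] [DecidableEq ι] (κ : Type) [Fintype κ] [DecidableEq κ]
    (y : Matrix ι ι K) : kp κ (y.map j) = (kp κ y).map j := by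
  ext v w
  simp only [kp_apply, Matrix.map_apply, map_prod]

end general

variable {ι ι' : Type} [Fintype ι] [DecidableEq ι] [Fintype ι'] [DecidableEq ι']
  {ℓ : ℕ} [Fact ℓ.Prime] {Γ : Type} [Group Γ]

section span

variable {W : Type} [Fintype W] [DecidableEq W] {G : Γ →* Matrix W W ℚ_[ℓ]} {χ : Γ →* ℚ_[ℓ]}

/-- Complex Tate classes are combinations of Tate classes. -/
lemma tate_span (hBC : S_BC) (j : ℚ_[ℓ] →+* ℂ) {n m : ℕ} {τ : Tensor W n ℂ} {Δ : Subgroup Γ}
    (hΔ : Δ.FiniteIndex)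
    (h : ∀ s ∈ Δ, kp (Fin n) ((G s).map j) *ᵥ τ = j (χ s) ^ m • τ) :
    τ ∈ Submodule.span ℂ {z | ∃ t : Tensor W n ℚ_[ℓ], (∀ w, t w ≠ 0 → τ w ≠ 0) ∧
      (∃ Δ : Subgroup Γ, Δ.FiniteIndex ∧ ∀ s ∈ Δ, act (G s) t = χ s ^ m • t) ∧ z = jA j t} := by
  have h1 := hBC ℚ_[ℓ] ℂ j (Fin n → W)
    ({a | ∃ s ∈ Δ, ∃ v, a = fun w => kp (Fin n) (G s) v w - if v = w then χ s ^ m else 0} ∪
      {a | ∃ v, τ v = 0 ∧ a = fun w => if v = w then 1 else 0}) τ (by
    rintro a (⟨s, hs, v, rfl⟩ | ⟨v, hv, rfl⟩)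
    · have h2 := congrFun (h s hs) v
      rw [kp_mapj, Matrix.mulVec, dotProduct] at h2
      have h3 : ∀ w, j (kp (Fin n) (G s) v w - if v = w then χ s ^ m else 0) * τ w =
          (kp (Fin n) (G s)).map j v w * τ w - if v = w then j (χ s) ^ m * τ w else 0 := by
        intro w
        split_ifs
        · rw [map_sub, sub_mul, map_pow]; rfl
        · rw [sub_zero, sub_zero]; rfl
      rw [Finset.sum_congr rfl fun w _ => h3 w, Finset.sum_sub_distrib, h2,
        Finset.sum_ite_eq Finset.univ v, if_pos (Finset.mem_univ _)]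
      exact sub_self _
    · have h3 : ∀ w, j (if v = w then 1 else 0) * τ w = if v = w then τ w else 0 := by
        intro w
        split_ifs
        · rw [map_one, one_mul]
        · rw [map_zero, zero_mul]
      rw [Finset.sum_congr rfl fun w _ => h3 w, Finset.sum_ite_eq Finset.univ v,
        if_pos (Finset.mem_univ _), hv])
  refine Submodule.span_mono ?_ h1
  rintro _ ⟨t, ht, rfl⟩
  refine ⟨t, fun w hw hτ => hw ?_, ⟨Δ, hΔ, fun s hs => ?_⟩, rfl⟩
  · have h2 := ht _ (Or.inr ⟨w, hτ, rfl⟩)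
    simp only [ite_mul, one_mul, zero_mul] at h2
    rwa [Finset.sum_ite_eq Finset.univ w, if_pos (Finset.mem_univ _)] at h2
  · funext v
    have h2 := ht _ (Or.inl ⟨s, hs, v, rfl⟩)
    simp only [sub_mul, ite_mul, zero_mul] at h2
    rw [Finset.sum_sub_distrib, Finset.sum_ite_eq Finset.univ v, if_pos (Finset.mem_univ _),
      sub_eq_zero] at h2
    exact h2

end span

section lines

variable {P : HodgeStructure ι} {P' : HodgeStructure ι'} {H : HData ι} {H' : HData ι'}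
  {HW : HData (ι ⊕ ι')} {ρ : Γ →* Matrix ι ι ℚ_[ℓ]}
  {ρ' : Γ →* Matrix ι' ι' ℚ_[ℓ]} {χ : Γ →* ℚ_[ℓ]} {K : ℕ} {j : ℚ_[ℓ] →+* ℂ}
  {U : Subgroup Γ} {Y : Γ → Matrix (ι ⊕ ι') (ι ⊕ ι') ℚ_[ℓ]} {lam : Γ → ℚ_[ℓ]}
  {Y1 : Γ → Matrix ι ι ℚ_[ℓ]} {Y2 : Γ → Matrix ι' ι' ℚ_[ℓ]}

lemma Yt_blk {u : Γ} (h : Y u = blk (Y1 u) (Y2 u)) :
    Yt (sumHS P P').deg Y lam u = blk (Yt P.deg Y1 lam u) (Yt P'.deg Y2 lam u) := by
  have h1 : DD (sumHS P P').deg ℚ_[ℓ] = blk (DD P.deg ℚ_[ℓ]) (DD P'.deg ℚ_[ℓ]) := by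
    ext i k
    rcases i with i | i <;> rcases k with k | k
    · simp [DD, blk, sumHS, Matrix.diagonal_apply]
    · simp [DD, blk, sumHS, Matrix.diagonal_apply]
    · simp [DD, blk, sumHS, Matrix.diagonal_apply]
    · simp [DD, blk, sumHS, Matrix.diagonal_apply]
  rw [Yt, Yt, Yt, h, h1, smul_blk, sub_blk]

lemma blk_inr1 {E : Type} [Field E] (a : Matrix ι ι E) (c : Matrix ι' ι' E) (y : ι' → E) :
    blk a c *ᵥ (inr1 y : ι ⊕ ι' → E) = inr1 (c *ᵥ y) := by
  rw [blk_mulVec]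
  have h1 : (inr1 y : ι ⊕ ι' → E) ∘ Sum.inl = 0 := rfl
  have h2 : (inr1 y : ι ⊕ ι' → E) ∘ Sum.inr = y := rfl
  rw [h1, h2, Matrix.mulVec_zero]
  rfl

lemma snc_ne {E : Type} [Field E] {n : ℕ} {v : (Fin n → ι) → E} (hv : v ≠ 0) {z : ι' → E}
    (h : snc (extl v : (Fin n → ι ⊕ ι') → E) (inr1 z : ι ⊕ ι' → E) = 0) : z = 0 := by
  obtain ⟨w, hw⟩ := Function.ne_iff.1 hv
  funext i
  have h1 := congrFun h (Fin.snoc (α := fun _ => ι ⊕ ι') (fun k => Sum.inl (w k)) (Sum.inr i))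
  rw [snc] at h1
  have h2 : (fun k : Fin n => (Fin.snoc (α := fun _ => ι ⊕ ι') (fun k => Sum.inl (w k))
      (Sum.inr i) : Fin (n + 1) → ι ⊕ ι') k.castSucc) = fun k => Sum.inl (w k) := by
    funext k
    exact Fin.snoc_castSucc (α := fun _ => ι ⊕ ι') _ _ k
  rw [h2, Fin.snoc_last] at h1
  have h3 : (extl v : (Fin n → ι ⊕ ι') → E) (fun k => Sum.inl (w k)) = v w :=
    congrFun (resl_extl v) w
  rw [h3] at h1
  exact (mul_eq_zero.1 h1).resolve_left hw

lemma snc_add {E W : Type} [Field E] {n : ℕ} (A : (Fin n → W) → E) (x y : W → E) :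
    snc A x + snc A y = snc A (x + y) := by
  funext w
  simp only [snc, Pi.add_apply]
  ring

lemma snc_smul {E W : Type} [Field E] {n : ℕ} (A : (Fin n → W) → E) (c : E) (y : W → E) :
    snc (c • A) y = snc A (c • y) := by
  funext w
  simp only [snc, Pi.smul_apply, smul_eq_mul]
  ring

lemma extl_smul {E : Type} [Field E] {n : ℕ} (c : E) (v : (Fin n → ι) → E) :
    (extl (c • v) : (Fin n → ι ⊕ ι') → E) = c • extl v := by
  funext w
  simp only [extl, Pi.smul_apply, smul_eq_mul]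
  split_ifs
  · rfl
  · rw [mul_zero]

/-- The support of the tensor of a line. -/
lemma snc_supp {E : Type} [Field E] {n D e K : ℕ} (hn : n ≤ K) {v : (Fin n → ι) → E}
    (hv : HasDegree P.deg v D) {y : ι' → E} (hy : ∀ i, y i ≠ 0 → P'.deg i = e)
    {w : Fin (n + 1) → ι ⊕ ι'}
    (hw : snc (extl v : (Fin n → ι ⊕ ι') → E) (inr1 y : ι ⊕ ι' → E) w ≠ 0) :
    ∑ k, (sumHS P P').deg (w k) = D + e ∧
      (Finset.univ.filter fun k => (w k).isLeft).card ≤ K ∧
      (Finset.univ.filter fun k => (w k).isRight).card ≤ 1 := by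
  have h1 := left_ne_zero_of_mul hw
  have h2 := right_ne_zero_of_mul hw
  have h3 : ∀ k : Fin n, (w k.castSucc).isLeft = true := by
    rw [extl] at h1
    split_ifs at h1 with h
    · exact h
    · exact absurd rfl h1
  have h4 : (w (Fin.last n)).isRight = true := by
    cases hl : w (Fin.last n) with
    | inl i => rw [hl] at h2; exact absurd rfl h2
    | inr i => rfl
  refine ⟨?_, ?_, ?_⟩
  · rw [Fin.sum_univ_castSucc]
    have h5 := extl_deg P.deg P'.deg hv _ h1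
    have h6 : (sumHS P P').deg (w (Fin.last n)) = e := by
      cases hl : w (Fin.last n) with
      | inl i => rw [hl] at h4; simp at h4
      | inr i => rw [hl] at h2; exact hy i h2
    rw [h6]
    exact congrArg (· + e) h5
  · have h5 : (Finset.univ.filter fun k => (w k).isLeft) ⊆
        (Finset.univ : Finset (Fin n)).map Fin.castSuccEmb := by
      intro k hk
      rw [Finset.mem_filter] at hk
      rw [Finset.mem_map]
      rcases Fin.eq_castSucc_or_eq_last k with ⟨k', rfl⟩ | rfl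
      · exact ⟨k', Finset.mem_univ _, rfl⟩
      · have h6 := hk.2
        rw [← Sum.not_isLeft] at h4
        rw [h6] at h4
        simp at h4
    refine (Finset.card_le_card h5).trans ?_
    rw [Finset.card_map, Finset.card_univ, Fintype.card_fin]
    exact hn
  · have h5 : (Finset.univ.filter fun k => (w k).isRight) ⊆ {Fin.last n} := by
      intro k hk
      rw [Finset.mem_filter] at hk
      rw [Finset.mem_singleton]
      rcases Fin.eq_castSucc_or_eq_last k with ⟨k', rfl⟩ | rfl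
      · have h6 := hk.2
        have h7 := h3 k'
        rw [← Sum.not_isLeft] at h6
        rw [h7] at h6
        simp at h6
      · rfl
    exact (Finset.card_le_card h5).trans (by simp)

variable (hE : S_EXT) (hBC : S_BC) (b : Br P H) (b' : Br P' H')
  (bW : Br (sumHS P P') HW) (hG : GaloisRep P.deg ρ χ) (hG' : GaloisRep P'.deg ρ' χ)
  (hlog : Logs (fun s => sumRep ρ ρ' s) (fun s => χ s) U Y lam)
  (hY : ∀ u ∈ U, Y u = blk (Y1 u) (Y2 u))
  (hTH : ∀ n j (t : Tensor (ι ⊕ ι') n ℚ_[ℓ]), OnProduct K t →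
    IsTate (sumHS P P').deg (sumRep ρ ρ') χ j t →
    IsComb {a : Tensor (ι ⊕ ι') n ℚ | (sumHS P P').IsHodge j a} t)

include hE hBC b b' bW hG hG' hlog hY hTH

/-- The tensor of a line with its dual line is killed by both Lie algebras. -/
theorem line_kill {n D m : ℕ} (hn : n ≤ K) {v : (Fin n → ι) → ℂ}
    (hv : HasDegree P.deg v D) {y : ι' → ℂ} (hy : ∀ i, y i ≠ 0 → D + P'.deg i = 2 * m)
    {Δ : Subgroup Γ} (hΔ : Δ.FiniteIndex) {c : Γ → ℂ}
    (h1 : ∀ s ∈ Δ, act ((ρ s).map j) v = c s • v)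
    (h2 : ∀ s ∈ Δ, c s • ((ρ' s).map j *ᵥ y) = j (χ s) ^ m • y) :
    (∀ z ∈ hL HW ℂ, dp (Fin (n + 1)) (blk z.1 z.2) *ᵥ
      snc (extl v : (Fin n → ι ⊕ ι') → ℂ) (inr1 y : ι ⊕ ι' → ℂ) = 0) ∧
    (∀ u ∈ U, dp (Fin (n + 1)) (blk ((Yt P.deg Y1 lam u).map j) ((Yt P'.deg Y2 lam u).map j)) *ᵥ
      snc (extl v : (Fin n → ι ⊕ ι') → ℂ) (inr1 y : ι ⊕ ι' → ℂ) = 0) ∧
    IsComb {a : Tensor (ι ⊕ ι') (n + 1) ℚ | (sumHS P P').IsHodge m a}
      (snc (extl v : (Fin n → ι ⊕ ι') → ℂ) (inr1 y : ι ⊕ ι' → ℂ)) := by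
  obtain ⟨τ, hτ⟩ : ∃ τ, τ = snc (extl v : (Fin n → ι ⊕ ι') → ℂ) (inr1 y : ι ⊕ ι' → ℂ) := ⟨_, rfl⟩
  rw [← hτ]
  have hsupp : ∀ w, τ w ≠ 0 → ∑ k, (sumHS P P').deg (w k) = 2 * m ∧
      (Finset.univ.filter fun k => (w k).isLeft).card ≤ K ∧
      (Finset.univ.filter fun k => (w k).isRight).card ≤ 1 := by
    intro w hw
    rw [hτ] at hw
    have h3 : ∀ i, y i ≠ 0 → P'.deg i = 2 * m - D := by
      intro i hi
      have := hy i hi
      omega
    obtain ⟨h4, h5⟩ := snc_supp (P := P) (P' := P') hn hv h3 hw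
    refine ⟨?_, h5⟩
    rw [h4]
    have h6 : ∃ i, y i ≠ 0 := by
      by_contra h7
      push Not at h7
      have h8 := right_ne_zero_of_mul hw
      apply h8
      cases w (Fin.last n) with
      | inl i => rfl
      | inr i => exact h7 i
    obtain ⟨i, hi⟩ := h6
    have := hy i hi
    omega
  have hinv : ∀ s ∈ Δ, kp (Fin (n + 1)) ((sumRep ρ ρ' s).map j) *ᵥ τ = j (χ s) ^ m • τ := by
    intro s hs
    have h3 : (sumRep ρ ρ' s).map j = blk ((ρ s).map j) ((ρ' s).map j) :=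
      blk_map _ (map_zero j) _ _
    have h4 := h1 s hs
    rw [act_eq_kp] at h4
    rw [h3, hτ, hE.snc_kp, hE.extl_kp, blk_inr1, h4, extl_smul, snc_smul]
    have h5 : c s • (inr1 ((ρ' s).map j *ᵥ y) : ι ⊕ ι' → ℂ) =
        inr1 (c s • ((ρ' s).map j *ᵥ y)) := by
      funext i
      cases i with
      | inl i => exact mul_zero _
      | inr i => rfl
    rw [h5, h2 s hs]
    funext w
    simp only [snc, Pi.smul_apply, smul_eq_mul]
    cases w (Fin.last n) with
    | inl i => simp [inr1]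
    | inr i => simp only [inr1, Sum.elim_inr, Pi.smul_apply, smul_eq_mul]; ring
  have hspan := tate_span hBC j (G := sumRep ρ ρ') hΔ hinv
  have hgal := galW hG hG'
  have hgen : ∀ t : Tensor (ι ⊕ ι') (n + 1) ℚ_[ℓ], (∀ w, t w ≠ 0 → τ w ≠ 0) →
      (∃ Δ : Subgroup Γ, Δ.FiniteIndex ∧ ∀ s ∈ Δ, act (sumRep ρ ρ' s) t = χ s ^ m • t) →
      IsTate (sumHS P P').deg (sumRep ρ ρ') χ m t ∧
        IsComb {a : Tensor (ι ⊕ ι') (n + 1) ℚ | (sumHS P P').IsHodge m a} t := by
    intro t ht1 ht2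
    have h3 : IsTate (sumHS P P').deg (sumRep ρ ρ') χ m t :=
      ⟨fun w hw => (hsupp w (ht1 w hw)).1, ht2⟩
    exact ⟨h3, hTH _ _ t (fun w hw => (hsupp w (ht1 w hw)).2) h3⟩
  have hcomb : IsComb {a : Tensor (ι ⊕ ι') (n + 1) ℚ | (sumHS P P').IsHodge m a} τ := by
    refine (Submodule.span_le.2 ?_) hspan
    rintro _ ⟨t, ht1, ht2, rfl⟩
    exact jA_comb j (hgen t ht1 ht2).2
  refine ⟨fun z hz => ?_, fun u hu => ?_, hcomb⟩
  · exact (mem_hL.1 hz).hspan (hspan_of_isComb bW hcomb)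
  · have key : τ ∈ LinearMap.ker (Matrix.mulVecLin (dp (Fin (n + 1))
        (blk ((Yt P.deg Y1 lam u).map j) ((Yt P'.deg Y2 lam u).map j)))) := by
      refine (Submodule.span_le.2 ?_) hspan
      rintro _ ⟨t, ht1, ht2, rfl⟩
      rw [SetLike.mem_coe, LinearMap.mem_ker, Matrix.mulVecLin_apply]
      have h3 : blk ((Yt P.deg Y1 lam u).map j) ((Yt P'.deg Y2 lam u).map j) =
          (Yt (sumHS P P').deg Y lam u).map j := by
        rw [Yt_blk (hY u hu), blk_map _ (map_zero j)]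
      rw [h3, dp_mapj, jA_mulVec,
        hlog.kill_tate hgal.gal steps hu (n := n) (j := m) (hgen t ht1 ht2).1, jA_zero]
    rw [LinearMap.mem_ker, Matrix.mulVecLin_apply] at key
    exact key

end lines

end Pool.Agent.N211.SM
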