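import Pool.Agent.N211.SM.Line
import Pool.Agent.N211.SM.Det2

/-!
# Hodge classes are Tate classes on all powers
-/

set_option linter.unusedSectionVars false

namespace Pool.Agent.N211.SM

open Matrix ComplexConjugate
open Pool.Agent.N996.BP Pool.Agent.N202.TB Pool.Agent.N202.NC
open Pool.Agent.N202.CF (Tensor inL IsComb act matL der kil_iff IsCombM der_eq)

section V

variable {ι : Type} [Fintype ι] [DecidableEq ι] {ℓ : ℕ} [Fact ℓ.Prime] {Γ : Type} [Group Γ]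
  {deg : ι → ℕ} {G : Γ → Matrix ι ι ℚ_[ℓ]} {χ : Γ → ℚ_[ℓ]}
  {U : Subgroup Γ} {Y : Γ → Matrix ι ι ℚ_[ℓ]} {lam : Γ → ℚ_[ℓ]} {H : HData ι}
  (hG : GalArr deg G χ) (hL : Logs G χ U Y lam)
  (hQ : ∀ i j, H.Qir i j ≠ 0 → deg i = deg j) (h2 : HT H deg G χ 1)

include hG hL hQ h2

lemma v2 {e : Matrix ι ι ℚ} (he : En H deg e) {u : Γ} (hu : u ∈ U) :
    dp (Fin 2) (Yt deg Y lam u) *ᵥ vec2 (mL ℚ_[ℓ] (e * H.Qir)) = 0 := by
  refine hL.kill_tspan hG steps hu (h2 _ (two_BB H he.2) fun w hw => ?_)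
  have h3 := E0_mul he.1 (B_mem H hQ)
  have h4 : deg (w 0) = deg (w 1) := by
    by_contra hne
    exact hw (h3 _ _ hne)
  rw [Fin.sum_univ_two]
  exact ⟨deg (w 1), by rw [← h4]⟩

lemma Yt_skew {u : Γ} (hu : u ∈ U) : Yt deg Y lam u * mL ℚ_[ℓ] H.Qir +
    mL ℚ_[ℓ] H.Qir * (Yt deg Y lam u)ᵀ = 0 := by
  have hone : En H deg (1 : Matrix ι ι ℚ) := by
    refine ⟨fun i j hne => ?_, fun t _ => by rw [cQ_one, Matrix.mul_one, Matrix.one_mul]⟩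
    rw [Matrix.one_apply_ne]
    rintro rfl
    exact hne rfl
  have h3 := v2 hG hL hQ h2 hone hu
  rw [Matrix.one_mul, dp_vec2 steps] at h3
  exact (LinearEquiv.map_eq_zero_iff _).1 h3

lemma Yt_comm {e : Matrix ι ι ℚ} (he : En H deg e) {u : Γ} (hu : u ∈ U) :
    Yt deg Y lam u * mL ℚ_[ℓ] e = mL ℚ_[ℓ] e * Yt deg Y lam u := by
  have h3 := v2 hG hL hQ h2 he hu
  rw [dp_vec2 steps] at h3
  have h4 := (LinearEquiv.map_eq_zero_iff _).1 h3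
  have h5 : mL ℚ_[ℓ] H.Qir * (Yt deg Y lam u)ᵀ = -(Yt deg Y lam u * mL ℚ_[ℓ] H.Qir) :=
    eq_neg_of_add_eq_zero_right (Yt_skew hG hL hQ h2 hu)
  rw [mL_mul, Matrix.mul_assoc (mL ℚ_[ℓ] e), h5, Matrix.mul_neg, ← Matrix.mul_assoc,
    ← Matrix.mul_assoc, ← sub_eq_add_neg, sub_eq_zero] at h4
  have h6 := congrArg (fun M => M * mL ℚ_[ℓ] H.Qr) h4
  simpa only [Matrix.mul_assoc, mL_Qir_Qr, Matrix.mul_one] using h6

end V

variable {ι ι' : Type} [Fintype ι] [DecidableEq ι] [Fintype ι'] [DecidableEq ι']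
  {ℓ : ℕ} [Fact ℓ.Prime] {Γ : Type} [Group Γ]

lemma map_mul' {K L : Type} [Field K] [Field L] (j : K →+* L) (a c : Matrix ι ι K) :
    (a * c).map j = a.map j * c.map j := Matrix.map_mul

lemma map_mL {K L : Type} [Field K] [Field L] [CharZero K] [CharZero L] (j : K →+* L)
    (a : Matrix ι ι ℚ) : (mL K a).map j = mL L a := by
  ext i k
  exact map_ratCast j _

/-- The commutation with the idempotents. -/
lemma comm_span {H : HData ι} {deg : ι → ℕ} {z π : Matrix ι ι ℂ}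
    (hs : π ∈ Submodule.span ℂ (cQ '' {x | Cen H deg x}))
    (h : ∀ x, Cen H deg x → z * cQ x = cQ x * z) : z * π = π * z := by
  induction hs using Submodule.span_induction with
  | mem x hx =>
    obtain ⟨a, ha, rfl⟩ := hx
    exact h a ha
  | zero => rw [Matrix.mul_zero, Matrix.zero_mul]
  | add x y _ _ hx hy => rw [Matrix.mul_add, Matrix.add_mul, hx, hy]
  | smul c x _ hx => rw [Matrix.mul_smul, Matrix.smul_mul, hx]

/-- The commutation of Galois elements with the idempotents. -/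
lemma comm_galois {H : HData ι} {deg : ι → ℕ} {ρ : Γ →* Matrix ι ι ℚ_[ℓ]} (j : ℚ_[ℓ] →+* ℂ)
    {π : Matrix ι ι ℂ} (hs : π ∈ Submodule.span ℂ (cQ '' {x | Cen H deg x}))
    (h : ∀ x, En H deg x → ∃ Δ : Subgroup Γ, Δ.FiniteIndex ∧
      ∀ s ∈ Δ, ρ s * mL ℚ_[ℓ] x = mL ℚ_[ℓ] x * ρ s) :
    ∃ Δ : Subgroup Γ, Δ.FiniteIndex ∧ ∀ s ∈ Δ, (ρ s).map j * π = π * (ρ s).map j := by
  induction hs using Submodule.span_induction with
  | mem x hx =>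
    obtain ⟨a, ha, rfl⟩ := hx
    obtain ⟨Δ, hΔ, h1⟩ := h a ha.1
    refine ⟨Δ, hΔ, fun s hs => ?_⟩
    have h2 := congrArg (fun M => M.map j) (h1 s hs)
    rw [map_mul', map_mul', map_mL (L := ℂ)] at h2
    exact h2
  | zero => exact ⟨⊤, inferInstance, fun s _ => by rw [Matrix.mul_zero, Matrix.zero_mul]⟩
  | add x y _ _ hx hy =>
    obtain ⟨Δ, hΔ, h1⟩ := hx
    obtain ⟨Δ', hΔ', h2⟩ := hy
    exact ⟨Δ ⊓ Δ', inferInstance, fun s hs => by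
      rw [Matrix.mul_add, Matrix.add_mul, h1 s hs.1, h2 s hs.2]⟩
  | smul c x _ hx =>
    obtain ⟨Δ, hΔ, h1⟩ := hx
    exact ⟨Δ, hΔ, fun s hs => by rw [Matrix.mul_smul, Matrix.smul_mul, h1 s hs]⟩

section main

variable {P : HodgeStructure ι} {P' : HodgeStructure ι'} {H : HData ι} {H' : HData ι'}
  {HW : HData (ι ⊕ ι')} {ρ : Γ →* Matrix ι ι ℚ_[ℓ]}
  {ρ' : Γ →* Matrix ι' ι' ℚ_[ℓ]} {χ : Γ →* ℚ_[ℓ]} {K : ℕ} {j : ℚ_[ℓ] →+* ℂ}
  {U : Subgroup Γ} {Y : Γ → Matrix (ι ⊕ ι') (ι ⊕ ι') ℚ_[ℓ]} {lam : Γ → ℚ_[ℓ]}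
  {Y1 : Γ → Matrix ι ι ℚ_[ℓ]} {Y2 : Γ → Matrix ι' ι' ℚ_[ℓ]}

/-- The steps which are pure algebra. -/
structure SSteps : Prop where
  E : S_EXT
  BC : S_BC
  D : S_DET
  Sy : S_SYM
  Id : S_IDEM
  R : S_RED
  GR : S_GRED
  CM : S_COMM

variable (S : SSteps) (b : Br P H) (b' : Br P' H')
  (bW : Br (sumHS P P') HW) (hG : GaloisRep P.deg ρ χ) (hG' : GaloisRep P'.deg ρ' χ)
  (hlog : Logs (fun s => sumRep ρ ρ' s) (fun s => χ s) U Y lam)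
  (hlog1 : Logs (fun s => ρ s) (fun s => χ s) U Y1 lam)
  (hlog2 : Logs (fun s => ρ' s) (fun s => χ s) U Y2 lam)
  (hY : ∀ u ∈ U, Y u = blk (Y1 u) (Y2 u))
  (hK : 4 ≤ K) (hK' : ∀ m, betti P.deg m ≤ K) (hdual : HasDuals P P' ρ ρ' χ j K)
  (hHT : ∀ n j (a : Tensor (ι ⊕ ι') n ℚ), OnProduct K a → (sumHS P P').IsHodge j a →
    IsTate (sumHS P P').deg (sumRep ρ ρ') χ j (inL ℚ_[ℓ] a))
  (hTH : ∀ n j (t : Tensor (ι ⊕ ι') n ℚ_[ℓ]), OnProduct K t →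
    IsTate (sumHS P P').deg (sumRep ρ ρ') χ j t →
    IsComb {a : Tensor (ι ⊕ ι') n ℚ | (sumHS P P').IsHodge j a} t)

include S b b' bW in
lemma hL_one {z : Matrix ι ι ℂ × Matrix ι' ι' ℂ} (hz : z ∈ hL HW ℂ) : Kill H ℂ z.1 := by
  obtain ⟨y, y', h1, h2, -⟩ := kill_blk S.E b b' bW (mem_hL.1 hz)
  have h3 := congrArg (unblk ℂ) h1
  rw [unblk_blk, unblk_blk] at h3
  rw [(Prod.mk.inj h3).1]
  exact h2

include S b b' bW in
lemma hL_comm {z : Matrix ι ι ℂ × Matrix ι' ι' ℂ} (hz : z ∈ hL HW ℂ) {π : Matrix ι ι ℂ}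
    (hs : π ∈ Submodule.span ℂ (cQ '' {x | Cen H P.deg x})) : z.1 * π = π * z.1 :=
  comm_span hs fun x hx => (hL_one S b b' bW hz).comm steps hx.1.2

omit [Fintype ι'] [DecidableEq ι'] in
lemma ht_one (b : Br P H) (hTV : ∀ (n : ℕ) (_ : n ≤ K) (j : ℕ) (a : Tensor ι n ℚ), P.IsHodge j a →
    IsTate P.deg ρ χ j (inL ℚ_[ℓ] a)) {n : ℕ} (hn : n + 1 ≤ K) :
    HT H P.deg (fun s => ρ s) (fun s => χ s) n :=
  hT_of b fun j a ha => hTV (n + 1) hn j a ha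

include S b b' bW hG hG' hlog hlog1 hlog2 hY hK hK' hdual hHT hTH

/-- The line for an idempotent. -/
theorem line_exists {π : Matrix ι ι ℂ} (hπ : π * π = π) (h0 : π ≠ 0)
    (hd : ∃ d, ∀ i k, π i k ≠ 0 → P.deg i = d ∧ P.deg k = d)
    (hs : π ∈ Submodule.span ℂ (cQ '' {x | Cen H P.deg x})) :
    ∃ (e : ℕ) (y : ι' → ℂ), (∃ d : ℕ, 0 < d ∧ π.trace = (d : ℂ)) ∧ y ≠ 0 ∧
      (∀ i, y i ≠ 0 → P'.deg i = e) ∧
      (∀ z ∈ hL HW ℂ, z.2 *ᵥ y = -(z.1 * π).trace • y) ∧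
      ∀ u ∈ U, (Yt P'.deg Y2 lam u).map j *ᵥ y =
        -((Yt P.deg Y1 lam u).map j * π).trace • y := by
  classical
  have hTV := fun (n : ℕ) (hn : n ≤ K) (j : ℕ) (a : Tensor ι n ℚ) (ha : P.IsHodge j a) =>
    ht_V S.E b b' bW hHT hn j a ha
  have h2 : HT H P.deg (fun s => ρ s) (fun s => χ s) 1 := ht_one b hTV (by omega)
  obtain ⟨hc1, -⟩ := S.CM ℓ Γ ι P.deg H ρ χ hG.gal b.hl b.hQ b.hQr fun i a ha hdeg =>
    hTV 2 (by omega) i a ((b.isHodge_iff a).2 ⟨hdeg, ha⟩)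
  obtain ⟨Δ, hΔ, hc2⟩ := comm_galois (ρ := ρ) j hs hc1
  obtain ⟨d, v, hd0, htr, hv0, hsupp, hdp, hkp, -, hsym⟩ := det2 hπ h0
  obtain ⟨m0, hm0⟩ := hd
  have hdc : d ≤ betti P.deg m0 := det_card hv0 (fun w hw k => by
    obtain ⟨i, hi⟩ := hsupp w hw k
    exact (hm0 _ _ hi).1) hsym
  have hvdeg : HasDegree P.deg v (d * m0) := by
    intro w hw
    have h3 : ∀ k, P.deg (w k) = m0 := fun k => by
      obtain ⟨i, hi⟩ := hsupp w hw k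
      exact (hm0 _ _ hi).1
    rw [Finset.sum_congr rfl fun k _ => h3 k, Finset.sum_const, Finset.card_univ, Fintype.card_fin,
      smul_eq_mul]
  have hc3 : ∀ s, ∃ c : ℂ, s ∈ Δ → act ((ρ s).map j) v = c • v := by
    intro s
    by_cases hs : s ∈ Δ
    · obtain ⟨c, hc⟩ := hkp _ (hc2 s hs)
      exact ⟨c, fun _ => hc⟩
    · exact ⟨0, fun h => absurd h hs⟩
  choose c hc using hc3
  obtain ⟨m, y, Δ', hy0, hydeg, hΔ', hy⟩ := hdual d (d * m0) v Δ c (hdc.trans (hK' m0)) hv0 hvdeg hΔ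
    fun s hs => hc s hs
  obtain ⟨hk1, hk2, -⟩ := line_kill S.E S.BC b b' bW hG hG' hlog hY hTH (hdc.trans (hK' m0)) hvdeg hydeg
    (Δ := Δ ⊓ Δ') inferInstance (fun s hs => hc s hs.1) fun s hs => hy s hs.2
  have key : ∀ (z : Matrix ι ι ℂ) (z' : Matrix ι' ι' ℂ), z * π = π * z →
      dp (Fin (d + 1)) (blk z z') *ᵥ
        snc (extl v : (Fin d → ι ⊕ ι') → ℂ) (inr1 y : ι ⊕ ι' → ℂ) = 0 →
      z' *ᵥ y = -(z * π).trace • y := by
    intro z z' hz h3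
    rw [S.E.snc_dp, S.E.extl_dp, hdp z hz, blk_inr1, extl_smul, snc_smul, snc_add] at h3
    have h4 : (z * π).trace • (inr1 y : ι ⊕ ι' → ℂ) + inr1 (z' *ᵥ y) =
        inr1 ((z * π).trace • y + z' *ᵥ y) := by
      funext i
      cases i with
      | inl i => simp [inr1]
      | inr i => rfl
    rw [h4] at h3
    have h5 := snc_ne hv0 h3
    rw [neg_smul]
    exact eq_neg_of_add_eq_zero_right h5
  refine ⟨2 * m - d * m0, y, ⟨d, hd0, htr⟩, hy0, fun i hi => ?_, fun z hz => ?_, fun u hu => ?_⟩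
  · have := hydeg i hi
    omega
  · exact key z.1 z.2 (hL_comm S b b' bW hz hs) (hk1 z hz)
  · refine key _ _ (comm_span hs fun x hx => ?_) (hk2 u hu)
    have h3 := congrArg (fun M => M.map j) (Yt_comm hG.gal hlog1 b.hQ h2 hx.1 hu)
    rw [map_mul', map_mul', map_mL (L := ℂ)] at h3
    exact h3

end main

end Pool.Agent.N211.SM
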