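import Pool.Agent.N211.SM.Main1

/-!
# The two inclusions on all powers
-/

set_option linter.unusedSectionVars false

namespace Pool.Agent.N211.SM

open Matrix ComplexConjugate
open Pool.Agent.N996.BP Pool.Agent.N202.TB Pool.Agent.N202.NC
open Pool.Agent.N202.CF (Tensor inL IsComb act matL der kil_iff IsCombM der_eq)

variable {ι ι' : Type} [Fintype ι] [DecidableEq ι] [Fintype ι'] [DecidableEq ι']
  {ℓ : ℕ} [Fact ℓ.Prime] {Γ : Type} [Group Γ]

variable {P : HodgeStructure ι} {P' : HodgeStructure ι'} {H : HData ι} {H' : HData ι'}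
  {HW : HData (ι ⊕ ι')} {ρ : Γ →* Matrix ι ι ℚ_[ℓ]}
  {ρ' : Γ →* Matrix ι' ι' ℚ_[ℓ]} {χ : Γ →* ℚ_[ℓ]} {K : ℕ} {j : ℚ_[ℓ] →+* ℂ}
  {U : Subgroup Γ} {Y : Γ → Matrix (ι ⊕ ι') (ι ⊕ ι') ℚ_[ℓ]} {lam : Γ → ℚ_[ℓ]}
  {Y1 : Γ → Matrix ι ι ℚ_[ℓ]} {Y2 : Γ → Matrix ι' ι' ℚ_[ℓ]}

/-- The Lie algebras over the field of complex numbers. -/
lemma hL_map {z : Matrix ι ι ℚ_[ℓ] × Matrix ι' ι' ℚ_[ℓ]} (j : ℚ_[ℓ] →+* ℂ)
    (hz : z ∈ hL HW ℚ_[ℓ]) :
    ((z.1.map j, z.2.map j) : Matrix ι ι ℂ × Matrix ι' ι' ℂ) ∈ hL HW ℂ := by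
  refine mem_hL.2 fun n a ha => ?_
  have h1 := (mem_hL.1 hz) n a ha
  have h2 : blk (z.1.map j) (z.2.map j) = (blk z.1 z.2).map j := (blk_map _ (map_zero j) _ _).symm
  have h3 : aL ℂ a = jA j (aL ℚ_[ℓ] a) := funext fun i => (map_ratCast j _).symm
  change dp (Fin (n + 1)) (blk (z.1.map j) (z.2.map j)) *ᵥ aL ℂ a = 0
  rw [h2, h3, dp_mapj, jA_mulVec, h1, jA_zero]

/-- The combinations of the idempotents. -/
lemma cen_map {m : ℕ} {π : Fin m → Matrix ι ι ℂ} (j : ℚ_[ℓ] →+* ℂ)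
    (hπ : ∀ x, Cen H P.deg x → cQ x ∈ Submodule.span ℂ (Set.range π)) {x : Matrix ι ι ℚ_[ℓ]}
    (hx : IsCombM {z | Cen H P.deg z} x) : x.map j ∈ Submodule.span ℂ (Set.range π) := by
  unfold IsCombM at hx
  induction hx using Submodule.span_induction with
  | mem x hx =>
    obtain ⟨a, ha, rfl⟩ := hx
    have h1 : (matL ℚ_[ℓ] a).map j = cQ a := by
      ext i k
      exact map_ratCast j _
    rw [h1]
    exact hπ a ha
  | zero =>
    have h1 : (0 : Matrix ι ι ℚ_[ℓ]).map j = 0 := by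
      ext i k
      exact map_zero j
    rw [h1]
    exact Submodule.zero_mem _
  | add x y _ _ hx hy =>
    have h1 : (x + y).map j = x.map j + y.map j := by
      ext i k
      exact map_add j _ _
    rw [h1]
    exact Submodule.add_mem _ hx hy
  | smul c x _ hx =>
    have h1 : (c • x).map j = j c • x.map j := by
      ext i k
      exact map_mul j _ _
    rw [h1]
    exact Submodule.smul_mem _ _ hx

lemma exists_coeff {m : ℕ} {π : Fin m → Matrix ι ι ℂ} {x : Matrix ι ι ℂ}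
    (hx : x ∈ Submodule.span ℂ (Set.range π)) : ∃ f : Fin m → ℂ, x = ∑ s, f s • π s := by
  obtain ⟨f, hf⟩ := (Submodule.mem_span_range_iff_exists_fun ℂ).1 hx
  exact ⟨f, hf.symm⟩

section main

variable (S : SSteps) (b : Br P H) (b' : Br P' H')
  (bW : Br (sumHS P P') HW) (hG : GaloisRep P.deg ρ χ) (hG' : GaloisRep P'.deg ρ' χ)
  (hlog : Logs (fun s => sumRep ρ ρ' s) (fun s => χ s) U Y lam)
  (hlog1 : Logs (fun s => ρ s) (fun s => χ s) U Y1 lam)
  (hlog2 : Logs (fun s => ρ' s) (fun s => χ s) U Y2 lam)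
  (hY : ∀ u ∈ U, Y u = blk (Y1 u) (Y2 u))
  (h2 : HT H P.deg (fun s => ρ s) (fun s => χ s) 1)
  (h4 : HT H P.deg (fun s => ρ s) (fun s => χ s) 3)
  (hts : ∀ n, n = 1 ∨ n = 3 → ∀ a ∈ tspan P.deg (fun s => ρ s) (fun s => χ s) n,
    a ∈ hspan H ℚ_[ℓ] n)
  (hLine : ∀ π : Matrix ι ι ℂ, π * π = π → π ≠ 0 →
    (∃ d, ∀ i k, π i k ≠ 0 → P.deg i = d ∧ P.deg k = d) →
    π ∈ Submodule.span ℂ (cQ '' {x | Cen H P.deg x}) →
    ∃ (e : ℕ) (y : ι' → ℂ), (∃ d : ℕ, 0 < d ∧ π.trace = (d : ℂ)) ∧ y ≠ 0 ∧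
      (∀ i, y i ≠ 0 → P'.deg i = e) ∧
      (∀ z ∈ hL HW ℂ, z.2 *ᵥ y = -(z.1 * π).trace • y) ∧
      ∀ u ∈ U, (Yt P'.deg Y2 lam u).map j *ᵥ y =
        -((Yt P.deg Y1 lam u).map j * π).trace • y)
  (hA1 : ∀ n j (a : Tensor ι' (n + 1) ℚ), P'.IsHodge j a →
    IsTate P'.deg ρ' χ j (inL ℚ_[ℓ] a))
  (hA2 : ∀ n j (t : Tensor ι' (n + 1) ℚ_[ℓ]), IsTate P'.deg ρ' χ j t →
    IsComb {a : Tensor ι' (n + 1) ℚ | P'.IsHodge j a} t)

include S b b' bW in
/-- The Hodge Lie algebra modulo brackets. -/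
lemma hL_red {m : ℕ} {π : Fin m → Matrix ι ι ℂ}
    (hπ : ∀ x, Cen H P.deg x → cQ x ∈ Submodule.span ℂ (Set.range π))
    {z : Matrix ι ι ℂ × Matrix ι' ι' ℂ} (hz : z ∈ hL HW ℂ) :
    ∃ c ∈ Submodule.span ℂ {c | ∃ u ∈ hL HW ℂ, ∃ v ∈ hL HW ℂ, c = u.1 * v.1 - v.1 * u.1},
      ∃ x : Fin m → ℂ, z.1 = c + ∑ s, x s • π s := by
  obtain ⟨-, hred⟩ := S.R ι H P.deg (sQ HW)
    (fun y hy => sQ_kill S.E b b' bW hy) (fun x hx y hy => sQ_bracket S.E b b' bW hx hy)
    (fun y hy => sQ_conj S.E b b' bW hy)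
    (fun y hy i j h => (sQ_kill S.E b b' bW hy).deg steps b.hl h)
  have key : z.1 ∈ Submodule.span ℂ {c | ∃ u ∈ hL HW ℂ, ∃ v ∈ hL HW ℂ,
      c = u.1 * v.1 - v.1 * u.1} ⊔ Submodule.span ℂ (Set.range π) := by
    have h1 := Submodule.mem_map_of_mem (f := LinearMap.fst ℂ (Matrix ι ι ℂ) (Matrix ι' ι' ℂ))
      (hL_span S.E b b' bW hz)
    rw [Submodule.map_span] at h1
    refine (Submodule.span_le.2 ?_) h1
    rintro _ ⟨_, ⟨v, hv, rfl⟩, rfl⟩
    have hv1 : v.1 ∈ sQ HW := ⟨v, hv, rfl⟩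
    obtain ⟨c, hc, hc'⟩ := hred v.1 hv1
    have hcs : c ∈ sQ HW := by
      refine (Submodule.span_le.2 ?_) hc
      rintro _ ⟨p, hp, q, hq, rfl⟩
      exact sQ_bracket S.E b b' bW hp hq
    have hx : v.1 - c ∈ sQ HW := Submodule.sub_mem _ hv1 hcs
    have hcen : Cen H P.deg (v.1 - c) := by
      refine cen_of_comm S.E b b' bW (b.kill_deg (sQ_kill S.E b b' bW hx))
        (fun y hy => (hc' y hy).symm) fun y hy => ?_
      exact (commQ H (sQ_kill S.E b b' bW hx) hy.2).symm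
    have h2 : (LinearMap.fst ℂ (Matrix ι ι ℂ) (Matrix ι' ι' ℂ)) (cQ v.1, cQ v.2) =
        cQ c + cQ (v.1 - c) := by
      have h3 : cQ (v.1 - c) = cQ v.1 - cQ c := map_sub (Rat.castHom ℂ).mapMatrix v.1 c
      rw [h3]
      change cQ v.1 = _
      abel
    rw [h2]
    refine Submodule.add_mem_sup ?_ (hπ _ hcen)
    have h3 : ∀ x ∈ Submodule.span ℚ {c : Matrix ι ι ℚ | ∃ u ∈ sQ HW, ∃ v ∈ sQ HW,
        c = u * v - v * u}, cQ x ∈ Submodule.span ℂ {c | ∃ u ∈ hL HW ℂ, ∃ v ∈ hL HW ℂ,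
          c = u.1 * v.1 - v.1 * u.1} := by
      intro x hx
      induction hx using Submodule.span_induction with
      | mem x hx =>
        obtain ⟨p, hp, q, hq, rfl⟩ := hx
        obtain ⟨p', hp'⟩ := mem_sQ.1 hp
        obtain ⟨q', hq'⟩ := mem_sQ.1 hq
        refine Submodule.subset_span ⟨_, hL_cast (v := (p, p')) (mem_hL.2 hp'), _,
          hL_cast (v := (q, q')) (mem_hL.2 hq'), ?_⟩
        have h4 : cQ (p * q - q * p) = cQ (p * q) - cQ (q * p) :=
          map_sub (Rat.castHom ℂ).mapMatrix _ _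
        rw [h4, cQ_mul, cQ_mul]
        rfl
      | zero =>
        have h4 : cQ (0 : Matrix ι ι ℚ) = 0 := map_zero (Rat.castHom ℂ).mapMatrix
        rw [h4]
        exact Submodule.zero_mem _
      | add x y _ _ hx hy =>
        have h4 : cQ (x + y) = cQ x + cQ y := map_add (Rat.castHom ℂ).mapMatrix _ _
        rw [h4]
        exact Submodule.add_mem _ hx hy
      | smul c x _ hx =>
        have h4 : cQ (c • x) = (c : ℂ) • cQ x := by
          ext i k
          simp [cQ]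
        rw [h4]
        exact Submodule.smul_mem _ _ hx
    exact h3 c hc
  obtain ⟨c, hc, x, hx, h⟩ := Submodule.mem_sup.1 key
  obtain ⟨f, rfl⟩ := exists_coeff hx
  exact ⟨c, hc, f, h.symm⟩

include b' hG' hlog2 hA1 in
omit [Fintype ι] [DecidableEq ι] in
/-- Hodge arrays on `V'` are killed by the Galois Lie algebra. -/
lemma kill_V' {n : ℕ} {a : (Fin (n + 1) → ι') → ℂ} (ha : a ∈ hspan H' ℂ n)
    (he : ∀ v, a v ≠ 0 → Even (∑ k, P'.deg (v k))) {u : Γ} (hu : u ∈ U) :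
    dp (Fin (n + 1)) ((Yt P'.deg Y2 lam u).map j) *ᵥ a = 0 := by
  obtain ⟨N, hN⟩ := sum_comp P'.deg he
  rw [hN, Matrix.mulVec_sum]
  refine Finset.sum_eq_zero fun i _ => ?_
  have h1 : Pool.Agent.N202.TB.comp P'.deg (2 * i) a ∈ hspan H' ℂ n := by
    obtain ⟨φ, hφ⟩ := comp_lin (L := ℂ) P'.deg (n := n + 1) (2 * i)
    rw [← hφ]
    have h1 := Submodule.mem_map_of_mem (f := φ) ha
    rw [hspan, Submodule.map_span] at h1
    refine Submodule.span_mono ?_ h1
    rintro _ ⟨_, ⟨a, ha, rfl⟩, rfl⟩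
    refine ⟨Pool.Agent.N202.TB.comp P'.deg (2 * i) a, b'.comp_BB ha _, ?_⟩
    rw [hφ]
    funext w
    simp only [Pool.Agent.N202.TB.comp, aL]
    split_ifs <;> simp
  have h2 := isComb_of_hspan b' h1 (Br.comp_deg _ _ _)
  have h3 : Pool.Agent.N202.TB.comp P'.deg (2 * i) a ∈ LinearMap.ker (Matrix.mulVecLin
      (dp (Fin (n + 1)) ((Yt P'.deg Y2 lam u).map j))) := by
    refine (Submodule.span_le.2 ?_) h2
    rintro _ ⟨a, ha, rfl⟩
    rw [SetLike.mem_coe, LinearMap.mem_ker, Matrix.mulVecLin_apply]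
    have h4 : inL ℂ a = jA j (inL ℚ_[ℓ] a) := funext fun i => (map_ratCast j _).symm
    rw [h4, dp_mapj, jA_mulVec, hlog2.kill_tate hG'.gal steps hu (n := n) (j := i)
      (hA1 n i a ha), jA_zero]
  rw [LinearMap.mem_ker, Matrix.mulVecLin_apply] at h3
  exact h3

include b' hG' hlog2 hA2 in
omit [Fintype ι] [DecidableEq ι] in
/-- Arrays on `V'` killed by the Galois Lie algebra are killed by the Hodge Lie algebra. -/
lemma kill_V'' {E : Type} [Field E] (jE : ℚ_[ℓ] →+* E) (hBC : S_BC) {n : ℕ}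
    {a : (Fin (n + 1) → ι') → E}
    (he : ∀ v, a v ≠ 0 → Even (∑ k, P'.deg (v k)))
    (h : ∀ u ∈ U, dp (Fin (n + 1)) ((Yt P'.deg Y2 lam u).map jE) *ᵥ a = 0)
    {y' : Matrix ι' ι' ℚ_[ℓ]} (hy' : Kill H' ℚ_[ℓ] y') :
    dp (Fin (n + 1)) (y'.map jE) *ᵥ a = 0 := by
  have h1 := hBC ℚ_[ℓ] E jE (Fin (n + 1) → ι')
    ({c | ∃ u ∈ U, ∃ v, c = fun w => dp (Fin (n + 1)) (Yt P'.deg Y2 lam u) v w} ∪
      {c | ∃ v, a v = 0 ∧ c = fun w => if v = w then 1 else 0}) a (by
    rintro c (⟨u, hu, v, rfl⟩ | ⟨v, hv, rfl⟩)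
    · have h2 := congrFun (h u hu) v
      rw [dp_mapj] at h2
      exact h2
    · have h3 : ∀ w, jE (if v = w then 1 else 0) * a w = if v = w then a w else 0 := by
        intro w
        split_ifs
        · rw [map_one, one_mul]
        · rw [map_zero, zero_mul]
      rw [Finset.sum_congr rfl fun w _ => h3 w, Finset.sum_ite_eq Finset.univ v,
        if_pos (Finset.mem_univ _), hv])
  have h2 : a ∈ LinearMap.ker (Matrix.mulVecLin (dp (Fin (n + 1)) (y'.map jE))) := by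
    refine (Submodule.span_le.2 ?_) h1
    rintro _ ⟨t, ht, rfl⟩
    rw [SetLike.mem_coe, LinearMap.mem_ker, Matrix.mulVecLin_apply]
    have h3 : ∀ w, t w ≠ 0 → Even (∑ k, P'.deg (w k)) := by
      intro w hw
      refine he w fun hz => hw ?_
      have h4 := ht _ (Or.inr ⟨w, hz, rfl⟩)
      simp only [ite_mul, one_mul, zero_mul] at h4
      rwa [Finset.sum_ite_eq Finset.univ w, if_pos (Finset.mem_univ _)] at h4
    have h4 : t ∈ tspan P'.deg (fun s => ρ' s) (fun s => χ s) n := by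
      refine hlog2.tspan_of_kill hG'.gal steps h3 fun u hu => ?_
      funext v
      exact ht _ (Or.inl ⟨u, hu, v, rfl⟩)
    have h5 : t ∈ hspan H' ℚ_[ℓ] n := by
      refine (Submodule.span_le.2 ?_) h4
      rintro x ⟨i, hx⟩
      exact hspan_of_isComb b' (hA2 n i x hx)
    change dp (Fin (n + 1)) (y'.map jE) *ᵥ jA jE t = 0
    rw [dp_mapj, jA_mulVec, hy'.hspan h5, jA_zero]
  rw [LinearMap.mem_ker, Matrix.mulVecLin_apply] at h2
  exact h2

include S b b' bW hG hG' hlog1 hlog2 hLine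

include hA1 h4 in
/-- **Hodge classes are Tate classes.** -/
theorem hodge_tate_all {n i : ℕ} {a : (Fin (n + 1) → ι) → ℚ} (ha : a ∈ BB H (Fin (n + 1)))
    (hdeg : ∀ w, a w ≠ 0 → ∑ k, P.deg (w k) = 2 * i) :
    TateArr P.deg (fun s => ρ s) (fun s => χ s) n i (aL ℚ_[ℓ] a) := by
  refine hlog1.tate_of_kill hG.gal steps (fun w hw => hdeg w fun h => hw (by
    rw [aL, h, Rat.cast_zero])) fun u hu => ?_
  obtain ⟨m, π, hπ1, hπ2, hπ3, hπ4, hπ5, hπ6⟩ := S.Id ι H P.deg b.hl b.hQ b.hQr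
  have hline := fun s => hLine (π s) (by rw [hπ2, if_pos rfl]) (hπ3 s) (hπ4 s) (hπ5 s)
  choose e w htr hw0 hwdeg hw1 hw2 using hline
  obtain ⟨z, hz, x, hx, hzx⟩ := c1L' (HW := HW) S.E b b' bW S.R (L := ℚ_[ℓ])
    (v := Yt P.deg Y1 lam u) fun a ha he => hlog1.kill_tspan hG.gal steps hu (h4 a ha he)
  have key := S.Sy ℂ ι ι' (Fin m) P'.deg e π (hL HW ℂ)
    ((Yt P.deg Y1 lam u).map j, (Yt P'.deg Y2 lam u).map j) w hπ1 hπ2 htr
    (fun z hz s => hL_comm S b b' bW hz (hπ5 s)) (fun z hz => hL_red S b b' bW hπ6 hz)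
    (by
      obtain ⟨f, hf⟩ := exists_coeff (cen_map (P := P) j hπ6 hx)
      refine ⟨_, hL_map j hz, f, ?_⟩
      rw [← hf]
      have h5 := congrArg (fun M => M.map j) hzx
      refine h5.trans ?_
      ext p q
      exact map_add j _ _)
    (fun s => ⟨hw0 s, hwdeg s⟩) hw1 (fun s => hw2 s u hu)
    (fun n a he hk => by
      refine kill_V' (j := j) b' hG' hlog2 hA1 ?_ he hu
      have h5 : (extr a : (Fin (n + 1) → ι ⊕ ι') → ℂ) ∈ hspan HW ℂ n := by
        refine Pool.Agent.N738.TB.hodge_ (ι ⊕ ι') HW ℂ n _ fun y hy => ?_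
        obtain ⟨p, q, rfl, -, -⟩ := kill_blk S.E b b' bW hy
        rw [S.E.extr_dp, hk (p, q) (mem_hL.2 hy), extr_zero]
      have h6 := Submodule.mem_map_of_mem (f := resrL ℂ (n + 1)) h5
      have h7 : resrL ℂ (n + 1) (extr a : (Fin (n + 1) → ι ⊕ ι') → ℂ) = a := resr_extr a
      rw [h7, hspan, Submodule.map_span] at h6
      refine Submodule.span_mono ?_ h6
      rintro _ ⟨_, ⟨a, ha, rfl⟩, rfl⟩
      exact ⟨resr a, BB_resr S.E b b' bW ha, rfl⟩)
    (n + 1) (aL ℂ a) (fun z hz => hL_one S b b' bW hz n a ha)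
  have h5 : aL ℂ a = jA j (aL ℚ_[ℓ] a) := funext fun i => (map_ratCast j _).symm
  have h6 : dp (Fin (n + 1)) ((Yt P.deg Y1 lam u).map j) *ᵥ aL ℂ a = 0 := key
  rw [h5, dp_mapj, jA_mulVec] at h6
  exact jA_inj j (h6.trans (jA_zero j).symm)

include hA2 h2 hts in
/-- **Tate classes are combinations of Hodge classes.** -/
theorem tate_hodge_all (hss : AdSS fun s => ρ s) {n i : ℕ} {t : (Fin (n + 1) → ι) → ℚ_[ℓ]}
    (ht : TateArr P.deg (fun s => ρ s) (fun s => χ s) n i t) : t ∈ hspan H ℚ_[ℓ] n := by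
  obtain ⟨m, π, hπ1, hπ2, hπ3, hπ4, hπ5, hπ6⟩ := S.Id ι H P.deg b.hl b.hQ b.hQr
  have hline := fun s => hLine (π s) (by rw [hπ2, if_pos rfl]) (hπ3 s) (hπ4 s) (hπ5 s)
  choose e w htr hw0 hwdeg hw1 hw2 using hline
  obtain ⟨p, hp⟩ := exists_pr steps hlog1 hG.gal hss
  set B : Matrix ι ι ℚ_[ℓ] := mL ℚ_[ℓ] H.Qir with hB
  set Q : Matrix ι ι ℚ_[ℓ] := mL ℚ_[ℓ] H.Qr with hQ'
  have hBQ : B * Q = 1 := mL_Qir_Qr
  have hmL : ∀ {M : Matrix ι ι ℚ}, M ∈ E0 P.deg ℚ → mL ℚ_[ℓ] M ∈ E0 P.deg ℚ_[ℓ] := by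
    intro M hM i j hne
    rw [mL_apply, hM i j hne, Rat.cast_zero]
  have hBm : B ∈ E0 P.deg ℚ_[ℓ] := hmL (B_mem H b.hQ)
  have hQm : Q ∈ E0 P.deg ℚ_[ℓ] := hmL (Q_mem H b.hQr)
  have hsk : ∀ u ∈ U, Yt P.deg Y1 lam u * B + B * (Yt P.deg Y1 lam u)ᵀ = 0 :=
    fun u hu => Yt_skew hG.gal hlog1 b.hQ h2 hu
  have hle : ∀ {e : Matrix ι ι ℚ}, En H P.deg e → ∀ x ∈ lie P.deg U Y1 lam,
      x * mL ℚ_[ℓ] e = mL ℚ_[ℓ] e * x := by
    intro e he x hx
    have h3 : x ∈ LinearMap.ker (LinearMap.mulRight ℚ_[ℓ] (mL ℚ_[ℓ] e) -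
        LinearMap.mulLeft ℚ_[ℓ] (mL ℚ_[ℓ] e)) := by
      refine lie_le (fun u hu => ?_) hx
      rw [LinearMap.mem_ker, LinearMap.sub_apply, LinearMap.mulRight_apply,
        LinearMap.mulLeft_apply, Yt_comm hG.gal hlog1 b.hQ h2 he hu, sub_self]
    rw [LinearMap.mem_ker, LinearMap.sub_apply, LinearMap.mulRight_apply,
      LinearMap.mulLeft_apply, sub_eq_zero] at h3
    exact h3
  -- matrices which commute with the Galois Lie algebra
  have hcen : ∀ x : Matrix ι ι ℚ_[ℓ], x ∈ E0 P.deg ℚ_[ℓ] →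
      (∀ u ∈ U, Yt P.deg Y1 lam u * x = x * Yt P.deg Y1 lam u) →
      (∀ y, En H P.deg y → mL ℚ_[ℓ] y * x = x * mL ℚ_[ℓ] y) →
      IsCombM {z | Cen H P.deg z} x := by
    intro x hx h5 h6
    have hβ : ∀ z : Matrix ι ι ℚ_[ℓ], z * B + B * zᵀ = 0 →
        dp (Fin 2) z *ᵥ vec2 (x * B) = vec2 ((z * x - x * z) * B) := by
      intro z hz
      have h1 : B * zᵀ = -(z * B) := eq_neg_of_add_eq_zero_right hz
      rw [dp_vec2 steps, Matrix.mul_assoc x B, h1, Matrix.mul_neg, Matrix.sub_mul (z * x) (x * z) B,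
        Matrix.mul_assoc z x B, Matrix.mul_assoc x z B, sub_eq_add_neg]
    have h7 : vec2 (x * B) ∈ tspan P.deg (fun s => ρ s) (fun s => χ s) 1 := by
      refine hlog1.tspan_of_kill hG.gal steps (fun w hw => ?_) fun u hu => ?_
      · have h8 : (x * B) (w 0) (w 1) ≠ 0 := hw
        have h9 : P.deg (w 0) = P.deg (w 1) := by
          by_contra hne
          exact h8 (E0_mul hx hBm _ _ hne)
        rw [Fin.sum_univ_two]
        exact ⟨P.deg (w 1), by rw [← h9]⟩
      · have h8 := hβ _ (hsk u hu)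
        rw [h5 u hu, sub_self, Matrix.zero_mul, map_zero] at h8
        exact h8
    have h8 := hts 1 (Or.inl rfl) _ h7
    refine cen_span S.E b b' bW hx (fun y hy => ?_) h6
    have h9 : Kill H ℚ_[ℓ] (mL ℚ_[ℓ] y) :=
      Pool.Agent.N738.TB.kill_cast H ℚ_[ℓ] y (sQ_kill S.E b b' bW hy)
    have h10 := h9.hspan h8
    have h11 := hβ _ (h9.skew steps)
    have h12 : vec2 ((mL ℚ_[ℓ] y * x - x * mL ℚ_[ℓ] y) * B) = 0 := h11.symm.trans h10
    have h13 := (LinearEquiv.map_eq_zero_iff _).1 h12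
    have h14 := congrArg (fun M => M * Q) h13
    simp only [Matrix.mul_assoc, hBQ, Matrix.mul_one, Matrix.zero_mul] at h14
    exact eq_of_sub_eq_zero h14
  -- the array of the projector
  set α : (Fin 4 → ι) → ℚ_[ℓ] := arr4 (opP B Q p * kp (Fin 2) B) with hα
  have hα1 : ∀ y : Matrix ι ι ℚ_[ℓ], y * B + B * yᵀ = 0 →
      (dp (Fin 4) y *ᵥ α = 0 ↔ ∀ z, p (y * z - z * y) = y * p z - p z * y) := by
    intro y hy
    rw [hα, dp_arr4_eq_zero steps hBQ hy, opP_comm steps hBQ p hy]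
  have hα2 : α ∈ tspan P.deg (fun s => ρ s) (fun s => χ s) 3 := by
    refine hlog1.tspan_of_kill hG.gal steps (fun w hw => ?_) fun u hu =>
      (hα1 _ (hsk u hu)).2 (hp.comm u hu)
    exact arr4_even (fun v w hvw => opP_support hBm hQm (fun x => lie_le_E0 hlog1 hG.gal (hp.mem x))
      hp.zero hvw) hw
  have hα3 : ∀ y : Matrix ι ι ℚ_[ℓ], Kill H ℚ_[ℓ] y →
      ∀ z, p (y * z - z * y) = y * p z - p z * y := fun y hy =>
    (hα1 y (hy.skew steps)).1 (hy.hspan (hts 3 (Or.inr rfl) α hα2))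
  -- the complex Galois Lie algebra
  obtain ⟨bC, hbC⟩ : ∃ bC : Submodule ℂ (Matrix ι ι ℂ × Matrix ι' ι' ℂ), bC =
      Submodule.span ℂ {z | ∃ u ∈ U, z = ((Yt P.deg Y1 lam u).map j,
        (Yt P'.deg Y2 lam u).map j)} := ⟨_, rfl⟩
  have hgen : ∀ u ∈ U, ((Yt P.deg Y1 lam u).map j, (Yt P'.deg Y2 lam u).map j) ∈ bC := by
    intro u hu
    rw [hbC]
    exact Submodule.subset_span ⟨u, hu, rfl⟩
  have hfst : ∀ x ∈ lie P.deg U Y1 lam, ∃ z ∈ bC, z.1 = x.map j := by
    intro x hx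
    unfold lie at hx
    induction hx using Submodule.span_induction with
    | mem x hx =>
      obtain ⟨u, hu, rfl⟩ := hx
      exact ⟨_, hgen u hu, rfl⟩
    | zero =>
      refine ⟨0, Submodule.zero_mem _, ?_⟩
      ext p q
      exact (map_zero j).symm
    | add x y _ _ hx hy =>
      obtain ⟨z, hz, h⟩ := hx
      obtain ⟨z', hz', h'⟩ := hy
      refine ⟨z + z', Submodule.add_mem _ hz hz', ?_⟩
      rw [Prod.fst_add, h, h']
      ext p q
      exact (map_add j _ _).symm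
    | smul c x _ hx =>
      obtain ⟨z, hz, h⟩ := hx
      refine ⟨j c • z, Submodule.smul_mem _ _ hz, ?_⟩
      rw [Prod.smul_fst, h]
      ext p q
      exact (map_mul j _ _).symm
  have hext : (extl t : (Fin (n + 1) → ι ⊕ ι') → ℚ_[ℓ]) ∈ hspan HW ℚ_[ℓ] n := by
    refine Pool.Agent.N738.TB.hodge_ (ι ⊕ ι') HW ℚ_[ℓ] n _ fun yW hyW => ?_
    obtain ⟨y, y', rfl, hy, hy'⟩ := kill_blk S.E b b' bW hyW
    rw [S.E.extl_dp]
    suffices hs : dp (Fin (n + 1)) y *ᵥ t = 0 by rw [hs, extl_zero]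
    have key := S.Sy ℂ ι ι' (Fin m) P'.deg e π bC (y.map j, y'.map j) w hπ1 hπ2 htr
      (fun z hz s => by
        rw [hbC] at hz
        induction hz using Submodule.span_induction with
        | mem z hz =>
          obtain ⟨u, hu, rfl⟩ := hz
          refine comm_span (hπ5 s) fun x hx => ?_
          have h3 := congrArg (fun M => M.map j) (Yt_comm hG.gal hlog1 b.hQ h2 hx.1 hu)
          rw [map_mul', map_mul', map_mL (L := ℂ)] at h3
          exact h3
        | zero => rw [Prod.fst_zero, Matrix.mul_zero, Matrix.zero_mul]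
        | add x y _ _ hx hy => rw [Prod.fst_add, Matrix.mul_add, Matrix.add_mul, hx, hy]
        | smul c x _ hx => rw [Prod.smul_fst, Matrix.mul_smul, Matrix.smul_mul, hx])
      (fun z hz => by
        have h5 : z.1 ∈ Submodule.span ℂ {c | ∃ u ∈ bC, ∃ v ∈ bC,
            c = u.1 * v.1 - v.1 * u.1} ⊔ Submodule.span ℂ (Set.range π) := by
          have hz' := hz
          rw [hbC] at hz'
          have h6 := Submodule.mem_map_of_mem
            (f := LinearMap.fst ℂ (Matrix ι ι ℂ) (Matrix ι' ι' ℂ)) hz'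
          rw [Submodule.map_span] at h6
          refine (Submodule.span_le.2 ?_) h6
          rintro _ ⟨_, ⟨u, hu, rfl⟩, rfl⟩
          obtain ⟨c, hc, hc'⟩ := S.GR ℓ Γ ι P.deg (fun s => ρ s) (fun s => χ s) U Y1 lam hG.gal
            hlog1 hss _ (mem_lie hu)
          have hxE : Yt P.deg Y1 lam u - c ∈ E0 P.deg ℚ_[ℓ] := by
            refine Submodule.sub_mem _ (hlog1.Yt_mem hG.gal hu) ?_
            refine (Submodule.span_le.2 ?_) hc
            rintro _ ⟨p, hp, q, hq, rfl⟩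
            have hp' := lie_le_E0 hlog1 hG.gal hp
            have hq' := lie_le_E0 hlog1 hG.gal hq
            exact Submodule.sub_mem _ (E0_mul hp' hq') (E0_mul hq' hp')
          have hce : ∀ y, En H P.deg y → mL ℚ_[ℓ] y * c = c * mL ℚ_[ℓ] y := by
            intro y hy
            have h7 : c ∈ LinearMap.ker (LinearMap.mulRight ℚ_[ℓ] (mL ℚ_[ℓ] y) -
                LinearMap.mulLeft ℚ_[ℓ] (mL ℚ_[ℓ] y)) := by
              refine (Submodule.span_le.2 ?_) hc
              rintro _ ⟨p, hp, q, hq, rfl⟩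
              rw [SetLike.mem_coe, LinearMap.mem_ker, LinearMap.sub_apply,
                LinearMap.mulRight_apply, LinearMap.mulLeft_apply, sub_eq_zero, Matrix.sub_mul,
                Matrix.mul_sub, Matrix.mul_assoc p, hle hy q hq, ← Matrix.mul_assoc p,
                hle hy p hp, Matrix.mul_assoc q p, hle hy p hp, ← Matrix.mul_assoc q,
                hle hy q hq, Matrix.mul_assoc, Matrix.mul_assoc]
            rw [LinearMap.mem_ker, LinearMap.sub_apply, LinearMap.mulRight_apply,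
              LinearMap.mulLeft_apply, sub_eq_zero] at h7
            exact h7.symm
          have h7 := hcen _ hxE (fun v hv => (hc' _ (mem_lie hv)).symm) fun y hy => by
            rw [Matrix.mul_sub, Matrix.sub_mul, hce y hy,
              Yt_comm hG.gal hlog1 b.hQ h2 hy hu]
          have h8 := cen_map (P := P) j hπ6 h7
          have h9 : ∀ x ∈ Submodule.span ℚ_[ℓ] {c : Matrix ι ι ℚ_[ℓ] |
              ∃ u ∈ lie P.deg U Y1 lam, ∃ v ∈ lie P.deg U Y1 lam, c = u * v - v * u},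
              x.map j ∈ Submodule.span ℂ {c | ∃ u ∈ bC, ∃ v ∈ bC,
                c = u.1 * v.1 - v.1 * u.1} := by
            intro x hx
            induction hx using Submodule.span_induction with
            | mem x hx =>
              obtain ⟨p, hp, q, hq, rfl⟩ := hx
              obtain ⟨z, hz, h⟩ := hfst p hp
              obtain ⟨z', hz', h'⟩ := hfst q hq
              refine Submodule.subset_span ⟨z, hz, z', hz', ?_⟩
              rw [h, h', ← map_mul', ← map_mul']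
              ext p q
              exact map_sub j _ _
            | zero =>
              have h4 : (0 : Matrix ι ι ℚ_[ℓ]).map j = 0 := by
                ext p q
                exact map_zero j
              rw [h4]
              exact Submodule.zero_mem _
            | add x y _ _ hx hy =>
              have h4 : (x + y).map j = x.map j + y.map j := by
                ext p q
                exact map_add j _ _
              rw [h4]
              exact Submodule.add_mem _ hx hy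
            | smul c x _ hx =>
              have h4 : (c • x).map j = j c • x.map j := by
                ext p q
                exact map_mul j _ _
              rw [h4]
              exact Submodule.smul_mem _ _ hx
          have h10 : (LinearMap.fst ℂ (Matrix ι ι ℂ) (Matrix ι' ι' ℂ))
              ((Yt P.deg Y1 lam u).map j, (Yt P'.deg Y2 lam u).map j) =
              c.map j + (Yt P.deg Y1 lam u - c).map j := by
            change (Yt P.deg Y1 lam u).map j = _
            ext p q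
            rw [Matrix.add_apply, Matrix.map_apply, Matrix.map_apply, Matrix.map_apply,
              Matrix.sub_apply, map_sub]
            ring
          rw [h10]
          exact Submodule.add_mem_sup (h9 c hc) h8
        obtain ⟨c, hc, x, hx, h⟩ := Submodule.mem_sup.1 h5
        obtain ⟨f, rfl⟩ := exists_coeff hx
        exact ⟨c, hc, f, h.symm⟩)
      (by
        have hxE : y - p y ∈ E0 P.deg ℚ_[ℓ] :=
          Submodule.sub_mem _ (b.kill_deg hy) (lie_le_E0 hlog1 hG.gal (hp.mem y))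
        have h7 := hcen (y - p y) hxE (fun u hu => by
          obtain ⟨v, hv⟩ : ∃ v, v = Yt P.deg Y1 lam u := ⟨_, rfl⟩
          have h1 := hα3 y hy v
          rw [hv, hp.id _ (mem_lie hu)] at h1
          have h2 := hp.comm u hu y
          rw [← hv] at h1 h2 ⊢
          have h3 : v * y - y * v = -(y * v - v * y) := by abel
          rw [h3, map_neg, h1] at h2
          rw [← sub_eq_zero, Matrix.mul_sub, Matrix.sub_mul]
          have h4 : v * y - v * p y - (y * v - p y * v) =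
            (v * y - y * v) - (v * p y - p y * v) := by abel
          rw [h4, ← h2]
          abel) fun q hq => by
            rw [Matrix.mul_sub, Matrix.sub_mul, hy.comm steps hq.2, hle hq (p y) (hp.mem y)]
        obtain ⟨f, hf⟩ := exists_coeff (cen_map (P := P) j hπ6 h7)
        obtain ⟨z, hz, h⟩ := hfst (p y) (hp.mem y)
        refine ⟨z, hz, f, ?_⟩
        rw [← hf, h]
        change y.map j = _
        ext p q
        rw [Matrix.add_apply, Matrix.map_apply, Matrix.map_apply, Matrix.map_apply,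
          Matrix.sub_apply, map_sub]
        ring)
      (fun s => ⟨hw0 s, hwdeg s⟩)
      (fun s z hz => by
        rw [hbC] at hz
        induction hz using Submodule.span_induction with
        | mem z hz =>
          obtain ⟨u, hu, rfl⟩ := hz
          exact hw2 s u hu
        | zero =>
          rw [Prod.fst_zero, Prod.snd_zero, Matrix.zero_mulVec, Matrix.zero_mul,
            Matrix.trace_zero, neg_zero, zero_smul]
        | add x y _ _ hx hy =>
          rw [Prod.fst_add, Prod.snd_add, Matrix.add_mulVec, hx, hy, Matrix.add_mul,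
            Matrix.trace_add, neg_add, add_smul]
        | smul c x _ hx =>
          rw [Prod.smul_fst, Prod.smul_snd, Matrix.smul_mulVec, hx, Matrix.smul_mul,
            Matrix.trace_smul, smul_smul, smul_eq_mul, mul_neg])
      (fun s => hw1 s _ (hL_map j (z := (y, y')) (mem_hL.2 hyW)))
      (fun n a he hk => kill_V'' b' hG' hlog2 hA2 j S.BC he
        (fun u hu => hk ((Yt P.deg Y1 lam u).map j, (Yt P'.deg Y2 lam u).map j) (hgen u hu)) hy')
      (n + 1) (jA j t)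
      (fun z hz => by
        rw [hbC] at hz
        induction hz using Submodule.span_induction with
        | mem z hz =>
          obtain ⟨u, hu, rfl⟩ := hz
          change dp (Fin (n + 1)) ((Yt P.deg Y1 lam u).map j) *ᵥ jA j t = 0
          rw [dp_mapj, jA_mulVec, hlog1.kill_tate hG.gal steps hu ht, jA_zero]
        | zero =>
          have h0 : dp (Fin (n + 1)) (0 : Matrix ι ι ℂ) = 0 := by ext v w; simp [dp]
          rw [Prod.fst_zero, h0, Matrix.zero_mulVec]
        | add x y _ _ hx hy =>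
          have h0 := steps.lin ℂ ι (Fin (n + 1)) 1 x.1 y.1
          rw [one_smul, one_smul] at h0
          rw [Prod.fst_add, h0, Matrix.add_mulVec, hx, hy, add_zero]
        | smul c x _ hx =>
          have h0 := steps.lin ℂ ι (Fin (n + 1)) c 0 x.1
          have h1 : dp (Fin (n + 1)) (0 : Matrix ι ι ℂ) = 0 := by ext v w; simp [dp]
          rw [zero_add, h1, zero_add] at h0
          rw [Prod.smul_fst, h0, Matrix.smul_mulVec, hx, smul_zero])
    have h6 : dp (Fin (n + 1)) (y.map j) *ᵥ jA j t = 0 := key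
    rw [dp_mapj, jA_mulVec] at h6
    exact jA_inj j (h6.trans (jA_zero j).symm)
  have h6 := Submodule.mem_map_of_mem (f := reslL ℚ_[ℓ] (n + 1)) hext
  have h7 : reslL ℚ_[ℓ] (n + 1) (extl t : (Fin (n + 1) → ι ⊕ ι') → ℚ_[ℓ]) = t := resl_extl t
  rw [h7, hspan, Submodule.map_span] at h6
  refine Submodule.span_mono ?_ h6
  rintro _ ⟨_, ⟨a, ha, rfl⟩, rfl⟩
  exact ⟨resl a, BB_resl S.E b b' bW ha, rfl⟩

end main

end Pool.Agent.N211.SM
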