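import Pool.Agent.N211.SM.Stm2

/-!
# SM/NDG (helper706): the trace form is nondegenerate on the derived algebra
-/

set_option autoImplicit false
set_option linter.unusedSectionVars false

namespace Pool.Agent.N211.SM

namespace NDG_

open Matrix Polynomial

section
variable {K : Type} [Field K] {ι : Type} [Fintype ι] [DecidableEq ι]

theorem mat_eq_zero [CharZero K] {e : Matrix ι ι K} (h : e * e = e) (ht : e.trace = 0) : e = 0 := by
  have h1 : IsIdempotentElem (Matrix.toLin' e) := by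
    show Matrix.toLin' e * Matrix.toLin' e = Matrix.toLin' e
    rw [Module.End.mul_eq_comp, ← Matrix.toLin'_mul, h]
  have h2 : LinearMap.trace K _ (Matrix.toLin' e) = 0 := by
    rw [Matrix.trace_toLin'_eq, ht]
  have h3 := LinearMap.IsIdempotentElem.eq_zero_of_trace_eq_zero h1 h2
  exact (LinearEquiv.map_eq_zero_iff _).1 h3

theorem trace_aeval {x : Matrix ι ι K} (h : ∀ n : ℕ, (x ^ (n + 1)).trace = 0) (q : K[X]) :
    (aeval x (X * q)).trace = 0 := by
  induction q using Polynomial.induction_on' with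
  | add p q hp hq => rw [mul_add, map_add, Matrix.trace_add, hp, hq, add_zero]
  | monomial n a =>
    rw [← C_mul_X_pow_eq_monomial, mul_left_comm, ← pow_succ', map_mul, aeval_C, map_pow, aeval_X,
      Algebra.algebraMap_eq_smul_one, smul_mul_assoc, one_mul, Matrix.trace_smul, h, smul_zero]

/-- LEMMA N -/
theorem nilp [CharZero K] {x : Matrix ι ι K} (h : ∀ n : ℕ, (x ^ (n + 1)).trace = 0) :
    IsNilpotent x := by
  have hm : x.charpoly ≠ 0 := (Matrix.charpoly_monic x).ne_zero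
  obtain ⟨q, hq, hnd⟩ := exists_eq_pow_rootMultiplicity_mul_and_not_dvd x.charpoly hm 0
  set k := rootMultiplicity 0 x.charpoly with hk
  rw [C_0, sub_zero] at hq hnd
  have hc : IsCoprime (X ^ (k + 1) : K[X]) q :=
    ((Polynomial.irreducible_X.coprime_iff_not_dvd).2 hnd).pow_left
  obtain ⟨u, v, huv⟩ := hc
  have hch : aeval x x.charpoly = 0 := Matrix.aeval_self_charpoly x
  set e := aeval x (X * (u * X ^ k)) with he
  have hzero : aeval x (X ^ k * (v * q)) = 0 := by
    have : X ^ k * (v * q) = v * x.charpoly := by rw [hq]; ring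
    rw [this, map_mul, hch, mul_zero]
  have h1 : X * (u * X ^ k) + v * q = 1 := by rw [← huv]; ring
  have hee : e * e = e := by
    have h2 : X * (u * X ^ k) * (X * (u * X ^ k)) =
        X * (u * X ^ k) - (X * u) * (X ^ k * (v * q)) := by
      linear_combination (X * (u * X ^ k)) * h1
    rw [he, ← map_mul, h2, map_sub, map_mul _ (X * u), hzero, mul_zero, sub_zero]
  have h0 : e = 0 := mat_eq_zero hee (trace_aeval h _)
  refine ⟨k, ?_⟩
  have h3 : (X ^ k : K[X]) = X ^ k * (X * (u * X ^ k)) + X ^ k * (v * q) := by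
    linear_combination (-(X ^ k : K[X])) * h1
  have h4 : aeval x (X ^ k : K[X]) = 0 := by
    rw [h3, map_add, hzero, map_mul, ← he, h0, mul_zero, add_zero]
  rwa [map_pow, aeval_X] at h4

/-- LEMMA T -/
theorem tr_zero {A B : Submodule K (Matrix ι ι K)} {x z : Matrix ι ι K} (hx : x ∈ brs A B)
    (hz : ∀ b ∈ B, z * b = b * z) : (x * z).trace = 0 := by
  refine Submodule.span_induction (p := fun x _ => (x * z).trace = 0) ?_ ?_ ?_ ?_ hx
  · rintro _ ⟨a, _, b, hb, rfl⟩
    have h1 : (b * a * z).trace = (a * (z * b)).trace := by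
      rw [Matrix.mul_assoc, Matrix.trace_mul_comm, Matrix.mul_assoc]
    rw [Matrix.sub_mul, Matrix.trace_sub, h1, hz b hb, Matrix.mul_assoc, sub_self]
  · rw [Matrix.zero_mul, Matrix.trace_zero]
  · intro a b _ _ ha hb
    rw [Matrix.add_mul, Matrix.trace_add, ha, hb, add_zero]
  · intro c a _ ha
    rw [Matrix.smul_mul, Matrix.trace_smul, ha, smul_zero]

theorem gen_mem {A B : Submodule K (Matrix ι ι K)} {a b : Matrix ι ι K} (ha : a ∈ A) (hb : b ∈ B) :
    a * b - b * a ∈ brs A B := Submodule.subset_span ⟨a, ha, b, hb, rfl⟩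

theorem brs_le {A B D : Submodule K (Matrix ι ι K)}
    (h : ∀ a ∈ A, ∀ b ∈ B, a * b - b * a ∈ D) : brs A B ≤ D := by
  refine Submodule.span_le.2 ?_
  rintro _ ⟨a, ha, b, hb, rfl⟩
  exact h a ha b hb

/-- stability under conjugation -/
theorem brs_conj {A B : Submodule K (Matrix ι ι K)} {z w : Matrix ι ι K} (hzw : w * z = 1)
    (hA : ∀ x ∈ A, z * x * w ∈ A) (hB : ∀ x ∈ B, z * x * w ∈ B) :
    ∀ x ∈ brs A B, z * x * w ∈ brs A B := by
  intro x hx
  refine Submodule.span_induction (p := fun x _ => z * x * w ∈ brs A B) ?_ ?_ ?_ ?_ hx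
  · rintro _ ⟨a, ha, b, hb, rfl⟩
    have h1 : z * (a * b - b * a) * w = (z * a * w) * (z * b * w) - (z * b * w) * (z * a * w) := by
      have h2 : ∀ a b : Matrix ι ι K, (z * a * w) * (z * b * w) = z * (a * b) * w := by
        intro a b
        calc (z * a * w) * (z * b * w) = z * a * (w * z) * b * w := by noncomm_ring
          _ = z * (a * b) * w := by rw [hzw]; noncomm_ring
      rw [h2, h2]
      noncomm_ring
    rw [h1]
    exact gen_mem (hA a ha) (hB b hb)
  · rw [Matrix.mul_zero, Matrix.zero_mul]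
    exact Submodule.zero_mem _
  · intro a b _ _ ha hb
    rw [Matrix.mul_add, Matrix.add_mul]
    exact Submodule.add_mem _ ha hb
  · intro c a _ ha
    rw [Matrix.mul_smul, Matrix.smul_mul]
    exact Submodule.smul_mem _ _ ha

/-- the ideal property of the brackets of an ideal -/
theorem brs_ideal {A : Submodule K (Matrix ι ι K)} {u : Matrix ι ι K}
    (hA : ∀ x ∈ A, u * x - x * u ∈ A) : ∀ x ∈ brs A A, u * x - x * u ∈ brs A A := by
  intro x hx
  refine Submodule.span_induction (p := fun x _ => u * x - x * u ∈ brs A A) ?_ ?_ ?_ ?_ hx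
  · rintro _ ⟨a, ha, b, hb, rfl⟩
    have h1 : u * (a * b - b * a) - (a * b - b * a) * u =
        ((u * a - a * u) * b - b * (u * a - a * u)) +
          (a * (u * b - b * u) - (u * b - b * u) * a) := by noncomm_ring
    rw [h1]
    exact Submodule.add_mem _ (gen_mem (hA a ha) hb) (gen_mem ha (hA b hb))
  · rw [Matrix.mul_zero, Matrix.zero_mul, sub_zero]
    exact Submodule.zero_mem _
  · intro a b _ _ ha hb
    have : u * (a + b) - (a + b) * u = (u * a - a * u) + (u * b - b * u) := by noncomm_ring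
    rw [this]
    exact Submodule.add_mem _ ha hb
  · intro c a _ ha
    have : u * (c • a) - (c • a) * u = c • (u * a - a * u) := by
      rw [Matrix.mul_smul, Matrix.smul_mul, smul_sub]
    rw [this]
    exact Submodule.smul_mem _ _ ha

theorem ndg [CharZero K]
    (hcar : ∀ r : Submodule K (Matrix ι ι K), (∀ x ∈ r, ∀ y ∈ r, x * y - y * x ∈ r) →
      (∀ x ∈ r, ∀ y ∈ r, (x * y).trace = 0) → ∀ z ∈ brs r r, IsNilpotent z)
    (g : Submodule K (Matrix ι ι K)) (C : Set (Matrix ι ι K × Matrix ι ι K))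
    (hg : ∀ x ∈ g, ∀ y ∈ g, x * y - y * x ∈ g) (hC : ∀ z ∈ C, z.1 * z.2 = 1 ∧ (z.2, z.1) ∈ C)
    (hCg : ∀ z ∈ C, ∀ x ∈ g, z.1 * x * z.2 ∈ g)
    (hA : ∀ a : Submodule K (Matrix ι ι K), a ≤ g → (∀ x ∈ g, ∀ y ∈ a, x * y - y * x ∈ a) →
      (∀ z ∈ C, ∀ x ∈ a, z.1 * x * z.2 ∈ a) → (∀ x ∈ a, IsNilpotent x) → a = ⊥) :
    ∀ x ∈ brs g g, (∀ y ∈ brs g g, (x * y).trace = 0) → x = 0 := by
  have hC' : ∀ z ∈ C, z.2 * z.1 = 1 := fun z hz => mul_eq_one_comm.1 (hC z hz).1
  set s := brs g g with hs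
  have hsg : s ≤ g := brs_le hg
  have hsC : ∀ z ∈ C, ∀ x ∈ s, z.1 * x * z.2 ∈ s := fun z hz =>
    brs_conj (hC' z hz) (hCg z hz) (hCg z hz)
  have hsI : ∀ u ∈ g, ∀ x ∈ s, u * x - x * u ∈ s := fun u hu x hx => gen_mem hu (hsg hx)
  -- the radical
  let r : Submodule K (Matrix ι ι K) :=
    { carrier := {x | x ∈ s ∧ ∀ y ∈ s, (x * y).trace = 0}
      zero_mem' := ⟨Submodule.zero_mem _, fun y _ => by rw [Matrix.zero_mul, Matrix.trace_zero]⟩
      add_mem' := fun {a b} ha hb => ⟨Submodule.add_mem _ ha.1 hb.1, fun y hy => by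
        rw [Matrix.add_mul, Matrix.trace_add, ha.2 y hy, hb.2 y hy, add_zero]⟩
      smul_mem' := fun c a ha => ⟨Submodule.smul_mem _ _ ha.1, fun y hy => by
        rw [Matrix.smul_mul, Matrix.trace_smul, ha.2 y hy, smul_zero]⟩ }
  have hrs : r ≤ s := fun x hx => hx.1
  have hrg : r ≤ g := hrs.trans hsg
  have hrI : ∀ u ∈ g, ∀ x ∈ r, u * x - x * u ∈ r := by
    intro u hu x hx
    refine ⟨hsI u hu x hx.1, fun y hy => ?_⟩
    have h1 := hx.2 _ (hsI u hu y hy)
    have h2 : ((u * x - x * u) * y).trace = -(x * (u * y - y * u)).trace := by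
      rw [Matrix.sub_mul, Matrix.mul_sub, Matrix.trace_sub, Matrix.trace_sub]
      have h3 : (u * x * y).trace = (x * (y * u)).trace := by
        rw [Matrix.mul_assoc, Matrix.trace_mul_comm, Matrix.mul_assoc]
      rw [h3, Matrix.mul_assoc]
      ring
    rw [h2, h1, neg_zero]
  have hrC : ∀ z ∈ C, ∀ x ∈ r, z.1 * x * z.2 ∈ r := by
    intro z hz x hx
    refine ⟨hsC z hz x hx.1, fun y hy => ?_⟩
    have h1 := hx.2 _ (hsC _ (hC z hz).2 y hy)
    rw [← h1, Matrix.mul_assoc, Matrix.mul_assoc, Matrix.trace_mul_comm]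
    congr 1
    noncomm_ring
  have hrr : ∀ x ∈ r, ∀ y ∈ r, x * y - y * x ∈ r := fun x hx y hy => hrI x (hrg hx) y hy
  -- step 1
  have h1 : brs r r = ⊥ := hA _ ((brs_le hrr).trans hrg)
    (fun u hu => brs_ideal (hrI u hu)) (fun z hz => brs_conj (hC' z hz) (hrC z hz) (hrC z hz))
    (hcar r hrr fun x hx y hy => hx.2 y (hrs hy))
  have hcomm : ∀ x ∈ r, ∀ y ∈ r, x * y = y * x := by
    intro x hx y hy
    have h2 : x * y - y * x ∈ brs r r := gen_mem hx hy
    rw [h1, Submodule.mem_bot] at h2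
    exact sub_eq_zero.1 h2
  -- step 2
  have hgr : brs g r ≤ r := brs_le fun u hu x hx => hrI u hu x hx
  have h2 : brs g r = ⊥ := by
    refine hA _ (hgr.trans hrg) (fun u hu x hx => gen_mem hu (hgr hx))
      (fun z hz => brs_conj (hC' z hz) (hCg z hz) (hrC z hz)) fun x hx => nilp fun n => ?_
    rw [pow_succ']
    refine tr_zero hx fun b hb => ?_
    exact ((Commute.pow_left (hcomm x (hgr hx) b hb) n)).eq
  have hcen : ∀ u ∈ g, ∀ x ∈ r, u * x = x * u := by
    intro u hu x hx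
    have h3 : u * x - x * u ∈ brs g r := gen_mem hu hx
    rw [h2, Submodule.mem_bot] at h3
    exact sub_eq_zero.1 h3
  -- step 3
  have h3 : r = ⊥ := by
    refine hA _ hrg hrI hrC fun x hx => nilp fun n => ?_
    rw [pow_succ']
    refine tr_zero (A := g) (B := g) (hrs hx) fun b hb => ?_
    exact ((Commute.pow_left (show Commute x b from (hcen b hb x hx).symm) n)).eq
  intro x hx hxy
  have h4 : x ∈ r := ⟨hx, hxy⟩
  rw [h3, Submodule.mem_bot] at h4
  exact h4

end

end NDG_

theorem t_NDG : S_CAR → S_NDG := by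
  intro hcar K _ _ ι _ _ g C hg hC hCg hA
  exact NDG_.ndg (hcar K ι) g C hg hC hCg hA

end Pool.Agent.N211.SM
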