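import Pool.Agent.N211.SM.Stm
import Pool.Agent.N211.MO.Alt

/-!
# Semisimplicity from functionals on the exterior powers
-/

set_option linter.unusedSectionVars false

namespace Pool.Agent.N211.SM

namespace Ss

open Matrix Module
open Pool.Agent.N202.CF (Tensor act)
open Pool.Agent.N202.NC (HasDegree)
open Pool.Agent.N211.MO (Dt sum_Dt altOf altOf_apply Dt_ne perp isCompl_perp)

section

variable {E : Type} [Field E] {ι : Type} [Fintype ι] [DecidableEq ι]

/-- the words with `2 m` letters as words of pairs -/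
def pr (ι : Type) (m : ℕ) : (Fin (m * 2) → ι) ≃ (Fin m → ι × ι) where
  toFun w b := (w (finProdFinEquiv (b, 0)), w (finProdFinEquiv (b, 1)))
  invFun ω k := if (finProdFinEquiv.symm k).2 = 0 then (ω (finProdFinEquiv.symm k).1).1
    else (ω (finProdFinEquiv.symm k).1).2
  left_inv w := by
    funext k
    obtain ⟨⟨b, c⟩, rfl⟩ := finProdFinEquiv.surjective k
    simp only [Equiv.symm_apply_apply]
    fin_cases c
    · simp
    · simp
  right_inv ω := by
    funext b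
    simp only [Equiv.symm_apply_apply]
    simp

theorem pr_apply {m : ℕ} (w : Fin (m * 2) → ι) (b : Fin m) :
    pr ι m w b = (w (finProdFinEquiv (b, 0)), w (finProdFinEquiv (b, 1))) := rfl

theorem prod_pairs {m : ℕ} (F : Fin (m * 2) → E) :
    ∏ k, F k = ∏ b : Fin m, (F (finProdFinEquiv (b, 0)) * F (finProdFinEquiv (b, 1))) := by
  rw [← finProdFinEquiv.prod_comp, Fintype.prod_prod_type]
  exact Finset.prod_congr rfl fun b _ => Fin.prod_univ_two _

/-- the array as a tensor -/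
def RR {m : ℕ} (t : (Fin m → ι × ι) → E) : Tensor ι (m * 2) E := fun w => t (pr ι m w)

theorem act_RR {m : ℕ} (g : Matrix ι ι E) (t : (Fin m → ι × ι) → E) (w : Fin (m * 2) → ι) :
    act g (RR t) w = ∑ ω : Fin m → ι × ι,
      (∏ b, g (pr ι m w b).1 (ω b).1 * g (pr ι m w b).2 (ω b).2) * t ω := by
  unfold act
  rw [← (pr ι m).sum_comp]
  refine Finset.sum_congr rfl fun w' _ => ?_
  rw [prod_pairs]
  rfl

/-- the total degree of the second letters -/
def ee (deg : ι → ℕ) {m : ℕ} (w : Fin (m * 2) → ι) : ℕ := ∑ b : Fin m, deg (pr ι m w b).2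

/-- the component of the tensor -/
def CC (deg : ι → ℕ) {m : ℕ} (d e : ℕ) : Tensor ι (m * 2) E →ₗ[E] Tensor ι (m * 2) E where
  toFun t w := if ∑ k, deg (w k) = d ∧ ee deg w = e then t w else 0
  map_add' s t := by
    funext w
    simp only [Pi.add_apply]
    split_ifs
    · rfl
    · rw [add_zero]
  map_smul' c t := by
    funext w
    simp only [Pi.smul_apply, RingHom.id_apply]
    split_ifs
    · rfl
    · rw [smul_zero]

theorem CC_apply (deg : ι → ℕ) {m : ℕ} (d e : ℕ) (t : Tensor ι (m * 2) E) (w) :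
    CC deg d e t w = if ∑ k, deg (w k) = d ∧ ee deg w = e then t w else 0 := rfl

theorem CC_deg (deg : ι → ℕ) {m : ℕ} (d e : ℕ) (t : Tensor ι (m * 2) E) :
    HasDegree deg (CC deg d e t) d := by
  intro w hw
  rw [CC_apply] at hw
  by_contra h
  exact hw (if_neg fun h' => h h'.1)

theorem act_CC (deg : ι → ℕ) {m : ℕ} (d e : ℕ) {g : Matrix ι ι E}
    (hg : ∀ i j, g i j ≠ 0 → deg i = deg j) (t : Tensor ι (m * 2) E) :
    act g (CC deg d e t) = CC deg d e (act g t) := by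
  funext w
  rw [CC_apply]
  have h1 : ∀ w' : Fin (m * 2) → ι, (∏ k, g (w k) (w' k)) ≠ 0 →
      (∑ k, deg (w k) = ∑ k, deg (w' k) ∧ ee deg w = ee deg w') := by
    intro w' h
    have h2 : ∀ k, deg (w k) = deg (w' k) := fun k =>
      hg _ _ ((Finset.prod_ne_zero_iff.1 h) k (Finset.mem_univ k))
    refine ⟨Finset.sum_congr rfl fun k _ => h2 k, ?_⟩
    unfold ee
    exact Finset.sum_congr rfl fun b _ => h2 _
  unfold act
  by_cases hP : ∑ k, deg (w k) = d ∧ ee deg w = e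
  · rw [if_pos hP]
    refine Finset.sum_congr rfl fun w' _ => ?_
    by_cases h : (∏ k, g (w k) (w' k)) = 0
    · rw [h, zero_mul, zero_mul]
    · rw [CC_apply, if_pos]
      rw [← (h1 w' h).1, ← (h1 w' h).2]
      exact hP
  · rw [if_neg hP]
    refine Finset.sum_eq_zero fun w' _ => ?_
    by_cases h : (∏ k, g (w k) (w' k)) = 0
    · rw [h, zero_mul]
    · rw [CC_apply, if_neg, mul_zero]
      rw [← (h1 w' h).1, ← (h1 w' h).2]
      exact hP

/-- the matrix `x B` as a vector -/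
def Lin (B : Matrix ι ι E) : Matrix ι ι E →ₗ[E] (ι × ι → E) where
  toFun x p := (x * B) p.1 p.2
  map_add' x y := by
    funext p
    rw [Matrix.add_mul]
    rfl
  map_smul' c x := by
    funext p
    rw [Matrix.smul_mul]
    rfl

theorem Lin_apply (B x : Matrix ι ι E) (p : ι × ι) : Lin B x p = (x * B) p.1 p.2 := rfl

theorem Lin_inj {B Q : Matrix ι ι E} (h : B * Q = 1) : Function.Injective (Lin B) := by
  rw [← LinearMap.ker_eq_bot, LinearMap.ker_eq_bot']
  intro x hx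
  have h1 : x * B = 0 := by
    ext i j
    exact congrFun hx (i, j)
  calc x = x * (B * Q) := by rw [h, Matrix.mul_one]
    _ = 0 := by rw [← Matrix.mul_assoc, h1, Matrix.zero_mul]

/-- the array of the minors of `x_a B` -/
noncomputable def TT (B : Matrix ι ι E) {m : ℕ} (x : Fin m → Matrix ι ι E) :
    Tensor ι (m * 2) E := RR (Dt E fun a => Lin B (x a))

theorem key {deg : ι → ℕ} {g gi B : Matrix ι ι E} {c : E} (hgi : gi * g = 1)
    (hB : g * B * gᵀ = B * Matrix.diagonal fun i => c ^ deg i) {m : ℕ}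
    (x : Fin m → Matrix ι ι E) (w : Fin (m * 2) → ι) :
    act g (TT B x) w = c ^ ee deg w * TT B (fun a => g * x a * gi) w := by
  unfold TT
  rw [act_RR]
  have h1 := sum_Dt (fun (b : Fin m) (t : ι × ι) => g (pr ι m w b).1 t.1 * g (pr ι m w b).2 t.2)
    (fun a => Lin B (x a))
  rw [h1]
  have h2 : (Matrix.of fun (a b : Fin m) => ∑ t : ι × ι,
      g (pr ι m w b).1 t.1 * g (pr ι m w b).2 t.2 * Lin B (x a) t) =
      Matrix.of fun a b => c ^ deg (pr ι m w b).2 *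
        Lin B (g * x a * gi) (pr ι m w b) := by
    ext a b
    rw [Matrix.of_apply, Matrix.of_apply, Lin_apply]
    have h3 : g * x a * gi * B * (Matrix.diagonal fun i => c ^ deg i) =
        g * (x a * B) * gᵀ := by
      rw [Matrix.mul_assoc (g * x a * gi), ← hB]
      calc g * x a * gi * (g * B * gᵀ) = g * x a * (gi * g) * B * gᵀ := by
            simp only [Matrix.mul_assoc]
        _ = g * (x a * B) * gᵀ := by
            rw [hgi, Matrix.mul_one]
            simp only [Matrix.mul_assoc]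
    have h4 := congrFun (congrFun h3 (pr ι m w b).1) (pr ι m w b).2
    rw [Matrix.mul_diagonal] at h4
    rw [mul_comm (c ^ _), h4, Matrix.mul_apply, Fintype.sum_prod_type, Finset.sum_comm]
    refine Finset.sum_congr rfl fun j _ => ?_
    rw [Matrix.transpose_apply, Matrix.mul_apply, Finset.sum_mul]
    refine Finset.sum_congr rfl fun i _ => ?_
    rw [Lin_apply]
    ring
  rw [h2, Matrix.det_mul_row, Finset.prod_pow_eq_pow_sum]
  rfl

/-- the change of basis -/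
theorem TT_basis (B : Matrix ι ι E) {S : Submodule E (Matrix ι ι E)} {m : ℕ}
    (b : Basis (Fin m) E S) (y : Fin m → S) (w : Fin (m * 2) → ι) :
    TT B (fun a => (y a : Matrix ι ι E)) w =
      b.det y * TT B (fun a => (b a : Matrix ι ι E)) w := by
  let F : S [⋀^Fin m]→ₗ[E] E := (altOf (LinearMap.proj (R := E)
    (φ := fun _ : Fin m → ι × ι => E) (pr ι m w))).compLinearMap ((Lin B).comp S.subtype)
  have h1 : ∀ y : Fin m → S, F y = TT B (fun a => (y a : Matrix ι ι E)) w := fun y => rfl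
  have h2 := AlternatingMap.eq_smul_basis_det b F
  have h3 := congrArg (fun G : S [⋀^Fin m]→ₗ[E] E => G y) h2
  rw [← h1, ← h1]
  refine h3.trans ?_
  rw [AlternatingMap.smul_apply, smul_eq_mul, mul_comm]

theorem TT_ne {B Q : Matrix ι ι E} (hBQ : B * Q = 1) {S : Submodule E (Matrix ι ι E)} {m : ℕ}
    (b : Basis (Fin m) E S) : TT B (fun a => (b a : Matrix ι ι E)) ≠ 0 := by
  have h1 : LinearIndependent E (fun a => Lin B (b a : Matrix ι ι E)) := by
    have h2 := b.linearIndependent.map' S.subtype (Submodule.ker_subtype S)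
    exact h2.map' (Lin B) (LinearMap.ker_eq_bot.2 (Lin_inj hBQ))
  have h2 := Dt_ne h1
  intro h3
  apply h2
  funext ω
  have h4 := congrFun h3 ((pr ι m).symm ω)
  unfold TT RR at h4
  rw [Equiv.apply_symm_apply] at h4
  exact h4

end

end Ss

open Ss in
open Matrix Module Pool.Agent.N202.NC Pool.Agent.N211.MO in
open Pool.Agent.N202.CF (Tensor act) in
theorem t_SS : S_SS := by
  intro ℓ _ Γ _ ι _ _ deg ρ χ B Q hρ _ hBQ hBex hyp Δ hΔ S hS
  classical
  obtain ⟨Δ₀, hΔ₀, hB⟩ := hBex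
  obtain ⟨r, hr⟩ : ∃ r, finrank ℚ_[ℓ] S = r := ⟨_, rfl⟩
  rcases r with _ | n
  · have h1 : S = ⊥ := Submodule.finrank_eq_zero.1 hr
    refine ⟨Δ, ⊤, hΔ, fun _ _ _ _ => trivial, ?_⟩
    rw [h1]
    exact isCompl_bot_top
  obtain ⟨b, -⟩ : ∃ _ : Basis (Fin (n + 1)) ℚ_[ℓ] S, True :=
    ⟨finBasisOfFinrankEq _ S hr, trivial⟩
  have hinv : ∀ s, ρ s⁻¹ * ρ s = 1 := fun s => by rw [← map_mul, inv_mul_cancel, map_one]
  have hinv' : ∀ s, ρ s * ρ s⁻¹ = 1 := fun s => by rw [← map_mul, mul_inv_cancel, map_one]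
  have hχ : ∀ s, χ s ≠ 0 := by
    intro s h0
    have h1 : χ s * χ s⁻¹ = 1 := by rw [← map_mul, mul_inv_cancel, map_one]
    rw [h0, zero_mul] at h1
    exact zero_ne_one h1
  -- the nonzero component
  have hv := TT_ne (B := B) (Q := Q) hBQ b
  obtain ⟨w₀, hw₀⟩ := Function.ne_iff.1 hv
  rw [Pi.zero_apply] at hw₀
  obtain ⟨d, hd⟩ : ∃ d, ∑ k, deg (w₀ k) = d := ⟨_, rfl⟩
  obtain ⟨e, he⟩ : ∃ e, ee deg w₀ = e := ⟨_, rfl⟩
  have hv' : CC deg d e (TT B fun a => (b a : Matrix ι ι ℚ_[ℓ])) ≠ 0 := by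
    refine Function.ne_iff.2 ⟨w₀, ?_⟩
    rw [CC_apply, if_pos ⟨hd, he⟩]
    exact hw₀
  -- the scalars
  have hc : ∀ s ∈ Δ, ∃ c : ℚ_[ℓ], ∀ w,
      TT B (fun a => ρ s * (b a : Matrix ι ι ℚ_[ℓ]) * ρ s⁻¹) w =
        c * TT B (fun a => (b a : Matrix ι ι ℚ_[ℓ])) w := by
    intro s hs
    exact ⟨_, fun w => TT_basis B b (fun a => ⟨_, hS s hs _ (b a).2⟩) w⟩
  choose! c₀ hc₀ using hc
  -- the action on the component
  have hcomp : ∀ s ∈ Δ₀, ∀ x : Fin (n + 1) → Matrix ι ι ℚ_[ℓ],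
      act (ρ s) (CC deg d e (TT B x)) =
        χ s ^ e • CC deg d e (TT B fun a => ρ s * x a * ρ s⁻¹) := by
    intro s hs x
    rw [act_CC deg d e (hρ s)]
    funext w
    rw [CC_apply, Pi.smul_apply, CC_apply]
    by_cases hP : ∑ k, deg (w k) = d ∧ ee deg w = e
    · rw [if_pos hP, if_pos hP, key (hinv s) (hB s hs), hP.2, smul_eq_mul]
    · rw [if_neg hP, if_neg hP, smul_zero]
  have hbound : (n + 1) * 2 ≤ 2 * Fintype.card ι ^ 2 := by
    have h1 := Submodule.finrank_le S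
    rw [hr, Module.finrank_matrix, Module.finrank_self, mul_one] at h1
    nlinarith
  have hfin : (Δ ⊓ Δ₀).FiniteIndex := inferInstance
  obtain ⟨Δ₁, f, hΔ₁, hf, hfs⟩ := hyp ((n + 1) * 2) d _ (Δ ⊓ Δ₀) (fun s => c₀ s * χ s ^ e) hbound hv'
    (CC_deg deg d e _) hfin (by
      intro s hs
      rw [hcomp s hs.2]
      funext w
      rw [Pi.smul_apply, Pi.smul_apply, CC_apply, CC_apply]
      by_cases hP : ∑ k, deg (w k) = d ∧ ee deg w = e
      · rw [if_pos hP, if_pos hP, hc₀ s hs.1, smul_eq_mul, smul_eq_mul]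
        ring
      · rw [if_neg hP, if_neg hP, smul_zero, smul_zero])
  -- the alternating form
  let R : ((Fin (n + 1) → ι × ι) → ℚ_[ℓ]) →ₗ[ℚ_[ℓ]] Tensor ι ((n + 1) * 2) ℚ_[ℓ] :=
    LinearMap.funLeft ℚ_[ℓ] ℚ_[ℓ] (pr ι (n + 1))
  let A : Matrix ι ι ℚ_[ℓ] [⋀^Fin (n + 1)]→ₗ[ℚ_[ℓ]] ℚ_[ℓ] :=
    (altOf (f.comp ((CC deg d e).comp R))).compLinearMap (Lin B)
  have hA : ∀ x, A x = f (CC deg d e (TT B x)) := fun x => rfl
  have hAb : A (fun a => (b a : Matrix ι ι ℚ_[ℓ])) ≠ 0 := by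
    rw [hA]
    exact hf
  have hAs : ∀ s ∈ Δ₁ ⊓ (Δ ⊓ Δ₀), ∀ x : Fin (n + 1) → Matrix ι ι ℚ_[ℓ],
      A (fun a => ρ s * x a * ρ s⁻¹) = c₀ s * A x := by
    intro s hs x
    rw [hA, hA]
    have h1 := hfs s hs.1 (CC deg d e (TT B x)) (CC_deg deg d e _)
    rw [hcomp s hs.2.2, map_smul, smul_eq_mul] at h1
    have h2 : χ s ^ e ≠ 0 := pow_ne_zero _ (hχ s)
    apply mul_left_cancel₀ h2
    rw [h1]
    ring
  have hcompl := isCompl_perp A b hAb
  refine ⟨Δ₁ ⊓ (Δ ⊓ Δ₀), perp A S, inferInstance, ?_, hcompl⟩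
  intro s hs x hx y hy
  have h4 : A.curryLeft (ρ s * x * ρ s⁻¹) y =
      A (fun a => ρ s * (Fin.cons x (fun i => ρ s⁻¹ * y i * ρ s) :
        Fin (n + 1) → Matrix ι ι ℚ_[ℓ]) a * ρ s⁻¹) := by
    rw [AlternatingMap.curryLeft_apply_apply]
    congr 1
    funext i
    refine Fin.cases rfl (fun i => ?_) i
    rw [Fin.cons_succ]
    have h5 : ρ s * (ρ s⁻¹ * y i * ρ s) * ρ s⁻¹ = (ρ s * ρ s⁻¹) * y i * (ρ s * ρ s⁻¹) := by
      simp only [Matrix.mul_assoc]
    rw [h5, hinv', Matrix.one_mul, Matrix.mul_one]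
    rfl
  rw [h4, hAs s hs]
  have h5 : A.curryLeft x (fun i => ρ s⁻¹ * y i * ρ s) = 0 := by
    refine hx _ fun i => ?_
    have h6 := hS s⁻¹ (Δ.inv_mem hs.2.1) (y i) (hy i)
    rwa [inv_inv] at h6
  rw [AlternatingMap.curryLeft_apply_apply] at h5
  have h6 : A (Fin.cons x fun i => ρ s⁻¹ * y i * ρ s) = 0 := h5
  rw [h6, mul_zero]

end Pool.Agent.N211.SM
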