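import Pool.Agent.N211.SM.Defs2
import Pool.Agent.N202.NC.Gal

/-!
# Statements of the steps
-/

set_option linter.unusedSectionVars false

namespace Pool.Agent.N211.SM

open Matrix ComplexConjugate
open Pool.Agent.N996.BP Pool.Agent.N202.TB Pool.Agent.N202.NC
open Pool.Agent.N202.CF (Tensor inL IsComb act matL)

/-! ### Linear algebra -/

/-- SM/BC: the solutions of a linear system, after an extension of the field. -/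
def S_BC : Prop := ∀ (K L : Type) [Field K] [Field L] (j : K →+* L) (n : Type) [Fintype n]
  (A : Set (n → K)) (x : n → L), (∀ a ∈ A, ∑ i, j (a i) * x i = 0) →
  x ∈ Submodule.span L {z | ∃ y : n → K, (∀ a ∈ A, ∑ i, a i * y i = 0) ∧ z = fun i => j (y i)}

/-- SM/DET: the determinant of the image of an idempotent matrix. -/
def S_DET : Prop := ∀ (E : Type) [Field E] [CharZero E] (ι : Type) [Fintype ι] [DecidableEq ι]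
  (π : Matrix ι ι E), π * π = π → π ≠ 0 → ∃ (d : ℕ) (v : (Fin d → ι) → E), 0 < d ∧
    d ≤ Fintype.card ι ∧ π.trace = (d : E) ∧ v ≠ 0 ∧ (∀ w, v w ≠ 0 → ∀ k, ∃ i, π (w k) i ≠ 0) ∧
    (∀ y : Matrix ι ι E, y * π = π * y → dp (Fin d) y *ᵥ v = (y * π).trace • v) ∧
    (∀ g : Matrix ι ι E, g * π = π * g → ∃ c : E, kp (Fin d) g *ᵥ v = c • v)

/-- SM/SYM: the transfer of relations. -/
def S_SYM : Prop := ∀ (E : Type) [Field E] [CharZero E] (ι ι' S : Type) [Fintype ι]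
  [DecidableEq ι] [Fintype ι'] [DecidableEq ι'] [Fintype S] [DecidableEq S] (deg' : ι' → ℕ)
  (e : S → ℕ) (π : S → Matrix ι ι E) (b : Submodule E (Matrix ι ι E × Matrix ι' ι' E))
  (y : Matrix ι ι E × Matrix ι' ι' E) (w : S → ι' → E), ∑ s, π s = 1 →
  (∀ s s', π s * π s' = if s = s' then π s else 0) →
  (∀ s, ∃ d : ℕ, 0 < d ∧ (π s).trace = (d : E)) →
  (∀ z ∈ b, ∀ s, z.1 * π s = π s * z.1) →
  (∀ z ∈ b, ∃ c ∈ Submodule.span E {c | ∃ u ∈ b, ∃ v ∈ b, c = u.1 * v.1 - v.1 * u.1},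
    ∃ x : S → E, z.1 = c + ∑ s, x s • π s) →
  (∃ z ∈ b, ∃ x : S → E, y.1 = z.1 + ∑ s, x s • π s) →
  (∀ s, w s ≠ 0 ∧ ∀ i, w s i ≠ 0 → deg' i = e s) →
  (∀ s, ∀ z ∈ b, z.2 *ᵥ w s = -(z.1 * π s).trace • w s) →
  (∀ s, y.2 *ᵥ w s = -(y.1 * π s).trace • w s) →
  (∀ m, ∀ a : (Fin (m + 1) → ι') → E, (∀ v, a v ≠ 0 → Even (∑ k, deg' (v k))) →
    (∀ z ∈ b, dp (Fin (m + 1)) z.2 *ᵥ a = 0) → dp (Fin (m + 1)) y.2 *ᵥ a = 0) →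
  ∀ n, ∀ t : (Fin n → ι) → E, (∀ z ∈ b, dp (Fin n) z.1 *ᵥ t = 0) → dp (Fin n) y.1 *ᵥ t = 0

/-! ### The arrays with indices in `ι ⊕ ι'` -/

section

variable {ι ι' : Type} {E : Type}

/-- The array `v` as an array with indices in `ι ⊕ ι'`. -/
def extr [Zero E] {n : ℕ} (v : (Fin n → ι') → E) : (Fin n → ι ⊕ ι') → E := fun w =>
  if h : ∀ k, (w k).isRight then v fun k => (w k).getRight (h k) else 0

/-- The restriction to the indices in `ι`. -/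
def resl {n : ℕ} (a : (Fin n → ι ⊕ ι') → E) : (Fin n → ι) → E := fun u =>
  a fun k => Sum.inl (u k)

/-- The restriction to the indices in `ι'`. -/
def resr {n : ℕ} (a : (Fin n → ι ⊕ ι') → E) : (Fin n → ι') → E := fun u =>
  a fun k => Sum.inr (u k)

end

/-- SM/EXT: the actions on arrays with indices in `ι ⊕ ι'`. -/
structure S_EXT : Prop where
  resl_dp : ∀ (E : Type) [Field E] (ι ι' : Type) [Fintype ι] [DecidableEq ι] [Fintype ι']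
    [DecidableEq ι'] (n : ℕ) (y : Matrix ι ι E) (y' : Matrix ι' ι' E)
    (a : (Fin n → ι ⊕ ι') → E), resl (dp (Fin n) (blk y y') *ᵥ a) = dp (Fin n) y *ᵥ resl a
  resr_dp : ∀ (E : Type) [Field E] (ι ι' : Type) [Fintype ι] [DecidableEq ι] [Fintype ι']
    [DecidableEq ι'] (n : ℕ) (y : Matrix ι ι E) (y' : Matrix ι' ι' E)
    (a : (Fin n → ι ⊕ ι') → E), resr (dp (Fin n) (blk y y') *ᵥ a) = dp (Fin n) y' *ᵥ resr a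
  resl_kp : ∀ (E : Type) [Field E] (ι ι' : Type) [Fintype ι] [DecidableEq ι] [Fintype ι']
    [DecidableEq ι'] (n : ℕ) (y : Matrix ι ι E) (y' : Matrix ι' ι' E)
    (a : (Fin n → ι ⊕ ι') → E), resl (kp (Fin n) (blk y y') *ᵥ a) = kp (Fin n) y *ᵥ resl a
  resr_kp : ∀ (E : Type) [Field E] (ι ι' : Type) [Fintype ι] [DecidableEq ι] [Fintype ι']
    [DecidableEq ι'] (n : ℕ) (y : Matrix ι ι E) (y' : Matrix ι' ι' E)
    (a : (Fin n → ι ⊕ ι') → E), resr (kp (Fin n) (blk y y') *ᵥ a) = kp (Fin n) y' *ᵥ resr a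
  extl_dp : ∀ (E : Type) [Field E] (ι ι' : Type) [Fintype ι] [DecidableEq ι] [Fintype ι']
    [DecidableEq ι'] (n : ℕ) (y : Matrix ι ι E) (y' : Matrix ι' ι' E)
    (a : (Fin n → ι) → E), dp (Fin n) (blk y y') *ᵥ extl a = extl (dp (Fin n) y *ᵥ a)
  extr_dp : ∀ (E : Type) [Field E] (ι ι' : Type) [Fintype ι] [DecidableEq ι] [Fintype ι']
    [DecidableEq ι'] (n : ℕ) (y : Matrix ι ι E) (y' : Matrix ι' ι' E)
    (a : (Fin n → ι') → E), dp (Fin n) (blk y y') *ᵥ extr a = extr (dp (Fin n) y' *ᵥ a)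
  extl_kp : ∀ (E : Type) [Field E] (ι ι' : Type) [Fintype ι] [DecidableEq ι] [Fintype ι']
    [DecidableEq ι'] (n : ℕ) (y : Matrix ι ι E) (y' : Matrix ι' ι' E)
    (a : (Fin n → ι) → E), kp (Fin n) (blk y y') *ᵥ extl a = extl (kp (Fin n) y *ᵥ a)
  extr_kp : ∀ (E : Type) [Field E] (ι ι' : Type) [Fintype ι] [DecidableEq ι] [Fintype ι']
    [DecidableEq ι'] (n : ℕ) (y : Matrix ι ι E) (y' : Matrix ι' ι' E)
    (a : (Fin n → ι') → E), kp (Fin n) (blk y y') *ᵥ extr a = extr (kp (Fin n) y' *ᵥ a)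
  snc_dp : ∀ (E : Type) [Field E] (W : Type) [Fintype W] [DecidableEq W] (n : ℕ)
    (y : Matrix W W E) (A : (Fin n → W) → E) (z : W → E),
    dp (Fin (n + 1)) y *ᵥ snc A z = snc (dp (Fin n) y *ᵥ A) z + snc A (y *ᵥ z)
  snc_kp : ∀ (E : Type) [Field E] (W : Type) [Fintype W] [DecidableEq W] (n : ℕ)
    (g : Matrix W W E) (A : (Fin n → W) → E) (z : W → E),
    kp (Fin (n + 1)) g *ᵥ snc A z = snc (kp (Fin n) g *ᵥ A) (g *ᵥ z)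

/-! ### Hodge structures -/

/-- The elements of the centre of the algebra of the endomorphisms. -/
def Cen {ι : Type} [Fintype ι] [DecidableEq ι] (H : HData ι) (deg : ι → ℕ)
    (x : Matrix ι ι ℚ) : Prop := En H deg x ∧ ∀ y, En H deg y → x * y = y * x

/-- SM/IDEM: the centre is spanned by orthogonal idempotents over the complex numbers. -/
def S_IDEM : Prop := ∀ (ι : Type) [Fintype ι] [DecidableEq ι] (H : HData ι) (deg : ι → ℕ),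
  (∀ t : ℂ, t ≠ 0 → ∀ i j, H.l t i j ≠ 0 → deg i = deg j) →
  (∀ i j, H.Qir i j ≠ 0 → deg i = deg j) → (∀ i j, H.Qr i j ≠ 0 → deg i = deg j) →
  ∃ (m : ℕ) (π : Fin m → Matrix ι ι ℂ), ∑ s, π s = 1 ∧
    (∀ s s', π s * π s' = if s = s' then π s else 0) ∧ (∀ s, π s ≠ 0) ∧
    (∀ s, ∃ d, ∀ i j, π s i j ≠ 0 → deg i = d ∧ deg j = d) ∧
    (∀ s, π s ∈ Submodule.span ℂ (cQ '' {x | Cen H deg x})) ∧
    ∀ x, Cen H deg x → cQ x ∈ Submodule.span ℂ (Set.range π)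

/-- SM/RED: Lie algebras of the Hodge type are reductive. -/
def S_RED : Prop := ∀ (ι : Type) [Fintype ι] [DecidableEq ι] (H : HData ι) (deg : ι → ℕ)
  (s : Submodule ℚ (Matrix ι ι ℚ)), (∀ y ∈ s, Kill H ℚ y) →
  (∀ x ∈ s, ∀ y ∈ s, x * y - y * x ∈ s) →
  (∀ y ∈ s, H.l Complex.I * cQ y * H.l (Complex.I)⁻¹ ∈ Submodule.span ℂ (cQ '' (s : Set _))) →
  (∀ y ∈ s, ∀ i j, y i j ≠ 0 → deg i = deg j) →
  (∃ p : Matrix ι ι ℚ →ₗ[ℚ] Matrix ι ι ℚ, (∀ x, p x ∈ s) ∧ (∀ x ∈ s, p x = x) ∧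
    (∀ x : Matrix ι ι ℚ, (∀ i j, deg i = deg j → x i j = 0) → p x = 0) ∧
    ∀ y ∈ s, ∀ x, p (y * x - x * y) = y * p x - p x * y) ∧
  ∀ y ∈ s, ∃ c ∈ Submodule.span ℚ {c : Matrix ι ι ℚ | ∃ u ∈ s, ∃ v ∈ s, c = u * v - v * u},
    ∀ z ∈ s, (y - c) * z = z * (y - c)

/-- SM/POS: the form is nondegenerate on the span of the Hodge arrays. -/
def S_POS : Prop := ∀ (ι : Type) [Fintype ι] [DecidableEq ι] (H : HData ι) (n : ℕ)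
  (a : (Fin (n + 1) → ι) → ℂ), a ∈ hspan H ℂ n → a ≠ 0 →
  ∃ h ∈ BB H (Fin (n + 1)), a ⬝ᵥ (kp (Fin (n + 1)) (mL ℂ H.Qr) *ᵥ aL ℂ h) ≠ 0

/-! ### Galois representations -/

/-- SM/GRED: the Lie algebra of the Galois group is reductive. -/
def S_GRED : Prop := ∀ (ℓ : ℕ) [Fact ℓ.Prime] (Γ : Type) [Group Γ] (ι : Type) [Fintype ι]
  [DecidableEq ι] (deg : ι → ℕ) (G : Γ → Matrix ι ι ℚ_[ℓ]) (χ : Γ → ℚ_[ℓ]) (U : Subgroup Γ)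
  (Y : Γ → Matrix ι ι ℚ_[ℓ]) (lam : Γ → ℚ_[ℓ]), GalArr deg G χ → Logs G χ U Y lam → AdSS G →
  ∀ y ∈ lie deg U Y lam, ∃ c ∈ Submodule.span ℚ_[ℓ] {c : Matrix ι ι ℚ_[ℓ] |
      ∃ u ∈ lie deg U Y lam, ∃ v ∈ lie deg U Y lam, c = u * v - v * u},
    ∀ z ∈ lie deg U Y lam, (y - c) * z = z * (y - c)

/-- SM/LOGW: the logarithms of the blocks. -/
def S_LOGW : Prop := ∀ (ℓ : ℕ) [Fact ℓ.Prime] (Γ : Type) [Group Γ] (ι ι' : Type) [Fintype ι]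
  [DecidableEq ι] [Fintype ι'] [DecidableEq ι'] (ρ : Γ →* Matrix ι ι ℚ_[ℓ])
  (ρ' : Γ →* Matrix ι' ι' ℚ_[ℓ]) (χ : Γ →* ℚ_[ℓ]) (U : Subgroup Γ)
  (Y : Γ → Matrix (ι ⊕ ι') (ι ⊕ ι') ℚ_[ℓ]) (lam : Γ → ℚ_[ℓ]),
  Logs (fun s => sumRep ρ ρ' s) (fun s => χ s) U Y lam →
  ∃ (Y1 : Γ → Matrix ι ι ℚ_[ℓ]) (Y2 : Γ → Matrix ι' ι' ℚ_[ℓ]),
    Logs (fun s => ρ s) (fun s => χ s) U Y1 lam ∧ Logs (fun s => ρ' s) (fun s => χ s) U Y2 lam ∧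
    ∀ u ∈ U, Y u = blk (Y1 u) (Y2 u)

/-- SM/COMM: consequences of the Hodge classes of degree two for the Galois representation. -/
def S_COMM : Prop := ∀ (ℓ : ℕ) [Fact ℓ.Prime] (Γ : Type) [Group Γ] (ι : Type) [Fintype ι]
  [DecidableEq ι] (deg : ι → ℕ) (H : HData ι) (ρ : Γ →* Matrix ι ι ℚ_[ℓ]) (χ : Γ →* ℚ_[ℓ]),
  GalArr deg (fun s => ρ s) (fun s => χ s) →
  (∀ t : ℂ, t ≠ 0 → ∀ i j, H.l t i j ≠ 0 → deg i = deg j) →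
  (∀ i j, H.Qir i j ≠ 0 → deg i = deg j) → (∀ i j, H.Qr i j ≠ 0 → deg i = deg j) →
  (∀ (j : ℕ) (a : (Fin 2 → ι) → ℚ), a ∈ BB H (Fin 2) → (∀ w, a w ≠ 0 → ∑ k, deg (w k) = 2 * j) →
    TateArr deg (fun s => ρ s) (fun s => χ s) 1 j (aL ℚ_[ℓ] a)) →
  (∀ x, En H deg x → ∃ Δ : Subgroup Γ, Δ.FiniteIndex ∧
    ∀ s ∈ Δ, ρ s * mL ℚ_[ℓ] x = mL ℚ_[ℓ] x * ρ s) ∧
  ∃ Δ : Subgroup Γ, Δ.FiniteIndex ∧ ∀ s ∈ Δ, ρ s * mL ℚ_[ℓ] H.Qir * (ρ s)ᵀ =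
    mL ℚ_[ℓ] H.Qir * Matrix.diagonal fun i => χ s ^ deg i

/-- SM/SS: semisimplicity from functionals. -/
def S_SS : Prop := ∀ (ℓ : ℕ) [Fact ℓ.Prime] (Γ : Type) [Group Γ] (ι : Type) [Fintype ι]
  [DecidableEq ι] (deg : ι → ℕ) (ρ : Γ →* Matrix ι ι ℚ_[ℓ]) (χ : Γ →* ℚ_[ℓ])
  (B Q : Matrix ι ι ℚ_[ℓ]), (∀ s i j, ρ s i j ≠ 0 → deg i = deg j) →
  (∀ i j, B i j ≠ 0 → deg i = deg j) → B * Q = 1 →
  (∃ Δ : Subgroup Γ, Δ.FiniteIndex ∧ ∀ s ∈ Δ, ρ s * B * (ρ s)ᵀ =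
    B * Matrix.diagonal fun i => χ s ^ deg i) →
  (∀ (r d : ℕ) (v : Tensor ι r ℚ_[ℓ]) (Δ : Subgroup Γ) (c : Γ → ℚ_[ℓ]),
    r ≤ 2 * Fintype.card ι ^ 2 → v ≠ 0 → HasDegree deg v d → Δ.FiniteIndex →
    (∀ s ∈ Δ, act (ρ s) v = c s • v) →
    ∃ (Δ' : Subgroup Γ) (f : Tensor ι r ℚ_[ℓ] →ₗ[ℚ_[ℓ]] ℚ_[ℓ]), Δ'.FiniteIndex ∧ f v ≠ 0 ∧
      ∀ s ∈ Δ', ∀ t, HasDegree deg t d → f (act (ρ s) t) = c s * f t) →
  ∀ Δ : Subgroup Γ, Δ.FiniteIndex → ∀ S : Submodule ℚ_[ℓ] (Matrix ι ι ℚ_[ℓ]),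
    (∀ s ∈ Δ, ∀ x ∈ S, ρ s * x * ρ s⁻¹ ∈ S) →
    ∃ (Δ' : Subgroup Γ) (S' : Submodule ℚ_[ℓ] (Matrix ι ι ℚ_[ℓ])), Δ'.FiniteIndex ∧
      (∀ s ∈ Δ', ∀ x ∈ S', ρ s * x * ρ s⁻¹ ∈ S') ∧ IsCompl S S'

/-- SM/AVG: the average over a subgroup of finite index. -/
def S_AVG : Prop := ∀ (K : Type) [Field K] [CharZero K] (Γ : Type) [Group Γ] (M : Type)
  [AddCommGroup M] [Module K M] (T : Γ →* Module.End K M) (Δ Δ' : Subgroup Γ),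
  Δ'.FiniteIndex → ∀ S S' : Submodule K M, (∀ s ∈ Δ, ∀ x ∈ S, T s x ∈ S) →
  (∀ s ∈ Δ', ∀ x ∈ S', T s x ∈ S') → IsCompl S S' →
  ∃ S'' : Submodule K M, (∀ s ∈ Δ, ∀ x ∈ S'', T s x ∈ S'') ∧ IsCompl S S''

end Pool.Agent.N211.SM
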