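import Pool.Agent.N211.SM.Stm

/-!
# Statements of the steps, second part: the trace form and the semisimplicity of the cohomology
-/

set_option linter.unusedSectionVars false

namespace Pool.Agent.N211.SM

open Matrix
open Pool.Agent.N202.TB Pool.Agent.N202.NC
open Pool.Agent.N202.CF (Tensor act)

/-- The span of the brackets. -/
def brs {K : Type} [Field K] {ι : Type} [Fintype ι] [DecidableEq ι]
    (A B : Submodule K (Matrix ι ι K)) : Submodule K (Matrix ι ι K) :=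
  Submodule.span K {c | ∃ a ∈ A, ∃ b ∈ B, c = a * b - b * a}

/-- SM/CAR: Cartan's criterion. -/
def S_CAR : Prop := ∀ (K : Type) [Field K] [CharZero K] (ι : Type) [Fintype ι] [DecidableEq ι]
  (r : Submodule K (Matrix ι ι K)), (∀ x ∈ r, ∀ y ∈ r, x * y - y * x ∈ r) →
  (∀ x ∈ r, ∀ y ∈ r, (x * y).trace = 0) → ∀ z ∈ brs r r, IsNilpotent z

/-- SM/ENG: Engel's theorem. -/
def S_ENG : Prop := ∀ (K : Type) [Field K] (ι : Type) [Fintype ι] [DecidableEq ι]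
  (a : Submodule K (Matrix ι ι K)), (∀ x ∈ a, ∀ y ∈ a, x * y - y * x ∈ a) →
  (∀ x ∈ a, IsNilpotent x) → ∀ W : Submodule K (ι → K), W ≠ ⊥ →
  (∀ x ∈ a, ∀ w ∈ W, x *ᵥ w ∈ W) → ∃ w ∈ W, w ≠ 0 ∧ ∀ x ∈ a, x *ᵥ w = 0

/-- SM/NDG: the trace form on the derived algebra is nondegenerate. -/
def S_NDG : Prop := ∀ (K : Type) [Field K] [CharZero K] (ι : Type) [Fintype ι] [DecidableEq ι]
  (g : Submodule K (Matrix ι ι K)) (C : Set (Matrix ι ι K × Matrix ι ι K)),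
  (∀ x ∈ g, ∀ y ∈ g, x * y - y * x ∈ g) → (∀ z ∈ C, z.1 * z.2 = 1 ∧ (z.2, z.1) ∈ C) →
  (∀ z ∈ C, ∀ x ∈ g, z.1 * x * z.2 ∈ g) →
  (∀ a : Submodule K (Matrix ι ι K), a ≤ g → (∀ x ∈ g, ∀ y ∈ a, x * y - y * x ∈ a) →
    (∀ z ∈ C, ∀ x ∈ a, z.1 * x * z.2 ∈ a) → (∀ x ∈ a, IsNilpotent x) → a = ⊥) →
  ∀ x ∈ brs g g, (∀ y ∈ brs g g, (x * y).trace = 0) → x = 0

/-- SM/PRJ: the projector to the derived algebra and the decomposition. -/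
def S_PRJ : Prop := ∀ (K : Type) [Field K] [CharZero K] (ι : Type) [Fintype ι] [DecidableEq ι]
  (g : Submodule K (Matrix ι ι K)), (∀ x ∈ g, ∀ y ∈ g, x * y - y * x ∈ g) →
  (∀ x ∈ brs g g, (∀ y ∈ brs g g, (x * y).trace = 0) → x = 0) →
  ∃ p : Matrix ι ι K →ₗ[K] Matrix ι ι K, (∀ x, p x ∈ brs g g) ∧ (∀ x ∈ brs g g, p x = x) ∧
    (∀ x, ∀ y ∈ brs g g, ((x - p x) * y).trace = 0) ∧
    (∀ x, (∀ y ∈ brs g g, (x * y).trace = 0) → p x = 0) ∧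
    (∀ u ∈ g, ∀ x, p (u * x - x * u) = u * p x - p x * u) ∧
    ∀ y ∈ g, ∀ z ∈ g, (y - p y) * z = z * (y - p y)

/-- SM/VLOG: subspaces stable under a matrix are stable under its logarithm. -/
def S_VLOG : Prop := ∀ (ℓ : ℕ) [Fact ℓ.Prime] (m : Type) [Fintype m] [DecidableEq m]
  (g y : Matrix m m ℚ_[ℓ]) (W : Submodule ℚ_[ℓ] (m → ℚ_[ℓ])), IsLog g y →
  (∀ x ∈ W, g *ᵥ x ∈ W) → ∀ x ∈ W, y *ᵥ x ∈ W

/-- SM/SSV: semisimplicity of the cohomology from functionals. -/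
def S_SSV : Prop := ∀ (ℓ : ℕ) [Fact ℓ.Prime] (Γ : Type) [Group Γ] (ι : Type) [Fintype ι]
  [DecidableEq ι] (deg : ι → ℕ) (ρ : Γ →* Matrix ι ι ℚ_[ℓ]),
  (∀ s i j, ρ s i j ≠ 0 → deg i = deg j) →
  (∀ (r d : ℕ) (v : Tensor ι r ℚ_[ℓ]) (Δ : Subgroup Γ) (c : Γ → ℚ_[ℓ]),
    r ≤ Fintype.card ι → v ≠ 0 → HasDegree deg v d → Δ.FiniteIndex →
    (∀ s ∈ Δ, act (ρ s) v = c s • v) →
    ∃ (Δ' : Subgroup Γ) (f : Tensor ι r ℚ_[ℓ] →ₗ[ℚ_[ℓ]] ℚ_[ℓ]), Δ'.FiniteIndex ∧ f v ≠ 0 ∧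
      ∀ s ∈ Δ', ∀ t, HasDegree deg t d → f (act (ρ s) t) = c s * f t) →
  ∀ (Δ : Subgroup Γ) (m : ℕ), Δ.FiniteIndex → ∀ S : Submodule ℚ_[ℓ] (ι → ℚ_[ℓ]),
    (∀ x ∈ S, ∀ i, x i ≠ 0 → deg i = m) → (∀ s ∈ Δ, ∀ x ∈ S, ρ s *ᵥ x ∈ S) →
    ∃ (Δ' : Subgroup Γ) (S' : Submodule ℚ_[ℓ] (ι → ℚ_[ℓ])), Δ'.FiniteIndex ∧
      (∀ s ∈ Δ', ∀ x ∈ S', ρ s *ᵥ x ∈ S') ∧ IsCompl S S'

end Pool.Agent.N211.SM
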