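import Pool.Agent.N211.SM.Main2

/-!
# The transfer theorem: which matrices kill all Hodge arrays
-/

set_option linter.unusedSectionVars false

namespace Pool.Agent.N211.SM

open Matrix ComplexConjugate
open Pool.Agent.N996.BP Pool.Agent.N202.TB Pool.Agent.N202.NC
open Pool.Agent.N202.CF (Tensor inL IsComb act matL der kil_iff IsCombM der_eq act_eq)

section two

variable {ι : Type} [Fintype ι] [DecidableEq ι] {L : Type} [Field L] [CharZero L] {H : HData ι}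
  {deg : ι → ℕ} {y : Matrix ι ι L} (hQ : ∀ i j, H.Qir i j ≠ 0 → deg i = deg j)
  (h2 : ∀ a ∈ BB H (Fin 2), (∀ w, a w ≠ 0 → Even (∑ k, deg (w k))) →
    dp (Fin 2) y *ᵥ aL L a = 0)

include hQ h2

lemma two_kill {e : Matrix ι ι ℚ} (he : En H deg e) :
    dp (Fin 2) y *ᵥ vec2 (mL L (e * H.Qir)) = 0 := by
  refine h2 _ (two_BB H he.2) fun w hw => ?_
  have h3 := E0_mul he.1 (B_mem H hQ)
  have h4 : deg (w 0) = deg (w 1) := by
    by_contra hne
    exact hw (h3 _ _ hne)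
  rw [Fin.sum_univ_two]
  exact ⟨deg (w 1), by rw [← h4]⟩

lemma two_skew : y * mL L H.Qir + mL L H.Qir * yᵀ = 0 := by
  have hone : En H deg (1 : Matrix ι ι ℚ) := by
    refine ⟨fun i j hne => ?_, fun t _ => by rw [cQ_one, Matrix.mul_one, Matrix.one_mul]⟩
    rw [Matrix.one_apply_ne]
    rintro rfl
    exact hne rfl
  have h3 := two_kill hQ h2 hone
  rw [Matrix.one_mul, dp_vec2 steps] at h3
  exact (LinearEquiv.map_eq_zero_iff _).1 h3

lemma two_comm {e : Matrix ι ι ℚ} (he : En H deg e) : y * mL L e = mL L e * y := by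
  have h3 := two_kill hQ h2 he
  rw [dp_vec2 steps] at h3
  have h4 := (LinearEquiv.map_eq_zero_iff _).1 h3
  have h5 : mL L H.Qir * yᵀ = -(y * mL L H.Qir) :=
    eq_neg_of_add_eq_zero_right (two_skew hQ h2)
  rw [mL_mul, Matrix.mul_assoc (mL L e), h5, Matrix.mul_neg, ← Matrix.mul_assoc,
    ← Matrix.mul_assoc, ← sub_eq_add_neg, sub_eq_zero] at h4
  have h6 := congrArg (fun M => M * mL L H.Qr) h4
  simpa only [Matrix.mul_assoc, mL_Qir_Qr, Matrix.mul_one] using h6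

end two

variable {ι ι' : Type} [Fintype ι] [DecidableEq ι] [Fintype ι'] [DecidableEq ι']
  {P : HodgeStructure ι} {P' : HodgeStructure ι'} {H : HData ι} {H' : HData ι'}
  {HW : HData (ι ⊕ ι')}

/-- Even Hodge arrays on `V'` are killed. -/
lemma kill_even (b' : Br P' H') {y' : Matrix ι' ι' ℂ}
    (hA : ∀ n i (a : Tensor ι' (n + 1) ℚ), P'.IsHodge i a →
      dp (Fin (n + 1)) y' *ᵥ inL ℂ a = 0) {n : ℕ} {a : (Fin (n + 1) → ι') → ℂ}
    (ha : a ∈ hspan H' ℂ n) (he : ∀ v, a v ≠ 0 → Even (∑ k, P'.deg (v k))) :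
    dp (Fin (n + 1)) y' *ᵥ a = 0 := by
  obtain ⟨N, hN⟩ := sum_comp P'.deg he
  rw [hN, Matrix.mulVec_sum]
  refine Finset.sum_eq_zero fun i _ => ?_
  have h1 : Pool.Agent.N202.TB.comp P'.deg (2 * i) a ∈ hspan H' ℂ n := by
    obtain ⟨φ, hφ⟩ := comp_lin (L := ℂ) P'.deg (n := n + 1) (2 * i)
    rw [← hφ]
    have h1 := Submodule.mem_map_of_mem (f := φ) ha
    rw [hspan, Submodule.map_span] at h1
    refine Submodule.span_mono ?_ h1
    rintro _ ⟨_, ⟨a, ha, rfl⟩, rfl⟩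
    refine ⟨Pool.Agent.N202.TB.comp P'.deg (2 * i) a, b'.comp_BB ha _, ?_⟩
    rw [hφ]
    funext w
    simp only [Pool.Agent.N202.TB.comp, aL]
    split_ifs <;> simp
  have h2 := isComb_of_hspan b' h1 (Br.comp_deg _ _ _)
  have h3 : Pool.Agent.N202.TB.comp P'.deg (2 * i) a ∈ LinearMap.ker (Matrix.mulVecLin
      (dp (Fin (n + 1)) y')) := by
    refine (Submodule.span_le.2 ?_) h2
    rintro _ ⟨a, ha, rfl⟩
    rw [SetLike.mem_coe, LinearMap.mem_ker, Matrix.mulVecLin_apply]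
    exact hA n i a ha
  rw [LinearMap.mem_ker, Matrix.mulVecLin_apply] at h3
  exact h3

/-- **The transfer theorem.** -/
theorem transfer (S : SSteps) (b : Br P H) (b' : Br P' H') (bW : Br (sumHS P P') HW)
    {y : Matrix ι ι ℂ} {y' : Matrix ι' ι' ℂ}
    (h4 : ∀ a ∈ BB H (Fin 4), (∀ w, a w ≠ 0 → Even (∑ k, P.deg (w k))) →
      dp (Fin 4) y *ᵥ aL ℂ a = 0)
    (hLine : ∀ π : Matrix ι ι ℂ, π * π = π → π ≠ 0 →
      (∃ d, ∀ i k, π i k ≠ 0 → P.deg i = d ∧ P.deg k = d) →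
      π ∈ Submodule.span ℂ (cQ '' {x | Cen H P.deg x}) →
      ∃ (e : ℕ) (w : ι' → ℂ), (∃ d : ℕ, 0 < d ∧ π.trace = (d : ℂ)) ∧ w ≠ 0 ∧
        (∀ i, w i ≠ 0 → P'.deg i = e) ∧
        (∀ z ∈ hL HW ℂ, z.2 *ᵥ w = -(z.1 * π).trace • w) ∧ y' *ᵥ w = -(y * π).trace • w)
    (hA : ∀ n i (a : Tensor ι' (n + 1) ℚ), P'.IsHodge i a →
      dp (Fin (n + 1)) y' *ᵥ inL ℂ a = 0) {n : ℕ} {t : (Fin (n + 1) → ι) → ℂ}
    (ht : ∀ z ∈ hL HW ℂ, dp (Fin (n + 1)) z.1 *ᵥ t = 0) : dp (Fin (n + 1)) y *ᵥ t = 0 := by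
  obtain ⟨m, π, hπ1, hπ2, hπ3, hπ4, hπ5, hπ6⟩ := S.Id ι H P.deg b.hl b.hQ b.hQr
  have hline := fun s => hLine (π s) (by rw [hπ2, if_pos rfl]) (hπ3 s) (hπ4 s) (hπ5 s)
  choose e w htr hw0 hwdeg hw1 hw2 using hline
  obtain ⟨z, hz, x, hx, hzx⟩ := c1L' (HW := HW) S.E b b' bW S.R (L := ℂ) (v := y) h4
  have hxs : x ∈ Submodule.span ℂ (Set.range π) := by
    unfold IsCombM at hx
    refine (Submodule.span_le.2 ?_) hx
    rintro _ ⟨a, ha, rfl⟩
    exact hπ6 a ha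
  exact S.Sy ℂ ι ι' (Fin m) P'.deg e π (hL HW ℂ) (y, y') w hπ1 hπ2 htr
    (fun z hz s => hL_comm S b b' bW hz (hπ5 s)) (fun z hz => hL_red S b b' bW hπ6 hz)
    (by
      obtain ⟨f, hf⟩ := exists_coeff hxs
      refine ⟨z, hz, f, ?_⟩
      rw [← hf]
      exact hzx)
    (fun s => ⟨hw0 s, hwdeg s⟩) hw1 hw2
    (fun n a he hk => by
      refine kill_even b' hA ?_ he
      have h5 : (extr a : (Fin (n + 1) → ι ⊕ ι') → ℂ) ∈ hspan HW ℂ n := by
        refine Pool.Agent.N738.TB.hodge_ (ι ⊕ ι') HW ℂ n _ fun y hy => ?_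
        obtain ⟨p, q, rfl, -, -⟩ := kill_blk S.E b b' bW hy
        rw [S.E.extr_dp, hk (p, q) (mem_hL.2 hy), extr_zero]
      have h6 := Submodule.mem_map_of_mem (f := resrL ℂ (n + 1)) h5
      have h7 : resrL ℂ (n + 1) (extr a : (Fin (n + 1) → ι ⊕ ι') → ℂ) = a := resr_extr a
      rw [h7, hspan, Submodule.map_span] at h6
      refine Submodule.span_mono ?_ h6
      rintro _ ⟨_, ⟨a, ha, rfl⟩, rfl⟩
      exact ⟨resr a, BB_resr S.E b b' bW ha, rfl⟩)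
    (n + 1) t ht

end Pool.Agent.N211.SM
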