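import Pool.Agent.N211.SM.Tr
import Pool.Agent.N211.SM.Det2
import Pool.Agent.N211.SM.AHDefs

/-!
# The transfer theorem, from the product `X^K × A`
-/

set_option linter.unusedSectionVars false

namespace Pool.Agent.N211.SM

open Matrix ComplexConjugate
open Pool.Agent.N996.BP Pool.Agent.N202.TB Pool.Agent.N202.NC
open Pool.Agent.N202.CF (Tensor inL IsComb act matL der kil_iff IsCombM der_eq act_eq)

variable {ι ι' : Type} [Fintype ι] [DecidableEq ι] [Fintype ι'] [DecidableEq ι']
  {P : HodgeStructure ι} {P' : HodgeStructure ι'} {H : HData ι} {H' : HData ι'}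
  {HW : HData (ι ⊕ ι')}

lemma onXA_on {K d : ℕ} (hd : d ≤ K) {a : Tensor (ι ⊕ ι') (d + 1) ℚ} (ha : OnXA a) :
    OnProduct K a := by
  intro w hw
  obtain ⟨h3, h4⟩ := ha w hw
  constructor
  · have h5 : (Finset.univ.filter fun k => (w k).isLeft) ⊆
        (Finset.univ : Finset (Fin d)).map Fin.castSuccEmb := by
      intro k hk
      rw [Finset.mem_filter] at hk
      rw [Finset.mem_map]
      rcases Fin.eq_castSucc_or_eq_last k with ⟨k', rfl⟩ | rfl
      · exact ⟨k', Finset.mem_univ _, rfl⟩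
      · have h6 := hk.2
        rw [← Sum.not_isLeft] at h4
        rw [h6] at h4
        simp at h4
    refine (Finset.card_le_card h5).trans ?_
    rw [Finset.card_map, Finset.card_univ, Fintype.card_fin]
    exact hd
  · have h5 : (Finset.univ.filter fun k => (w k).isRight) ⊆ {Fin.last d} := by
      intro k hk
      rw [Finset.mem_filter] at hk
      rw [Finset.mem_singleton]
      rcases Fin.eq_castSucc_or_eq_last k with ⟨k', rfl⟩ | rfl
      · have h6 := hk.2
        have h7 := h3 k'
        rw [← Sum.not_isLeft] at h6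
        rw [h7] at h6
        simp at h6
      · rfl
    exact (Finset.card_le_card h5).trans (by simp)

omit [Fintype ι] [DecidableEq ι] in
lemma aL_jA {L : Type} [Field L] [CharZero L] (j : L →+* ℂ) {n : ℕ} (a : (Fin n → ι) → ℚ) :
    aL ℂ a = jA j (aL L a) := funext fun _ => (map_ratCast j _).symm

/-- A pair of matrices which kills the Hodge classes on `X^K × A` and on the powers of `A` kills
the Hodge classes on all powers of `X`. -/
theorem transfer2 (S : SSteps) (b : Br P H) (b' : Br P' H') (bW : Br (sumHS P P') HW)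
    {L : Type} [Field L] [CharZero L] (j : L →+* ℂ) {K : ℕ} (hK : 4 ≤ K)
    (hK' : ∀ m, betti P.deg m ≤ K) (hd : HasHodgeDuals P P') {y : Matrix ι ι L}
    {y' : Matrix ι' ι' L}
    (hX : ∀ n i (a : Tensor (ι ⊕ ι') (n + 1) ℚ), OnProduct K a → (sumHS P P').IsHodge i a →
      dp (Fin (n + 1)) (blk y y') *ᵥ inL L a = 0)
    (hA : ∀ n i (a : Tensor ι' (n + 1) ℚ), P'.IsHodge i a →
      dp (Fin (n + 1)) y' *ᵥ inL L a = 0) : Kill H L y := by
  -- the classes on `X^r`
  have hV : ∀ n, n + 1 ≤ K → ∀ a ∈ BB H (Fin (n + 1)), (∀ w, a w ≠ 0 → Even (∑ k, P.deg (w k))) →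
      dp (Fin (n + 1)) y *ᵥ aL L a = 0 := by
    intro n hn a ha he
    obtain ⟨N, f, hf, rfl⟩ := b.sum_hodge ha he
    have h1 : aL L (∑ j ∈ Finset.range N, f j) = ∑ j ∈ Finset.range N, aL L (f j) := by
      funext w
      simp only [aL, Finset.sum_apply, Rat.cast_sum]
    rw [h1, Matrix.mulVec_sum]
    refine Finset.sum_eq_zero fun i _ => ?_
    obtain ⟨h2, h3⟩ := (b.isHodge_iff _).1 (hf i)
    have h4 := hX n i _ (extl_on K hn (f i)) ((bW.isHodge_iff _).2
      ⟨extl_deg _ _ h2, BB_extl S.E b b' bW h3⟩)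
    have h5 : inL L (extl (f i) : Tensor (ι ⊕ ι') (n + 1) ℚ) = extl (aL L (f i)) :=
      extl_map (fun q : ℚ => (q : L)) Rat.cast_zero _
    rw [h5, S.E.extl_dp] at h4
    have h6 := congrArg resl h4
    rw [resl_extl] at h6
    exact h6
  have hcom : ∀ x, Cen H P.deg x → y.map j * cQ x = cQ x * y.map j := by
    intro x hx
    have h3 := congrArg (fun M => M.map j) (two_comm b.hQ (hV 1 (by omega)) hx.1)
    rw [map_mul', map_mul', map_mL (L := ℂ)] at h3
    exact h3
  intro n a ha
  have h1 := transfer S b b' bW (y := y.map j) (y' := y'.map j) (fun a ha he => by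
      rw [aL_jA j, dp_mapj, jA_mulVec, hV 3 hK a ha he, jA_zero]) (fun π hπ h0 hdeg hs => by
      obtain ⟨d, v, hd0, htr, hv0, hsupp, hdp, -, hkp, hsym⟩ := det2 hπ h0
      obtain ⟨m0, hm0⟩ := hdeg
      have hdc : d ≤ betti P.deg m0 := det_card hv0 (fun w hw k => by
        obtain ⟨i, hi⟩ := hsupp w hw k
        exact (hm0 _ _ hi).1) hsym
      have hcen : {x : Matrix ι ι ℚ | P.IsEndo x ∧ ∀ y, P.IsEndo y → x * y = y * x} =
          {x | Cen H P.deg x} := by
        ext x
        simp only [Set.mem_ofPred_eq, Cen, b.en_iff]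
      obtain ⟨c, e, w, hw0, hwdeg, hcomb⟩ := hd m0 d π v
        ⟨hπ, h0, hm0, by rw [hcen]; exact hs⟩ ⟨hv0, htr, hkp, hsym⟩
      have hk1 : ∀ z ∈ hL HW ℂ, dp (Fin (d + 1)) (blk z.1 z.2) *ᵥ tens v w = 0 := by
        intro z hz
        refine (mem_hL.1 hz).hspan ?_
        refine Submodule.span_mono ?_ hcomb
        rintro _ ⟨a, ha, rfl⟩
        exact ⟨a, ((bW.isHodge_iff a).1 ha.1).2, rfl⟩
      have hk2 : dp (Fin (d + 1)) (blk (y.map j) (y'.map j)) *ᵥ tens v w = 0 := by
        have h3 : tens v w ∈ LinearMap.ker (Matrix.mulVecLin (dp (Fin (d + 1))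
            (blk (y.map j) (y'.map j)))) := by
          refine (Submodule.span_le.2 ?_) hcomb
          rintro _ ⟨a, ha, rfl⟩
          rw [SetLike.mem_coe, LinearMap.mem_ker, Matrix.mulVecLin_apply]
          have h4 : blk (y.map j) (y'.map j) = (blk y y').map j :=
            (blk_map _ (map_zero j) _ _).symm
          have h5 : inL ℂ a = jA j (inL L a) := funext fun _ => (map_ratCast j _).symm
          rw [h4, h5, dp_mapj, jA_mulVec, hX d c a (onXA_on (hdc.trans (hK' m0)) ha.2) ha.1,
            jA_zero]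
        rw [LinearMap.mem_ker, Matrix.mulVecLin_apply] at h3
        exact h3
      have key : ∀ (z : Matrix ι ι ℂ) (z' : Matrix ι' ι' ℂ), z * π = π * z →
          dp (Fin (d + 1)) (blk z z') *ᵥ
            snc (extl v : (Fin d → ι ⊕ ι') → ℂ) (inr1 w : ι ⊕ ι' → ℂ) = 0 →
          z' *ᵥ w = -(z * π).trace • w := by
        intro z z' hz h3
        rw [S.E.snc_dp, S.E.extl_dp, hdp z hz, blk_inr1, extl_smul, snc_smul, snc_add] at h3
        have h4 : (z * π).trace • (inr1 w : ι ⊕ ι' → ℂ) + inr1 (z' *ᵥ w) =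
            inr1 ((z * π).trace • w + z' *ᵥ w) := by
          funext i
          cases i with
          | inl i => simp [inr1]
          | inr i => rfl
        rw [h4] at h3
        have h5 := snc_ne hv0 h3
        rw [neg_smul]
        exact eq_neg_of_add_eq_zero_right h5
      exact ⟨e, w, ⟨d, hd0, htr⟩, hw0, hwdeg,
        fun z hz => key z.1 z.2 (hL_comm S b b' bW hz hs) (hk1 z hz),
        key _ _ (comm_span hs hcom) hk2⟩) (fun n i a ha => by
      have h5 : inL ℂ a = jA j (inL L a) := funext fun _ => (map_ratCast j _).symm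
      rw [h5, dp_mapj, jA_mulVec, hA n i a ha, jA_zero])
    (n := n) (t := aL ℂ a) (fun z hz => hL_one S b b' bW hz n a ha)
  rw [aL_jA j, dp_mapj, jA_mulVec] at h1
  exact jA_inj j (h1.trans (jA_zero j).symm)

end Pool.Agent.N211.SM
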